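import Pool.Agent.MP_c69980_ag.H4.SpecA

/-!
Basic calculus for upper integrals along a sequence of discs, and removable singularities.
-/

set_option autoImplicit false

namespace Pool.Agent.MP_c69980_ag.H4

open MvPolynomial Metric Filter Topology MeasureTheory Set Real
open scoped ENNReal

variable {C : Ctx} {O O' O₁ O₂ : ℕ → Set ℂ} {e e' e₁ e₂ : ℕ → ℂ → ℝ} {η η' η₁ η₂ : ℝ}

lemma Sm.mono (hC : C.Ok) (h : Sm C O e η) (hη : η ≤ η')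
    (H : ∀ᶠ k in atTop, ∀ᵐ z, z ∈ O' k → z ∈ O k ∧ e' k z ≤ e k z) : Sm C O' e' η' := by
  filter_upwards [h, H] with k ⟨f, f1, f2, f3⟩ hk
  refine ⟨f, f1, ?_, f3.trans (ENNReal.ofReal_le_ofReal
    (mul_le_mul_of_nonneg_right hη (hC.2.2.1 k).le))⟩
  filter_upwards [f2, hk] with z a b hz
  exact (ENNReal.ofReal_le_ofReal (mul_le_mul_of_nonneg_left (b hz).2 (hC.2.1 k z))).trans
    (a (b hz).1)

lemma Sm.ind (h : Sm C O e η) :
    Sm C (fun _ => univ) (fun k => (O k).indicator fun z => max (e k z) 0) η := by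
  filter_upwards [h] with k ⟨f, f1, f2, f3⟩
  refine ⟨f, f1, f2.mono fun z a _ => ?_, f3⟩
  by_cases hz : z ∈ O k
  · rw [indicator_of_mem hz]
    rcases le_total (e k z) 0 with c | c
    · simp [max_eq_right c]
    · simpa [max_eq_left c] using a hz
  · simp [indicator_of_notMem hz]

lemma Sm.add (hC : C.Ok) (h₁ : Sm C O e₁ η₁) (h₂ : Sm C O e₂ η₂) (p₁ : 0 ≤ η₁) (p₂ : 0 ≤ η₂) :
    Sm C O (fun k z => e₁ k z + e₂ k z) (η₁ + η₂) := by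
  filter_upwards [h₁, h₂] with k ⟨f, f1, f2, f3⟩ ⟨f', g1, g2, g3⟩
  refine ⟨fun z => f z + f' z, f1.add g1, ?_, ?_⟩
  · filter_upwards [f2, g2] with z a b hz
    rw [mul_add]
    exact ENNReal.ofReal_add_le.trans (add_le_add (a hz) (b hz))
  · have := (hC.2.2.1 k).le
    rw [lintegral_add_left f1, add_mul, ENNReal.ofReal_add (by positivity) (by positivity)]
    exact add_le_add f3 g3

lemma Sm.smul (h : Sm C O e η) {t : ℝ} (ht : 0 ≤ t) : Sm C O (fun k z => t * e k z) (t * η) := by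
  filter_upwards [h] with k ⟨f, f1, f2, f3⟩
  refine ⟨fun z => ENNReal.ofReal t * f z, f1.const_mul _, f2.mono fun z a hz => ?_, ?_⟩
  · rw [mul_left_comm, ENNReal.ofReal_mul ht]
    exact mul_le_mul_right (a hz) _
  · rw [lintegral_const_mul _ f1, mul_assoc, ENNReal.ofReal_mul ht]
    exact mul_le_mul_right f3 _

lemma Sm.cases (hC : C.Ok) (h₁ : Sm C O₁ e₁ η₁) (h₂ : Sm C O₂ e₂ η₂) (p₁ : 0 ≤ η₁) (p₂ : 0 ≤ η₂)
    (H : ∀ᶠ k in atTop, ∀ᵐ z, z ∈ O k →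
      (z ∈ O₁ k ∧ e k z ≤ e₁ k z) ∨ (z ∈ O₂ k ∧ e k z ≤ e₂ k z)) : Sm C O e (η₁ + η₂) := by
  refine (h₁.ind.add hC h₂.ind p₁ p₂).mono hC le_rfl (H.mono fun k hk => hk.mono fun z a hz =>
    ⟨trivial, ?_⟩)
  have a1 : 0 ≤ (O₁ k).indicator (fun z => max (e₁ k z) 0) z :=
    indicator_nonneg (fun _ _ => le_max_right _ _) z
  have a2 : 0 ≤ (O₂ k).indicator (fun z => max (e₂ k z) 0) z :=
    indicator_nonneg (fun _ _ => le_max_right _ _) z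
  rcases a hz with ⟨b, c⟩ | ⟨b, c⟩
  · rw [indicator_of_mem b]; linarith [le_max_left (e₁ k z) 0]
  · rw [indicator_of_mem b]; linarith [le_max_left (e₂ k z) 0]

lemma Sm.zero (hC : C.Ok) (H : ∀ᶠ k in atTop, ∀ᵐ z, z ∈ O k → e k z ≤ 0) : Sm C O e η :=
  H.mono fun k hk => ⟨0, measurable_zero, hk.mono fun z a hz => by
    simpa using mul_nonpos_of_nonneg_of_nonpos (hC.2.1 k z) (a hz), by simp⟩

lemma Fn.pos (hC : C.Ok) (h : Fn C O e) : ∃ A, 0 < A ∧ Sm C O e A := by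
  obtain ⟨A, hA⟩ := h
  exact ⟨max A 1, by positivity, hA.mono hC (le_max_left _ _)
    (.of_forall fun _ => .of_forall fun _ hz => ⟨hz, le_rfl⟩)⟩

lemma Fn.mono (hC : C.Ok) (h : Fn C O e)
    (H : ∀ᶠ k in atTop, ∀ᵐ z, z ∈ O' k → z ∈ O k ∧ e' k z ≤ e k z) : Fn C O' e' :=
  h.imp fun _ a => a.mono hC le_rfl H

lemma Fn.add (hC : C.Ok) (h₁ : Fn C O e₁) (h₂ : Fn C O e₂) :
    Fn C O fun k z => e₁ k z + e₂ k z := by
  obtain ⟨A, a1, a2⟩ := h₁.pos hC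
  obtain ⟨B, b1, b2⟩ := h₂.pos hC
  exact ⟨_, a2.add hC b2 a1.le b1.le⟩

lemma Fn.smul (h : Fn C O e) {t : ℝ} (ht : 0 ≤ t) : Fn C O fun k z => t * e k z :=
  h.elim fun _ a => ⟨_, a.smul ht⟩

lemma Fn.cases (hC : C.Ok) (h₁ : Fn C O₁ e₁) (h₂ : Fn C O₂ e₂)
    (H : ∀ᶠ k in atTop, ∀ᵐ z, z ∈ O k →
      (z ∈ O₁ k ∧ e k z ≤ e₁ k z) ∨ (z ∈ O₂ k ∧ e k z ≤ e₂ k z)) : Fn C O e := by
  obtain ⟨A, a1, a2⟩ := h₁.pos hC
  obtain ⟨B, b1, b2⟩ := h₂.pos hC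
  exact ⟨_, a2.cases hC b2 a1.le b1.le H⟩

lemma Null.fn (h : Null C O e) : Fn C O e := ⟨1, h 1 one_pos⟩

lemma Null.mono (hC : C.Ok) (h : Null C O e)
    (H : ∀ᶠ k in atTop, ∀ᵐ z, z ∈ O' k → z ∈ O k ∧ e' k z ≤ e k z) : Null C O' e' :=
  fun η hη => (h η hη).mono hC le_rfl H

lemma Null.add (hC : C.Ok) (h₁ : Null C O e₁) (h₂ : Null C O e₂) :
    Null C O fun k z => e₁ k z + e₂ k z := fun η hη => by
  simpa using (h₁ _ (half_pos hη)).add hC (h₂ _ (half_pos hη)) (half_pos hη).le (half_pos hη).le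

lemma Null.smul (h : Null C O e) {t : ℝ} (ht : 0 < t) : Null C O fun k z => t * e k z :=
  fun η hη => by simpa [mul_div_cancel₀ _ ht.ne'] using (h _ (div_pos hη ht)).smul ht.le

lemma Null.cases (hC : C.Ok) (h₁ : Null C O₁ e₁) (h₂ : Null C O₂ e₂)
    (H : ∀ᶠ k in atTop, ∀ᵐ z, z ∈ O k →
      (z ∈ O₁ k ∧ e k z ≤ e₁ k z) ∨ (z ∈ O₂ k ∧ e k z ≤ e₂ k z)) : Null C O e := fun η hη => by
  simpa using (h₁ _ (half_pos hη)).cases hC (h₂ _ (half_pos hη)) (half_pos hη).le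
    (half_pos hη).le H

lemma AS.mono {A B : Set ℂ} {v f : ℂ → ℝ} {E : ℂ → ℂ} (h : AS A v f E) (H : B ⊆ A) : AS B v f E :=
  ⟨h.1.mono_set H, h.2.1.mono_set H, h.2.2.1.mono_set H,
    fun ψ hψ => h.2.2.2 ψ ⟨hψ.1, hψ.2.1, hψ.2.2.trans H⟩⟩

lemma Valid.mono {v : ℕ → ℂ → ℝ} (hC : C.Ok) (h : Valid C O v η) (hη : η ≤ η')
    (H : ∀ᶠ k in atTop, O' k ⊆ O k) : Valid C O' v η' := by
  obtain ⟨e, e', E, a, h1, h2, h3, h4⟩ := h
  have H' : ∀ f : ℕ → ℂ → ℝ, ∀ᶠ k in atTop, ∀ᵐ z, z ∈ O' k → z ∈ O k ∧ f k z ≤ f k z :=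
    fun f => H.mono fun _ hk => .of_forall fun _ hz => ⟨hk hz, le_rfl⟩
  refine ⟨e, e', E, a, ?_, h2.mono hC hη (H' _), h3.mono hC hη (H' _), h4.mono hC (H' _)⟩
  filter_upwards [h1, H] with k a1 a2
  exact ⟨a1.1.mono a2, a1.2.mono fun z b hz => b (a2 hz)⟩

lemma Ctx.Ok.res (hC : C.Ok) (hO : ∀ k, IsOpen (O k)) : (C.res O).Ok := ⟨hO, hC.2⟩

variable {c : Ch} {G G' S : Set (Fin 2 → ℂ)} {k : ℕ} {z : ℂ}

lemma dom_mono (h : G ⊆ G') : dom C c G k ⊆ dom C c G' k := fun _ a => ⟨a.1, a.2.1, h a.2.2⟩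

lemma pt_an (h : z ∈ dom C c G k) : AnalyticAt ℂ (c.pt k) z := analyticAt_pi_iff.2 h.2.1

lemma dom_open (hC : C.Ok) (hG : IsOpen G) (k : ℕ) : IsOpen (dom C c G k) :=
  isOpen_iff_mem_nhds.2 fun z hz => by
    filter_upwards [(hC.1 k).mem_nhds hz.1, eventually_all.2 fun i =>
      (hz.2.1 i).eventually_analyticAt, (pt_an hz).continuousAt (hG.mem_nhds hz.2.2)] with w a b d
    exact ⟨a, b, d⟩

lemma Pot.res (hC : C.Ok) (h : Pot C c G S) (hO : ∀ᶠ k in atTop, O k ⊆ C.Ω k) :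
    Pot (C.res O) c G S := fun η r h1 h2 => by
  obtain ⟨v, v1, v2⟩ := h η r h1 h2
  have H : ∀ A, ∀ᶠ k in atTop, dom (C.res O) c A k ⊆ dom C c A k := fun A =>
    hO.mono fun k hk z hz => ⟨hk hz.1, hz.2⟩
  exact ⟨v, Valid.mono (C := C) hC v1 le_rfl (H G), fun K a b d => Null.mono (C := C) hC (v2 K a b d)
    ((H K).mono fun k hk => .of_forall fun z hz => ⟨hk hz, le_rfl⟩)⟩

lemma sq_nonneg' {n : ℕ} (y : Fin n → ℂ) : 0 ≤ sq y := Finset.sum_nonneg fun _ _ => by positivity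

lemma N2_nonneg : 0 ≤ c.N2 k z := sq_nonneg' _

lemma ae_of_punct {A : Set ℂ} {p : ℂ → Prop} (hA : IsOpen A)
    (h : ∀ z ∈ A, ∀ᶠ w in 𝓝[≠] z, p w) : ∀ᵐ z, z ∈ A → p z := by
  rw [← ae_restrict_iff' hA.measurableSet]
  refine ae_restrict_le_codiscreteWithin hA.measurableSet ?_
  exact mem_codiscreteWithin_iff_forall_mem_nhdsNE.2 fun z hz =>
    (h z hz).mono fun w a => Or.inl a

lemma Mer.eq {A : Set ℂ} {f h : ℂ → ℂ} (hf : Mer A f) (hz : z ∈ A) (hh : ContinuousAt h z)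
    (H : f =ᶠ[𝓝[≠] z] h) : AnalyticAt ℂ f z ∧ f =ᶠ[𝓝 z] h := by
  have h1 : Tendsto f (𝓝[≠] z) (𝓝 (h z)) := (hh.mono_left nhdsWithin_le_nhds).congr' H.symm
  rcases hf z hz with a | a
  · refine ⟨a, ?_⟩
    rw [← nhdsNE_sup_pure, EventuallyEq, eventually_sup, eventually_pure]
    exact ⟨H, tendsto_nhds_unique (a.continuousAt.mono_left nhdsWithin_le_nhds) h1⟩
  · exact absurd a (h1.not_tendsto (disjoint_nhds_cobounded _))

lemma Mer.an {A : Set ℂ} {f : ℂ → ℂ} (hf : Mer A f) (hz : z ∈ A) {B : ℝ}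
    (H : ∀ᶠ w in 𝓝[≠] z, ‖f w‖ ≤ B) : AnalyticAt ℂ f z :=
  (hf z hz).resolve_right fun a => by
    obtain ⟨w, a1, a2⟩ := (H.and ((tendsto_norm_cobounded_atTop.comp a).eventually_gt_atTop
      B)).exists
    exact a2.not_ge a1

lemma rem_of_bdd {f : ℂ → ℂ} (hf : MeromorphicAt f z) {B : ℝ} (H : ∀ᶠ w in 𝓝[≠] z, ‖f w‖ ≤ B) :
    Rem f z := by
  have h1 : 0 ≤ meromorphicOrderAt f z := by
    by_contra hn
    obtain ⟨w, a1, a2⟩ := (H.and ((tendsto_norm_cobounded_atTop.comp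
      (tendsto_cobounded_of_meromorphicOrderAt_neg (not_le.1 hn))).eventually_gt_atTop B)).exists
    exact a2.not_ge a1
  refine ⟨toMeromorphicNFAt f z, ?_, hf.eq_nhdsNE_toMeromorphicNFAt⟩
  refine meromorphicNFAt_toMeromorphicNFAt.meromorphicOrderAt_nonneg_iff_analyticAt.1 ?_
  rwa [← meromorphicOrderAt_congr hf.eq_nhdsNE_toMeromorphicNFAt]

lemma rem_on {A : Set ℂ} {f : ℂ → ℂ} (hA : IsOpen A) (h : ∀ z ∈ A, Rem f z) :
    ∃ g, DifferentiableOn ℂ g A ∧ (∀ z ∈ A, f =ᶠ[𝓝[≠] z] g) ∧ ∀ᵐ z, z ∈ A → f z = g z := by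
  have key : ∀ z ∈ A, ∃ g, AnalyticAt ℂ g z ∧ f =ᶠ[𝓝[≠] z] g ∧
      (fun w => limUnder (𝓝[≠] w) f) =ᶠ[𝓝 z] g := fun z hz => by
    obtain ⟨g, g1, g2⟩ := h z hz
    refine ⟨g, g1, g2, ?_⟩
    have g3 : ∀ᶠ w in 𝓝 z, f =ᶠ[𝓝[≠] w] g := by
      rw [← nhdsNE_sup_pure, eventually_sup, eventually_pure]
      refine ⟨?_, g2⟩
      filter_upwards [eventually_eventually_nhdsWithin.2 g2, self_mem_nhdsWithin] with w a b
      rw [nhdsWithin_eq_nhds.2 (isOpen_compl_singleton.mem_nhds b)] at a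
      exact eventually_nhdsWithin_of_eventually_nhds a
    filter_upwards [g3, g1.eventually_analyticAt] with w a b
    exact ((b.continuousAt.mono_left nhdsWithin_le_nhds).congr' a.symm).limUnder_eq
  have H : ∀ z ∈ A, f =ᶠ[𝓝[≠] z] fun w => limUnder (𝓝[≠] w) f := fun z hz => by
    obtain ⟨g, -, g2, g3⟩ := key z hz
    exact g2.trans (eventually_nhdsWithin_of_eventually_nhds g3.symm)
  refine ⟨_, fun z hz => ?_, H, ae_of_punct hA H⟩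
  obtain ⟨g, g1, -, g3⟩ := key z hz
  exact (g1.congr g3.symm).differentiableAt.differentiableWithinAt

end Pool.Agent.MP_c69980_ag.H4
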