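import Pool.Agent.MP_c69980_ag.H4.SpecB
import Pool.Agent.MP_c69980_ag.H4.Base

/-!
Rational functions along a sequence of discs, charts and their relations.
-/

set_option autoImplicit false

noncomputable section

namespace Pool.Agent.MP_c69980_ag.H4

open MvPolynomial Metric Filter Topology Set MeasureTheory Real
open H60

/-- The statements used in the assembly. -/
structure All : Prop where
  green : GreenStmt
  lapq : LapQStmt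
  minor : MinorStmt
  scale : ScaleStmt
  ratder : RatDerStmt
  lift : LiftStmt
  logsub : LogSubStmt
  rad : RadStmt
  cmp : CmpStmt
  pull : PullStmt
  outer : OuterStmt
  term : TermStmt
  fin : FinPatchStmt
  blow : BlowStmt
  inf : InfStmt
  base : BaseStmt
  res : ResIndStmt
  infp : InfPolyStmt
  comp : CompStmt
  good : GoodStmt
  setup : SetupStmt
  final : FinalStmt
  eps : EpsStmt
  radius : RadiusStmt
  duval : DuvalStmt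
  ainit : AlgInitStmt
  achange : AlgChangeStmt
  aterm : AlgTermStmt
  chain : ChainStmt
  p2 : P2Stmt
  int : IntStmt

/-- A surface of log-general type. -/
structure Dat (K : Type) [Field K] [Algebra ℂ K] where
  n : ℕ
  n' : ℕ
  m : ℕ
  U : Set (PS n)
  z : Fin n → K
  W : Set (PS n')
  z' : Fin n' → K
  pr : PS n' → PS n
  E : Fin 2 → Derivation ℂ K K
  h : Fin 3 → K
  hz : GenPt U z
  ld : LDat U z W z' pr m E h

variable {K : Type} [Field K] [Algebra ℂ K] {d : Dat K}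

/-- A sequence of discs with test functions. -/
structure Mdl (d : Dat K) where
  C : Ctx
  F : ℕ → ℂ → Fin d.n → ℂ
  Φ : ℕ → ℂ → Fin 3 → ℂ
  B : ℕ → Set ℂ
  c₀ : ℝ
  ok : C.Ok
  hΩ : ∀ k, C.Ω k = ball 0 (1 / 2)
  hm : C.m = d.m
  hT : Tendsto C.T atTop atTop
  hF : ∀ k, Dk d.U 0 1 (F k)
  hg : ∀ᶠ k in atTop, TF c₀ (C.Ω k) (B k) (C.g k) ∧
    ∫ z, lam (F k) z * C.g k z ≤ 2 * C.T k ∧ 0 ∈ B k ∧ ∀ a, d.z a ≠ 0 → F k 0 a ≠ 0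
  hΦ : ∀ᶠ k in atTop, Crv (ball 0 (3 / 4)) (Φ k) ∧ ∀ ζ ∈ C.Ω k, ∀ᶠ w in 𝓝[≠] ζ, Φ k w 0 ≠ 0 ∧
    ∀ l, Reg d.z (F k w) (d.h l / d.h 0) ∧ Φ k w l = Φ k w 0 * vl d.z (d.h l / d.h 0) (F k w)
  hX : ∀ᶠ k in atTop, ∀ l, Reg d.z (F k 0) (d.h l / d.h 0)
  hu : ∀ k z, C.u k z = log (sq (Φ k z)) / d.m

section vl

variable {n : ℕ} {z : Fin n → K} {y : Fin n → ℂ} {g g' : K}

lemma vl_inv (hy : On z y) (h : Un z y g) : Reg z y g⁻¹ ∧ vl z g⁻¹ y = (vl z g y)⁻¹ := by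
  obtain ⟨⟨F, G, e, hF, hG, hx, rfl⟩, h⟩ := h
  rw [vl_eq hy hF hG hx] at h ⊢
  have h1 : eval y F ≠ 0 := fun q => h (by simp [q])
  rw [inv_div, vl_eq hy hG hF h1, inv_div]
  exact ⟨⟨G, F, e, hG, hF, h1, rfl⟩, rfl⟩

lemma vl_div (hy : On z y) (h : Reg z y g) (h' : Un z y g') :
    Reg z y (g / g') ∧ vl z (g / g') y = vl z g y / vl z g' y := by
  rw [div_eq_mul_inv, div_eq_mul_inv, ← (vl_inv hy h').2]
  exact vl_mul hy h (vl_inv hy h').1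

lemma vl_pow (hy : On z y) (h : Reg z y g) (N : ℕ) :
    Reg z y (g ^ N) ∧ vl z (g ^ N) y = vl z g y ^ N :=
  ⟨(rg hy).pow_mem h N, map_pow (chi hy) ⟨g, h⟩ N⟩

lemma vl_neg (hy : On z y) (h : Reg z y g) : Reg z y (-g) ∧ vl z (-g) y = -vl z g y :=
  ⟨(rg hy).neg_mem h, map_neg (chi hy) ⟨g, h⟩⟩

lemma vl_zero (hy : On z y) : Reg z y 0 ∧ vl z 0 y = 0 := by simpa using vl_const hy 0

lemma vl_one (hy : On z y) : Reg z y 1 ∧ vl z 1 y = 1 := by simpa using vl_const hy 1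

lemma reg_open {x : ℂ → Fin n → ℂ} {w : ℂ} (hx : ContinuousAt x w) (h : Reg z (x w) g) :
    ∀ᶠ t in 𝓝 w, Reg z (x t) g := by
  obtain ⟨F, G, e, hF, hG, h1, rfl⟩ := h
  filter_upwards [((MvPolynomial.continuous_eval G).continuousAt.comp hx).eventually_ne h1] with t a
  exact ⟨F, G, e, hF, hG, a, rfl⟩

end vl

namespace Mdl

variable (M : Mdl d)

/-- Bounded above and below near the base point. -/
def Gen (s : K) : Prop := ∃ (P Q : PR d.n) (e : ℕ) (a : ℝ), P.IsHomogeneous e ∧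
  Q.IsHomogeneous e ∧ 0 < a ∧ s = aeval d.z P / aeval d.z Q ∧ ∀ᶠ k in atTop, ∀ w ∈ M.B k,
    a * ‖M.F k w‖ ^ e ≤ ‖eval (M.F k w) P‖ ∧ a * ‖M.F k w‖ ^ e ≤ ‖eval (M.F k w) Q‖

/-- Regular at the centres of the discs. -/
def Rg (s : K) : Prop := ∀ᶠ k in atTop, Reg d.z (M.F k 0) s

/-- The value along the disc. -/
def V (s : K) (k : ℕ) (w : ℂ) : ℂ := vl d.z s (M.F k w)

/-- The value along the disc, in normal form. -/
def ev (s : K) (k : ℕ) : ℂ → ℂ := toMeromorphicNFOn (M.V s k) (ball 0 1)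

/-- The chart attached to coordinates `u`. -/
def ch (u : Fin 2 → K) (θ : PR 2) : Ch :=
  ⟨fun i => M.ev (u i), fun k w => M.V (d.h 0 / Wd d.E (u 0) (u 1) ^ d.m) k w / M.Φ k w 0, θ⟩

variable {M} {s s' : K} {k : ℕ} {w ζ : ℂ} {u u' : Fin 2 → K} {θ θ' : PR 2}

lemma sub (h : w ∈ M.C.Ω k) : w ∈ ball (0 : ℂ) 1 :=
  ball_subset_ball (by norm_num) (M.hΩ k ▸ h)

lemma on (h : w ∈ ball (0 : ℂ) 1) : On d.z (M.F k w) := Cone.on d.hz ((M.hF k).2 w h)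

lemma crv : Crv (ball 0 1) (M.F k) := ⟨(M.hF k).1, fun z hz => ((M.hF k).2 z hz).1⟩

lemma cont (h : w ∈ ball (0 : ℂ) 1) : ContinuousAt (M.F k) w :=
  ((M.hF k).1.differentiableAt (isOpen_ball.mem_nhds h)).continuousAt

lemma punct (h : ζ ∈ ball (0 : ℂ) 1) : ∀ᶠ w in 𝓝[≠] ζ, w ∈ ball (0 : ℂ) 1 :=
  mem_nhdsWithin_of_mem_nhds (isOpen_ball.mem_nhds h)

lemma reg_ev (h : Reg d.z (M.F k 0) s) (hζ : ζ ∈ ball (0 : ℂ) 1) :
    ∀ᶠ w in 𝓝[≠] ζ, Reg d.z (M.F k w) s := ((M.hF k).ev d.hz hζ h).1.mono fun _ a => a.2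

lemma mer (h : Reg d.z (M.F k 0) s) : MeromorphicOn (M.V s k) (ball 0 1) :=
  fun _ hζ => ((M.hF k).ev d.hz hζ h).2

lemma V_an (hw : w ∈ ball (0 : ℂ) 1) (h : Reg d.z (M.F k w) s) : AnalyticAt ℂ (M.V s k) w :=
  (M.hF k).an d.hz hw h

lemma ev_eq (h : Reg d.z (M.F k 0) s) (hw : w ∈ ball (0 : ℂ) 1) (h' : Reg d.z (M.F k w) s) :
    M.ev s k =ᶠ[𝓝 w] M.V s k := by
  have := toMeromorphicNFOn_eq_toMeromorphicNFAt_on_nhds (mer h) hw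
  rwa [toMeromorphicNFAt_eq_self.2 (V_an hw h').meromorphicNFAt] at this

lemma ev_mer : Mer (M.C.Ω k) (M.ev s k) := fun _ hz =>
  (meromorphicNFAt_iff_analyticAt_or.1
    (meromorphicNFOn_toMeromorphicNFOn (M.V s k) (ball 0 1) (sub hz))).imp_right fun a =>
      tendsto_cobounded_of_meromorphicOrderAt_neg a.2.1

lemma Gen.un (h : M.Gen s) : ∀ᶠ k in atTop, Un d.z (M.F k 0) s ∧
    ∀ ζ ∈ ball (0 : ℂ) 1, ∀ᶠ w in 𝓝[≠] ζ, Un d.z (M.F k w) s := by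
  obtain ⟨P, Q, e, a, hP, hQ, a0, rfl, h⟩ := h
  filter_upwards [h, M.hg] with k h1 h2
  have m0 : (0 : ℂ) ∈ ball 0 1 := mem_ball_self one_pos
  have p0 : 0 < a * ‖M.F k 0‖ ^ e := mul_pos a0 (pow_pos (norm_pos_iff.2 (crv.2 0 m0)) _)
  have p1 := norm_pos_iff.1 (p0.trans_le (h1 0 h2.2.2.1).1)
  have p2 := norm_pos_iff.1 (p0.trans_le (h1 0 h2.2.2.1).2)
  have key : ∀ w ∈ ball (0 : ℂ) 1, eval (M.F k w) P ≠ 0 → eval (M.F k w) Q ≠ 0 →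
      Un d.z (M.F k w) (aeval d.z P / aeval d.z Q) := fun w hw b1 b2 =>
    ⟨⟨P, Q, e, hP, hQ, b2, rfl⟩, by rw [vl_eq (on hw) hP hQ b2]; exact div_ne_zero b1 b2⟩
  refine ⟨key 0 m0 p1 p2, fun ζ hζ => ?_⟩
  filter_upwards [NZ.ev (eval_diff (M.hF k).1 P) ⟨0, m0, p1⟩ hζ,
    NZ.ev (eval_diff (M.hF k).1 Q) ⟨0, m0, p2⟩ hζ, punct hζ] with w b1 b2 b3
  exact key w b3 b1 b2

lemma Gen.rg (h : M.Gen s) : M.Rg s := h.un.mono fun _ a => a.1.1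

lemma Rg.aeval (h : ∀ i, M.Rg (u i)) (P : PR 2) : M.Rg (aeval u P) :=
  (eventually_all.2 h).mono fun _ a => (vl_aeval (on (mem_ball_self one_pos)) a P).1

lemma Gen.good (H : All) (h : M.Gen s) {ρ : ℕ → ℂ → ℂ}
    (hρ : ∀ᶠ k in atTop, ∀ z ∈ M.C.Ω k, ρ k =ᶠ[𝓝[≠] z] M.V s k) :
    Fn M.C (fun k => {z | z ∈ M.C.Ω k ∧ AnalyticAt ℂ (ρ k) z})
      (fun k z => ‖deriv (ρ k) z‖ ^ 2 / (1 + ‖ρ k z‖ ^ 2) ^ 2) ∧
    F2 M.C (fun k => {z | z ∈ M.C.Ω k ∧ AnalyticAt ℂ (ρ k) z}) ρ := by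
  obtain ⟨P, Q, e, a, hP, hQ, a0, rfl, h⟩ := h
  refine H.good M.C d.n e M.F M.B P Q ρ M.c₀ a M.ok M.hΩ M.hT hP hQ a0 ?_
  filter_upwards [h, M.hg, hρ] with k h1 h2 h3
  have m0 : (0 : ℂ) ∈ ball 0 1 := mem_ball_self one_pos
  have p0 : 0 < a * ‖M.F k 0‖ ^ e := mul_pos a0 (pow_pos (norm_pos_iff.2 (crv.2 0 m0)) _)
  refine ⟨crv, h2.1, h2.2.1, h2.2.2.1, h1, fun z hz => (h3 z hz).trans ?_⟩
  filter_upwards [NZ.ev (eval_diff (M.hF k).1 Q)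
    ⟨0, m0, norm_pos_iff.1 (p0.trans_le (h1 0 h2.2.2.1).2)⟩ (sub hz), punct (sub hz)] with w b1 b2
  exact vl_eq (on b2) hP hQ b1

lemma pt_eq (h : ∀ i, Reg d.z (M.F k 0) (u i)) (hw : w ∈ ball (0 : ℂ) 1)
    (h' : ∀ i, Reg d.z (M.F k w) (u i)) :
    (∀ i, AnalyticAt ℂ ((M.ch u θ).x i k) w) ∧
    (∀ i, (M.ch u θ).x i k =ᶠ[𝓝 w] M.V (u i) k) ∧
      ∀ P, (M.ch u θ).ev P k =ᶠ[𝓝 w] M.V (aeval u P) k := by
  have e := fun i => ev_eq (h i) hw (h' i)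
  refine ⟨fun i => (V_an hw (h' i)).congr (e i).symm, e, fun P => ?_⟩
  filter_upwards [eventually_all.2 e, eventually_all.2 fun i => reg_open (cont hw) (h' i),
    isOpen_ball.mem_nhds hw] with t a1 a2 a3
  rw [V, (vl_aeval (on a3) a2 P).2, Ch.ev]
  congr 2
  exact funext a1

/-- Generic points of the discs. -/
lemma gen_pt (h : ∀ i, M.Rg (u i)) : ∀ᶠ k in atTop, ∀ ζ ∈ ball (0 : ℂ) 1, ∀ᶠ w in 𝓝[≠] ζ,
    w ∈ ball (0 : ℂ) 1 ∧ (∀ i, Reg d.z (M.F k w) (u i)) ∧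
    (∀ i, AnalyticAt ℂ ((M.ch u θ).x i k) w) ∧ (∀ i, (M.ch u θ).x i k =ᶠ[𝓝 w] M.V (u i) k) ∧
      ∀ P, (M.ch u θ).ev P k =ᶠ[𝓝 w] M.V (aeval u P) k := by
  filter_upwards [eventually_all.2 h] with k hk ζ hζ
  filter_upwards [punct hζ, eventually_all.2 fun i => reg_ev (hk i) hζ] with w a1 a2
  exact ⟨a1, a2, pt_eq hk a1 a2⟩

lemma ev_an {C : Ctx} {c : Ch} {G : Set (Fin 2 → ℂ)} (h : w ∈ dom C c G k) (P : PR 2) :
    AnalyticAt ℂ (c.ev P k) w := AnalyticAt.aeval_mvPolynomial h.2.1 P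

lemma f2_ev (H : All) (h : ∀ i, M.Rg (u i)) {P : PR 2} (hP : M.Gen (aeval u P)) :
    F2 M.C (dom M.C (M.ch u θ) univ) ((M.ch u θ).ev P) := fun ε hε => by
  obtain ⟨η, η0, hη⟩ := (hP.good H (ρ := (M.ch u θ).ev P) ((gen_pt h).mono fun k hk z hz =>
    (hk z (sub hz)).mono fun w a => (a.2.2.2.2 P).self_of_nhds)).2 ε hε
  exact ⟨η, η0, hη.mono M.ok le_rfl (.of_forall fun k => .of_forall fun z hz =>
    ⟨⟨⟨hz.1.1, ev_an hz.1 P⟩, hz.2⟩, le_rfl⟩)⟩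

lemma chOK_of (H : All) (h1 : ∀ i, M.Gen (u i)) (h2 : M.Gen (d.h 0 / Wd d.E (u 0) (u 1) ^ d.m))
    (h3 : M.Gen (aeval u θ)) (h4 : ∀ᶠ k in atTop, ∀ᵐ z, z ∈ M.C.Ω k → (M.ch u θ).N2 k z ≠ 0)
    (h5 : ∀ A, IsCompact A → (∀ q ∈ A, eval q θ ≠ 0) →
      Null M.C (dom M.C (M.ch u θ) A) (M.ch u θ).N2) : ChOK M.C (M.ch u θ) := by
  have r := fun i => (h1 i).rg
  refine ⟨?_, fun A hA => ?_, h5, f2_ev H r h3⟩
  · filter_upwards [h4, h2.un, h3.un, gen_pt (θ := θ) r, M.hΦ] with k a2 a3 a4 a5 a6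
    refine ⟨fun i => ev_mer, ?_⟩
    filter_upwards [a2, ae_of_punct (M.ok.1 k) fun z hz => (a3.2 z (sub hz)).and
      ((a4.2 z (sub hz)).and ((a5 z (sub hz)).and (a6.2 z hz)))] with z b1 b2 hz
    obtain ⟨c1, c2, c3, c4⟩ := b2 hz
    exact ⟨b1 hz, div_ne_zero c1.2 c4.1, (c3.2.2.2.2 θ).self_of_nhds.trans_ne c2.2⟩
  · obtain ⟨R, hR⟩ := hA.isBounded.exists_norm_le
    have key : ∀ i, Fn M.C (dom M.C (M.ch u θ) A) fun k z => ‖deriv (M.ev (u i) k) z‖ ^ 2 :=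
      fun i => by
      refine (((h1 i).good H (ρ := M.ev (u i)) ((gen_pt (θ := θ) r).mono fun k hk z hz =>
        (hk z (sub hz)).mono fun w a => (a.2.2.2.1 i).self_of_nhds)).1.smul
          (t := (1 + R ^ 2) ^ 2) (by positivity)).mono M.ok
        (.of_forall fun k => .of_forall fun z hz => ⟨⟨hz.1, hz.2.1 i⟩, ?_⟩)
      have b1 : ‖M.ev (u i) k z‖ ≤ R := (norm_le_pi_norm ((M.ch u θ).pt k z) i).trans (hR _ hz.2.2)
      rw [← mul_div_assoc, le_div_iff₀ (by positivity), mul_comm]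
      gcongr
    refine ((key 0).add M.ok (key 1)).mono M.ok
      (.of_forall fun k => .of_forall fun z hz => ⟨hz, le_of_eq ?_⟩)
    simp [Ch.N2, sq, Ch.dv, ch]

end Mdl

end Pool.Agent.MP_c69980_ag.H4
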