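import Pool.Agent.MP_c69980_ag.H4.Defs

/-!
Morphisms and boundedness modulo a closed subset.
-/

set_option autoImplicit false

namespace Pool.Agent.MP_c69980_ag.H4

open MvPolynomial H60

/-- Morphisms: maps given near every point by forms of one degree without common zero. -/
def IsMor {n m : ℕ} {S : Set (PS n)} (f : S → PS m) : Prop :=
  ∀ P : S, ∃ (d e : ℕ) (g : MvPolynomial (Fin n) ℂ) (F : Fin m → MvPolynomial (Fin n) ℂ),
    g.IsHomogeneous e ∧ (∀ j, (F j).IsHomogeneous d) ∧ eval P.1.rep g ≠ 0 ∧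
    ∀ Q : S, eval Q.1.rep g ≠ 0 →
      ∃ h : (fun j => eval Q.1.rep (F j)) ≠ 0, f Q = Projectivization.mk ℂ _ h

/-- Condition 5: for every smooth quasi-projective curve `C`, the morphisms `C → U` with image not
in `Δ` have bounded degree (number of preimages of a hyperplane not containing the image). -/
def PseudoBdd {n : ℕ} (U : Set (PS n)) : Prop :=
  ∃ Δ, IsZClosed Δ ∧ ¬ U ⊆ Δ ∧ ∀ (m : ℕ) (C : Set (PS m)) (L : Type) [Field L] [Algebra ℂ L]
    (w : Fin m → L), IsVar C → GenPt C w → Algebra.trdeg ℂ L = 1 →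
    (∀ x ∈ C, IsRegularLocalRing (locRing w x)) →
    ∃ d : ℕ, ∀ f : C → PS n, IsMor f → Set.range f ⊆ U → ¬ Set.range f ⊆ Δ →
      ∀ l : Fin n → ℂ, (∃ c, l ⬝ᵥ (f c).rep ≠ 0) → {c | l ⬝ᵥ (f c).rep = 0}.encard ≤ d

end Pool.Agent.MP_c69980_ag.H4
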