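import Pool.Agent.MP_c69980_ag.H4.SpecB
import Pool.Agent.MP_c69980_ag.H4.DefsB

/-!
Boundedness of curves on pseudo-Brody hyperbolic surfaces: definitions and statements.
-/

set_option autoImplicit false

noncomputable section

namespace Pool.Agent.MP_c69980_ag.H4

open MvPolynomial Metric Filter Topology MeasureTheory Set Real
open H60

/-- The Nevanlinna characteristic of a density. -/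
def TN (ν : ℂ → ℝ) (r : ℝ) : ℝ := ∫ z in ball 0 r, log (r / ‖z‖) * ν z

/-- The graph of a function, as a curve in the projective line. -/
def gr (ψ : ℂ → ℂ) (z : ℂ) : Fin 2 → ℂ := ![1, ψ z]

/-! ### Row A: approximate uniformisation of the punctured plane -/

def KoebeStmt : Prop := ∀ (S : Finset ℂ) (R r : ℝ) (a : ℂ), a ∉ S → ‖a‖ < R → r < 1 →
  ∃ ψ : ℂ → ℂ, DifferentiableOn ℂ ψ (ball 0 1) ∧ MapsTo ψ (ball 0 1) (ball 0 R) ∧ ψ 0 = a ∧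
    (∀ z ∈ ball (0 : ℂ) r, ψ z ∉ S) ∧ ∀ z ∈ ball (0 : ℂ) 1, ∀ h : ℂ → ℂ,
      DifferentiableOn ℂ h (ball 0 1) → (∀ w ∈ ball (0 : ℂ) 1, ‖h w‖ < R ∧ h w ∉ S) → h 0 = ψ z →
      ‖deriv h 0‖ ≤ ‖deriv ψ z‖ * (1 - ‖z‖ ^ 2)

def GrowStmt : Prop := ∀ S : Finset ℂ, S.Nonempty → ∃ c : ℝ, 0 < c ∧ ∀ a ∉ S, ∃ C : ℝ, 0 < C ∧
  ∀ r : ℝ, 1 / 2 < r → r < 1 → ∃ (ψ : ℂ → ℂ) (s : ℝ), 1 < s ∧ DifferentiableOn ℂ ψ (ball 0 s) ∧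
    (∀ z ∈ ball (0 : ℂ) s, ψ z ∉ S) ∧ ψ 0 = a ∧ C⁻¹ ≤ ‖deriv ψ 0‖ ∧
    c * log (1 / (1 - r)) - C ≤ TN (lam (gr ψ)) r

/-! ### Row B: curves as coverings of the punctured plane -/

def RootStmt : Prop := ∀ (P : Polynomial (Polynomial ℂ)) (ψ : ℂ → ℂ) (s : ℝ), P.Monic →
  DifferentiableOn ℂ ψ (ball 0 s) →
  (∀ z ∈ ball (0 : ℂ) s, ∀ y, P.evalEval (ψ z) y = 0 → P.derivative.evalEval (ψ z) y ≠ 0) →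
  ∃ σ : Fin P.natDegree → ℂ → ℂ, (∀ i, DifferentiableOn ℂ (σ i) (ball 0 s)) ∧
    ∀ z ∈ ball (0 : ℂ) s, ∀ y, P.evalEval (ψ z) y = 0 ↔ ∃ i, y = σ i z

def ModelStmt : Prop := ∀ (m : ℕ) (C : Set (PS m)) (L : Type) [Field L] [Algebra ℂ L]
  (w : Fin m → L), IsVar C → GenPt C w → Algebra.trdeg ℂ L = 1 →
  ∃ (P : Polynomial (Polynomial ℂ)) (S : Finset ℂ) (W : Fin m → Polynomial (Polynomial ℂ))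
    (E : Set (PS m)), P.Monic ∧ 0 < P.natDegree ∧ S.Nonempty ∧ E.Finite ∧
    (∀ t ∉ S, ∀ y, P.evalEval t y = 0 → P.derivative.evalEval t y ≠ 0 ∧
      (fun i => (W i).evalEval t y) ∈ Cone C) ∧
    (∀ c ∈ C, c ∉ E → ∃ t ∉ S, ∃ y, P.evalEval t y = 0 ∧
      ∃ h, c = Projectivization.mk ℂ (fun i => (W i).evalEval t y) h) ∧
    ∀ (R : PR m) (d : ℕ), R.IsHomogeneous d → (∃ c ∈ C, eval c.rep R ≠ 0) →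
      {t | ∃ y, P.evalEval t y = 0 ∧ eval (fun i => (W i).evalEval t y) R = 0}.Finite

def Lift2Stmt : Prop := ∀ (n : ℕ) (G : ℂ → Fin n → ℂ) (s : ℝ), s < 1 →
  DifferentiableOn ℂ G (ball 0 1) → (∃ z ∈ ball (0 : ℂ) 1, G z ≠ 0) →
  ∃ (φ : ℂ → ℂ) (Ψ : ℂ → Fin n → ℂ), DifferentiableOn ℂ φ (ball 0 s) ∧ Crv (ball 0 s) Ψ ∧
    ∀ z ∈ ball (0 : ℂ) s, G z = φ z • Ψ z

def Lift3Stmt : Prop := ∀ (n : ℕ) (f : ℂ → PS n) (s : ℝ), 1 < s → Holo (ball 0 s) f →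
  ∃ F : ℂ → Fin n → ℂ, Crv (ball 0 1) F ∧
    ∀ z ∈ ball (0 : ℂ) 1, ∃ h, f z = Projectivization.mk ℂ (F z) h

/-- The `F i` are lifts of the points of `Y` along `ψ`. -/
def Lf {n δ : ℕ} (Y : ℂ → Set (PS n)) (ψ : ℂ → ℂ) (F : Fin δ → ℂ → Fin n → ℂ) : Prop :=
  (∀ i, Crv (ball 0 1) (F i)) ∧ ∀ z ∈ ball (0 : ℂ) 1, ∀ y,
    y ∈ Y (ψ z) ↔ ∃ i h, y = Projectivization.mk ℂ (F i z) h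

/-- A multivalued map with `δ` holomorphic branches along every disc that avoids `S`. -/
def Sheets {n : ℕ} (S : Finset ℂ) (δ : ℕ) (Y : ℂ → Set (PS n)) : Prop :=
  ∀ (ψ : ℂ → ℂ) (s : ℝ), 1 < s → DifferentiableOn ℂ ψ (ball 0 s) →
    (∀ z ∈ ball (0 : ℂ) s, ψ z ∉ S) → ∃ F : Fin δ → ℂ → Fin n → ℂ, Lf Y ψ F

def CurveStmt : Prop := ∀ (m : ℕ) (C : Set (PS m)) (L : Type) [Field L] [Algebra ℂ L]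
  (w : Fin m → L), IsVar C → GenPt C w → Algebra.trdeg ℂ L = 1 →
  ∃ (S : Finset ℂ) (δ e : ℕ), S.Nonempty ∧ 0 < δ ∧ ∀ (n : ℕ) (f : C → PS n), IsMor f →
    ∃ Y : ℂ → Set (PS n), (∀ t, Y t ⊆ range f) ∧ Sheets S δ Y ∧
      (∀ (R : PR n) (d : ℕ), R.IsHomogeneous d → (∃ c, eval (f c).rep R ≠ 0) →
        {t | ∃ y ∈ Y t, eval y.rep R = 0}.Finite) ∧
      ∀ (Z : Set C) (N : ℕ), ((δ * N + e : ℕ) : ℕ∞) ≤ Z.encard →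
        ∃ τ : Finset ℂ, τ.card = N ∧ ∀ t ∈ τ, t ∉ S ∧ ∃ c ∈ Z, f c ∈ Y t

/-! ### Row C: heights, critical points, uniform bounds -/

def HtStmt : Prop := ∀ (n δ : ℕ) (S τ : Finset ℂ) (Y : ℂ → Set (PS n)) (l : Fin n → ℂ) (a : ℂ),
  Sheets S δ Y → (∀ t ∈ τ, t ∉ S ∧ ∃ y ∈ Y t, l ⬝ᵥ y.rep = 0) → a ∉ S →
  (∀ y ∈ Y a, l ⬝ᵥ y.rep ≠ 0) → ∃ C : ℝ, ∀ (ψ : ℂ → ℂ) (F : Fin δ → ℂ → Fin n → ℂ) (r : ℝ),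
    DifferentiableOn ℂ ψ (ball 0 1) → ψ 0 = a → Lf Y ψ F → 0 < r → r < 1 →
    τ.card * TN (lam (gr ψ)) r ≤ ∑ i, TN (lam (F i)) r + C

def CritStmt : Prop := ∀ (n δ : ℕ) (S : Finset ℂ) (Y : ℂ → Set (PS n)) (E : Set ℂ),
  Sheets S δ Y → (∀ x, {t | x ∈ Y t}.Finite) → E.Finite → ∃ a, a ∉ E ∧ a ∉ S ∧ (Y a).Finite ∧
    ∃ b : ℝ, 0 < b ∧ ∀ (ψ : ℂ → ℂ) (F : Fin δ → ℂ → Fin n → ℂ), DifferentiableOn ℂ ψ (ball 0 1) →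
      ψ 0 = a → Lf Y ψ F → ∀ i, b * ‖deriv ψ 0‖ ^ 2 ≤ lam (F i) 0

def UnifStmt : Prop := ∀ (n : ℕ) (U : Set (PS n)) (j : Fin n) (H A : PR n) (e a : ℕ) (b : ℝ),
  H.IsHomogeneous e → A.IsHomogeneous a → (∀ p, eval p H ≠ 0 → Good2 U j p) → 0 < b →
  ∃ M : ℝ, 0 < M ∧ ∀ F, Dk U 0 1 F → ∀ z ∈ ball (0 : ℂ) 1,
    b * ‖F z‖ ^ (e + 1 + a) ≤ ‖eval (F z) (H * X j * A)‖ → lam F z ≤ M / (1 - ‖z‖) ^ 2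

/-! ### Row D: test functions on discs that exhaust the unit disc -/

def Setup2Stmt : Prop := ∃ c₀ : ℝ, ∀ (ν : ℕ → ℂ → ℝ) (ρ r ε : ℕ → ℝ),
  (∀ k, Den (ball 0 1) (ν k) ∧ 0 < ρ k ∧ ρ k ≤ 1 / 32 ∧ 1 / 2 < r k ∧ r k < 1 ∧ 0 < ε k ∧
    (1 / 32 ≤ ρ k ∨ ENNReal.ofReal (ε k) ≤ mu (ν k) (ball 0 (16 * ρ k))) ∧
    ∀ z ∈ ball (0 : ℂ) (ρ k), ν k z ≤ 1 / ρ k ^ 2) →
  (∀ η, 0 < η → ∀ᶠ k in atTop, 1 + log (1 / (1 - r k)) + |log (ε k)| ≤ η * TN (ν k) (r k)) →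
  ∃ (g g' : ℕ → ℂ → ℝ) (T : ℕ → ℝ), (∀ k, 0 < T k ∧ ∀ z, 0 ≤ g' k z) ∧
  (∀ᶠ k in atTop, TN (ν k) (r k) ≤ T k ∧
    TF c₀ (ball 0 ((1 + r k) / 2)) (ball 0 (ρ k)) (g k) ∧
    TF c₀ (ball 0 ((1 + r k) / 2)) (ball 0 (ρ k)) (g' k) ∧ (∀ z, g k z ≤ g' k z) ∧
    T k ≤ ∫ z, ν k z * g k z ∧ ∫ z, ν k z * g' k z ≤ 2 * T k ∧
    ∃ σ : ℂ → ℝ, Continuous σ ∧ (∀ z, 0 ≤ σ z) ∧ (∀ z w, ‖z‖ = ‖w‖ → σ z = σ w) ∧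
      tsupport σ ⊆ ball 0 (ρ k) ∧ ∀ z ∈ ball 0 (ρ k), lap (g k) z = -σ z) ∧
  ∀ η, 0 < η → ∀ᶠ k in atTop, (∀ z ∉ ball 0 (ρ k), lap (g k) z ≤ exp (η * T k) * g' k z) ∧
    (∃ Y : ℂ → ℝ, Integrable Y ∧ (∀ z, 0 ≤ Y z) ∧ ∫ z, Y z ≤ η * T k ∧
      ∀ z, ‖grad (g k) z‖ ^ 2 ≤ g' k z * Y z) ∧
    ∫⁻ z, ENNReal.ofReal (g' k z / (1 - ‖z‖) ^ 2) ≤ ENNReal.ofReal (η * T k)

def Good3Stmt : Prop := ∀ (C : Ctx) (n d : ℕ) (F : ℕ → ℂ → Fin n → ℂ) (B : ℕ → Set ℂ)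
  (P Q : PR n) (ρ : ℕ → ℂ → ℂ) (c₀ : ℝ) (s a : ℕ → ℝ), C.Ok →
  (∀ k, C.Ω k = ball 0 (s k) ∧ s k < 1) → Tendsto C.T atTop atTop →
  P.IsHomogeneous d → Q.IsHomogeneous d →
  (∀ η, 0 < η → ∀ᶠ k in atTop, exp (-(η * C.T k)) ≤ a k) →
  (∀ᶠ k in atTop, Crv (ball 0 1) (F k) ∧ TF c₀ (C.Ω k) (B k) (C.g k) ∧
    ∫ z, lam (F k) z * C.g k z ≤ 2 * C.T k ∧ 0 ∈ B k ∧
    (∀ z ∈ B k, a k * ‖F k z‖ ^ d ≤ ‖eval (F k z) P‖ ∧ a k * ‖F k z‖ ^ d ≤ ‖eval (F k z) Q‖) ∧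
    ∀ z ∈ C.Ω k, ρ k =ᶠ[𝓝[≠] z] fun w => eval (F k w) P / eval (F k w) Q) →
  Fn C (fun k => {z | z ∈ C.Ω k ∧ AnalyticAt ℂ (ρ k) z})
    (fun k z => ‖deriv (ρ k) z‖ ^ 2 / (1 + ‖ρ k z‖ ^ 2) ^ 2) ∧
  F2 C (fun k => {z | z ∈ C.Ω k ∧ AnalyticAt ℂ (ρ k) z}) ρ

def Final2Stmt : Prop := ∀ (C : Ctx) (B : ℕ → Set ℂ) (g : ℕ → ℂ → ℝ) (c₀ κ : ℝ), C.Ok → 0 < κ →
  Tendsto C.T atTop atTop →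
  (∀ᶠ k in atTop, MeasurableSet (B k) ∧ TF c₀ (C.Ω k) (B k) (g k) ∧ (∀ z, g k z ≤ C.g k z) ∧
    ContinuousOn (C.u k) (C.Ω k) ∧ κ * C.T k ≤ ∫ z, C.u k z * lap (g k) z) →
  (∀ η, 0 < η → ∀ᶠ k in atTop, (∀ z ∉ B k, lap (g k) z ≤ exp (η * C.T k) * C.g k z) ∧
    ∃ Y : ℂ → ℝ, Integrable Y ∧ (∀ z, 0 ≤ Y z) ∧
      ∫ z, Y z ≤ η * C.T k ∧ ∀ z, ‖grad (g k) z‖ ^ 2 ≤ C.g k z * Y z) →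
  (∀ η, 0 < η → ∃ v : ℕ → ℂ → ℝ, Valid C C.Ω v η ∧
    ∀ᶠ k in atTop, ∫ z in B k, (C.u k z + v k z) * lap (g k) z ≤ η * C.T k) → False

end Pool.Agent.MP_c69980_ag.H4
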