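import Pool.Agent.MP_c69980_ag.H4.N9

/-!
Curves of large degree give discs that grow faster than the Poincare metric.
-/

set_option autoImplicit false

noncomputable section

namespace Pool.Agent.MP_c69980_ag.H4.B

open MvPolynomial Metric Filter Topology Set MeasureTheory Real
open H60

variable {n : ℕ} {U : Set (PS n)}

/-- The linear form with coefficients `l`. -/
def lin (l : Fin n → ℂ) : PR n := ∑ i, C (l i) * X i

lemma lin_hom (l : Fin n → ℂ) : (lin l).IsHomogeneous 1 :=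
  IsHomogeneous.sum _ _ _ fun i _ => (isHomogeneous_X ℂ i).C_mul _

lemma lin_eval (l y : Fin n → ℂ) : eval y (lin l) = l ⬝ᵥ y := by simp [lin, dotProduct]

theorem bdd_of (H : All) {R : PR n} {b : ℕ} {j : Fin n} {Λ : (Fin n → ℂ) → ℝ → ℝ}
    (hR : R.IsHomogeneous b) (h0 : ¬∀ P ∈ U, eval P.rep R = 0)
    (h : ∀ (F : ℕ → ℂ → Fin n → ℂ) (r β : ℕ → ℝ), ¬∀ k : ℕ, Dk U 0 1 (F k) ∧
      eval (F k 0) R ≠ 0 ∧ 1 / 2 < r k ∧ r k < 1 ∧ 0 < β k ∧ β k ≤ lam (F k) 0 ∧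
      k * (Λ (nrm j (F k 0)) (β k) + log (1 / (1 - r k))) ≤ TN (lam (F k)) (r k)) :
    PseudoBdd U := by
  refine ⟨{P | eval P.rep R = 0}, ⟨{R}, by simpa using ⟨_, hR⟩, by simp⟩, h0,
    fun m C L _ _ w c1 c2 c3 _ => by_contra fun hn => ?_⟩
  push Not at hn
  obtain ⟨S, δ, e, S0, δ0, hY⟩ := H.curve m C L w c1 c2 c3
  obtain ⟨c, c0, hc⟩ := H.grow S S0
  have δ1 : (1 : ℝ) ≤ δ := Nat.one_le_cast.2 δ0
  have step : ∀ k : ℕ, ∃ (F : ℂ → Fin n → ℂ) (r β : ℝ), Dk U 0 1 F ∧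
      eval (F 0) R ≠ 0 ∧ 1 / 2 < r ∧ r < 1 ∧ 0 < β ∧ β ≤ lam F 0 ∧
      k * (Λ (nrm j (F 0)) β + log (1 / (1 - r))) ≤ TN (lam F) r := fun k => by
    set N := ⌈(k + 1) * δ / c⌉₊
    have hN : (k + 1) * δ ≤ N * c := (div_le_iff₀ c0).1 (Nat.le_ceil _)
    obtain ⟨f, f1, f2, f3, l, ⟨x₁, f4⟩, f5⟩ := hn (δ * N + e)
    obtain ⟨Y, y1, y2, y3, y4⟩ := hY n f f1
    obtain ⟨τ, t1, t2⟩ := y4 _ N f5.le
    obtain ⟨x₀, f6⟩ := encard_pos.1 (zero_le.trans_lt f5)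
    obtain ⟨_, ⟨x₂, rfl⟩, f7⟩ := not_subset.1 f3
    have e1 := y3 R b hR ⟨x₂, f7⟩
    have e2 := y3 _ 1 (lin_hom l) ⟨x₁, by rwa [lin_eval]⟩
    obtain ⟨a, a1, a2, a3, t, t0, ht⟩ := H.crit n δ S Y _ y2 (fun x => by
      by_cases hx : l ⬝ᵥ x.rep = 0
      · exact e2.subset fun t ht => ⟨x, ht, by rwa [lin_eval]⟩
      obtain ⟨i, hi⟩ := Function.ne_iff.1 (f x₀).rep_nonzero
      refine (y3 _ 1 (((isHomogeneous_X ℂ i).C_mul (l ⬝ᵥ x.rep)).sub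
        ((lin_hom l).C_mul (x.rep i))) ⟨x₀, ?_⟩).subset fun t ht => ⟨x, ht, ?_⟩
      · simpa [lin_eval, show l ⬝ᵥ (f x₀).rep = 0 from f6, hx] using hi
      · simp [lin_eval, mul_comm]) (e1.union e2)
    obtain ⟨C₁, C0, hC⟩ := hc a a2
    obtain ⟨C₂, hC'⟩ := H.ht n δ S τ Y l a y2 (fun t ht => ⟨(t2 t ht).1, (t2 t ht).2.elim fun x hx =>
      ⟨_, hx.2, hx.1⟩⟩) a2 fun y hy q => a1 (.inr ⟨y, hy, by rwa [lin_eval]⟩)
    obtain ⟨Z, hZ⟩ := (a3.image fun y => Λ (nrm j y.rep) (t * C₁⁻¹ ^ 2)).bddAbove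
    set B := |δ * k * Z + N * C₁ + C₂| + 1 with hB
    have r0 : exp (-B) < 1 / 2 := by
      rw [exp_neg, ← one_div]
      refine one_div_lt_one_div_of_lt two_pos ((add_one_lt_exp (x := B) (by positivity)).trans_le' ?_)
      linarith [abs_nonneg (δ * k * Z + N * C₁ + C₂)]
    have r1 : log (1 / (1 - (1 - exp (-B)))) = B := by
      rw [sub_sub_cancel, one_div, ← exp_neg, neg_neg, log_exp]
    have r2 : 1 - exp (-B) < 1 := sub_lt_self _ (exp_pos _)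
    obtain ⟨ψ, s, p1, p2, p3, p4, p5, p6⟩ := hC (1 - exp (-B)) (by linarith) r2
    obtain ⟨F, hF⟩ := y2 ψ s p1 p2 p3
    have p7 := p2.mono (ball_subset_ball p1.le)
    have q1 := hC' ψ F _ p7 p4 hF (by linarith) r2
    have : Nonempty (Fin δ) := ⟨⟨0, δ0⟩⟩
    obtain ⟨i, -, hi⟩ := Finset.exists_le_of_sum_le (s := Finset.univ) Finset.univ_nonempty
      (f := fun _ : Fin δ => k * (Z + B)) (g := fun i => TN (lam (F i)) (1 - exp (-B))) (by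
      rw [r1] at p6
      rw [t1] at q1
      have B0 : 0 ≤ B := by positivity
      simp only [Finset.sum_const, Finset.card_univ, Fintype.card_fin, nsmul_eq_mul]
      nlinarith [mul_le_mul_of_nonneg_left p6 N.cast_nonneg, mul_le_mul_of_nonneg_right hN B0,
        mul_le_mul_of_nonneg_right δ1 B0, le_abs_self (δ * k * Z + N * C₁ + C₂)])
    have m0 : (0 : ℂ) ∈ ball 0 1 := mem_ball_self one_pos
    have mem := fun z hz => (hF.2 z hz _).2 ⟨i, (hF.1 i).2 z hz, rfl⟩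
    have m1 := p4 ▸ mem 0 m0
    refine ⟨F i, _, t * C₁⁻¹ ^ 2, ⟨(hF.1 i).1, fun z hz => ⟨_, f2 (y1 _ (mem z hz))⟩⟩,
      fun q => a1 (.inl ⟨_, m1, (eval_mk hR _).2 q⟩), by linarith, r2, by positivity,
      le_trans (by gcongr) (ht ψ F p7 p4 hF i), le_trans ?_ hi⟩
    rw [r1, ← nrm_mk j ((hF.1 i).2 0 m0)]
    gcongr
    exact hZ ⟨_, m1, rfl⟩
  choose F r β hF using step
  exact h F r β hF

end Pool.Agent.MP_c69980_ag.H4.B
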