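import Pool.Agent.MP_c69980_ag.H4.Main
import Pool.Agent.MP_c69980_ag.H4.N10
import Pool.Agent.MP_c69980_ag.H41.D2
import Pool.Agent.MP_c69980_ag.H1.Setup2
import Pool.Agent.MP_c69980_ag.H11.Curve
import Pool.Agent.MP_c69980_ag.H62.Plane
import Pool.Agent.MP_c69980_ag.H55.Ht
import Pool.Agent.MP_c69980_ag.H87.Koebe
import Pool.Agent.MP_c69980_ag.H61.Root
import Pool.Agent.MP_c69980_ag.H10.Grow
import Pool.Agent.MP_c69980_ag.H20.Crit

/-!
Boundedness of curves on pseudo-Brody hyperbolic surfaces of log-general type.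
-/

set_option autoImplicit false

noncomputable section

namespace Pool.Agent.MP_c69980_ag.H4

open MvPolynomial Metric Filter Topology Set Real
open H60

theorem allB : B.All :=
  ⟨all, H41.good3 H11.lift2, H41.final2, H11.lift2, H1.setup2, H10.grow H87.koebe,
    H11.curve H62.model H61.root, H55.ht, H20.crit, H20.unif⟩

variable {n : ℕ} {U : Set (PS n)}

theorem bdd_of_brody {G : PR n} {e : ℕ} (hG : G.IsHomogeneous e)
    (hUG : U = {P ∈ zcl U | eval P.rep G ≠ 0}) {K : Type} [Field K] [Algebra ℂ K] {z : Fin n → K}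
    (hz : GenPt U z) (h2 : Algebra.trdeg ℂ K = 2) (h4 : LogGT U z) (h : PseudoBrody U) :
    PseudoBdd U := by
  obtain ⟨n', W, z', pr, k, m, E, f, h4⟩ := h4
  obtain rfl : k = 2 := Nat.cast_injective (R := Cardinal) (h4.2.2.1.symm.trans h2)
  obtain ⟨_, ⟨S, s1, rfl⟩, h1, h3⟩ := h
  obtain ⟨P, hP, h1⟩ := not_subset.1 h1
  simp only [mem_ofPred, not_forall] at h1
  obtain ⟨D, d1, d2⟩ := h1
  obtain ⟨e', hD⟩ := s1 D d1
  obtain ⟨j, hj⟩ := Function.ne_iff.1 P.rep_nonzero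
  have j0 : z j ≠ 0 := fun e =>
    hj (by simpa using (hz.1 (X j) 1 (isHomogeneous_X _ _)).1 (by simpa) P hP)
  have hG' : ∀ Q ∈ U, eval Q.rep G ≠ 0 := fun Q hQ => (hUG.le hQ).2
  obtain ⟨H, a, H1, H2, H3⟩ := generic all ⟨n, n', m, U, z, W, z', pr, E, f, hz, h4⟩ hG hD
    (fun q => mul_ne_zero (hG' P hP) d2 (by simpa using (hz.1 _ _ (hG.mul hD)).1 q P hP))
    (fun y hy q => hG' _ hy.2 ((eval_mk hG hy.1).2 q))
    (fun F R A ⟨B, hB⟩ hF ⟨g, g1, g2, g3, g4, t, g5⟩ => g5 (by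
      rw [hB, map_mul, h3 g g1 (range_subset_iff.2 fun t => hUG.ge ⟨mem_zcl.2 fun Q c hQ q =>
        g3 Q c hQ (fun k w hw => (eval_mk hQ (hF k w hw).1).1 (q _ (hF k w hw).2)) t, g4 t⟩) g2
        ⟨t, rfl⟩ D d1, zero_mul])) j0
  obtain ⟨R, b, Λ, R1, R2, R3⟩ := B.core allB ⟨n, n', m, U, z, W, z', pr, E, f, hz, h4⟩
    H1 H2 j0 H3
  exact B.bdd_of allB R1 (fun q => R2 ((hz.1 _ _ R1).2 q)) R3

end Pool.Agent.MP_c69980_ag.H4
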