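import Pool.Agent.MP_c69980_ag.H60.Defs2

/-!
Pseudo-Brody hyperbolicity.
-/

set_option autoImplicit false

namespace Pool.Agent.MP_c69980_ag.H4

open H60

/-- Condition 2: every entire curve in `U` lies in a proper closed subset `Δ`. -/
def PseudoBrody {n : ℕ} (U : Set (PS n)) : Prop :=
  ∃ Δ, IsZClosed Δ ∧ ¬ U ⊆ Δ ∧ ∀ f : ℂ → PS n, Holo Set.univ f → Set.range f ⊆ U →
    (∃ s t, f s ≠ f t) → Set.range f ⊆ Δ

end Pool.Agent.MP_c69980_ag.H4
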