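import Pool.Agent.MP_c69980_ag.H4.M9
import Pool.Agent.MP_c69980_ag.H4.Defs
import Pool.Agent.MP_c69980_ag.H66.Rep
import Pool.Agent.MP_c69980_ag.H26.Final
import Pool.Agent.MP_c69980_ag.H26.Mean
import Pool.Agent.MP_c69980_ag.H26.Patch
import Pool.Agent.MP_c69980_ag.H62.Good
import Pool.Agent.MP_c69980_ag.H98.Change
import Pool.Agent.MP_c69980_ag.H98.Patch
import Pool.Agent.MP_c69980_ag.H75.Term
import Pool.Agent.MP_c69980_ag.H69.R6
import Pool.Agent.MP_c69980_ag.H16.Res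
import Pool.Agent.MP_c69980_ag.H96.AlgB
import Pool.Agent.MP_c69980_ag.H39.P2
import Pool.Agent.MP_c69980_ag.H84.Quant
import Pool.Agent.MP_c69980_ag.H3.Duval
import Pool.Agent.MP_c69980_ag.H18.Lim
import Pool.Agent.MP_c69980_ag.H76.Light
import Pool.Agent.MP_c69980_ag.H76.Seq
import Pool.Agent.MP_c69980_ag.H88.Setup

/-!
The pseudo-Brody lemma for projective and affine surfaces of log-general type.
-/

set_option autoImplicit false

noncomputable section

namespace Pool.Agent.MP_c69980_ag.H4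

open MvPolynomial Metric Filter Topology Set Real
open H60

theorem all : All := by
  have vp := H26.vPatch (H26.asPatch R1.lapRule)
  have pa := H98.patch vp
  have co := H26.comp R1.green R1.lapQ
  have ep := H84.eps R1.lapQ R1.minor R1.rep H26.logSub R1.scale
  exact ⟨R1.green, R1.lapQ, R1.minor, R1.scale, R1.ratDer, R1.lift, H26.logSub, H26.radial, H98.cmp,
    H98.pull', H75.outer H26.logSub H26.subMean H98.tc,
    H75.term (H75.node H26.logSub H26.subMean R1.lapRule vp H98.tc) H98.cmp H98.pull',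
    H69.finPatch pa, H69.blow H98.cmp H98.change' pa, H69.inf H98.cmp H98.change' pa, H69.base pa,
    H16.resInd, H16.infPoly, co, H62.good R1.green R1.lapRule R1.lapQ R1.minor R1.lift co,
    H88.setup R1.lapRule, H26.final, ep, H3.radius,
    H3.duval (H76.light H76.seq (H84.quant R1.lapQ R1.rep ep R1.scale) H3.radius H3.ends H3.ff
      H3.cover H3.pair R1.lapQ)
      (H18.lim (H84.nl R1.lapQ R1.rep H26.logSub R1.scale) ep R1.minor R1.lapQ) R1.scale R1.lapQ,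
    H96.algInit, H96.algChange, H96.algTerm, H39.chainS, H39.p2S, H39.intS⟩

variable {n : ℕ} {U : Set (PS n)}

lemma kob_zero {f : ℂ → PS n} (hf : Holo univ f) (hU : range f ⊆ U) (s t : ℂ) :
    kob U (f s) (f t) = 0 := by
  have key : ∀ a : ℝ, 0 < a → a < 1 → kob U (f s) (f t) ≤ ENNReal.ofReal (artanh a) :=
    fun a a0 a1 => by
    have a2 : (a : ℂ) ≠ 0 := Complex.ofReal_ne_zero.2 a0.ne'
    have n1 : ‖(a : ℂ)‖ = a := by simp [a0.le]
    refine sInf_le ⟨1, fun i => if i = 0 then f s else f t, fun _ w => f (s + (t - s) / a * w),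
      fun _ => a, by simp, by simp, fun i hi => ⟨fun w _ => ?_, fun w _ => hU ⟨_, rfl⟩,
        n1.trans_lt a1, ?_, ?_⟩, by simp [abs_of_pos a0]⟩
    · obtain ⟨g, g1, g2⟩ := hf (s + (t - s) / a * w) trivial
      have c : AnalyticAt ℂ (fun w : ℂ => s + (t - s) / a * w) w := by fun_prop
      exact ⟨fun w => g (s + (t - s) / a * w), AnalyticAt.comp (f := fun w : ℂ => s + (t - s) / a * w) g1 c,
         c.continuousAt.eventually g2⟩
    · simp [Nat.lt_one_iff.1 hi]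
    · simp [a2]
  refine le_antisymm (le_of_forall_gt_imp_ge_of_dense fun c hc => ?_) zero_le
  obtain ⟨r, -, r1, r2⟩ := ENNReal.lt_iff_exists_real_btwn.1 hc
  have r0 := ENNReal.ofReal_pos.1 r1
  have := key (tanh r) (by rw [tanh_eq_sinh_div_cosh]; exact div_pos (sinh_pos_iff.2 r0) (cosh_pos r))
    (tanh_lt_one r)
  rw [artanh_tanh] at this
  exact this.trans r2.le

theorem brody_of_kob (h : PseudoKob U) : PseudoBrody U := by
  obtain ⟨Δ, h1, h2, h3⟩ := h
  refine ⟨Δ, h1, h2, fun f f1 f2 ⟨a, b, hab⟩ => ?_⟩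
  rintro _ ⟨s, rfl⟩
  by_contra hn
  obtain ⟨t, ht⟩ : ∃ t, f s ≠ f t := by
    by_contra q
    push Not at q
    exact hab ((q a).symm.trans (q b))
  exact (h3 _ (f2 ⟨s, rfl⟩) _ (f2 ⟨t, rfl⟩) ht fun q => hn q.1).ne' (kob_zero f1 f2 s t)

theorem kob_of_brody {G : PR n} {e : ℕ} (hG : G.IsHomogeneous e)
    (hUG : U = {P ∈ zcl U | eval P.rep G ≠ 0}) {K : Type} [Field K] [Algebra ℂ K] {z : Fin n → K}
    (hz : GenPt U z) (h2 : Algebra.trdeg ℂ K = 2) (h4 : LogGT U z) (h : PseudoBrody U) :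
    PseudoKob U := by
  obtain ⟨n', W, z', pr, k, m, E, f, h4⟩ := h4
  obtain rfl : k = 2 := Nat.cast_injective (R := Cardinal) (h4.2.2.1.symm.trans h2)
  obtain ⟨_, ⟨S, s1, rfl⟩, h1, h3⟩ := h
  obtain ⟨P, hP, h1⟩ := not_subset.1 h1
  simp only [mem_ofPred, not_forall] at h1
  obtain ⟨D, d1, d2⟩ := h1
  obtain ⟨e', hD⟩ := s1 D d1
  obtain ⟨j, hj⟩ := Function.ne_iff.1 P.rep_nonzero
  have j0 : z j ≠ 0 := fun e =>
    hj (by simpa using (hz.1 (X j) 1 (isHomogeneous_X _ _)).1 (by simpa) P hP)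
  have hG' : ∀ Q ∈ U, eval Q.rep G ≠ 0 := fun Q hQ => (hUG.le hQ).2
  obtain ⟨H, a, H1, H2, H3⟩ := generic all ⟨n, n', m, U, z, W, z', pr, E, f, hz, h4⟩ hG hD
    (fun q => mul_ne_zero (hG' P hP) d2 (by simpa using (hz.1 _ _ (hG.mul hD)).1 q P hP))
    (fun y hy q => hG' _ hy.2 ((eval_mk hG hy.1).2 q))
    (fun F R A ⟨B, hB⟩ hF ⟨g, g1, g2, g3, g4, t, g5⟩ => g5 (by
      rw [hB, map_mul, h3 g g1 (range_subset_iff.2 fun t => hUG.ge ⟨mem_zcl.2 fun Q c hQ q =>
        g3 Q c hQ (fun k w hw => (eval_mk hQ (hF k w hw).1).1 (q _ (hF k w hw).2)) t, g4 t⟩) g2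
        ⟨t, rfl⟩ D d1, zero_mul])) j0
  have hh := H1.mul (isHomogeneous_X ℂ j)
  refine ⟨{P | eval P.rep (H * X j) = 0}, ⟨{H * X j}, by simpa using ⟨_, hh⟩, by simp⟩,
    fun hs => ?_, ?_⟩
  · exact mul_ne_zero H2 j0 (by simpa using (hz.1 _ _ hh).2 hs)
  have key : ∀ P : PS n, eval P.rep (H * X j) ≠ 0 →
      P.rep j ≠ 0 ∧ Good2 U j (nrm j P.rep) := fun P h => by
    rw [map_mul, eval_X, mul_ne_zero_iff] at h
    refine ⟨h.2, H3 _ ?_⟩
    rw [nrm, eval_smul_hom H1]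
    exact mul_ne_zero (pow_ne_zero _ (inv_ne_zero h.2)) h.1
  intro P _ Q _ hPQ hΔ
  rcases not_and_or.1 hΔ with h | h
  · exact (kob_pos2 (key P h).1 (key P h).2 hPQ).1
  · exact (kob_pos2 (key Q h).1 (key Q h).2 hPQ.symm).2

end Pool.Agent.MP_c69980_ag.H4
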