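import Pool.Agent.MP_c69980_ag.H4.SpecA
import Pool.Agent.MP_c69980_ag.H60.Kob2

/-!
Algebraic part of the pseudo-Brody lemma for surfaces: definitions and statements.
-/

set_option autoImplicit false

noncomputable section

namespace Pool.Agent.MP_c69980_ag.H4

open MvPolynomial Metric Filter Topology Set
open H60

variable {K : Type} [Field K] [Algebra ℂ K]

/-- The two-form `df ∧ dg`, evaluated on the basis `E` of the derivations. -/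
def Wd (E : Fin 2 → Derivation ℂ K K) (f g : K) : K := E 0 f * E 1 g - E 1 f * E 0 g

/-- The derivatives with respect to the coordinates `u`. -/
def pd (E : Fin 2 → Derivation ℂ K K) (u : Fin 2 → K) (i : Fin 2) (g : K) : K :=
  ![Wd E g (u 1), Wd E (u 0) g] i / Wd E (u 0) (u 1)

/-- Integral over the polynomial ring in `u`. -/
def Int2 (u : Fin 2 → K) (ζ : K) : Prop :=
  ∃ P : Polynomial (PR 2), P.Monic ∧ P.eval₂ (aeval u : PR 2 →ₐ[ℂ] K).toRingHom ζ = 0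

/-- Integral over the local ring at the origin. -/
def LInt (u : Fin 2 → K) (ζ : K) : Prop := ∃ S : PR 2, eval 0 S ≠ 0 ∧ Int2 u (aeval u S * ζ)

/-- The data in the definition of log-general type, for a surface. -/
def LDat {n n' : ℕ} (U : Set (PS n)) (z : Fin n → K) (W : Set (PS n')) (z' : Fin n' → K)
    (π : PS n' → PS n) (m : ℕ) (E : Fin 2 → Derivation ℂ K K) (h : Fin 3 → K) : Prop :=
  IsZClosed W ∧ GenPt W z' ∧ Algebra.trdeg ℂ K = (2 : ℕ) ∧ LinearIndependent K E ∧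
    0 < m ∧ h 0 ≠ 0 ∧ (AlgebraicIndependent ℂ fun i : Fin 2 => h i.succ / h 0) ∧
    ∀ x ∈ W, IsRegularLocalRing (locRing z' x) ∧ π x ∈ zcl U ∧
      (∀ u ∈ locRing z (π x), u ∈ locRing z' x ∧ (u⁻¹ ∈ locRing z' x → u⁻¹ ∈ locRing z (π x))) ∧
      ∃ (t : Fin 2 → locRing z' x) (r : Finset (Fin 2)) (g : MvPolynomial (Fin n') ℂ) (d : ℕ),
        (Ideal.span (Set.range t)).IsMaximal ∧ (∀ i, t i ≠ 0) ∧ g.IsHomogeneous d ∧
        eval x.rep g ≠ 0 ∧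
        (∀ y ∈ W, eval y.rep g ≠ 0 → (∀ i, (t i : K) ∈ locRing z' y) ∧
          (π y ∈ U ↔ (∏ i ∈ r, (t i : K))⁻¹ ∈ locRing z' y)) ∧
        ∀ i, (∏ j ∈ r, (t j : K)) ^ m * h i ∈ pluri z' E m x

/-- The forms and the logarithmic derivatives have poles only along `θ`. -/
def Alg {n' : ℕ} (E : Fin 2 → Derivation ℂ K K) (m : ℕ) (h : Fin 3 → K) (z' : Fin n' → K)
    (u : Fin 2 → K) (θ : PR 2) : Prop :=
  IsTranscendenceBasis ℂ u ∧ Wd E (u 0) (u 1) ≠ 0 ∧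
  (∀ l, ∃ N : ℕ, Int2 u (aeval u θ ^ N * (h l / Wd E (u 0) (u 1) ^ m))) ∧
  ∀ j i, ∃ N : ℕ, Int2 u (aeval u θ ^ N * (pd E u i (z' j) / z' j))

/-! ### Row 8: algebra in the function field -/

def AlgInitStmt : Prop := ∀ (K : Type) [Field K] [Algebra ℂ K] (n n' : ℕ) (U : Set (PS n))
  (z : Fin n → K) (W : Set (PS n')) (z' : Fin n' → K) (π : PS n' → PS n) (m : ℕ)
  (E : Fin 2 → Derivation ℂ K K) (h : Fin 3 → K) (s : Finset K), LDat U z W z' π m E h →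
  ∃ γ : PR 2, Squarefree γ ∧ Alg E m h z' ![h 1 / h 0, h 2 / h 0] γ ∧
    ∀ ζ ∈ s, ∃ N : ℕ, Int2 ![h 1 / h 0, h 2 / h 0] (aeval ![h 1 / h 0, h 2 / h 0] γ ^ N * ζ)

def AlgChangeStmt : Prop := ∀ (K : Type) [Field K] [Algebra ℂ K] (n' m : ℕ) (z' : Fin n' → K)
  (E : Fin 2 → Derivation ℂ K K) (h : Fin 3 → K) (u u' : Fin 2 → K) (θ θ' s q : PR 2)
  (p : Fin 2 → PR 2) (N : ℕ), Algebra.trdeg ℂ K = (2 : ℕ) → Alg E m h z' u θ → aeval u' s ≠ 0 →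
  (∀ i, u i = aeval u' (p i) / aeval u' s) → s ∣ θ' →
  aeval u' θ' ^ N = aeval u θ * aeval u' q → Alg E m h z' u' θ'

def AlgTermStmt : Prop := ∀ (K : Type) [Field K] [Algebra ℂ K] (n n' : ℕ) (U : Set (PS n))
  (z : Fin n → K) (W : Set (PS n')) (z' : Fin n' → K) (π : PS n' → PS n) (m : ℕ)
  (E : Fin 2 → Derivation ℂ K K) (h : Fin 3 → K) (u : Fin 2 → K) (θ A B a b : PR 2),
  LDat U z W z' π m E h → Alg E m h z' u θ → eval 0 (jp A B) ≠ 0 → eval 0 a ≠ 0 →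
  eval 0 b ≠ 0 → a * (A * B) = b * θ →
  Wd E (aeval u A) (aeval u B) = aeval u (jp A B) * Wd E (u 0) (u 1) ∧
  (∀ l, LInt u (aeval u (A * B) ^ m * (h l / Wd E (aeval u A) (aeval u B) ^ m))) ∧
  ∀ j i, LInt u (![aeval u A, aeval u B] i * pd E ![aeval u A, aeval u B] i (z' j) / z' j)

/-! ### Row 9: rational functions along discs -/

/-- Regular and nonzero at `y`. -/
def Un {n : ℕ} (z : Fin n → K) (y : Fin n → ℂ) (g : K) : Prop := Reg z y g ∧ vl z g y ≠ 0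

/-- The chain rule for `g` at the point `w` of the disc `x`. -/
def Chain {n : ℕ} (z : Fin n → K) (E : Fin 2 → Derivation ℂ K K) (u : Fin 2 → K) (g : K)
    (x : ℂ → Fin n → ℂ) (w : ℂ) : Prop :=
  (∀ i, Reg z (x w) (pd E u i g)) ∧ deriv (fun s => vl z g (x s)) w =
    ∑ i, vl z (pd E u i g) (x w) * deriv (fun s => vl z (u i) (x s)) w

def ChainStmt : Prop := ∀ (K : Type) [Field K] [Algebra ℂ K] (n : ℕ) (U : Set (PS n))
  (z : Fin n → K) (E : Fin 2 → Derivation ℂ K K) (u : Fin 2 → K) (g : K), GenPt U z →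
  IsTranscendenceBasis ℂ u → Wd E (u 0) (u 1) ≠ 0 → ∃ S : Finset K, 0 ∉ S ∧
    ∀ (R : ℝ) (x : ℂ → Fin n → ℂ) (w : ℂ), Dk U 0 R x → w ∈ ball (0 : ℂ) R →
      (∀ s ∈ S, Un z (x w) s) → Chain z E u g x w

def P2Stmt : Prop := ∀ (K : Type) [Field K] [Algebra ℂ K] (n n' : ℕ) (U : Set (PS n))
  (z : Fin n → K) (W : Set (PS n')) (z' : Fin n' → K) (π : PS n' → PS n) (m : ℕ)
  (E : Fin 2 → Derivation ℂ K K) (h : Fin 3 → K) (u α : Fin 2 → K) (R : ℝ) (x : ℂ → Fin n → ℂ)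
  (ζ : ℂ), LDat U z W z' π m E h → GenPt U z → Wd E (u 0) (u 1) ≠ 0 → Dk U 0 R x →
  ζ ∈ ball (0 : ℂ) R →
  (∀ᶠ w in 𝓝[≠] ζ, (∀ i, Reg z (x w) (u i) ∧ Reg z (x w) (α i)) ∧ (∀ a, z a ≠ 0 → x w a ≠ 0) ∧
    ∀ j, z' j ≠ 0 → Un z (x w) (z' j) ∧ Chain z E u (z' j) x w) →
  (∀ j, Rem (fun w => vl z ((α 0 * pd E u 0 (z' j) + α 1 * pd E u 1 (z' j)) / z' j) (x w)) ζ) →
  ∀ l, Rem (fun w => vl z (h l / Wd E (u 0) (u 1) ^ m) (x w) *
    (vl z (α 0) (x w) * deriv (fun s => vl z (u 1) (x s)) w -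
      vl z (α 1) (x w) * deriv (fun s => vl z (u 0) (x s)) w) ^ m) ζ

/-- Integral elements have polynomial growth. -/
def IntStmt : Prop := ∀ (K : Type) [Field K] [Algebra ℂ K] (n : ℕ) (z : Fin n → K)
  (u : Fin 2 → K) (ζ : K), Int2 u ζ → ∃ (A : ℝ) (M : ℕ), 0 < A ∧ ∀ y, On z y →
    (∀ i, Reg z y (u i)) → Reg z y ζ → ‖vl z ζ y‖ ≤ A * (1 + ‖fun i => vl z (u i) y‖) ^ M

end Pool.Agent.MP_c69980_ag.H4
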