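import Pool.Agent.MP_c69980_ag.H69.R6
import Pool.Agent.MP_c69980_ag.H75.Term
import Pool.Agent.MP_c69980_ag.H98.Patch

/-!
Potentials with a lower bound near the centres of the discs.
-/

set_option autoImplicit false

noncomputable section

namespace Pool.Agent.MP_c69980_ag.H4.L

open MvPolynomial Metric Filter Topology MeasureTheory Set Real
open scoped ContDiff
open H60 (PR)

/-- The data of a lower bound. -/
structure Lw where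
  B : ℕ → Set ℂ
  w : ℕ → ℂ → ℝ
  T : ℕ → ℝ

def Low (W : Lw) (O : ℕ → Set ℂ) (v : ℕ → ℂ → ℝ) : Prop := ∀ η, 0 < η → ∃ a, ∀ᶠ k in atTop,
  ∀ᵐ z, z ∈ O k → z ∈ W.B k → W.w k z - (η * W.T k + a) ≤ v k z

def VL (W : Lw) (C : Ctx) (O : ℕ → Set ℂ) (v : ℕ → ℂ → ℝ) (η : ℝ) : Prop :=
  Valid C O v η ∧ Low W O v

def PotL (W : Lw) (C : Ctx) (c : Ch) (G S : Set (Fin 2 → ℂ)) : Prop :=
  ∀ η r : ℝ, 0 < η → 0 < r → ∃ v, VL W C (dom C c G) v η ∧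
    ∀ K, IsCompact K → K ⊆ G → (∀ q ∈ K, ∀ s ∈ S, r ≤ dist q s) → Eul C c v K

def PotGL (W : Lw) (C : Ctx) : Prop := ∀ η : ℝ, 0 < η → ∃ v, VL W C C.Ω v η

variable {W : Lw} {C : Ctx} {c : Ch} {G K K' S : Set (Fin 2 → ℂ)} {v v' v₁ v₂ : ℕ → ℂ → ℝ}
  {O O' O₁ O₂ : ℕ → Set ℂ} {η : ℝ}

lemma Low.mono (h : Low W O v) (a : ℝ)
    (H : ∀ᶠ k in atTop, ∀ᵐ z, z ∈ O' k → z ∈ O k ∧ v k z - a ≤ v' k z) : Low W O' v' :=
  fun η hη => by
  obtain ⟨b, hb⟩ := h η hη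
  refine ⟨b + a, ?_⟩
  filter_upwards [hb, H] with k a1 a2
  filter_upwards [a1, a2] with z b1 b2 h1 h2
  linarith [b1 (b2 h1).1 h2, (b2 h1).2]

lemma VL.mono (hC : C.Ok) (h : VL W C O v η) (H : ∀ᶠ k in atTop, O' k ⊆ O k) : VL W C O' v η :=
  ⟨h.1.mono hC le_rfl H, h.2.mono 0 (H.mono fun _ a => .of_forall fun _ b => ⟨a b, by simp⟩)⟩

lemma low_mix {t : ℕ → ℂ → ℝ} (h₁ : Low W O₁ v₁) (h₂ : Low W O₂ v₂)
    (ht : ∀ k z, 0 ≤ t k z ∧ t k z ≤ 1)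
    (H : ∀ᶠ k in atTop, ∀ z ∈ O k, (t k z ≠ 0 → z ∈ O₁ k) ∧ (t k z ≠ 1 → z ∈ O₂ k)) :
    Low W O fun k z => t k z * v₁ k z + (1 - t k z) * v₂ k z := fun η hη => by
  obtain ⟨a, ha⟩ := h₁ η hη
  obtain ⟨b, hb⟩ := h₂ η hη
  refine ⟨max a b, ?_⟩
  filter_upwards [ha, hb, H] with k a1 a2 a3
  filter_upwards [a1, a2] with z b1 b2 h1 h2
  obtain ⟨t0, t1⟩ := ht k z
  have c1 := le_max_left a b
  have c2 := le_max_right a b
  by_cases e0 : t k z = 0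
  · have := b2 ((a3 z h1).2 (by rw [e0]; exact zero_ne_one)) h2
    rw [e0]; linarith
  have d1 := b1 ((a3 z h1).1 e0) h2
  by_cases e1 : t k z = 1
  · rw [e1]; linarith
  have d2 := b2 ((a3 z h1).2 e1) h2
  nlinarith [mul_le_mul_of_nonneg_left (show W.w k z - (η * W.T k + max a b) ≤ v₁ k z by linarith)
    t0, mul_le_mul_of_nonneg_left (show W.w k z - (η * W.T k + max a b) ≤ v₂ k z by linarith)
    (sub_nonneg.2 t1)]

lemma PotL.res (hC : C.Ok) (h : PotL W C c G S) (hO : ∀ᶠ k in atTop, O k ⊆ C.Ω k) :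
    PotL W (C.res O) c G S := fun η r h1 h2 => by
  obtain ⟨v, v1, v2⟩ := h η r h1 h2
  have H : ∀ A, ∀ᶠ k in atTop, dom (C.res O) c A k ⊆ dom C c A k := fun A =>
    hO.mono fun k hk z hz => ⟨hk hz.1, hz.2⟩
  exact ⟨v, VL.mono (C := C) hC v1 (H G), fun K a b d => Null.mono (C := C) hC (v2 K a b d)
    ((H K).mono fun k hk => .of_forall fun z hz => ⟨hk hz, le_rfl⟩)⟩

section
open H69

lemma pot_get (h : PotL W C c G S) (hS : S.Finite) (hK : IsCompact K) (hKG : K ⊆ G)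
    (hKS : ∀ q ∈ K, q ∉ S) {η : ℝ} (hη : 0 < η) :
    ∃ v, VL W C (dom C c G) v η ∧ Eul C c v K := by
  obtain ⟨r, r0, hr⟩ := sep hK hS hKS
  obtain ⟨v, a, b⟩ := h η r hη r0
  exact ⟨v, a, b K hK hKG hr⟩

lemma glue (patch : PatchStmt) (hC : C.Ok) (hc : ChOK C c) {A B : Set (Fin 2 → ℂ)}
    {χ : (Fin 2 → ℂ) → ℝ} (hχ : Cf A G B χ) (hK : IsCompact K) {η₀ : ℝ} (h0 : 0 < η₀) :
    ∃ η, 0 < η ∧ ∀ (O O₁ O₂ : ℕ → Set ℂ) (v₁ v₂ : ℕ → ℂ → ℝ),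
    (∀ᶠ k in atTop, IsOpen (O k) ∧ IsOpen (O₁ k) ∧ IsOpen (O₂ k) ∧ O k ⊆ C.Ω k ∧ ∀ z ∈ O k,
      (z ∈ dom C c (tsupport χ) k → z ∈ O₁ k) ∧
      (z ∉ dom C c (interior {q | χ q = 1}) k → z ∈ O₂ k) ∧
      (z ∈ dom C c (tsupport (fderiv ℝ χ)) k → c.pt k z ∈ K)) →
    VL W C O₁ v₁ η → VL W C O₂ v₂ η → Eul C c v₁ K → Eul C c v₂ K →
    VL W C O (fun k z => cut c χ k z * v₁ k z + (1 - cut c χ k z) * v₂ k z) η₀ := by
  obtain ⟨η, a, b⟩ := H69.glue patch hC hc hχ hK h0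
  exact ⟨η, a, fun O O₁ O₂ v₁ v₂ H V₁ V₂ E₁ E₂ => ⟨b O O₁ O₂ v₁ v₂ H V₁.1 V₂.1 E₁ E₂,
    low_mix V₁.2 V₂.2 (cut_mem hχ.bd) (H.mono fun k h z hz =>
      ⟨fun e => (h.2.2.2.2 z hz).1 (cut_ne (h.2.2.2.1 hz) e),
        fun e => (h.2.2.2.2 z hz).2.1 fun d => e (cut_one d)⟩)⟩⟩

theorem finPatch (patch : PatchStmt) : ∀ A₁ A₂ G₁ G₂ S₁ S₂ : Set (Fin 2 → ℂ), IsCompact A₁ → IsCompact A₂ →
  IsOpen G₁ → IsOpen G₂ → A₁ ⊆ G₁ → A₂ ⊆ G₂ → S₁.Finite → S₂.Finite →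
  ∃ G, IsOpen G ∧ A₁ ∪ A₂ ⊆ G ∧ G ⊆ G₁ ∪ G₂ ∧ ∀ (W : Lw) (C : Ctx) (c : Ch), C.Ok → ChOK C c →
    PotL W C c G₁ S₁ → PotL W C c G₂ S₂ → PotL W C c G (S₁ ∪ S₂) := by
  intro A₁ A₂ G₁ G₂ S₁ S₂ a₁ a₂ g₁ g₂ s₁ s₂ f₁ f₂
  obtain ⟨χ, hχ⟩ := cutoff a₁ g₁ s₁ (f₁.union f₂)
  obtain ⟨L, L1, L2, L3⟩ := exists_compact_between a₂ g₂ s₂
  have i1 : interior {q | χ q = 1} ⊆ G₁ := fun q hq => hχ.sub (subset_tsupport _ (by
    have : χ q = 1 := interior_subset (s := {q | χ q = 1}) hq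
    simp [this]))
  have go : IsOpen (interior {q | χ q = 1} ∪ interior L) := isOpen_interior.union isOpen_interior
  refine ⟨_, go, union_subset_union hχ.one L2,
    union_subset_union i1 (interior_subset.trans L3), fun W C c hC hc P₁ P₂ η₀ r h0 r0 => ?_⟩
  have hK : IsCompact (tsupport (fderiv ℝ χ) ∩ L) := hχ.cpt.inter L1
  obtain ⟨r₁, r1, hr⟩ := sep hK (f₁.union f₂) fun q hq => (hχ.der q hq.1).2.2
  obtain ⟨η, η0, hη⟩ := H4.L.glue (W := W) patch hC hc hχ hK h0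
  obtain ⟨v₁, V₁, E₁⟩ := P₁ η (min r r₁) η0 (lt_min r0 r1)
  obtain ⟨v₂, V₂, E₂⟩ := P₂ η (min r r₁) η0 (lt_min r0 r1)
  refine ⟨_, hη _ _ _ v₁ v₂ (.of_forall fun k => ⟨dom_open hC go k, dom_open hC g₁ k,
    dom_open hC g₂ k, fun z hz => hz.1, fun z hz => ⟨fun a => dom_mono hχ.sub a, fun a => ?_,
      fun a => ⟨a.2.2, ?_⟩⟩⟩) V₁ V₂
    (E₁ _ hK (fun q hq => (hχ.der q hq.1).1) fun q hq s hs =>
      (min_le_right _ _).trans (hr q hq s (Or.inl hs)))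
    (E₂ _ hK (fun q hq => L3 hq.2) fun q hq s hs =>
      (min_le_right _ _).trans (hr q hq s (Or.inr hs))), fun K k1 k2 k3 => ?_⟩
  · exact ⟨hz.1, hz.2.1, L3 (interior_subset (hz.2.2.resolve_left fun b => a ⟨hz.1, hz.2.1, b⟩))⟩
  · exact interior_subset (hz.2.2.resolve_left (hχ.der _ a.2.2).2.1)
  · exact eul_cut hC hχ.bd
      (E₁ _ (k1.inter_right (isClosed_tsupport _)) (fun q hq => hχ.sub hq.2) fun q hq s hs =>
        (min_le_left _ _).trans (k3 q hq.1 s (Or.inl hs)))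
      (E₂ _ (k1.diff isOpen_interior)
        (fun q hq => L3 (interior_subset ((k2 hq.1).resolve_left hq.2))) fun q hq s hs =>
        (min_le_left _ _).trans (k3 q hq.1 s (Or.inr hs)))

end

open H98 in
theorem pull (hChange : ChangeStmt) : ∀ (W : Lw) (C : Ctx) (c c' : Ch) (G G' S S' : Set (Fin 2 → ℂ))
  (Ψ : (Fin 2 → ℂ) → Fin 2 → ℂ) (υ : (Fin 2 → ℂ) → ℂ), C.Ok → ChOK C c → IsOpen G →
  AnalyticOnNhd ℂ Ψ G → AnalyticOnNhd ℂ υ G →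
  (∀ q ∈ G, jac Ψ q ≠ 0 ∧ υ q ≠ 0 ∧ eval (Ψ q) c'.θ = υ q * eval q c.θ ∧ Ψ q ∈ G') →
  NS c.θ G S → (∀ r : ℝ, 0 < r → ∃ r' : ℝ, 0 < r' ∧ ∀ q ∈ G, (∀ s ∈ S, r ≤ dist q s) →
    ∀ s ∈ S', r' ≤ dist (Ψ q) s) →
  Rel C c c' Ψ G → PotL W (C.res (dom C c G)) c' G' S' → PotL W C c G S := by
  intro W C c c' G G' S S' Ψ υ hC hc hG hΨ hυ hq hNS hr hR hP η r hη hr0
  obtain ⟨r', hr', hr''⟩ := hr r hr0
  obtain ⟨v, v1, v2⟩ := hP η r' hη hr'
  have H : ∀ A A', A ⊆ G → (∀ q ∈ A, Ψ q ∈ A') →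
      ∀ᶠ k in atTop, dom C c A k ⊆ dom (C.res (dom C c G)) c' A' k := fun A A' a b =>
    hR.1.mono fun k hk z hz => by
      have hz' := dom_mono a hz
      obtain ⟨a1, a2, -⟩ := rel_at hz.2.1 (hΨ _ hz'.2.2) (hk z hz')
      exact ⟨hz', a1, a2 ▸ b _ hz.2.2⟩
  refine ⟨v, VL.mono (C := C) hC v1 (H G G' le_rfl fun q a => (hq q a).2.2.2),
    fun K hK hKG hKS => ?_⟩
  refine (hChange C c c' K Ψ υ hC hc hK (hΨ.mono hKG) (hυ.mono hKG) (fun q a => ?_)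
    (fun q a _ => hNS q (hKG a) fun b => ?_) ⟨?_, ?_⟩ v).1 ?_
  · exact ⟨(hq q (hKG a)).1, (hq q (hKG a)).2.1,
      mem_of_superset (hG.mem_nhds (hKG a)) fun p b => (hq p b).2.2.1⟩
  · have := hKS q a q b
    rw [dist_self] at this
    exact this.not_gt hr0
  · exact hR.1.mono fun k hk z hz => hk z (dom_mono hKG hz)
  · exact hR.2.mono fun k hk => hk.mono fun z a hz => a (dom_mono hKG hz)
  · have := v2 (Ψ '' K) (hK.image_of_continuousOn (hΨ.mono hKG).continuousOn)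
      (by rintro _ ⟨q, a, rfl⟩; exact (hq q (hKG a)).2.2.2)
      (by rintro _ ⟨q, a, rfl⟩; exact hr'' q (hKG a) (hKS q a))
    exact Null.mono (C := C) hC this ((H K _ hKG fun q a => mem_image_of_mem Ψ a).mono
      fun k hk => .of_forall fun z hz => ⟨hk hz, le_rfl⟩)

section
open H75

lemma nA_ge {q w : Fin 2 → ℂ} (h0 : ∀ i, q i ≠ 0) (h1 : ∀ i, ‖q i‖ ≤ 1 / 2) (hw : w ≠ 0) :
    log (‖q 0 * q 1‖ ^ 2) + log (H4.sq w) ≤ log (nA q w) := by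
  have p1 : 0 < ‖q 0 * q 1‖ ^ 2 := pow_pos (norm_pos_iff.2 (mul_ne_zero (h0 0) (h0 1))) 2
  have key : ∀ i, ‖q i‖ ^ 2 ≤ (lg (q i) ^ 2)⁻¹ := fun i => by
    have a1 := lg_le (h0 i) (h1 i)
    have a2 := norm_pos_iff.2 (h0 i)
    have a5 : -log ‖q i‖ ≤ ‖q i‖⁻¹ / 2 := by
      have b := Real.add_one_le_exp (-log ‖q i‖ - 1)
      rw [exp_sub, exp_neg, exp_log a2] at b
      have c : ‖q i‖⁻¹ / exp 1 ≤ ‖q i‖⁻¹ / 2 := by
        gcongr; linarith [add_one_le_exp (1 : ℝ)]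
      linarith
    rw [le_inv_comm₀ (by positivity) (by nlinarith), ← inv_pow, lg_eq]
    rw [lg_eq] at a1
    nlinarith
  rw [← log_mul p1.ne' (sq_pos hw).ne']
  refine log_le_log (mul_pos p1 (sq_pos hw)) ?_
  rw [sq_eq (show (0 : Fin 2) ≠ 1 by decide), nA, mul_add]
  simp only [norm_mul, mul_pow]
  nlinarith [mul_le_mul_of_nonneg_left (key 0) (mul_nonneg (sq_nonneg ‖q 1‖) (sq_nonneg ‖w 0‖)),
    mul_le_mul_of_nonneg_left (key 1) (mul_nonneg (sq_nonneg ‖q 0‖) (sq_nonneg ‖w 1‖))]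

theorem node (hL : LogSubStmt) (hS : SubMeanStmt) (hR : LapRuleStmt) (hV : VPatchStmt)
    (hT : TCStmt) : ∀ (W : Lw) (C : Ctx) (c : Ch) (G : Set (Fin 2 → ℂ)) (a : ℝ), C.Ok → ChOK C c →
  c.θ = X 0 * X 1 → F2 C (dom C c univ) (c.x 0) → F2 C (dom C c univ) (c.x 1) → IsOpen G →
  G ⊆ ball 0 (1 / 2) →
  (∀ᶠ k in atTop, (∀ᵐ z, z ∈ dom C c G k →
      C.u k z + Bb C c k z + log (‖c.x 0 k z * c.x 1 k z‖ ^ 2) ≤ a) ∧
    ∀ z ∈ dom C c G k, Rem (fun w => c.b k w * (c.x 1 k w * deriv (c.x 0 k) w) ^ C.m) z ∧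
      Rem (fun w => c.b k w * (c.x 0 k w * deriv (c.x 1 k) w) ^ C.m) z) →
  Low W (dom C c G) (fun k z => Bb C c k z + log (‖c.x 0 k z * c.x 1 k z‖ ^ 2) + log (c.N2 k z)) →
  PotL W C c G {0} := by
  intro W C c G a hC hc hθ f0 f1 hG hs hev hW η r hη hr
  have H : NH C c G a := ⟨hC, hc, hθ, fun i => by fin_cases i; exacts [f0, f1], hG, hs,
    hev.mono fun k h => ⟨h.1, fun z hz i j hij => by
      rcases fin2 hij with ⟨rfl, rfl⟩ | ⟨rfl, rfl⟩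
      exacts [(h.2 z hz).1, (h.2 z hz).2]⟩⟩
  obtain ⟨A, A0, hA⟩ := chi_bd hR
  obtain ⟨η₂, p2, V2⟩ := hV η 1 hη
  obtain ⟨η₁, p1, V1⟩ := hV η₂ 1 p2
  obtain ⟨ρ₁, q1, Y1⟩ := H.smY 1 A0 one_pos
  obtain ⟨ρ₂, q2, Y2⟩ := H.smY 0 A0 one_pos
  obtain ⟨ρ₃, q3, D1⟩ := H.smd (i := 0) (j := 1) (by decide) A0 p1
  obtain ⟨ρ₄, q4, D2⟩ := H.smd (i := 1) (j := 0) (by decide) A0 p2
  obtain ⟨ρ, r0, hρ⟩ := exists_between
    (show 0 < min (min (min ρ₁ ρ₂) (min ρ₃ ρ₄)) (min r (1 / 2)) by positivity)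
  simp only [lt_min_iff] at hρ
  obtain ⟨⟨⟨l1, l2⟩, l3, l4⟩, l5, r2⟩ := hρ
  have r1 : ρ < 1 := r2.trans (by norm_num)
  have hL0 := (logsq_neg r0 r1).ne
  have hδ : 0 < ρ ^ 2 / 2 := by positivity
  have v1 := V1 C _ _ _ (nP C c (log (ρ ^ 2))) (sP C c 0) (fun k w => chi ρ (c.x 1 k w)) _ hC
    (H.cut_ok 1 r0 r1 (hA ρ r0 r1)) (H.valid_n hL hS hL0) (H.valid_s hL hS (by decide) hδ)
    (Y1 ρ l1) (D1 ρ r0 r1 l3 _ (fun _ _ _ => rfl) fun K a1 a2 a3 => H.tc_n hT _ 0 a1 a2 a3)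
  have v2 := V2 C _ _ _ _ (sP C c 1) (fun k w => chi ρ (c.x 0 k w)) _ hC
    (H.cut_ok 0 r0 r1 (hA ρ r0 r1)) v1 (H.valid_s hL hS (by decide) hδ) (Y2 ρ l2)
    (D2 ρ r0 r1 l4 _ (fun k z h => by rw [chi_one r0 r1 h]; ring) fun K a1 a2 a3 =>
      ((H.tc_n hT (log (ρ ^ 2)) 1 a1 a2 a3).add hC (H.tc_ss hT 0 1 a1 a3)).mono hC
        (.of_forall fun k => .of_forall fun z hz => ⟨hz, by
          convert conv_sq (chi_mem ρ (c.x 1 k z)).1 (chi_mem ρ (c.x 1 k z)).2 N2_nonneg using 3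
          ring⟩))
  have w1 : ∀ i j : Fin 2, i ≠ j → Low W (dom C c G) (sP C c i) := fun i j hij =>
    hW.mono 0 (H.ae.mono fun k hk => hk.mono fun z b hz => ⟨hz, by
      have h6 := log_x01 hij (q := c.pt k z) (b hz.1).2.2
      have := lg_le ((b hz.1).2.2 j) (H.half hz j)
      simp only [Ch.pt] at h6
      rw [sP, h6]; linarith⟩)
  have w2 : Low W (dom C c G) (nP C c (log (ρ ^ 2))) :=
    hW.mono 0 (H.ae.mono fun k hk => hk.mono fun z b hz => ⟨hz, by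
      have := nA_ge (q := c.pt k z) (b hz.1).2.2 (H.half hz) (dv_ne (b hz.1).1)
      have h1 : lg ρ ≤ -1 := lg_le (Complex.ofReal_ne_zero.2 r0.ne') (by simpa [abs_of_pos r0] using r2.le)
      have h2 : 0 ≤ log (log (ρ ^ 2) ^ 2) := log_nonneg (by
        simp only [lg, Complex.norm_real, Real.norm_eq_abs, sq_abs] at h1; nlinarith)
      simp only [Ch.pt] at this
      rw [nP]; simp only [Ch.N2]; linarith⟩)
  refine ⟨_, ⟨v2, low_mix (low_mix w2 (w1 0 1 (by decide)) (fun k z => chi_mem ρ _)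
    (.of_forall fun _ _ h => ⟨fun _ => h, fun _ => h⟩)) (w1 1 0 (by decide)) (fun k z => chi_mem ρ _)
    (.of_forall fun _ _ h => ⟨fun _ => h, fun _ => h⟩)⟩, fun K k1 k2 k3 => ?_⟩
  have t1 := H.tc_s hT (i := 1) (j := 0) (by decide) (k1.inter_right (closed_ge 0 (ρ ^ 2)))
    fun q hq => norm_pos_iff.1 ((pow_pos r0 2).trans_le hq.2)
  have t0 := H.tc_s hT (i := 0) (j := 1) (by decide) (k1.inter_right (closed_ge 1 ρ))
    fun q hq => norm_pos_iff.1 (r0.trans_le hq.2)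
  intro ε hε
  refine ((t1 _ (half_pos hε)).ind.add hC (t0 _ (half_pos hε)).ind (half_pos hε).le
    (half_pos hε).le).mono hC (by rw [add_halves])
    (.of_forall fun k => .of_forall fun z hz => ⟨trivial, ?_⟩)
  have i1 : ∀ (S : Set ℂ) (f : ℂ → ℝ), 0 ≤ S.indicator (fun z => max (f z) 0) z := fun S f =>
    indicator_nonneg (fun _ _ => le_max_right _ _) z
  have hρ2 : ρ ^ 2 ≤ ρ := by nlinarith
  beta_reduce
  by_cases c0 : ρ ≤ ‖c.x 0 k z‖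
  · rw [indicator_of_mem (show z ∈ dom C c (K ∩ {q | ρ ^ 2 ≤ ‖q 0‖}) k from
      ⟨hz.1, hz.2.1, hz.2.2, hρ2.trans c0⟩), chi_zero r0 r1 c0]
    refine le_add_of_le_of_nonneg (le_max_of_le_left (le_of_eq ?_)) (i1 _ _)
    ring
  have c1 : ρ ≤ ‖c.x 1 k z‖ := by
    by_contra c1
    have h1 := k3 _ hz.2.2 0 rfl
    rw [dist_zero_right] at h1
    have h2 : ‖c.pt k z‖ < ρ := (pi_norm_lt_iff r0).2 fun l => by
      fin_cases l
      exacts [not_le.1 c0, not_le.1 c1]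
    linarith
  rw [indicator_of_mem (show z ∈ dom C c (K ∩ {q | ρ ≤ ‖q 1‖}) k from
    ⟨hz.1, hz.2.1, hz.2.2, c1⟩), chi_zero r0 r1 c1]
  by_cases c2 : ‖c.x 0 k z‖ ≤ ρ ^ 2
  · rw [chi_one r0 r1 c2]
    refine le_add_of_nonneg_of_le (i1 _ _) (le_max_of_le_left (le_of_eq ?_))
    ring
  · rw [indicator_of_mem (show z ∈ dom C c (K ∩ {q | ρ ^ 2 ≤ ‖q 0‖}) k from
      ⟨hz.1, hz.2.1, hz.2.2, (not_le.1 c2).le⟩)]
    refine le_trans ?_ (add_le_add (le_max_left _ _) (le_max_left _ _))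
    refine le_trans (le_of_eq ?_) ((conv_sq (chi_mem ρ (c.x 0 k z)).1
      (chi_mem ρ (c.x 0 k z)).2 N2_nonneg).trans_eq (add_comm _ _))
    ring

theorem term (hL : LogSubStmt) (hS : SubMeanStmt) (hR : LapRuleStmt) (hW₀ : VPatchStmt)
    (hT : TCStmt) (hM : CmpStmt) (hP : ChangeStmt) : ∀ (θ U V a b : PR 2) (G₁ : Set (Fin 2 → ℂ)), eval 0 (jp U V) ≠ 0 →
  eval 0 a ≠ 0 → eval 0 b ≠ 0 → a * (U * V) = b * θ → ‖eval 0 U‖ < 1 / 2 → ‖eval 0 V‖ < 1 / 2 →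
  IsOpen G₁ → 0 ∈ G₁ → ∃ G, IsOpen G ∧ 0 ∈ G ∧ NS θ G {0} ∧ ∀ (W : Lw) (C : Ctx) (c : Ch) (A : ℝ),
  C.Ok → ChOK C c → c.θ = θ → F2 C (dom C c univ) (c.ev U) → F2 C (dom C c univ) (c.ev V) →
  F2 C (dom C c univ) (c.ev (U * V)) →
  (∀ᶠ k in atTop, (∀ᵐ z, z ∈ dom C c G₁ k → C.u k z +
      log (‖c.b k z / c.ev (jp U V) k z ^ C.m‖ ^ 2) / C.m + log (‖c.ev (U * V) k z‖ ^ 2) ≤ A) ∧
    ∀ z ∈ dom C c G₁ k, c.ev (jp U V) k z ≠ 0 →
      Rem (fun w => c.b k w / c.ev (jp U V) k w ^ C.m * (c.ev V k w * deriv (c.ev U k) w) ^ C.m) z ∧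
      Rem (fun w => c.b k w / c.ev (jp U V) k w ^ C.m * (c.ev U k w * deriv (c.ev V k) w) ^ C.m) z) →
  Low W (dom C c G₁) (fun k z => log (‖c.b k z / c.ev (jp U V) k z ^ C.m‖ ^ 2) / C.m +
    log (‖c.ev (U * V) k z‖ ^ 2) + log (c.N2 k z)) →
  PotL W C c G {0} := by
  intro θ U V a b G₁ hj ha hb e hU hV hG h0
  have ev : ∀ᶠ q in 𝓝 (0 : Fin 2 → ℂ), q ∈ G₁ ∧ eval q (jp U V) ≠ 0 ∧ eval q a ≠ 0 ∧ eval q b ≠ 0 ∧
      ‖eval q U‖ < 1 / 2 ∧ ‖eval q V‖ < 1 / 2 ∧ (q ≠ 0 → Ps U V q ≠ 0) := by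
    filter_upwards [hG.mem_nhds h0, (an_eval _ 0).continuousAt.eventually_ne hj,
      (an_eval _ 0).continuousAt.eventually_ne ha, (an_eval _ 0).continuousAt.eventually_ne hb,
      (an_eval U 0).continuousAt.norm.eventually_lt_const hU,
      (an_eval V 0).continuousAt.norm.eventually_lt_const hV, Ps_ne hj] with q a1 a2 a3 a4 a5 a6 a7
    exact ⟨a1, a2, a3, a4, a5, a6, a7⟩
  obtain ⟨δ, δ0, hδ⟩ := nhds_basis_closedBall.eventually_iff.1 ev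
  have hK := isCompact_closedBall (0 : Fin 2 → ℂ) δ
  have hs : ball (0 : Fin 2 → ℂ) δ ⊆ closedBall 0 δ := ball_subset_closedBall
  have ee : ∀ q, eval q a * (eval q U * eval q V) = eval q b * eval q θ := fun q => by
    simpa using congrArg (eval q) e
  have ns : NS θ (ball 0 δ) {0} := by
    intro q hq hq0 h1
    obtain ⟨-, a2, a3, a4, -, -, a7⟩ := hδ (hs hq)
    by_contra hn
    push Not at hn
    have h2 : eval q U * eval q V = 0 := by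
      have := ee q
      rw [h1, mul_zero] at this
      exact (mul_eq_zero.1 this).resolve_left a3
    have h3 : ∀ i, eval q U * eval q (pderiv i V) + eval q V * eval q (pderiv i U) = 0 := fun i => by
      have := congrArg (fun P => eval q (pderiv i P)) e
      simp only [Derivation.leibniz, smul_eq_mul, map_add, map_mul, h1, hn i, h2, mul_zero,
        zero_mul, add_zero] at this
      exact (mul_eq_zero.1 this).resolve_left a3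
    simp only [jp, map_sub, map_mul] at a2
    have h4 : eval q U = 0 := by
      refine (mul_eq_zero.1 ?_).resolve_left a2
      linear_combination eval q (pderiv 0 U) * h3 1 - eval q (pderiv 1 U) * h3 0
    have h5 : eval q V = 0 := by
      refine (mul_eq_zero.1 ?_).resolve_left a2
      linear_combination eval q (pderiv 1 V) * h3 0 - eval q (pderiv 0 V) * h3 1
    refine a7 hq0 (funext fun i => ?_)
    fin_cases i
    exacts [h4, h5]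
  refine ⟨ball 0 δ, isOpen_ball, mem_ball_self δ0, ns, fun W C c A hC hc hθ fU fV fUV hev hW => ?_⟩
  let c' : Ch := ⟨fun i => c.ev (![U, V] i), fun k w => c.b k w / c.ev (jp U V) k w ^ C.m, X 0 * X 1⟩
  have r0 : ∀ S, Rel0 C c c' (Ps U V) S := fun S =>
    .of_forall fun k z _ i => .of_forall fun _ => rfl
  have hC' : (C.res (dom C c (ball 0 δ))).Ok := hC.res (dom_open hC isOpen_ball)
  obtain ⟨-, ⟨A₁, p1, m1⟩, m2⟩ := hM C c c' _ (Ps U V) hK (fun q _ => an_Ps U V q) (r0 _)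
  obtain ⟨A₂, p2, m2⟩ := m2 fun q hq => by rw [jac_Ps]; exact (hδ hq).2.1
  have e' : c'.ev (X 0 * X 1) = c.ev (U * V) := by
    funext k z; simp [c', Ch.ev, Ch.pt]
  have su : ∀ S k, dom (C.res (dom C c (ball 0 δ))) c' S k ⊆ dom C c univ k := fun S k z hz =>
    dom_mono (subset_univ _) hz.1
  have sk : ∀ S k, dom (C.res (dom C c (ball 0 δ))) c' S k ⊆ dom C c (closedBall 0 δ) k :=
    fun S k z hz => dom_mono hs hz.1
  have hc' : ChOK (C.res (dom C c (ball 0 δ))) c' := by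
    refine ⟨?_, fun K _ => ?_, fun K k1 k2 => ?_, ?_⟩
    · filter_upwards [hc.1, m2] with k a1 a2
      refine ⟨fun i z hz => Or.inl ((an_eval _ _).comp (pt_an hz)), ?_⟩
      filter_upwards [a1.2] with z a3 hz
      obtain ⟨n1, n2, n3⟩ := a3 hz.1
      obtain ⟨-, b2, b3, b4, -⟩ := hδ (hs hz.2.2)
      refine ⟨fun h => n1 (le_antisymm ?_ N2_nonneg), div_ne_zero n2 (pow_ne_zero _ b2), ?_⟩
      · simpa [h] using a2 z (dom_mono hs hz)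
      · change c'.ev (X 0 * X 1) k z ≠ 0
        rw [e']
        intro h
        have := ee (c.pt k z)
        rw [← map_mul, show eval (c.pt k z) (U * V) = 0 from h, mul_zero] at this
        exact mul_ne_zero b4 (hθ ▸ n3) this.symm
    · exact Fn.mono (C := C) hC ((hc.2.1 _ hK).smul p1.le)
        (m1.mono fun k h => .of_forall fun z hz => ⟨sk _ k hz, h z (sk _ k hz)⟩)
    · have k3 : IsCompact (closedBall 0 δ ∩ Ps U V ⁻¹' K) := hK.inter_right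
        (k1.isClosed.preimage (continuous_iff_continuousAt.2 fun q => (an_Ps U V q).continuousAt))
      refine Null.mono (C := C) hC ((hc.2.2.1 _ k3 fun q hq h => ?_).smul p1)
        (m1.mono fun k h => .of_forall fun z hz =>
          ⟨⟨hz.1.1, hz.1.2.1, hs hz.1.2.2, hz.2.2⟩, h z (sk _ k hz)⟩)
      have h1 := k2 _ hq.2
      have h2 := ee q
      rw [← hθ, h, mul_zero] at h2
      refine h1 ?_
      simpa [c', Ps] using (mul_eq_zero.1 h2).resolve_left (hδ hq.1).2.2.1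
    · change F2 C _ (c'.ev (X 0 * X 1))
      rw [e']
      exact F2.mono hC fUV (su _)
  have nd := L.node hL hS hR hW₀ hT W _ c' (ball 0 (1 / 2)) A hC' hc' rfl (F2.mono (C := C) hC fU (su _))
    (F2.mono (C := C) hC fV (su _)) isOpen_ball subset_rfl (by
      filter_upwards [hev] with k hk
      have s1 : dom (C.res (dom C c (ball 0 δ))) c' (ball 0 (1 / 2)) k ⊆ dom C c G₁ k :=
        fun z hz => ⟨hz.1.1, hz.1.2.1, (hδ (hs hz.1.2.2)).1⟩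
      refine ⟨hk.1.mono fun z h hz => ?_, fun z hz => hk.2 z (s1 hz) (hδ (hs hz.1.2.2)).2.1⟩
      have h1 := h (s1 hz)
      have h2 : c.ev (U * V) k z = c'.x 0 k z * c'.x 1 k z := by simp [c', Ch.ev]
      rw [h2] at h1
      exact h1) (hW.mono (log A₂) (by
      filter_upwards [m2, hc.1, hc'.1] with k a1 a2 a3
      filter_upwards [a2.2, a3.2] with z b1 b2 hz
      refine ⟨⟨hz.1.1, hz.1.2.1, (hδ (hs hz.1.2.2)).1⟩, ?_⟩
      have h2 : c.ev (U * V) k z = c'.x 0 k z * c'.x 1 k z := by simp [c', Ch.ev]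
      have h3 := log_le_log (N2_nonneg.lt_of_ne (b1 hz.1.1).1.symm) (a1 z (sk _ k hz))
      rw [log_mul p2.ne' (b2 hz.1).1] at h3
      rw [h2]
      change _ ≤ log (‖c.b k z / c.ev (jp U V) k z ^ C.m‖ ^ 2) / C.m + _ + _
      linarith))
  refine L.pull hP W C c c' _ _ {0} {0} (Ps U V) (fun q => eval q b / eval q a) hC hc isOpen_ball
    (fun q _ => an_Ps U V q) (fun q hq => (an_eval b q).div (an_eval a q) (hδ (hs hq)).2.2.1)
    (fun q hq => ?_) (hθ ▸ ns) (fun r hr => ?_) ⟨r0 _, .of_forall fun k => .of_forall fun z hz => ?_⟩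
    nd
  · obtain ⟨-, b2, b3, b4, b5, b6, -⟩ := hδ (hs hq)
    refine ⟨by rwa [jac_Ps], div_ne_zero b4 b3, ?_, ?_⟩
    · rw [hθ, div_mul_eq_mul_div, eq_div_iff b3, ← ee q]
      simp [c', Ps, mul_comm]
    · rw [mem_ball_zero_iff, pi_norm_lt_iff (by norm_num)]
      intro i
      fin_cases i
      exacts [b5, b6]
  · have k3 : IsCompact (closedBall (0 : Fin 2 → ℂ) δ ∩ {q | r ≤ ‖q‖}) :=
      hK.inter_right (isClosed_le continuous_const continuous_norm)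
    obtain ⟨r', h1, h2⟩ := k3.exists_forall_le' (f := fun q => ‖Ps U V q‖) (a := 0)
      (fun q _ => (an_Ps U V q).continuousAt.norm.continuousWithinAt) fun q hq =>
        norm_pos_iff.2 ((hδ hq.1).2.2.2.2.2.2 (norm_pos_iff.1 (hr.trans_le hq.2)))
    refine ⟨r', h1, fun q hq h s hs' => ?_⟩
    rw [mem_singleton_iff.1 hs', dist_zero_right]
    exact h2 q ⟨hs hq, by simpa using h 0 rfl⟩
  · have h1 : ‖c.ev (jp U V) k z‖ ≠ 0 := norm_ne_zero_iff.2 (hδ (hs hz.2.2)).2.1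
    rw [jac_Ps]
    change _ = ‖c.b k z / c.ev (jp U V) k z ^ C.m‖ * ‖c.ev (jp U V) k z‖ ^ C.m
    rw [norm_div, norm_pow, div_mul_cancel₀ _ (pow_ne_zero _ h1)]

end

end Pool.Agent.MP_c69980_ag.H4.L
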