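import Pool.Agent.MP_c69980_ag.H4.L1

/-!
Potentials with a lower bound: blow-ups and the line at infinity.
-/

set_option autoImplicit false

noncomputable section

namespace Pool.Agent.MP_c69980_ag.H4.L

open MvPolynomial Metric Filter Topology MeasureTheory Set Real
open scoped ContDiff
open H60 (PR)
open H69 hiding glue pot_get near

variable {θ θ₁ θ₂ : PR 2} {l : ℂ → ℂ} {ν : ℕ}

theorem near (cmp : CmpStmt) (change : ChangeStmt) (patch : PatchStmt) (hl : Lam l)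
    (he : Eqs l θ θ₁ θ₂ ν) {G₁ G₂ S₁ : Set (Fin 2 → ℂ)} {ε : ℝ} (e0 : 0 < ε) (g₁ : IsOpen G₁)
    (g₂ : IsOpen G₂) (b₂ : ball 0 ε ⊆ G₂)
    (t₁ : ∀ q : Fin 2 → ℂ, q 0 = 0 → ‖q 1‖ ≤ 2 / ε → q ∈ G₁) (f₁ : S₁.Finite)
    (s₁ : ∀ q ∈ S₁, q 0 = 0) (n₁ : NS θ₁ G₁ S₁) (n₂ : NS θ₂ G₂ {0}) :
    ∃ δ : ℝ, 0 < δ ∧
      (∀ q, q ≠ 0 → Nr l ε δ q → eval q θ = 0 → ∃ i, eval q (pderiv i θ) ≠ 0) ∧
      ∀ (W : Lw) (C : Ctx) (c c₁ c₂ : Ch) (O : ℕ → Set ℂ), C.Ok → ChOK C c → ChOK C c₁ → ChOK C c₂ →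
      c.θ = θ → c₁.θ = θ₁ → c₂.θ = θ₂ →
      (∀ᶠ k in atTop, ∀ z ∈ C.Ω k, ∀ᶠ w in 𝓝[≠] z, c.pt k w 0 ≠ 0 ∧ c.pt k w 1 ≠ 0 ∧
        c₁.pt k w = P1 l (c.pt k w) ∧ c₂.pt k w = P2 l (c.pt k w) ∧
        ‖c.b k w‖ = ‖c₁.b k w‖ * ‖l (c.pt k w 0) / c.pt k w 0 ^ 2‖ ^ C.m ∧
        ‖c.b k w‖ = ‖c₂.b k w‖ * ‖l (c.pt k w 1) / c.pt k w 1 ^ 2‖ ^ C.m) →
      (∀ᶠ k in atTop, IsOpen (O k) ∧ O k ⊆ C.Ω k ∧
        ∀ z ∈ O k, ∀ᶠ w in 𝓝[≠] z, Nr l ε δ (c.pt k w)) →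
      PotL W C c₁ G₁ S₁ → PotL W C c₂ G₂ {0} → ∀ η₀ : ℝ, 0 < η₀ → ∀ K, IsCompact K →
      (∀ q ∈ K, q ≠ 0 ∧ Nr l ε δ q) → ∃ v, VL W C O v η₀ ∧ Eul C c v K := by
  obtain ⟨δ₁, d1, hd⟩ := tube g₁ (by positivity) t₁
  obtain ⟨δ, d0, da, db, dc⟩ : ∃ δ : ℝ, 0 < δ ∧ δ ≤ δ₁ ∧ δ ≤ ε / 2 ∧ δ * (ε + 2 / ε) ≤ δ₁ :=
    ⟨min (min δ₁ (ε / 2)) (δ₁ / (ε + 2 / ε)), by positivity,
      (min_le_left _ _).trans (min_le_left _ _), (min_le_left _ _).trans (min_le_right _ _),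
      (le_div_iff₀ (by positivity)).1 (min_le_right _ _)⟩
  have m1 : ∀ q : Fin 2 → ℂ, q ≠ 0 → Nr l ε δ q → ‖q 1‖ ≤ 2 / ε * ‖q 0‖ →
      P1 l q ∈ G₁ ∧ P1 l q ∉ S₁ := fun q a b h =>
    ⟨hd _ ((b.1 h).trans da) ((quo_le (ne0 a h)).2 h), fun s => hl.ne _ (ne0 a h) (s₁ _ s)⟩
  have m2 : ∀ q : Fin 2 → ℂ, q ≠ 0 → Nr l ε δ q → ‖q 0‖ ≤ 3 * ε / 4 * ‖q 1‖ →
      P2 l q ∈ G₂ ∧ P2 l q ∉ ({0} : Set (Fin 2 → ℂ)) := fun q a b h => by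
    refine ⟨b₂ (mem_ball_zero_iff.2 (lt_of_le_of_lt ((nrm2 (by positivity)).2
      ⟨(quo_le (ne1 a h)).2 h, (b.2 (h.trans ?_)).trans (by linarith)⟩) (by linarith))),
      fun s => hl.ne _ (ne1 a h) (congrFun s 1)⟩
    exact mul_le_mul_of_nonneg_right (by linarith) (norm_nonneg _)
  have alt : ∀ q : Fin 2 → ℂ, ¬‖q 1‖ ≤ 2 / ε * ‖q 0‖ → ‖q 0‖ ≤ ε / 2 * ‖q 1‖ := fun q h => by
    rw [not_le, div_mul_eq_mul_div, div_lt_iff₀ e0] at h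
    linarith
  have alt' : ∀ q : Fin 2 → ℂ, ‖q 0‖ ≤ ε / 2 * ‖q 1‖ → ‖q 0‖ ≤ 3 * ε / 4 * ‖q 1‖ := fun q h =>
    h.trans (mul_le_mul_of_nonneg_right (by linarith) (norm_nonneg _))
  have ns : ∀ q, q ≠ 0 → Nr l ε δ q → eval q θ = 0 → ∃ i, eval q (pderiv i θ) ≠ 0 := by
    intro q a b
    by_cases h : ‖q 1‖ ≤ 2 / ε * ‖q 0‖
    · exact (mv1 hl he (ne0 a h)).ns (n₁ _ (m1 q a b h).1 (m1 q a b h).2)
    · have h' := alt' q (alt q h)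
      exact (mv2 hl he (ne1 a h')).ns (n₂ _ (m2 q a b h').1 (m2 q a b h').2)
  refine ⟨δ, d0, ns, fun W C c c₁ c₂ O hC hc hc₁ hc₂ q0 q1 q2 H HO P₁ P₂ η₀ h0 K hK hN => ?_⟩
  subst q0 q1 q2
  obtain ⟨χ, hχ⟩ := cutoff (isCompact_closedBall (0 : Fin 2 → ℂ) (ε / 2)) isOpen_ball
    (closedBall_subset_ball (show ε / 2 < 3 * ε / 4 by linarith))
    (f₁.image fun s => (![(s 1)⁻¹, 0] : Fin 2 → ℂ))
  obtain ⟨L, hL⟩ : ∃ L, L = tsupport (fderiv ℝ χ) ∩ {q | ‖q 1‖ ≤ δ} := ⟨_, rfl⟩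
  have cL : IsCompact L := hL ▸ hχ.cpt.inter_right (isClosed_le (by fun_prop) continuous_const)
  have pL : ∀ q ∈ L, ‖q‖ < 3 * ε / 4 ∧ ε / 2 < ‖q 0‖ ∧ q 0 ≠ 0 ∧ P3 l q ∈ G₁ ∧ P3 l q ∉ S₁ := by
    intro q hq
    rw [hL] at hq
    obtain ⟨a, b, d⟩ := hχ.der q hq.1
    rw [mem_ball_zero_iff] at a
    have y1 : ‖q 1‖ ≤ δ := hq.2
    have x1 : ε / 2 < ‖q 0‖ := not_le.1 fun h => b (hχ.one (mem_closedBall_zero_iff.2
      ((nrm2 (by positivity)).2 ⟨h, y1.trans db⟩)))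
    have x0 : q 0 ≠ 0 := norm_pos_iff.1 ((half_pos e0).trans x1)
    have x2 : ‖q 0‖⁻¹ ≤ 2 / ε := by
      rw [← inv_div]
      exact inv_anti₀ (half_pos e0) x1.le
    refine ⟨a, x1, x0, hd _ ?_ ?_, fun s => d ⟨_, s, ?_⟩⟩
    · refine le_trans ?_ dc
      have x3 := norm_le_pi_norm q 0
      exact (norm_mul _ _).trans_le (mul_le_mul y1 ((hl.bd _).trans (by linarith))
        (norm_nonneg _) d0.le)
    · exact (norm_inv _).trans_le x2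
    · have : q 1 = 0 := (mul_eq_zero.1 (s₁ _ s)).resolve_right (hl.ne _ x0)
      ext i
      fin_cases i
      · simp [P3]
      · simp [this]
  have cK₁ : IsCompact (K ∩ {q | ‖q 1‖ ≤ 2 / ε * ‖q 0‖}) :=
    hK.inter_right (isClosed_le (by fun_prop) (by fun_prop))
  have cK₂ : IsCompact (K ∩ {q | ‖q 0‖ ≤ 3 * ε / 4 * ‖q 1‖}) :=
    hK.inter_right (isClosed_le (by fun_prop) (by fun_prop))
  obtain ⟨η, η0, hη⟩ := glue (W := W) patch hC hc₂ hχ cL h0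
  obtain ⟨v₁, V₁, E₁⟩ := pot_get P₁ f₁
    ((cL.image_of_continuousOn fun q hq =>
      (P3_an hl (pL q hq).2.2.1).continuousAt.continuousWithinAt).union
      (cK₁.image_of_continuousOn fun q hq =>
        (P1_an hl (ne0 (hN q hq.1).1 hq.2)).continuousAt.continuousWithinAt))
    (by
      rintro _ (⟨q, hq, rfl⟩ | ⟨q, hq, rfl⟩)
      exacts [(pL q hq).2.2.2.1, (m1 q (hN q hq.1).1 (hN q hq.1).2 hq.2).1])
    (by
      rintro _ (⟨q, hq, rfl⟩ | ⟨q, hq, rfl⟩)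
      exacts [(pL q hq).2.2.2.2, (m1 q (hN q hq.1).1 (hN q hq.1).2 hq.2).2]) η0
  have inG : ∀ q ∈ L, q ∈ G₂ ∧ q ∉ ({0} : Set (Fin 2 → ℂ)) := fun q hq =>
    ⟨b₂ (mem_ball_zero_iff.2 ((pL q hq).1.trans (by linarith))),
      fun s => (pL q hq).2.2.1 (congrFun s 0)⟩
  obtain ⟨v₂, V₂, E₂⟩ := pot_get P₂ (finite_singleton 0)
    (cL.union (cK₂.image_of_continuousOn fun q hq =>
        (P2_an hl (ne1 (hN q hq.1).1 hq.2)).continuousAt.continuousWithinAt))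
    (by
      rintro _ (hq | ⟨q, hq, rfl⟩)
      exacts [(inG _ hq).1, (m2 q (hN q hq.1).1 (hN q hq.1).2 hq.2).1])
    (by
      rintro _ (hq | ⟨q, hq, rfl⟩)
      exacts [(inG _ hq).2, (m2 q (hN q hq.1).1 (hN q hq.1).2 hq.2).2]) η0
  have F₁ : Eul C c₂ v₁ L := by
    refine eul_move cmp change hC hc₂ hc₁ cL (fun q hq => mv3 hl he (pL q hq).2.2.1)
      (fun q hq _ => n₂ q (inG q hq).1 (inG q hq).2) ?_ (eul_mono hC E₁ subset_union_left)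
    filter_upwards [H] with k hk z hz
    filter_upwards [hk z hz] with w ⟨x0, y0, a1, a2, b1, b2⟩
    have u0 : P2 l (c.pt k w) 0 ≠ 0 := mul_ne_zero x0 (inv_ne_zero y0)
    rw [a2, P3_P2 hl x0 y0, P3_jac hl u0]
    refine ⟨a1, mul_right_cancel₀ (pow_ne_zero C.m (norm_ne_zero_iff.2
      (div_ne_zero (hl.ne _ y0) (pow_ne_zero 2 y0)))) ?_⟩
    rw [← b2, b1, mul_assoc, ← mul_pow, ← norm_mul]
    congr 3
    have : c.pt k w 0 = P2 l (c.pt k w) 0 * c.pt k w 1 := by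
      simp [P2, y0]
    rw [div_mul_div_comm, ← hl.mul, ← mul_pow, ← this]
  have G1 : Eul C c v₁ (K ∩ {q | ‖q 1‖ ≤ 2 / ε * ‖q 0‖}) := by
    refine eul_move cmp change hC hc hc₁ cK₁ (fun q hq => mv1 hl he (ne0 (hN q hq.1).1 hq.2))
      (fun q hq _ => ns q (hN q hq.1).1 (hN q hq.1).2) ?_ (eul_mono hC E₁ subset_union_right)
    filter_upwards [H] with k hk z hz
    filter_upwards [hk z hz] with w ⟨x0, y0, a1, a2, b1, b2⟩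
    rw [P1_jac hl x0]
    exact ⟨a1, b1⟩
  have G2 : Eul C c v₂ (K ∩ {q | ‖q 0‖ ≤ 3 * ε / 4 * ‖q 1‖}) := by
    refine eul_move cmp change hC hc hc₂ cK₂ (fun q hq => mv2 hl he (ne1 (hN q hq.1).1 hq.2))
      (fun q hq _ => ns q (hN q hq.1).1 (hN q hq.1).2) ?_ (eul_mono hC E₂ subset_union_right)
    filter_upwards [H] with k hk z hz
    filter_upwards [hk z hz] with w ⟨x0, y0, a1, a2, b1, b2⟩
    rw [P2_jac hl y0]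
    exact ⟨a2, b2⟩
  refine ⟨_, hη O _ _ v₂ v₁ ?_ V₂ V₁ (eul_mono hC E₂ subset_union_left) F₁,
    eul_mix hC G2 G1 (cut_mem hχ.bd) ?_⟩
  · filter_upwards [H, HO, hc₁.1, hc₂.1] with k hk ⟨o1, o2, o3⟩ ⟨M₁, _⟩ ⟨M₂, _⟩
    refine ⟨o1, dom_open hC g₂ k, dom_open hC g₁ k, o2, fun z hz => ?_⟩
    have A : AnalyticAt ℂ (c₂.x 0 k) z → ‖c₂.x 0 k z‖ < ε →
        AnalyticAt ℂ (c₂.x 1 k) z ∧ ‖c₂.x 1 k z‖ ≤ δ := fun a b => by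
      refine bdd_at (M₂ 1) (o2 hz) ?_
      filter_upwards [hk z (o2 hz), o3 z hz, nhdsWithin_le_nhds
        (a.continuousAt.norm.eventually_lt continuousAt_const b)] with w ⟨x0, y0, a1, a2, _⟩ N d
      rw [show c₂.x 1 k w = l (c.pt k w 1) from congrFun a2 1]
      have d' : ‖c₂.x 0 k w‖ < ε := d
      rw [show c₂.x 0 k w = c.pt k w 0 * (c.pt k w 1)⁻¹ from congrFun a2 0] at d'
      exact N.2 ((quo_le y0).1 d'.le)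
    refine ⟨fun a => dom_mono (hχ.sub.trans ((ball_subset_ball (by linarith)).trans b₂)) a,
      fun a => ?_, fun a => ?_⟩
    · have B : ∀ᶠ w in 𝓝[≠] z, ε / 2 < ‖c₂.x 0 k w‖ := by
        rcases M₂ 0 z (o2 hz) with b | b
        · refine nhdsWithin_le_nhds (continuousAt_const.eventually_lt b.continuousAt.norm ?_)
          by_contra d
          obtain ⟨d1, d2⟩ := A b ((not_lt.1 d).trans_lt (half_lt_self e0))
          exact a ⟨o2 hz, Fin.forall_fin_two.2 ⟨b, d1⟩, hχ.one (mem_closedBall_zero_iff.2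
            ((nrm2 (by positivity)).2 ⟨not_lt.1 d, d2.trans db⟩))⟩
        · exact (tendsto_norm_cobounded_atTop.comp b).eventually_gt_atTop _
      have D : ∀ᶠ w in 𝓝[≠] z, ‖c₁.x 0 k w‖ ≤ δ ∧ ‖c₁.x 1 k w‖ ≤ 2 / ε := by
        filter_upwards [hk z (o2 hz), o3 z hz, B] with w ⟨x0, y0, a1, a2, _⟩ N d
        rw [show c₂.x 0 k w = c.pt k w 0 * (c.pt k w 1)⁻¹ from congrFun a2 0] at d
        have : ‖c.pt k w 1‖ ≤ 2 / ε * ‖c.pt k w 0‖ := by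
          by_contra h
          exact d.not_ge ((quo_le y0).2 (alt _ h))
        rw [show c₁.x 0 k w = l (c.pt k w 0) from congrFun a1 0,
          show c₁.x 1 k w = c.pt k w 1 * (c.pt k w 0)⁻¹ from congrFun a1 1]
        exact ⟨N.1 this, (quo_le x0).2 this⟩
      obtain ⟨u1, u2⟩ := bdd_at (M₁ 0) (o2 hz) (D.mono fun _ h => h.1)
      obtain ⟨u3, u4⟩ := bdd_at (M₁ 1) (o2 hz) (D.mono fun _ h => h.2)
      exact ⟨o2 hz, Fin.forall_fin_two.2 ⟨u1, u3⟩, hd _ (u2.trans da) u4⟩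
    · rw [hL]
      refine ⟨a.2.2, (A (a.2.1 0) ?_).2⟩
      have := mem_ball_zero_iff.1 (hχ.der _ a.2.2).1
      have := norm_le_pi_norm (c₂.pt k z) 0
      show ‖c₂.pt k z 0‖ < ε
      linarith
  · filter_upwards [H, hc₂.1] with k hk ⟨M₂, _⟩ z hz
    have mv : c.pt k z 1 ≠ 0 → (∀ i, AnalyticAt ℂ (c₂.x i k) z) ∧ c₂.pt k z = P2 l (c.pt k z) :=
      fun y0 => by
        have := pt_move M₂ hz (P2_an hl y0).continuousAt ((hk z hz.1).mono fun _ h => h.2.2.2.1)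
        exact ⟨fun i => (this i).1, funext fun i => (this i).2.self_of_nhds⟩
    refine ⟨fun a => ⟨hz.2.2, ?_⟩, fun a => ⟨hz.2.2, ?_⟩⟩
    · have b := cut_ne (C := C) hz.1 a
      have b1 := (norm_le_pi_norm (c₂.pt k z) 0).trans (mem_ball_zero_iff.1 (hχ.sub b.2.2)).le
      have b2 : c₂.x 0 k z * c.x 1 k z = c.x 0 k z := by
        refine tendsto_nhds_unique (l := 𝓝[≠] z)
          (((b.2.1 0).continuousAt.mul (hz.2.1 1).continuousAt).tendsto.mono_left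
            nhdsWithin_le_nhds)
          (((hz.2.1 0).continuousAt.tendsto.mono_left nhdsWithin_le_nhds).congr' ?_)
        filter_upwards [hk z hz.1] with w ⟨x0, y0, a1, a2, _⟩
        show c.pt k w 0 = c₂.x 0 k w * c.pt k w 1
        rw [show c₂.x 0 k w = c.pt k w 0 * (c.pt k w 1)⁻¹ from congrFun a2 0]
        field_simp
      show ‖c.x 0 k z‖ ≤ 3 * ε / 4 * ‖c.x 1 k z‖
      rw [← b2, norm_mul]
      exact mul_le_mul_of_nonneg_right b1 (norm_nonneg _)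
    · by_contra h
      have h1 := alt _ h
      have y0 := ne1 (hN _ hz.2.2).1 h1
      obtain ⟨u1, u2⟩ := mv y0
      refine a (cut_one (C := C) ⟨hz.1, u1, hχ.one (mem_closedBall_zero_iff.2 ?_)⟩)
      rw [u2, nrm2 (by positivity)]
      exact ⟨(quo_le y0).2 h1, ((hN _ hz.2.2).2.2 (h1.trans
        (mul_le_mul_of_nonneg_right (by linarith) (norm_nonneg _)))).trans db⟩

theorem blow (cmp : CmpStmt) (change : ChangeStmt) (patch : PatchStmt) : ∀ (θ θ₁ θ₂ : PR 2) (G₁ G₂ S₁ : Set (Fin 2 → ℂ)) (ε : ℝ), Bl θ θ₁ θ₂ →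
  0 < ε → IsOpen G₁ → IsOpen G₂ → ball 0 ε ⊆ G₂ →
  (∀ q : Fin 2 → ℂ, q 0 = 0 → ‖q 1‖ ≤ 2 / ε → q ∈ G₁) → S₁.Finite → (∀ q ∈ S₁, q 0 = 0) →
  NS θ₁ G₁ S₁ → NS θ₂ G₂ {0} →
  ∃ G, IsOpen G ∧ 0 ∈ G ∧ NS θ G {0} ∧ ∀ (W : Lw) (C : Ctx) (c c₁ c₂ : Ch), C.Ok → ChOK C c →
    ChOK C c₁ → ChOK C c₂ → c.θ = θ → c₁.θ = θ₁ → c₂.θ = θ₂ →
    (∀ᶠ k in atTop, ∀ z ∈ C.Ω k, ∀ᶠ w in 𝓝[≠] z, c.x 0 k w ≠ 0 ∧ c.x 1 k w ≠ 0 ∧
      c₁.x 0 k w = c.x 0 k w ∧ c₁.x 1 k w * c.x 0 k w = c.x 1 k w ∧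
      c₂.x 0 k w * c.x 1 k w = c.x 0 k w ∧ c₂.x 1 k w = c.x 1 k w ∧
      ‖c₁.b k w‖ = ‖c.b k w‖ * ‖c.x 0 k w‖ ^ C.m ∧ ‖c₂.b k w‖ = ‖c.b k w‖ * ‖c.x 1 k w‖ ^ C.m) →
    PotL W C c₁ G₁ S₁ → PotL W C c₂ G₂ {0} → PotL W C c G {0} := by
  intro θ θ₁ θ₂ G₁ G₂ S₁ ε ⟨ν, a1, d1, a2, d2⟩ e0 g₁ g₂ b₂ t₁ f₁ s₁ n₁ n₂
  have he : Eqs id θ θ₁ θ₂ ν := by
    refine ⟨fun q h => ?_, fun q h => ?_, d1, d2⟩
    · have := congrArg (eval (P1 id q)) a1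
      rw [ev_sub, map_mul, map_pow, eval_X] at this
      have e : (fun i => eval (P1 id q) ((![X 0, X 0 * X 1] : Fin 2 → PR 2) i)) = q := by
        ext i
        fin_cases i
        · simp [P1]
        · simp [P1, mul_comm (q 0), h]
      rw [e] at this
      rw [this, ← mul_assoc, ← mul_pow]
      simp [P1, h]
    · have := congrArg (eval (P2 id q)) a2
      rw [ev_sub, map_mul, map_pow, eval_X] at this
      have e : (fun i => eval (P2 id q) ((![X 0 * X 1, X 1] : Fin 2 → PR 2) i)) = q := by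
        ext i
        fin_cases i
        · simp [P2, h]
        · simp [P2]
      rw [e] at this
      rw [this, ← mul_assoc, ← mul_pow]
      simp [P2, h]
  obtain ⟨δ, d0, ns, H⟩ := near cmp change patch lam_id he e0 g₁ g₂ b₂ t₁ f₁ s₁ n₁ n₂
  have nr : ∀ q : Fin 2 → ℂ, q ∈ closedBall 0 δ → Nr id ε δ q := fun q hq =>
    ⟨fun _ => (norm_le_pi_norm q 0).trans (mem_closedBall_zero_iff.1 hq),
      fun _ => (norm_le_pi_norm q 1).trans (mem_closedBall_zero_iff.1 hq)⟩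
  refine ⟨ball 0 δ, isOpen_ball, mem_ball_self d0,
    fun q hq h => ns q h (nr q (ball_subset_closedBall hq)),
    fun W C c c₁ c₂ hC hc hc₁ hc₂ q0 q1 q2 R P₁ P₂ η r η0 r0 => ?_⟩
  refine (H W C c c₁ c₂ (dom C c (ball 0 δ)) hC hc hc₁ hc₂ q0 q1 q2 ?_
    (.of_forall fun k => ⟨dom_open hC isOpen_ball k, fun z hz => hz.1, fun z hz => ?_⟩)
    P₁ P₂ η η0 (closedBall 0 δ \ ball 0 r) ((isCompact_closedBall _ _).diff isOpen_ball)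
    fun q hq => ⟨fun h => hq.2 (h ▸ mem_ball_self r0), nr q hq.1⟩).imp fun v ⟨V, E⟩ =>
      ⟨V, fun K _ k2 k3 => eul_mono hC E fun q hq =>
        ⟨ball_subset_closedBall (k2 hq), fun h => (k3 q hq 0 rfl).not_gt h⟩⟩
  · filter_upwards [R] with k hk z hz
    filter_upwards [hk z hz] with w ⟨x0, y0, u1, u2, u3, u4, u5, u6⟩
    refine ⟨x0, y0, funext (Fin.forall_fin_two.2 ⟨u1, ?_⟩), funext (Fin.forall_fin_two.2 ⟨?_, u4⟩),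
      nb (n := 1) (by rwa [one_mul]) ?_, nb (n := 1) (by rwa [one_mul]) ?_⟩
    · exact (eq_mul_inv_iff_mul_eq₀ x0).2 u2
    · exact (eq_mul_inv_iff_mul_eq₀ y0).2 u3
    · show c.x 0 k w ^ 1 * (c.x 0 k w / c.x 0 k w ^ 2) = 1
      field_simp
    · show c.x 1 k w ^ 1 * (c.x 1 k w / c.x 1 k w ^ 2) = 1
      field_simp
  · filter_upwards [nhdsWithin_le_nhds ((dom_open hC isOpen_ball k).mem_nhds hz)] with w a
    exact nr _ (ball_subset_closedBall a.2.2)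

theorem inf (cmp : CmpStmt) (change : ChangeStmt) (patch : PatchStmt) : ∀ (θ θ₁ θ₂ : PR 2) (G₁ G₂ S₁ : Set (Fin 2 → ℂ)) (ε : ℝ), Inf θ θ₁ θ₂ →
  0 < ε → IsOpen G₁ → IsOpen G₂ → ball 0 ε ⊆ G₂ →
  (∀ q : Fin 2 → ℂ, q 0 = 0 → ‖q 1‖ ≤ 2 / ε → q ∈ G₁) → S₁.Finite → (∀ q ∈ S₁, q 0 = 0) →
  NS θ₁ G₁ S₁ → NS θ₂ G₂ {0} →
  ∃ R : ℝ, ∀ G₀ S₀ : Set (Fin 2 → ℂ), IsOpen G₀ → closedBall 0 R ⊆ G₀ → S₀.Finite →
    ∀ (W : Lw) (C : Ctx) (c c₁ c₂ : Ch), C.Ok → ChOK C c →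
    ChOK C c₁ → ChOK C c₂ → c.θ = θ → c₁.θ = θ₁ → c₂.θ = θ₂ →
    (∀ᶠ k in atTop, ∀ z ∈ C.Ω k, ∀ᶠ w in 𝓝[≠] z,
      c₁.x 0 k w * c.x 0 k w = 1 ∧ c₁.x 1 k w * c.x 0 k w = c.x 1 k w ∧
      c₂.x 0 k w * c.x 1 k w = c.x 0 k w ∧ c₂.x 1 k w * c.x 1 k w = 1 ∧
      ‖c₁.b k w‖ = ‖c.b k w‖ * ‖c.x 0 k w‖ ^ (3 * C.m) ∧
      ‖c₂.b k w‖ = ‖c.b k w‖ * ‖c.x 1 k w‖ ^ (3 * C.m)) →
    PotL W C c G₀ S₀ → PotL W C c₁ G₁ S₁ → PotL W C c₂ G₂ {0} → PotGL W C := by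
  intro θ θ₁ θ₂ G₁ G₂ S₁ ε ⟨d1, d2, ν, a⟩ e0 g₁ g₂ b₂ t₁ f₁ s₁ n₁ n₂
  have he : Eqs (fun t => t⁻¹) θ θ₁ θ₂ ν := by
    refine ⟨fun q h => ?_, fun q h => ?_, d1, d2⟩
    · have := (a ℂ (q 0)⁻¹ (q 1 * (q 0)⁻¹) (inv_ne_zero h)).1
      have e : (![(q 0)⁻¹⁻¹, q 1 * (q 0)⁻¹ / (q 0)⁻¹] : Fin 2 → ℂ) = q := by
        ext i
        fin_cases i
        · simp
        · simp [h]
      rw [e] at this
      exact this
    · have := (a ℂ (q 1)⁻¹ (q 0 * (q 1)⁻¹) (inv_ne_zero h)).2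
      have e : (![q 0 * (q 1)⁻¹ / (q 1)⁻¹, (q 1)⁻¹⁻¹] : Fin 2 → ℂ) = q := by
        ext i
        fin_cases i
        · simp [h]
        · simp
      rw [e] at this
      exact this
  obtain ⟨δ, d0, -, H⟩ := near cmp change patch lam_inv he e0 g₁ g₂ b₂ t₁ f₁ s₁ n₁ n₂
  obtain ⟨R, hR⟩ : ∃ R : ℝ, R = (1 + 2 / ε + ε) / δ := ⟨_, rfl⟩
  have R0 : 0 < R := by rw [hR]; positivity
  have aux : ∀ (q : Fin 2 → ℂ) (t : ℂ), R < ‖q‖ → ‖q‖ ≤ (1 + 2 / ε + ε) * ‖t‖ → ‖t⁻¹‖ ≤ δ := by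
    intro q t h1 h2
    have h3 := h1.trans_le h2
    rw [hR, div_eq_mul_inv] at h3
    have h4 : δ⁻¹ < ‖t‖ := lt_of_mul_lt_mul_left h3 (by positivity)
    rw [norm_inv]
    exact inv_le_of_inv_le₀ d0 h4.le
  have nr : ∀ q : Fin 2 → ℂ, R < ‖q‖ → Nr (fun t => t⁻¹) ε δ q := fun q hq => by
    have p1 : 0 ≤ 2 / ε * ‖q 0‖ := by positivity
    have p2 : 0 ≤ 2 / ε * ‖q 1‖ := by positivity
    have p3 : 0 ≤ ε * ‖q 0‖ := by positivity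
    have p4 : 0 ≤ ε * ‖q 1‖ := by positivity
    have p5 := norm_nonneg (q 0)
    have p6 := norm_nonneg (q 1)
    exact ⟨fun h => aux q _ hq ((nrm2 (by positivity)).2 ⟨by linarith, by linarith⟩),
      fun h => aux q _ hq ((nrm2 (by positivity)).2 ⟨by linarith, by linarith⟩)⟩
  refine ⟨R, fun G₀ S₀ g₀ b₀ f₀ W C c c₁ c₂ hC hc hc₁ hc₂ q0 q1 q2 Rl P₀ P₁ P₂ η₀ h0 => ?_⟩
  obtain ⟨χ, hχ⟩ := cutoff (isCompact_closedBall 0 R) g₀ b₀ f₀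
  have far : ∀ q : Fin 2 → ℂ, q ∉ interior {q | χ q = 1} → R < ‖q‖ := fun q hq =>
    not_le.1 fun h => hq (hχ.one (mem_closedBall_zero_iff.2 h))
  obtain ⟨r₁, r1, hr⟩ := sep hχ.cpt f₀ fun q hq => (hχ.der q hq).2.2
  obtain ⟨η, η0, hη⟩ := glue (W := W) patch hC hc hχ hχ.cpt h0
  obtain ⟨v₀, V₀, E₀⟩ := P₀ η r₁ η0 r1
  have op : ∀ k, IsOpen {z | z ∈ C.Ω k ∧ ∀ᶠ w in 𝓝[≠] z, R < ‖c.pt k w‖} := fun k =>
    (hC.1 k).inter isOpen_setOfPred_eventually_nhdsWithin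
  refine (H W C c c₁ c₂ (fun k => {z | z ∈ C.Ω k ∧ ∀ᶠ w in 𝓝[≠] z, R < ‖c.pt k w‖})
    hC hc hc₁ hc₂ q0 q1 q2 ?_
    (.of_forall fun k => ⟨op k, fun z hz => hz.1, fun z hz => hz.2.mono fun w => nr _⟩)
    P₁ P₂ η η0 (tsupport (fderiv ℝ χ)) hχ.cpt fun q hq => by
      have := far q (hχ.der q hq).2.1
      exact ⟨norm_pos_iff.1 (R0.trans this), nr q this⟩).elim fun v ⟨V, E⟩ => ?_
  swap
  · refine ⟨_, hη _ _ _ v₀ v ?_ V₀ V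
      (E₀ _ hχ.cpt (fun q hq => (hχ.der q hq).1) hr) E⟩
    filter_upwards [hc.1] with k ⟨M, _⟩
    refine ⟨hC.1 k, dom_open hC g₀ k, op k, Subset.rfl, fun z hz =>
      ⟨fun a => dom_mono hχ.sub a, fun a => ⟨hz, ?_⟩, fun a => a.2.2⟩⟩
    by_cases b : ∀ i, AnalyticAt ℂ (c.x i k) z
    · exact nhdsWithin_le_nhds (continuousAt_const.eventually_lt
        (pt_an (C := C) (G := univ) ⟨hz, b, trivial⟩).continuousAt.norm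
        (far _ fun h => a ⟨hz, b, h⟩))
    · obtain ⟨i, hi⟩ := not_forall.1 b
      filter_upwards [(tendsto_norm_cobounded_atTop.comp
        ((M i z hz).resolve_left hi)).eventually_gt_atTop R] with w hw
      exact hw.trans_le (norm_le_pi_norm (c.pt k w) i)
  · filter_upwards [Rl] with k hk z hz
    filter_upwards [hk z hz] with w ⟨u1, u2, u3, u4, u5, u6⟩
    have x0 : c.x 0 k w ≠ 0 := right_ne_zero_of_mul_eq_one u1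
    have y0 : c.x 1 k w ≠ 0 := right_ne_zero_of_mul_eq_one u4
    refine ⟨x0, y0, funext (Fin.forall_fin_two.2 ⟨eq_inv_of_mul_eq_one_left u1, ?_⟩),
      funext (Fin.forall_fin_two.2 ⟨?_, eq_inv_of_mul_eq_one_left u4⟩), nb u5 ?_, nb u6 ?_⟩
    · exact (eq_mul_inv_iff_mul_eq₀ x0).2 u2
    · exact (eq_mul_inv_iff_mul_eq₀ y0).2 u3
    · show c.x 0 k w ^ 3 * ((c.x 0 k w)⁻¹ / c.x 0 k w ^ 2) = 1
      field_simp
    · show c.x 1 k w ^ 3 * ((c.x 1 k w)⁻¹ / c.x 1 k w ^ 2) = 1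
      field_simp

end Pool.Agent.MP_c69980_ag.H4.L
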