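import Pool.Agent.MP_c69980_ag.H4.M1

/-!
Rational changes of chart.
-/

set_option autoImplicit false

noncomputable section

namespace Pool.Agent.MP_c69980_ag.H4

open MvPolynomial Metric Filter Topology Set MeasureTheory Real
open H60

/-- Numerator of the derivative of a quotient. -/
def dq (p s : PR 2) (a : Fin 2) : PR 2 := pderiv a p * s - p * pderiv a s
/-- Numerator of the Jacobian. -/
def JJ (p : Fin 2 → PR 2) (s : PR 2) : PR 2 :=
  dq (p 0) s 0 * dq (p 1) s 1 - dq (p 0) s 1 * dq (p 1) s 0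
/-- A rational map of the plane. -/
def rat (p : Fin 2 → PR 2) (s : PR 2) (q : Fin 2 → ℂ) (i : Fin 2) : ℂ := eval q (p i) / eval q s

variable {p : Fin 2 → PR 2} {s : PR 2} {q : Fin 2 → ℂ}

lemma eval_an (P : PR 2) (q : Fin 2 → ℂ) : AnalyticAt ℂ (fun y : Fin 2 → ℂ => eval y P) q :=
  AnalyticAt.aeval_mvPolynomial (fun i => analyticAt_pi_iff.1 analyticAt_id i) P

lemma rat_an (h : eval q s ≠ 0) : AnalyticAt ℂ (rat p s) q :=
  analyticAt_pi_iff.2 fun i => (eval_an (p i) q).div (eval_an s q) h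

lemma fderiv_rat (h : eval q s ≠ 0) (a i : Fin 2) :
    fderiv ℂ (rat p s) q (Pi.single a 1) i = eval q (dq (p i) s a) / eval q s ^ 2 := by
  let x : ℂ → Fin 2 → ℂ := fun t => q + t • Pi.single a 1
  have x0 : x 0 = q := by simp [x]
  have h1 : HasDerivAt x (Pi.single a 1) 0 := by
    simpa only [one_smul, id] using
      ((hasDerivAt_id (0 : ℂ)).smul_const (Pi.single a (1 : ℂ) : Fin 2 → ℂ)).const_add q
  have h2 := hasDerivAt_pi.1 ((x0 ▸ (rat_an (p := p) h).differentiableAt.hasFDerivAt :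
    HasFDerivAt (rat p s) _ (x 0)).comp_hasDerivAt 0 h1) i
  have h3 := (chain h1 (p i)).fun_div (chain h1 s) (x0 ▸ h)
  have h4 := h2.unique h3
  rw [x0] at h4
  rw [h4]
  fin_cases a <;> simp [dq]

lemma jac_rat (h : eval q s ≠ 0) : jac (rat p s) q = eval q (JJ p s) / eval q s ^ 4 := by
  simp only [jac, fderiv_rat h, JJ, map_sub, map_mul]
  field_simp

variable {K : Type} [Field K] [Algebra ℂ K] {d : Dat K}

lemma der_aeval {A : Type} [CommRing A] [Algebra ℂ A] (E : Derivation ℂ A A) (u : Fin 2 → A)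
    (P : PR 2) :
    E (aeval u P) = aeval u (pderiv 0 P) * E (u 0) + aeval u (pderiv 1 P) * E (u 1) := by
  induction P using MvPolynomial.induction_on with
  | C c => simp
  | add p q hp hq => simp only [map_add, hp, hq]; ring
  | mul_X p i hp =>
    simp only [map_mul, Derivation.leibniz, hp, aeval_X, smul_eq_mul, map_add]
    fin_cases i <;> simp <;> ring

lemma Wd_rat (E : Fin 2 → Derivation ℂ K K) {u u' : Fin 2 → K} (hs : aeval u' s ≠ 0)
    (h : ∀ i, u i = aeval u' (p i) / aeval u' s) :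
    Wd E (u 0) (u 1) = aeval u' (JJ p s) / aeval u' s ^ 4 * Wd E (u' 0) (u' 1) := by
  simp only [h, Wd, Derivation.leibniz_div, der_aeval, JJ, dq, map_sub, map_mul, smul_eq_mul]
  field_simp
  ring

namespace Mdl

variable {M : Mdl d} {u u' : Fin 2 → K} {θ θ' : PR 2}

lemma gen_one : M.Gen (aeval u (1 : PR 2)) :=
  ⟨1, 1, 0, 1, isHomogeneous_one _ _, isHomogeneous_one _ _, one_pos, by simp, by simp⟩

lemma rg_rat (h1 : ∀ i, M.Rg (u' i)) (hs : M.Gen (aeval u' s))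
    (h : ∀ i, u i = aeval u' (p i) / aeval u' s) (i : Fin 2) : M.Rg (u i) := by
  filter_upwards [Rg.aeval h1 (p i), hs.un] with k a1 a2
  exact h i ▸ (vl_div (on (mem_ball_self one_pos)) a1 a2.1).1

lemma gen_ne {g : K} (h : M.Gen g) : g ≠ 0 := fun e => by
  obtain ⟨k, hk⟩ := h.un.exists
  exact hk.1.2 (e ▸ (vl_zero (on (mem_ball_self one_pos))).2)

lemma rel_pt (h1 : ∀ i, M.Rg (u' i)) (hs : M.Gen (aeval u' s))
    (h2 : M.Rg (d.h 0 / Wd d.E (u 0) (u 1) ^ d.m)) (hW : Wd d.E (u 0) (u 1) ≠ 0)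
    (h : ∀ i, u i = aeval u' (p i) / aeval u' s) :
    ∀ᶠ k in atTop, ∀ ζ ∈ M.C.Ω k, ∀ᶠ w in 𝓝[≠] ζ, eval ((M.ch u' θ').pt k w) s ≠ 0 ∧
      (M.ch u θ).pt k w = rat p s ((M.ch u' θ').pt k w) ∧ ‖(M.ch u' θ').b k w‖ =
        ‖(M.ch u θ).b k w‖ * ‖jac (rat p s) ((M.ch u' θ').pt k w)‖ ^ M.C.m := by
  have e := Wd_rat d.E (gen_ne hs) h
  have e2 : d.h 0 / Wd d.E (u' 0) (u' 1) ^ d.m = d.h 0 / Wd d.E (u 0) (u 1) ^ d.m *
      (aeval u' (JJ p s) / aeval u' s ^ 4) ^ d.m := by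
    rw [e] at hW ⊢
    rw [mul_pow, div_mul_eq_mul_div, mul_comm (d.h 0),
      mul_div_mul_left _ _ (pow_ne_zero _ (left_ne_zero_of_mul hW))]
  filter_upwards [gen_pt (θ := θ') h1, gen_pt (θ := θ) (rg_rat h1 hs h), hs.un, h2]
    with k a1 a2 a3 a4 ζ hζ
  filter_upwards [a1 ζ (sub hζ), a2 ζ (sub hζ), a3.2 ζ (sub hζ), reg_ev a4 (sub hζ)]
    with w b1 b2 b3 b4
  have o := on (M := M) (k := k) b1.1
  have c1 : ∀ P, eval ((M.ch u' θ').pt k w) P = vl d.z (aeval u' P) (M.F k w) :=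
    fun P => (b1.2.2.2.2 P).self_of_nhds
  have c2 := fun P => (vl_aeval o b1.2.1 P).1
  have c3 : eval ((M.ch u' θ').pt k w) s ≠ 0 := (c1 s).trans_ne b3.2
  refine ⟨c3, funext fun i => ?_, ?_⟩
  · rw [rat, c1, c1, ← (vl_div o (c2 _) b3).2, ← h]
    exact (b2.2.2.2.1 i).self_of_nhds
  · have c4 : Un d.z (M.F k w) (aeval u' s ^ 4) :=
      ⟨(vl_pow o b3.1 4).1, by rw [(vl_pow o b3.1 4).2]; exact pow_ne_zero _ b3.2⟩
    rw [jac_rat c3, c1, c1, ← norm_pow, ← norm_mul, M.hm]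
    simp only [ch, V]
    rw [e2, (vl_mul o b4 (vl_pow o (vl_div o (c2 _) c4).1 _).1).2,
      (vl_pow o (vl_div o (c2 _) c4).1 _).2, (vl_div o (c2 _) c4).2, (vl_pow o b3.1 4).2,
      mul_div_right_comm]

lemma rel_of (h1 : ∀ i, M.Rg (u' i)) (hs : M.Gen (aeval u' s))
    (h2 : M.Rg (d.h 0 / Wd d.E (u 0) (u 1) ^ d.m)) (hW : Wd d.E (u 0) (u 1) ≠ 0)
    (h : ∀ i, u i = aeval u' (p i) / aeval u' s) {S : Set (Fin 2 → ℂ)}
    (hS : ∀ q ∈ S, eval q s ≠ 0) : Rel M.C (M.ch u' θ') (M.ch u θ) (rat p s) S := by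
  have := rel_pt (θ := θ) (θ' := θ') h1 hs h2 hW h
  refine ⟨this.mono fun k hk z hz i => ?_, this.mono fun k hk => ?_⟩
  · refine (ev_mer.eq hz.1 ?_ ((hk z hz.1).mono fun w a => congrFun a.2.1 i)).2
    exact ((analyticAt_pi_iff.1 (rat_an (hS _ hz.2.2)) i).comp (pt_an hz)).continuousAt
  · exact (ae_of_punct (M.ok.1 k) hk).mono fun z a hz => (a hz.1).2.2

/-- Transfer of the estimates to a new chart. -/
lemma child (H : All) (hc : ChOK M.C (M.ch u θ)) (h1 : ∀ i, M.Gen (u' i))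
    (h1' : M.Gen (d.h 0 / Wd d.E (u' 0) (u' 1) ^ d.m)) (h3 : M.Gen (aeval u' θ'))
    (hs : M.Gen (aeval u' s)) (h2 : M.Rg (d.h 0 / Wd d.E (u 0) (u 1) ^ d.m))
    (hW : Wd d.E (u 0) (u 1) ≠ 0) (h : ∀ i, u i = aeval u' (p i) / aeval u' s)
    (hθ : ∀ q, eval q θ' ≠ 0 → eval q s ≠ 0 ∧ eval q (JJ p s) ≠ 0 ∧ eval (rat p s q) θ ≠ 0) :
    ChOK M.C (M.ch u' θ') := by
  have r := fun i => (h1 i).rg
  have R : ∀ A : Set (Fin 2 → ℂ), (∀ q ∈ A, eval q s ≠ 0) →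
      Rel0 M.C (M.ch u' θ') (M.ch u θ) (rat p s) A := fun A hA => (rel_of r hs h2 hW h hA).1
  refine chOK_of H h1 h1' h3 ?_ fun A hA hA' => ?_
  · filter_upwards [hc.1, R {q | eval q s ≠ 0} fun _ a => a, gen_pt (θ := θ') r,
      rel_pt (θ := θ) (θ' := θ') r hs h2 hW h] with k a1 a2 a3 a4
    filter_upwards [a1.2, ae_of_punct (M.ok.1 k) fun z hz => (a3 z (sub hz)).and (a4 z hz)]
      with z b1 b2 hz e
    have b3 : z ∈ dom M.C (M.ch u' θ') {q | eval q s ≠ 0} k := ⟨hz, (b2 hz).1.2.2.1, (b2 hz).2.1⟩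
    have b4 : (M.ch u' θ').dv k z = 0 := funext fun i => by
      rw [Ch.N2, sq] at e
      simpa using (Finset.sum_eq_zero_iff_of_nonneg fun _ _ => by positivity).1 e i
        (Finset.mem_univ i)
    have b5 : HasDerivAt ((M.ch u' θ').pt k) 0 z := b4 ▸ hasDerivAt_pi.2 fun i =>
      (b3.2.1 i).differentiableAt.hasDerivAt
    refine (b1 hz).1 ?_
    rw [Ch.N2, sq]
    refine Finset.sum_eq_zero fun i _ => ?_
    have b6 := (hasDerivAt_pi.1 ((rat_an (p := p) b3.2.2).differentiableAt.hasFDerivAt.comp_hasDerivAt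
      z b5) i).congr_of_eventuallyEq (a2 z b3 i)
    simp [Ch.dv, b6.deriv]
  · have an : AnalyticOnNhd ℂ (rat p s) A := fun q hq => rat_an (hθ q (hA' q hq)).1
    obtain ⟨c1, -, c2⟩ := H.cmp M.C _ _ A _ hA an (R A fun q hq => (hθ q (hA' q hq)).1)
    obtain ⟨a, a0, c2⟩ := c2 fun q hq => by
      rw [jac_rat (hθ q (hA' q hq)).1]
      exact div_ne_zero (hθ q (hA' q hq)).2.1 (pow_ne_zero _ (hθ q (hA' q hq)).1)
    refine ((hc.2.2.1 _ (hA.image_of_continuousOn an.continuousOn) ?_).smul a0).mono M.ok ?_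
    · rintro _ ⟨q, hq, rfl⟩
      exact (hθ q (hA' q hq)).2.2
    · filter_upwards [c1, c2] with k b1 b2
      exact .of_forall fun z hz => ⟨b1 hz, b2 z hz⟩

end Mdl

end Pool.Agent.MP_c69980_ag.H4
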