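import Pool.Agent.MP_c69980_ag.H4.M2

/-!
Bounds and holomorphy of the pluricanonical forms along the discs.
-/

set_option autoImplicit false

noncomputable section

namespace Pool.Agent.MP_c69980_ag.H4

open MvPolynomial Metric Filter Topology Set MeasureTheory Real
open H60

variable {K : Type} [Field K] [Algebra ℂ K] {d : Dat K}

/-- The coefficients of the forms in the chart `u`. -/
def Dat.β (d : Dat K) (u : Fin 2 → K) (l : Fin 3) : K := d.h l / Wd d.E (u 0) (u 1) ^ d.m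

/-- The algebraic hypothesis on a chart. -/
structure Dat.Al (d : Dat K) (u : Fin 2 → K) (θ : PR 2) : Prop where
  alg : Alg d.E d.m d.h d.z' u θ
  ne : aeval u θ ≠ 0

lemma Dat.Al.tb {u : Fin 2 → K} {θ : PR 2} (h : d.Al u θ) : IsTranscendenceBasis ℂ u := h.alg.1

lemma Dat.Al.wd {u : Fin 2 → K} {θ : PR 2} (h : d.Al u θ) : Wd d.E (u 0) (u 1) ≠ 0 := h.alg.2.1

namespace Mdl

/-- The genericity conditions attached to a chart. -/
def Full (M : Mdl d) (u : Fin 2 → K) : Prop := (∀ i, M.Gen (u i)) ∧ M.Gen (d.β u 0) ∧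
  ∀ j, d.z' j ≠ 0 → M.Gen (d.z' j) ∧ ∀ᶠ k in atTop, Chain d.z d.E u (d.z' j) (M.F k) 0 ∧
    ∀ ζ ∈ ball (0 : ℂ) 1, ∀ᶠ w in 𝓝[≠] ζ, Chain d.z d.E u (d.z' j) (M.F k) w

/-- A property that holds for sufficiently generic sequences of discs. -/
def Gc (d : Dat K) (P : Mdl d → Prop) : Prop :=
  ∃ S : Finset K, 0 ∉ S ∧ ∀ M : Mdl d, (∀ s ∈ S, M.Gen s) → P M

variable {P Q : Mdl d → Prop} {M : Mdl d} {u α : Fin 2 → K} {θ S : PR 2} {g : K}

lemma Gc.and (h : Gc d P) (h' : Gc d Q) : Gc d fun M => P M ∧ Q M := by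
  classical
  obtain ⟨S, a1, a2⟩ := h
  obtain ⟨S', b1, b2⟩ := h'
  exact ⟨S ∪ S', by simp [a1, b1], fun M hM => ⟨a2 M fun s hs => hM s (by simp [hs]),
    b2 M fun s hs => hM s (by simp [hs])⟩⟩

lemma Gc.mono (h : Gc d P) (H : ∀ M, P M → Q M) : Gc d Q :=
  h.imp fun _ a => ⟨a.1, fun M hM => H M (a.2 M hM)⟩

lemma Gc.all {ι : Type} [Finite ι] {P : ι → Mdl d → Prop} (h : ∀ i, Gc d (P i)) :
    Gc d fun M => ∀ i, P i M := by
  classical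
  have := Fintype.ofFinite ι
  choose S a1 a2 using h
  exact ⟨Finset.univ.biUnion S, by simp [a1], fun M hM i => a2 i M fun s hs =>
    hM s (Finset.mem_biUnion.2 ⟨i, Finset.mem_univ i, hs⟩)⟩

lemma Gc.gen (h : g ≠ 0) : Gc d fun M => M.Gen g := ⟨{g}, by simpa using h.symm, by simp⟩

lemma Gc.triv (h : ∀ M, P M) : Gc d P := ⟨∅, by simp, fun M _ => h M⟩

lemma Gc.chain (H : All) (hu : IsTranscendenceBasis ℂ u) (hW : Wd d.E (u 0) (u 1) ≠ 0) (g : K) :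
    Gc d fun M => ∀ᶠ k in atTop, Chain d.z d.E u g (M.F k) 0 ∧
      ∀ ζ ∈ ball (0 : ℂ) 1, ∀ᶠ w in 𝓝[≠] ζ, Chain d.z d.E u g (M.F k) w := by
  obtain ⟨S, a1, a2⟩ := H.chain K d.n d.U d.z d.E u g d.hz hu hW
  refine ⟨S, a1, fun M hM => ?_⟩
  filter_upwards [(S.eventually_all).2 fun s hs => (hM s hs).un] with k hk
  refine ⟨a2 1 _ 0 (M.hF k) (mem_ball_self one_pos) fun s hs => (hk s hs).1, fun ζ hζ => ?_⟩
  filter_upwards [(S.eventually_all).2 fun s hs => (hk s hs).2 ζ hζ, punct hζ] with w b1 b2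
  exact a2 1 _ w (M.hF k) b2 b1

lemma aeval_ne (hu : IsTranscendenceBasis ℂ u) {P : PR 2} (h : P ≠ 0) : aeval u P ≠ 0 :=
  fun e => h (hu.1 (by rw [map_zero]; exact e))

lemma Gc.full (H : All) (h : d.Al u θ) : Gc d fun M => M.Full u := by
  refine ((Gc.all fun i => Gc.gen ?_).and ((Gc.gen ?_).and (Gc.all fun j => ?_)))
  · simpa using aeval_ne h.tb (X_ne_zero i)
  · exact div_ne_zero d.ld.2.2.2.2.2.1 (pow_ne_zero _ h.wd)
  · by_cases hj : d.z' j = 0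
    · exact Gc.triv fun M a => absurd hj a
    · exact ((Gc.gen hj).and (Gc.chain H h.tb h.wd _)).mono fun M a _ => a

lemma β_eq (l : Fin 3) : d.β u l = d.β u 0 * (d.h l / d.h 0) := by
  have := d.ld.2.2.2.2.2.1
  simp only [Dat.β]
  field_simp

lemma rg_β (h : M.Rg (d.β u 0)) (l : Fin 3) : M.Rg (d.β u l) := by
  filter_upwards [h, M.hX] with k a1 a2
  exact β_eq (u := u) l ▸ (vl_mul (on (mem_ball_self one_pos)) a1 (a2 l)).1

lemma bdd (H : All) (hI : Int2 u (aeval u S * g)) (hu : ∀ i, M.Rg (u i)) (hg : M.Rg g) :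
    ∃ (A : ℝ) (N : ℕ), 0 < A ∧ ∀ᶠ k in atTop, ∀ ζ ∈ ball (0 : ℂ) 1, ∀ᶠ w in 𝓝[≠] ζ,
      ‖(M.ch u θ).ev S k w‖ * ‖M.V g k w‖ ≤ A * (1 + ‖(M.ch u θ).pt k w‖) ^ N := by
  obtain ⟨A, N, A0, h⟩ := H.int K d.n d.z u _ hI
  refine ⟨A, N, A0, ?_⟩
  filter_upwards [gen_pt (θ := θ) hu, hg] with k a1 a2 ζ hζ
  filter_upwards [a1 ζ hζ, reg_ev a2 hζ] with w b1 b2
  have o := on (M := M) (k := k) b1.1
  have c := vl_mul o (vl_aeval o b1.2.1 S).1 b2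
  have e : (M.ch u θ).pt k w = fun i => vl d.z (u i) (M.F k w) :=
    funext fun i => (b1.2.2.2.1 i).self_of_nhds
  rw [(b1.2.2.2.2 S).self_of_nhds, ← norm_mul, V, V, ← c.2, e]
  exact h _ o b1.2.1 c.1

lemma rem_int (H : All) (hI : Int2 u (aeval u S * g)) (hu : ∀ i, M.Rg (u i)) (hg : M.Rg g) :
    ∀ᶠ k in atTop, ∀ ζ ∈ dom M.C (M.ch u θ) univ k, (M.ch u θ).ev S k ζ ≠ 0 →
      Rem (M.V g k) ζ := by
  obtain ⟨A, N, A0, h⟩ := bdd (θ := θ) H hI hu hg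
  filter_upwards [h, hg] with k a1 a2 ζ hζ hS
  have c1 : ContinuousAt (fun w => A * (1 + ‖(M.ch u θ).pt k w‖) ^ N / ‖(M.ch u θ).ev S k w‖) ζ :=
    (continuousAt_const.mul ((continuousAt_const.add (pt_an hζ).continuousAt.norm).pow N)).div
      (ev_an hζ S).continuousAt.norm (norm_ne_zero_iff.2 hS)
  refine rem_of_bdd (mer a2 ζ (sub hζ.1)) 
    (B := A * (1 + ‖(M.ch u θ).pt k ζ‖) ^ N / ‖(M.ch u θ).ev S k ζ‖ + 1) ?_
  filter_upwards [a1 ζ (sub hζ.1), mem_nhdsWithin_of_mem_nhds (c1.eventually (gt_mem_nhds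
    (lt_add_one _))), mem_nhdsWithin_of_mem_nhds ((ev_an hζ S).continuousAt.eventually_ne hS)]
    with w b1 b2 b3
  exact le_trans ((le_div_iff₀' (norm_pos_iff.2 b3)).2 b1) (le_of_lt b2)

lemma p2 (H : All) (hF : M.Full u) (hW : Wd d.E (u 0) (u 1) ≠ 0) (hα : ∀ i, M.Rg (α i))
    {S : Fin d.n' → PR 2} (hI : ∀ j, Int2 u (aeval u (S j) *
      ((α 0 * pd d.E u 0 (d.z' j) + α 1 * pd d.E u 1 (d.z' j)) / d.z' j))) :
    ∀ᶠ k in atTop, ∀ ζ ∈ dom M.C (M.ch u θ) univ k, (∀ j, (M.ch u θ).ev (S j) k ζ ≠ 0) →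
      Rem (fun w => (M.ch u θ).b k w * (M.V (α 0) k w * (M.ch u θ).dv k w 1 -
        M.V (α 1) k w * (M.ch u θ).dv k w 0) ^ M.C.m) ζ := by
  have r := fun i => (hF.1 i).rg
  have m0 : (0 : ℂ) ∈ ball 0 1 := mem_ball_self one_pos
  have r2 : ∀ j, M.Rg ((α 0 * pd d.E u 0 (d.z' j) + α 1 * pd d.E u 1 (d.z' j)) / d.z' j) :=
    fun j => by
    by_cases hj : d.z' j = 0
    · rw [hj, div_zero]; exact .of_forall fun k => (vl_zero (on m0)).1
    filter_upwards [(hF.2.2 j hj).1.un, (hF.2.2 j hj).2, hα 0, hα 1] with k a1 a2 a3 a4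
    exact (vl_div (on m0) (vl_add (on m0) (vl_mul (on m0) a3 (a2.1.1 0)).1
      (vl_mul (on m0) a4 (a2.1.1 1)).1).1 a1.1).1
  have r3 : ∀ j, ∀ᶠ k in atTop, ∀ ζ ∈ ball (0 : ℂ) 1, ∀ᶠ w in 𝓝[≠] ζ, d.z' j ≠ 0 →
      Un d.z (M.F k w) (d.z' j) ∧ Chain d.z d.E u (d.z' j) (M.F k) w := fun j => by
    by_cases hj : d.z' j = 0
    · exact .of_forall fun k ζ _ => .of_forall fun w a => absurd hj a
    filter_upwards [(hF.2.2 j hj).1.un, (hF.2.2 j hj).2] with k a1 a2 ζ hζ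
    exact ((a1.2 ζ hζ).and (a2.2 ζ hζ)).mono fun w a _ => a
  filter_upwards [eventually_all.2 fun j => rem_int (θ := θ) H (hI j) r (r2 j),
    eventually_all.2 r3, eventually_all.2 hα, gen_pt (θ := θ) r, M.hg, M.hΦ, hF.2.1.rg]
    with k a1 a2 a3 a4 a5 a6 a7 ζ hζ hS
  have z1 := sub hζ.1
  have z2 : ζ ∈ ball (0 : ℂ) (3 / 4) := ball_subset_ball (by norm_num) (M.hΩ k ▸ hζ.1)
  obtain ⟨l, hl⟩ := Function.ne_iff.1 (a6.1.2 ζ z2)
  have an : AnalyticAt ℂ (fun w => M.Φ k w l) ζ :=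
    analyticAt_pi_iff.1 (a6.1.1.analyticAt (isOpen_ball.mem_nhds z2)) l
  have b0 : ∀ᶠ w in 𝓝[≠] ζ, ∀ a, d.z a ≠ 0 → M.F k w a ≠ 0 := eventually_all.2 fun a => by
    by_cases ha : d.z a = 0
    · exact .of_forall fun w b => absurd ha b
    · exact (NZ.ev (differentiableOn_pi.1 (M.hF k).1 a) ⟨0, m0, a5.2.2.2 a ha⟩ z1).mono
        fun w b _ => b
  obtain ⟨f, f1, f2⟩ := H.p2 K _ _ d.U d.z d.W d.z' d.pr d.m d.E d.h u α 1 (M.F k) ζ d.ld d.hz hW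
    (M.hF k) z1 (by
      filter_upwards [a4 ζ z1, eventually_all.2 fun i => reg_ev (a3 i) z1, b0,
        eventually_all.2 fun j => a2 j ζ z1] with w b1 b2 b3 b4
      exact ⟨fun i => ⟨b1.2.1 i, b2 i⟩, b3, b4⟩) (fun j => a1 j ζ hζ (hS j)) l
  refine ⟨fun w => f w / M.Φ k w l, f1.div an hl, ?_⟩
  filter_upwards [f2, a4 ζ z1, a6.2 ζ hζ.1, reg_ev a7 z1,
    mem_nhdsWithin_of_mem_nhds (an.continuousAt.eventually_ne hl)] with w b1 b2 b3 b4 b5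
  rw [eq_div_iff b5, ← b1, (b3.2 l).2, M.hm]
  have c := (vl_mul (on b2.1) b4 (b3.2 l).1).2
  rw [← β_eq] at c
  simp only [Ch.dv, (b2.2.2.2.1 _).deriv_eq]
  simp only [ch, V, Dat.β] at c ⊢
  rw [c]
  field_simp [b3.1]
  exact mul_right_comm _ _ _

lemma p1 (H : All) (hF : M.Full u) (hg : M.Gen g) {S : Fin 3 → PR 2}
    (hI : ∀ l, Int2 u (aeval u (S l) * (g ^ d.m * d.β u l))) (R : ℝ) {c : ℝ} (hc : 0 < c) :
    ∃ a, ∀ᶠ k in atTop, ∀ᵐ z, z ∈ M.C.Ω k → ‖(M.ch u θ).pt k z‖ ≤ R →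
      (∀ l, c ≤ ‖(M.ch u θ).ev (S l) k z‖) →
      M.C.u k z + Bb M.C (M.ch u θ) k z + log (‖M.V g k z‖ ^ 2) ≤ a := by
  have r := fun i => (hF.1 i).rg
  have m0 : (0 : ℂ) ∈ ball 0 1 := mem_ball_self one_pos
  have r2 : ∀ l, M.Rg (g ^ d.m * d.β u l) := fun l => by
    filter_upwards [hg.rg, rg_β hF.2.1.rg l] with k a1 a2
    exact (vl_mul (on m0) (vl_pow (on m0) a1 _).1 a2).1
  choose A N A0 hA using fun l => bdd (θ := θ) H (hI l) r (r2 l)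
  refine ⟨log (∑ l, (A l * (1 + R) ^ N l / c) ^ 2) / d.m, ?_⟩
  filter_upwards [eventually_all.2 hA, hg.un, hF.2.1.un, M.hΦ] with k a1 a2 a3 a4
  filter_upwards [ae_of_punct (M.ok.1 k) fun z hz => (eventually_all.2 fun l =>
    a1 l z (sub hz)).and ((a2.2 z (sub hz)).and ((a3.2 z (sub hz)).and (a4.2 z hz)))]
    with z b hz hR hS
  obtain ⟨b1, b2, b3, b4⟩ := b hz
  have o := on (M := M) (k := k) (sub hz)
  have mp : (0 : ℝ) < d.m := Nat.cast_pos.2 d.ld.2.2.2.2.1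
  have e : ∀ l, M.V (g ^ d.m * d.β u l) k z =
      M.Φ k z l * (M.ch u θ).b k z * M.V g k z ^ d.m := fun l => by
    have c := vl_mul o b3.1 (b4.2 l).1
    rw [← β_eq] at c
    rw [V, (vl_mul o (vl_pow o b2.1 _).1 c.1).2, (vl_pow o b2.1 _).2, c.2, (b4.2 l).2]
    simp only [ch, V, Dat.β]
    field_simp [b4.1]
  have p1 : 0 < sq (M.Φ k z) := Finset.sum_pos' (fun _ _ => by positivity)
    ⟨0, Finset.mem_univ _, by have := b4.1; positivity⟩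
  have p2 : 0 < ‖(M.ch u θ).b k z‖ ^ 2 := by
    have : (M.ch u θ).b k z ≠ 0 := div_ne_zero b3.2 b4.1
    positivity
  have p3 : 0 < ‖M.V g k z‖ ^ 2 := by have : M.V g k z ≠ 0 := b2.2; positivity
  rw [M.hu, Bb, M.hm, ← add_div, div_add' _ _ _ mp.ne', mul_comm (log _), ← log_pow,
    ← log_mul p1.ne' p2.ne', ← log_mul (by positivity) (by positivity)]
  refine div_le_div_of_nonneg_right (log_le_log (by positivity) ?_) mp.le
  rw [sq, Finset.sum_mul, Finset.sum_mul]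
  refine Finset.sum_le_sum fun l _ => ?_
  rw [← pow_mul, mul_comm 2, pow_mul, ← mul_pow, ← mul_pow, ← norm_pow, ← norm_mul, ← norm_mul,
    ← e]
  refine pow_le_pow_left₀ (norm_nonneg _) ((le_div_iff₀' hc).2 ?_) 2
  refine ((mul_le_mul_of_nonneg_right (hS l) (norm_nonneg _)).trans (b1 l)).trans ?_
  have := A0 l
  gcongr

end Mdl

end Pool.Agent.MP_c69980_ag.H4
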