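import Pool.Agent.MP_c69980_ag.H4.M4

/-!
Blowing up, the charts at infinity, and the global potential.
-/

set_option autoImplicit false

noncomputable section

namespace Pool.Agent.MP_c69980_ag.H4

open MvPolynomial Metric Filter Topology Set MeasureTheory Real
open H60 Mdl

variable {K : Type} [Field K] [Algebra ℂ K] {d : Dat K} {u u' : Fin 2 → K} {θ θ' θ₁ θ₂ : PR 2}

lemma cover (H : All) {A : Set (Fin 2 → ℂ)} (hA : IsCompact A) {q₀ : Fin 2 → ℂ} (h0 : q₀ ∈ A)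
    (h : ∀ q ∈ A, d.PP u θ {q} {q}) : ∃ S, S.Finite ∧ S ⊆ A ∧ d.PP u θ A S := by
  have := hA.induction_on (p := fun t => ∃ A' S : Set (Fin 2 → ℂ), IsCompact A' ∧ t ⊆ A' ∧
    S.Finite ∧ S ⊆ A ∧ d.PP u θ A' S) ⟨_, _, isCompact_singleton, empty_subset _, finite_singleton _,
      singleton_subset_iff.2 h0, h _ h0⟩
    (fun s t hst ⟨A', S, a1, a2, a3⟩ => ⟨A', S, a1, hst.trans a2, a3⟩) ?_ ?_
  · obtain ⟨A', S, -, a2, a3, a4, G, g1, g2, g3⟩ := this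
    exact ⟨S, a3, a4, G, g1, a2.trans g2, g3⟩
  · rintro s t ⟨A₁, S₁, a1, a2, a3, a4, G₁, g1, g2, g3, g4⟩ ⟨A₂, S₂, b1, b2, b3, b4, G₂, f1, f2,
      f3, f4⟩
    obtain ⟨G, c1, c2, c3, c4⟩ := H.fin A₁ A₂ G₁ G₂ S₁ S₂ a1 b1 g1 f1 g2 f2 a3 b3
    exact ⟨_, _, a1.union b1, union_subset_union a2 b2, a3.union b3, union_subset a4 b4, G, c1, c2,
      fun q hq hq' => (c3 hq).elim (fun e => g3 q e fun x => hq' (.inl x))
        fun e => f3 q e fun x => hq' (.inr x),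
      (g4.and f4).mono fun M a hc => c4 _ _ M.ok hc (a.1 hc) (a.2 hc)⟩
  · intro q hq
    obtain ⟨G, g1, g2, g3⟩ := h q hq
    obtain ⟨ε, ε0, hε⟩ := nhds_basis_closedBall.mem_iff.1 (g1.mem_nhds (g2 rfl))
    exact ⟨_, mem_nhdsWithin_of_mem_nhds (closedBall_mem_nhds q ε0), _, _, isCompact_closedBall q ε,
      subset_rfl, finite_singleton q, singleton_subset_iff.2 hq, G, g1, hε, g3⟩

lemma sub_chart (H : All) (hu : d.Al u θ) {p : Fin 2 → PR 2} {s q : PR 2} {N : ℕ}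
    (hs : aeval u' s ≠ 0) (h : ∀ i, u i = aeval u' (p i) / aeval u' s) (h1 : s ∣ θ')
    (h2 : aeval u' θ' ^ N = aeval u θ * aeval u' q) (h3 : aeval u' θ' ≠ 0)
    (hθ : ∀ y, eval y θ' ≠ 0 → eval y s ≠ 0 ∧ eval y (JJ p s) ≠ 0 ∧ eval (rat p s y) θ ≠ 0) :
    d.Al u' θ' ∧ Gc d fun M => ChOK M.C (M.ch u θ) → ChOK M.C (M.ch u' θ') ∧
      ∀ᶠ k in atTop, ∀ ζ ∈ M.C.Ω k, ∀ᶠ w in 𝓝[≠] ζ, (∀ i, (M.ch u θ).pt k w i ≠ 0) ∧
        eval ((M.ch u' θ').pt k w) s ≠ 0 ∧ (M.ch u θ).pt k w = rat p s ((M.ch u' θ').pt k w) ∧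
        ‖(M.ch u' θ').b k w‖ = ‖(M.ch u θ).b k w‖ * ‖eval ((M.ch u' θ').pt k w) (JJ p s) /
          eval ((M.ch u' θ').pt k w) s ^ 4‖ ^ M.C.m := by
  have hu' : d.Al u' θ' :=
    ⟨H.achange K _ _ d.z' d.E d.h u u' θ θ' s q p N d.ld.2.2.1 hu.alg hs h h1 h2, h3⟩
  refine ⟨hu', ((Gc.full H hu).and ((Gc.full H hu').and ((Gc.gen h3).and (Gc.gen hs)))).mono ?_⟩
  rintro M ⟨m1, m2, m3, m4⟩ hc
  refine ⟨child H hc m2.1 m2.2.1 m3 m4 m1.2.1.rg hu.wd h hθ, ?_⟩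
  filter_upwards [rel_pt (θ := θ) (θ' := θ') (fun i => (m2.1 i).rg) m4 m1.2.1.rg hu.wd h,
    gen_pt (θ := θ) fun i => (m1.1 i).rg, eventually_all.2 fun i => (m1.1 i).un]
    with k a1 a2 a3 ζ hζ
  filter_upwards [a1 ζ hζ, a2 ζ (sub hζ), eventually_all.2 fun i => (a3 i).2 ζ (sub hζ)]
    with w b1 b2 b3
  exact ⟨fun i => (b2.2.2.2.1 i).self_of_nhds.trans_ne (b3 i).2, b1.1, b1.2.1,
    jac_rat (p := p) b1.1 ▸ b1.2.2⟩

lemma line_cover (H : All) (hu : d.Al u θ) (h : ∀ s : ℂ, d.PI (tr ![0, s] θ)) {R : ℝ}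
    (hR : 0 ≤ R) : ∃ S : Set (Fin 2 → ℂ), S.Finite ∧ (∀ q ∈ S, q 0 = 0) ∧
      d.PP u θ {q | q 0 = 0 ∧ ‖q 1‖ ≤ R} S := by
  have e : ∀ q : Fin 2 → ℂ, q 0 = 0 → ![0, q 1] = q := fun q hq => by
    ext i; fin_cases i <;> simp [hq]
  refine (cover (d := d) (u := u) (θ := θ) H
    (A := {q | q 0 = 0 ∧ ‖q 1‖ ≤ R}) (q₀ := 0) ?_ ⟨rfl, by simpa⟩ fun q hq =>
      tr_step H (e q hq.1 ▸ h (q 1)) hu).imp fun S a => ⟨a.1, fun q hq => (a.2.1 hq).1, a.2.2⟩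
  · refine (isCompact_closedBall (0 : Fin 2 → ℂ) R).of_isClosed_subset
      ((isClosed_eq (continuous_apply 0) continuous_const).inter
        (isClosed_le (continuous_apply 1).norm continuous_const)) fun q hq => ?_
    rw [mem_closedBall_zero_iff, pi_norm_le_iff_of_nonneg hR, Fin.forall_fin_two]
    exact ⟨by simpa [hq.1], hq.2⟩

lemma Dat.Al.ne0 (hu : d.Al u θ) (i : Fin 2) : u i ≠ 0 := by
  simpa using aeval_ne hu.tb (X_ne_zero i)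

lemma blow_chart (H : All) (hu : d.Al u θ) {p : Fin 2 → PR 2} {ν : ℕ} {i : Fin 2}
    (h : ∀ l, u l = aeval u' (p l)) (h1 : aeval p θ = X i ^ ν * θ') (h2 : X i ∣ θ')
    (h3 : JJ p 1 = X i) :
    d.Al u' θ' ∧ Gc d fun M => ChOK M.C (M.ch u θ) → ChOK M.C (M.ch u' θ') ∧
      ∀ᶠ k in atTop, ∀ ζ ∈ M.C.Ω k, ∀ᶠ w in 𝓝[≠] ζ, (∀ i, (M.ch u θ).pt k w i ≠ 0) ∧
        (∀ l, (M.ch u θ).pt k w l = eval ((M.ch u' θ').pt k w) (p l)) ∧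
        ‖(M.ch u' θ').b k w‖ = ‖(M.ch u θ).b k w‖ * ‖(M.ch u' θ').pt k w i‖ ^ M.C.m := by
  obtain ⟨r, hr⟩ := h2
  have e : aeval u θ = u' i ^ ν * aeval u' θ' := by
    rw [funext h, ← comp_aeval_apply p (aeval u'), h1]; simp
  obtain ⟨a1, a2⟩ := sub_chart H hu (u' := u') (θ' := θ') (p := p) (s := 1) (q := r ^ ν)
    (N := ν + 1) (by simp) (by simpa using h) (one_dvd _) (by
      rw [e, pow_succ]
      conv_lhs => enter [1]; rw [hr]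
      simp only [map_mul, map_pow, aeval_X]
      ring) (right_ne_zero_of_mul (e ▸ hu.ne)) fun y hy => by
      have : y i ≠ 0 := fun e => hy (by simp [hr, e])
      refine ⟨by simp, by simpa [h3], ?_⟩
      rw [rat_one, ← eval_aeval', h1]
      simp [this, hy]
  refine ⟨a1, a2.mono fun M m hc => ⟨(m hc).1, (m hc).2.mono fun k hk ζ hζ => (hk ζ hζ).mono
    fun w b => ⟨b.1, fun l => by rw [b.2.2.1, rat_one], by simpa [h3] using b.2.2.2⟩⟩⟩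

lemma blow_step (H : All) (hB : Bl θ θ₁ θ₂) (h1 : ∀ s : ℂ, d.PI (tr ![0, s] θ₁)) (h2 : d.PI θ₂) :
    d.PI θ := fun u hu => by
  obtain ⟨ν, b1, b2, b3, b4⟩ := id hB
  have x0 := hu.ne0 0
  have y0 := hu.ne0 1
  obtain ⟨a1, c1⟩ := blow_chart H hu (u' := ![u 0, u 1 / u 0]) (fun l => by
    fin_cases l <;> simp [mul_div_cancel₀ _ x0]) b1 b2 (by simp [JJ, dq])
  obtain ⟨a2, c2⟩ := blow_chart H hu (u' := ![u 0 / u 1, u 1]) (fun l => by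
    fin_cases l <;> simp [y0]) b3 b4 (by simp [JJ, dq])
  obtain ⟨G₂, g1, g2, g3, g4⟩ := h2 _ a2
  obtain ⟨ε, ε0, hε⟩ := Metric.isOpen_iff.1 g1 0 (g2 rfl)
  obtain ⟨S, s1, s2, G₁, f1, f2, f3, f4⟩ := line_cover H a1 h1 (R := 2 / ε) (by positivity)
  obtain ⟨G, e1, e2, e3, e4⟩ := H.blow θ θ₁ θ₂ G₁ G₂ S ε hB ε0 f1 g1 hε (fun q a b => f2 ⟨a, b⟩)
    s1 s2 f3 g3
  refine ⟨G, e1, singleton_subset_iff.2 e2, e3, (c1.and (c2.and (g4.and f4))).mono ?_⟩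
  rintro M ⟨m1, m2, m3, m4⟩ hc
  refine e4 M.C _ _ _ M.ok hc (m1 hc).1 (m2 hc).1 rfl rfl rfl ?_ (m4 (m1 hc).1) (m3 (m2 hc).1)
  filter_upwards [(m1 hc).2, (m2 hc).2] with k n1 n2 ζ hζ
  filter_upwards [n1 ζ hζ, n2 ζ hζ] with w p1 p2
  refine ⟨p1.1 0, p1.1 1, rfl, ?_, ?_, rfl, p1.2.2, p2.2.2⟩
  · have := p1.2.1 1
    simp only [Matrix.cons_val_zero, Matrix.cons_val_one, map_mul, eval_X] at this
    exact (mul_comm _ _).trans this.symm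
  · have := p2.2.1 0
    simp only [Matrix.cons_val_zero, map_mul, eval_X] at this
    exact this.symm

lemma res_all (H : All) (h : Squarefree θ) (hu : d.Al u θ) (q : Fin 2 → ℂ) : d.PP u θ {q} {q} :=
  tr_step H (H.res d.PI (fun _ => term_step H) (fun _ => swap_step H) (fun _ _ _ => blow_step H)
    θ h q) hu

lemma inf_chart (H : All) (hu : d.Al u θ) {p : Fin 2 → PR 2} {ν : ℕ} {i : Fin 2} (h0 : u' i ≠ 0)
    (h : ∀ l, u l = aeval u' (p l) / u' i) (h1 : aeval u' θ' = u' i ^ ν * aeval u θ)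
    (h1' : ∀ y : Fin 2 → ℂ, y i ≠ 0 → eval y θ' = y i ^ ν * eval (rat p (X i) y) θ)
    (h2 : X i ∣ θ') (h3 : JJ p (X i) = -X i) :
    d.Al u' θ' ∧ Gc d fun M => ChOK M.C (M.ch u θ) → ChOK M.C (M.ch u' θ') ∧
      ∀ᶠ k in atTop, ∀ ζ ∈ M.C.Ω k, ∀ᶠ w in 𝓝[≠] ζ, (M.ch u' θ').pt k w i ≠ 0 ∧
        (∀ l, (M.ch u θ).pt k w l = eval ((M.ch u' θ').pt k w) (p l) / (M.ch u' θ').pt k w i) ∧
        ‖(M.ch u' θ').b k w‖ =
          ‖(M.ch u θ).b k w‖ * ‖((M.ch u' θ').pt k w i)⁻¹‖ ^ (3 * M.C.m) := by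
  obtain ⟨a1, a2⟩ := sub_chart H hu (u' := u') (θ' := θ') (p := p) (s := X i) (q := X i ^ ν)
    (N := 1) (by simpa) (by simpa using h) h2 (by simp [h1, mul_comm])
    (h1 ▸ mul_ne_zero (pow_ne_zero _ h0) hu.ne) fun y hy => by
      obtain ⟨r, hr⟩ := h2
      have : y i ≠ 0 := fun e => hy (by simp [hr, e])
      exact ⟨by simpa, by simpa [h3], right_ne_zero_of_mul (h1' y this ▸ hy)⟩
  refine ⟨a1, a2.mono fun M m hc => ⟨(m hc).1, (m hc).2.mono fun k hk ζ hζ => (hk ζ hζ).mono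
    fun w b => ?_⟩⟩
  have : (M.ch u' θ').pt k w i ≠ 0 := by simpa using b.2.1
  refine ⟨this, fun l => by rw [b.2.2.1, rat, eval_X], ?_⟩
  rw [b.2.2.2, pow_mul, h3]
  congr 2
  rw [← norm_pow, ← norm_neg]
  congr 1
  simp only [map_neg, eval_X]
  field_simp

lemma glob (H : All) (h : Squarefree θ) (hu : d.Al u θ) : ∃ S : Set (Fin 2 → ℂ), S.Finite ∧
    Gc d fun M => ChOK M.C (M.ch u θ) → PotG M.C (M.ch u θ) S := by
  obtain ⟨θ₁, θ₂, q1, q2, hI⟩ := H.infp θ h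
  obtain ⟨b1, b2, ν, b3⟩ := id hI
  have x0 := hu.ne0 0
  have y0 := hu.ne0 1
  have e : ![u 0, u 1] = u := by ext i; fin_cases i <;> rfl
  obtain ⟨a1, c1⟩ := inf_chart H hu (u' := ![(u 0)⁻¹, u 1 / u 0]) (p := ![1, X 1]) (i := 0) (ν := ν)
    (by simpa) (fun l => by fin_cases l <;> simp [x0]) (by
      simpa [x0, e] using (b3 K (u 0)⁻¹ (u 1 / u 0) (inv_ne_zero x0)).1) (fun y hy => by
      convert (b3 ℂ (y 0) (y 1) hy).1 using 2 <;> rw [aeval_eq_eval] <;> congr 2 <;> ext i <;>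
        fin_cases i <;> simp [rat]) b1 (by simp [JJ, dq])
  obtain ⟨a2, c2⟩ := inf_chart H hu (u' := ![u 0 / u 1, (u 1)⁻¹]) (p := ![X 0, 1]) (i := 1) (ν := ν)
    (by simpa) (fun l => by fin_cases l <;> simp [y0]) (by
      simpa [y0, e] using (b3 K (u 1)⁻¹ (u 0 / u 1) (inv_ne_zero y0)).2) (fun y hy => by
      convert (b3 ℂ (y 1) (y 0) hy).2 using 2 <;> rw [aeval_eq_eval] <;> congr 2 <;> ext i <;>
        fin_cases i <;> simp [rat]) b2 (by simp [JJ, dq])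
  obtain ⟨G₂, g1, g2, g3, g4⟩ := res_all H q2 a2 0
  obtain ⟨ε, ε0, hε⟩ := Metric.isOpen_iff.1 g1 0 (g2 rfl)
  obtain ⟨S, s1, s2, G₁, f1, f2, f3, f4⟩ := line_cover H a1 (fun s => H.res d.PI
    (fun _ => term_step H) (fun _ => swap_step H) (fun _ _ _ => blow_step H) θ₁ q1 _)
    (R := 2 / ε) (by positivity)
  obtain ⟨R, hR⟩ := H.inf θ θ₁ θ₂ G₁ G₂ S ε hI ε0 f1 g1 hε (fun q a b => f2 ⟨a, b⟩) s1 s2 f3 g3
  obtain ⟨S₀, t1, -, G₀, t2, t3, -, t4⟩ := cover H (isCompact_closedBall 0 |R|)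
    (mem_closedBall_self (abs_nonneg R)) fun q _ => res_all H h hu q
  refine ⟨S₀, t1, (c1.and (c2.and (g4.and (f4.and t4)))).mono ?_⟩
  rintro M ⟨m1, m2, m3, m4, m5⟩ hc
  refine hR G₀ S₀ t2 ((closedBall_subset_closedBall (le_abs_self R)).trans t3) t1 M.C _ _ _ M.ok hc
    (m1 hc).1 (m2 hc).1 rfl rfl rfl ?_ (m5 hc) (m4 (m1 hc).1) (m3 (m2 hc).1)
  filter_upwards [(m1 hc).2, (m2 hc).2] with k n1 n2 ζ hζ
  filter_upwards [n1 ζ hζ, n2 ζ hζ] with w ⟨p1, p2, p3⟩ ⟨p4, p5, p6⟩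
  have r1 := p2 0
  have r2 := p2 1
  have r3 := p5 0
  have r4 := p5 1
  simp only [Matrix.cons_val_zero, Matrix.cons_val_one, map_one, eval_X, one_div, Ch.pt]
    at r1 r2 r3 r4 p1 p4 p3 p6
  refine ⟨by rw [r1, mul_inv_cancel₀ p1], by rw [r1, r2]; exact (div_eq_mul_inv _ _).symm,
    by rw [r3, r4]; exact (div_eq_mul_inv _ _).symm,
    by rw [r4, mul_inv_cancel₀ p4], by rw [r1, p3], by rw [r4, p6]⟩

end Pool.Agent.MP_c69980_ag.H4
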