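import Pool.Agent.MP_c69980_ag.H4.M6
import Pool.Agent.MP_c69980_ag.H66.Calc

/-!
The outer potential, the final inequality, and the vanishing of the mass outside the curve.
-/

set_option autoImplicit false

noncomputable section

namespace Pool.Agent.MP_c69980_ag.H4

open MvPolynomial Metric Filter Topology Set MeasureTheory Real
open H60 Mdl

variable {K : Type} [Field K] [Algebra ℂ K] {d : Dat K} {M : Mdl d} {u : Fin 2 → K} {θ : PR 2}

lemma outer (H : All) (hu : d.Al u θ) (hF : M.Full u) (hc : ChOK M.C (M.ch u θ))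
    {G K₀ : Set (Fin 2 → ℂ)} (hG : IsOpen G) (hK : IsCompact K₀) (h1 : G ⊆ K₀)
    (h2 : ∀ q ∈ K₀, eval q θ ≠ 0) :
    (∀ η, 0 < η → Valid M.C (dom M.C (M.ch u θ) G)
      (fun k z => Bb M.C (M.ch u θ) k z + log ((M.ch u θ).N2 k z)) η) ∧
    ∀ A, IsCompact A → A ⊆ G → Eul M.C (M.ch u θ)
      (fun k z => Bb M.C (M.ch u θ) k z + log ((M.ch u θ).N2 k z)) A := by
  obtain ⟨N, hN⟩ := int_unif hu.alg.2.2.1
  obtain ⟨L, hL⟩ := int_unif (ι := Fin d.n' × Fin 2) fun a => hu.alg.2.2.2 a.1 a.2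
  obtain ⟨R, hR⟩ := hK.isBounded.exists_norm_le
  obtain ⟨c, c0, hc'⟩ := hK.exists_forall_le' (f := fun q => ‖eval q (θ ^ N)‖) (a := 0)
    (MvPolynomial.continuous_eval _).norm.continuousOn fun q hq => by simp [h2 q hq]
  obtain ⟨a, ha⟩ := p1 (θ := θ) (S := fun _ => θ ^ N) H hF (gen_one (u := u))
    (fun l => by simpa [Dat.β] using hN l) R c0
  refine H.outer M.C _ G K₀ a M.ok hc hG hK h1 h2 ?_
  have e : ∀ i k, (M.ch u θ).ev (X i) k = (M.ch u θ).x i k := fun i k => funext fun w => by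
    simp [Ch.ev, Ch.pt]
  filter_upwards [ha, p2' (θ := θ) (P := 1) (Q := X 0) (S := fun _ => -θ ^ L) H hF hu.wd gen_one
    fun j => by
      convert hL (j, 1) using 1
      simp only [pd, Matrix.cons_val_zero, Matrix.cons_val_one, map_neg, map_one, aeval_X, one_mul]
      simp only [Wd]
      ring,
    p2' (θ := θ) (P := 1) (Q := X 1) (S := fun _ => θ ^ L) H hF hu.wd gen_one fun j => by
      simpa [pd] using hL (j, 0)] with k a1 a2 a3
  refine ⟨a1.mono fun z b hz => ?_, fun z hz => ?_⟩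
  · have := b hz.1 (hR _ (h1 hz.2.2)) fun _ => hc' _ (h1 hz.2.2)
    rwa [map_one, V, (vl_one (on (sub hz.1))).2, norm_one, one_pow, log_one, add_zero] at this
  · have b1 := h2 _ (h1 hz.2.2)
    rw [Fin.forall_fin_two]
    constructor
    · simpa [e, Ch.ev] using a2 z (dom_mono (subset_univ _) hz) fun _ => by simp [Ch.ev, b1]
    · simpa [e, Ch.ev] using a3 z (dom_mono (subset_univ _) hz) fun _ => by simp [Ch.ev, b1]

lemma contra (H : All) (hF : M.Full u) {G : Set (Fin 2 → ℂ)} {ρ : ℕ → ℝ} {g : ℕ → ℂ → ℝ} {κ : ℝ}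
    (hv : ∀ η, 0 < η → ∃ v, Valid M.C M.C.Ω v η ∧ ∀ k, ∀ z ∈ dom M.C (M.ch u θ) G k,
      v k z = Bb M.C (M.ch u θ) k z + log ((M.ch u θ).N2 k z))
    (hB : ∀ k, M.B k = ball 0 (ρ k))
    (hB' : ∀ᶠ k in atTop, ball 0 (ρ k) ⊆ dom M.C (M.ch u θ) G k ∧
      ∃ i, 1 ≤ ‖deriv ((M.ch u θ).x i k) 0‖) (κ0 : 0 < κ)
    (hg : ∀ᶠ k in atTop, TF M.c₀ (M.C.Ω k) (ball 0 (ρ k)) (g k) ∧ (∀ z, g k z ≤ M.C.g k z) ∧
      κ * M.C.T k ≤ ∫ z, M.C.u k z * lap (g k) z ∧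
      (∀ z ∉ ball 0 (ρ k), lap (g k) z ≤ M.C.T k * M.C.g k z) ∧
      ∃ σ : ℂ → ℝ, Continuous σ ∧ (∀ z, 0 ≤ σ z) ∧ (∀ z w, ‖z‖ = ‖w‖ → σ z = σ w) ∧
        tsupport σ ⊆ ball 0 (ρ k) ∧ ∀ z ∈ ball 0 (ρ k), lap (g k) z = -σ z)
    (hY : ∀ η, 0 < η → ∀ᶠ k in atTop, ∃ Y : ℂ → ℝ, Integrable Y ∧ (∀ z, 0 ≤ Y z) ∧
      ∫ z, Y z ≤ η * M.C.T k ∧ ∀ z, ‖grad (g k) z‖ ^ 2 ≤ M.C.g k z * Y z) : False := by
  refine H.final M.C (fun k => ball 0 (ρ k)) g M.c₀ κ M.ok κ0 M.hT ?_ hY fun η hη => ?_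
  · filter_upwards [hg, M.hΦ] with k a1 a2
    refine ⟨measurableSet_ball, a1.1, a1.2.1, ?_, a1.2.2.1, a1.2.2.2.1⟩
    rw [funext (M.hu k)]
    exact ((H.lapq _ _ _ isOpen_ball a2.1).1.continuousOn.mono
      (M.hΩ k ▸ ball_subset_ball (by norm_num))).div_const _
  obtain ⟨v, v1, v2⟩ := hv η hη
  obtain ⟨A, A0, hA⟩ := hF.2.1.bdd
  have mp : (0 : ℝ) < d.m := Nat.cast_pos.2 d.ld.2.2.2.2.1
  refine ⟨v, 2 * |log A| / d.m * M.c₀, v1, ?_⟩
  filter_upwards [hg, hB', hA, M.hΦ, M.hg] with k ⟨a1, _, _, _, σ, s1, s2, s3, s4, s5⟩ ⟨a2, i, hi⟩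
    a3 a4 a5
  have an : DifferentiableOn ℂ (deriv ((M.ch u θ).x i k)) (ball 0 (ρ k)) := fun z hz =>
    ((a2 hz).2.1 i).deriv.differentiableAt.differentiableWithinAt
  refine base_int H (by positivity) a1 s1 s2 s3 s4 s5 an hi ?_
  filter_upwards [ae_of_punct (M.ok.1 k) a4.2, ae_of_punct isOpen_ball fun z hz => NZ.ev an
    ⟨0, hB k ▸ a5.2.2.1, norm_pos_iff.1 (one_pos.trans_le hi)⟩ hz] with z b1 b2 hz
  have z1 := (a2 hz).1
  have n1 := norm_pos_iff.2 (b1 z1).1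
  have n2 := norm_pos_iff.2 (b2 hz)
  have n3 := (a3 z (hB k ▸ hz) (sub z1)).1
  have n4 := (inv_pos.2 A0).trans_le n3
  have q1 : ‖M.Φ k z 0‖ ^ 2 ≤ sq (M.Φ k z) := Finset.single_le_sum
    (f := fun i => ‖M.Φ k z i‖ ^ 2) (fun _ _ => by positivity) (Finset.mem_univ 0)
  have q2 : ‖deriv ((M.ch u θ).x i k) z‖ ^ 2 ≤ (M.ch u θ).N2 k z := Finset.single_le_sum
    (f := fun i => ‖(M.ch u θ).dv k z i‖ ^ 2) (fun _ _ => by positivity) (Finset.mem_univ i)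
  have q3 := log_le_log (by positivity) q1
  have q4 := log_le_log (by positivity) q2
  have q5 := log_le_log (inv_pos.2 A0) n3
  have q6 : log (‖(M.ch u θ).b k z‖ ^ 2) =
      2 * (log ‖M.V (d.β u 0) k z‖ - log ‖M.Φ k z 0‖) := by
    rw [← log_div n4.ne' n1.ne', ← norm_div, log_pow]; rfl
  rw [log_pow] at q3 q4
  rw [log_inv] at q5
  rw [v2 k z (a2 hz), M.hu, Bb, M.hm, q6, ← add_assoc, ← add_div]
  have : -(2 * |log A|) / d.m ≤ (log (sq (M.Φ k z)) +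
      2 * (log ‖M.V (d.β u 0) k z‖ - log ‖M.Φ k z 0‖)) / d.m :=
    div_le_div_of_nonneg_right (by push_cast at q3; linarith [le_abs_self (log A)]) mp.le
  rw [neg_div] at this
  push_cast at q4
  linarith

lemma null_mass (H : All) {G A : PR d.n} {e a : ℕ} (hG : G.IsHomogeneous e)
    (hA : A.IsHomogeneous a) (hGA : G ∣ A) (hU : ∀ y ∈ Cone d.U, eval y G ≠ 0)
    (hE : ∀ (F : ℕ → ℂ → Fin d.n → ℂ) (R : ℕ → ℝ), (∀ k, ∀ z ∈ ball 0 (R k), F k z ∈ Cone d.U) →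
      ¬Ent F R G A)
    (hS : ∀ (S : ℕ → Set ℂ) (η : ℝ), (∀ k, MeasurableSet (S k)) → 0 < η →
      (∃ᶠ k in atTop, ENNReal.ofReal (η * M.C.T k) <
        mu (fun z => M.C.g k z * lam (M.F k) z) (S k)) →
      ∃ (φ : ℕ → ℕ) (c : ℕ → ℂ) (r R : ℕ → ℝ) (ε₁ : ℝ), StrictMono φ ∧ 0 < ε₁ ∧
        Tendsto R atTop atTop ∧ (∀ k, 0 < r k ∧ ball (c k) (r k * R k) ⊆ ball 0 1 ∧
          ENNReal.ofReal ε₁ ≤ mu (lam (M.F (φ k))) (S (φ k) ∩ ball (c k) (r k))) ∧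
        ∀ t : ℕ, ∃ Λ : ℝ, ∀ᶠ k in atTop, mu (lam (M.F (φ k))) (ball (c k) (r k * t)) ≤
          ENNReal.ofReal Λ * mu (lam (M.F (φ k))) (S (φ k) ∩ ball (c k) (r k)))
    {b : ℝ} (hb : 0 < b) :
    Null M.C (fun k => {z | z ∈ ball 0 1 ∧ b * ‖M.F k z‖ ^ a ≤ ‖eval (M.F k z) A‖})
      fun k => lam (M.F k) := fun η hη => by
  set S : ℕ → Set ℂ := fun k => {z | z ∈ ball 0 1 ∧ b * ‖M.F k z‖ ^ a ≤ ‖eval (M.F k z) A‖}
  have mS : ∀ k, MeasurableSet (S k) := fun k => by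
    have c := (M.hF k).1.continuousOn
    have := (((eval_diff (M.hF k).1 A).continuousOn.norm.sub (continuousOn_const.mul
      (c.norm.pow a))).isOpen_inter_preimage (t := Iio 0) isOpen_ball isOpen_Iio (f := fun z =>
        ‖eval (M.F k z) A‖ - b * ‖M.F k z‖ ^ a)).measurableSet
    convert (measurableSet_ball (x := (0 : ℂ)) (ε := 1)).diff this using 1
    ext z
    simp only [S, mem_ofPred, Set.mem_sdiff, mem_inter_iff, mem_preimage, mem_Iio, sub_neg, not_and,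
      not_lt]
    tauto
  by_contra hn
  obtain ⟨φ, c, r, R, ε, -, ε0, R1, h1, h2⟩ := hS S η mS hη (by
    refine ((not_eventually.1 hn).and_eventually M.hg).mono fun k ⟨a1, a2⟩ => not_le.1 fun q =>
      a1 ⟨(S k).indicator fun z => ENNReal.ofReal (M.C.g k z * lam (M.F k) z), ?_,
        .of_forall fun z hz => by rw [indicator_of_mem hz],
        (lintegral_indicator (mS k) _).trans_le q⟩
    have := R1.cont_mul (M.ok.1 k) ((H.lapq _ _ _ isOpen_ball (crv (M := M) (k := k))).2.1.1.mono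
      fun _ => sub) a2.1.1
    simp only [mul_comm (lam _ _)] at this
    exact this.measurable.ennreal_ofReal.indicator (mS k))
  have sc := fun k => H.scale _ (M.F (φ k)) (c k) (r k) (h1 k).1
  have m1 : ∀ k s, (fun w : ℂ => c k + r k * w) ⁻¹' ball (c k) (r k * s) = ball 0 s := fun k s => by
    simpa using (sc k).2.2 0 s
  have m2 : ∀ k, ∀ z ∈ ball (0 : ℂ) (R k), c k + r k * z ∈ ball (0 : ℂ) 1 := fun k z hz =>
    (h1 k).2.1 ((m1 k (R k)).ge hz)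
  refine hE (fun k w => M.F (φ k) (c k + r k * w)) R (fun k z hz => (M.hF _).2 _ (m2 k z hz))
    (H.duval _ _ R (fun k => (fun w : ℂ => c k + r k * w) ⁻¹' (S (φ k) ∩ ball (c k) (r k))) G A e a
      ε b hG hA hGA ε0 hb R1 (fun k => ⟨⟨(M.hF _).1.comp (by fun_prop) (m2 k), fun z hz =>
        crv.2 _ (m2 k z hz)⟩, fun z hz => hU _ ((M.hF _).2 _ (m2 k z hz)), fun z hz => ?_, ?_,
        fun z hz => hz.1.2⟩) fun t => (h2 t).imp fun Λ a => a.mono fun k hk => ?_)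
  · exact (m1 k 1).le (by simpa using hz.2)
  · rw [(sc k).2.1]; exact (h1 k).2.2
  · rw [(sc k).2.1, ← m1 k t, (sc k).2.1]; exact hk

lemma f3_chart (H : All) (r : ∀ i, M.Rg (u i)) {A : PR d.n} {a : ℕ} (hA : A.IsHomogeneous a)
    {P Q Q' : Fin 2 → PR d.n} {e e' : Fin 2 → ℕ} (hP : ∀ i, (P i).IsHomogeneous (e i) ∧
      (Q i).IsHomogeneous (e i) ∧ (Q' i).IsHomogeneous (e' i) ∧ A = Q i * Q' i ∧ a = e i + e' i ∧
      u i = aeval d.z (P i) / aeval d.z (Q i)) {j : Fin d.n} (hj : d.z j ≠ 0)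
    (i1 : ∀ a, ∃ N : ℕ, Int2 u (aeval u θ ^ N * (d.z a / d.z j)))
    (i2 : ∃ N : ℕ, Int2 u (aeval u θ ^ N * (d.z j ^ a / aeval d.z A)))
    (h0 : ∀ᶠ k in atTop, eval (M.F k 0) A ≠ 0)
    (hN : ∀ b : ℝ, 0 < b → Null M.C
      (fun k => {z | z ∈ ball 0 1 ∧ b * ‖M.F k z‖ ^ a ≤ ‖eval (M.F k z) A‖}) fun k => lam (M.F k))
    (S : Set (Fin 2 → ℂ)) (hS : IsCompact S) (hθ : ∀ q ∈ S, eval q θ ≠ 0) :
    Null M.C (dom M.C (M.ch u θ) S) (M.ch u θ).N2 := by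
  let ζ : Option (Fin d.n) → K := fun o => o.elim (d.z j ^ a / aeval d.z A) fun b => d.z b / d.z j
  obtain ⟨N, hI⟩ := int_unif (ζ := ζ) fun o => by cases o; exacts [i2, i1 _]
  have e0 : d.z j ^ a / aeval d.z A = aeval d.z (X j ^ a : PR d.n) / aeval d.z A := by simp
  obtain ⟨B, L, B0, -, hB⟩ := bdd_unif (θ := θ) H hI r fun o => by
    cases o
    · exact h0.mono fun k hk => ⟨_, A, a, isHomogeneous_X_pow j a, hA, hk, e0⟩
    · exact rg_coord hj _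
  obtain ⟨R, hR⟩ := hS.isBounded.exists_norm_le
  obtain ⟨c, c0, hc⟩ := hS.exists_forall_le' (f := fun q => ‖eval q (θ ^ N)‖) (a := 0)
    (MvPolynomial.continuous_eval _).norm.continuousOn fun q hq => by simp [hθ q hq]
  set B₁ := B * (1 + |R|) ^ L / c
  have B1 : 0 < B₁ := by positivity
  choose D D0 hD using fun i => H.ratder _ _ _ _ (hP i).1 (hP i).2.1
  choose D' D0' hD' using fun i => R1.hom_bd (hP i).2.2.1
  have t0 : ∀ i, 0 < D i * (D' i * B₁ ^ (a + 1)) ^ 4 := fun i => by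
    have := D0 i; have := D0' i; positivity
  refine ((hN (B₁ ^ (a + 1))⁻¹ (by positivity)).smul (add_pos (t0 0) (t0 1))).mono M.ok ?_
  filter_upwards [hB, h0, coord_ne hj, gen_pt (θ := θ) r] with k a1 a2 a3 a4
  filter_upwards [ae_of_punct isOpen_ball fun z hz => (a1 z hz).and ((a3 z hz).and ((a4 z hz).and
    (NZ.ev (eval_diff (M.hF k).1 A) ⟨0, mem_ball_self one_pos, a2⟩ hz)))] with z b hz
  have z1 := sub hz.1
  obtain ⟨b1, b2, b3, b4⟩ := b z1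
  have c1 : ∀ o, ‖M.V (ζ o) k z‖ ≤ B₁ := fun o => by
    refine (le_div_iff₀' c0).2 (((mul_le_mul_of_nonneg_right (hc _ hz.2.2) (norm_nonneg _)).trans
      (b1 o)).trans ?_)
    gcongr
    exact (hR _ hz.2.2).trans (le_abs_self R)
  have n1 := norm_pos_iff.2 b2
  have n2 := norm_pos_iff.2 b4
  have n3 := norm_pos_iff.2 (crv.2 z z1 : M.F k z ≠ 0)
  have c2 : ‖M.F k z‖ ≤ B₁ * ‖M.F k z j‖ := (pi_norm_le_iff_of_nonneg (by positivity)).2 fun i => by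
    have : ‖M.V (d.z i / d.z j) k z‖ ≤ B₁ := c1 (some i)
    rwa [V_coord z1 b2, norm_div, div_le_iff₀ n1] at this
  have c3 : ‖M.F k z‖ ^ a ≤ B₁ ^ (a + 1) * ‖eval (M.F k z) A‖ := by
    have : ‖M.V (d.z j ^ a / aeval d.z A) k z‖ ≤ B₁ := c1 none
    rw [e0, V, vl_eq (on z1) (isHomogeneous_X_pow j a) hA b4, norm_div,
      div_le_iff₀ n2, map_pow, eval_X, norm_pow] at this
    refine (pow_le_pow_left₀ n3.le c2 a).trans ?_
    rw [mul_pow, pow_succ, mul_assoc]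
    gcongr
  refine ⟨⟨z1, (inv_mul_le_iff₀ (by positivity)).2 c3⟩, ?_⟩
  have key : ∀ i, ‖(M.ch u θ).dv k z i‖ ^ 2 ≤
      D i * (D' i * B₁ ^ (a + 1)) ^ 4 * lam (M.F k) z := fun i => by
    obtain ⟨p1, p2, p3, p4, p5, p6⟩ := hP i
    have q1 : eval (M.F k z) (Q i) ≠ 0 := fun q => b4 (by simp [p4, q])
    have dF := ((M.hF k).1.differentiableAt (isOpen_ball.mem_nhds z1)).hasDerivAt
    have q2 := ((chain dF (P i)).fun_div (chain dF (Q i)) q1).congr_of_eventuallyEq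
      (f₁ := (M.ch u θ).x i k) ((b3.2.2.2.1 i).trans (by
        filter_upwards [(chain dF (Q i)).continuousAt.eventually_ne q1, isOpen_ball.mem_nhds z1]
          with w w1 w2
        rw [V, p6, vl_eq (on w2) p1 p2 w1]))
    have q3 : ‖M.F k z‖ ^ e i ≤ D' i * B₁ ^ (a + 1) * ‖eval (M.F k z) (Q i)‖ := by
      refine le_of_mul_le_mul_right ?_ (pow_pos n3 (e' i))
      rw [← pow_add, ← p5]
      refine c3.trans ?_
      rw [p4, map_mul, norm_mul]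
      calc _ ≤ B₁ ^ (a + 1) * (‖eval (M.F k z) (Q i)‖ * (D' i * ‖M.F k z‖ ^ e' i)) := by
            gcongr; exact hD' i _
        _ = _ := by ring
    have n4 := pow_ne_zero 2 q1
    have l0 := R1.lamv_nn (M.F k z) (deriv (M.F k) z)
    have := D0 i
    have := D0' i
    rw [Ch.dv, q2.deriv, norm_div, div_pow, div_le_iff₀ (by positivity)]
    refine (hD i _ _ (crv.2 z z1)).trans ?_
    rw [mul_comm 4, pow_mul]
    calc _ ≤ D i * lamv (M.F k z) (deriv (M.F k) z) *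
          (D' i * B₁ ^ (a + 1) * ‖eval (M.F k z) (Q i)‖) ^ 4 := by gcongr
      _ = _ := by rw [lam, norm_pow]; ring
  rw [Ch.N2, sq, Fin.sum_univ_two, add_mul]
  exact add_le_add (key 0) (key 1)

end Pool.Agent.MP_c69980_ag.H4
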