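import Pool.Agent.MP_c69980_ag.H4.M7

/-!
Discs with large derivative, and their lifts to the plane.
-/

set_option autoImplicit false

noncomputable section

namespace Pool.Agent.MP_c69980_ag.H4

open MvPolynomial Metric Filter Topology Set MeasureTheory Real
open H60 Mdl

variable {n : ℕ} {U : Set (PS n)} {j : Fin n} {p y w : Fin n → ℂ}

lemma sq_le (y : Fin n → ℂ) : sq y ≤ n * ‖y‖ ^ 2 := by
  refine (Finset.sum_le_card_nsmul _ _ (‖y‖ ^ 2) fun i _ => ?_).trans_eq (by simp)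
  exact pow_le_pow_left₀ (norm_nonneg _) (norm_le_pi_norm y i) 2

lemma near_of {b t c : ℝ} (hj : y j = 1) (hy : ‖y‖ ≤ b) (hw : w ≠ 0) (t0 : 0 ≤ t)
    (t1 : t ≤ 1 / 2) (h : d2 w y ≤ c) (c0 : 0 ≤ c) (hc : (n * b) ^ 2 * c ≤ t ^ 2) :
    w j ≠ 0 ∧ ‖nrm j w - y‖ ≤ 2 * b * t := by
  have y0 : y ≠ 0 := fun e => by simp [e] at hj
  have p1 := R1.sq_pos' y0
  have p2 := R1.sq_pos' hw
  have h1 : ‖w - w j • y‖ ≤ t * ‖w‖ := (pi_norm_le_iff_of_nonneg (by positivity)).2 fun i => by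
    refine le_of_sq_le_sq (a := _) ?_ (by positivity)
    have a1 := R1.minor_le y w i j
    rw [hj, mul_one, mul_comm (y i)] at a1
    rw [d2, sub_le_comm, le_div_iff₀ (by positivity)] at h
    have a2 : sq y * sq w ≤ (n * b) ^ 2 * ‖w‖ ^ 2 := by
      have := (sq_le y).trans (mul_le_mul_of_nonneg_left
        (pow_le_pow_left₀ (norm_nonneg _) hy 2) n.cast_nonneg)
      refine (mul_le_mul this (sq_le w) p2.le (by positivity)).trans_eq (by ring)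
    have a3 := mul_le_mul_of_nonneg_left a2 c0
    have a4 := mul_le_mul_of_nonneg_right hc (sq_nonneg ‖w‖)
    simp only [Pi.sub_apply, Pi.smul_apply, smul_eq_mul]
    nlinarith
  have n0 := norm_pos_iff.2 hw
  have h2 : ‖w‖ ≤ 2 * b * ‖w j‖ := by
    have := norm_add_le (w - w j • y) (w j • y)
    rw [sub_add_cancel, norm_smul] at this
    nlinarith [mul_le_mul_of_nonneg_left hy (norm_nonneg (w j))]
  have h3 : w j ≠ 0 := fun e => by simp [e] at h2; exact hw h2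
  refine ⟨h3, ?_⟩
  have : nrm j w - y = (w j)⁻¹ • (w - w j • y) := by
    rw [nrm, smul_sub, smul_smul, inv_mul_cancel₀ h3, one_smul]
  rw [this, norm_smul, norm_inv, inv_mul_le_iff₀ (norm_pos_iff.2 h3)]
  nlinarith [mul_le_mul_of_nonneg_left h2 t0]

lemma der_le {x : ℂ → Fin n → ℂ} (hx : DifferentiableAt ℂ x 0) (hj : x 0 j = 1) :
    ‖deriv (fun s => nrm j (x s)) 0‖ ^ 2 ≤ lam x 0 * sq (x 0) ^ 2 := by
  have y0 : x 0 ≠ 0 := fun e => by simp [e] at hj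
  have p1 := R1.sq_pos' y0
  have d := hx.hasDerivAt
  have d1 := ((hasDerivAt_pi.1 d j).fun_inv (hj.trans_ne one_ne_zero)).fun_smul d
  have l0 : 0 ≤ lam x 0 * sq (x 0) ^ 2 := mul_nonneg (R1.lamv_nn _ _) (by positivity)
  rw [show deriv (fun s => nrm j (x s)) 0 = _ from d1.deriv, ← le_sqrt (norm_nonneg _) l0,
    pi_norm_le_iff_of_nonneg (sqrt_nonneg _)]
  intro i
  refine le_sqrt_of_sq_le ?_
  rw [lam, lamv, div_mul_cancel₀ _ (by positivity)]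
  refine le_of_eq_of_le ?_ (R1.minor_le (x 0) (deriv x 0) i j)
  congr 2
  simp [hj]
  ring

lemma discs (H : All) (h : ¬Good2 U j p) {δ : ℝ} (δ0 : 0 < δ) :
    ∃ (F : ℕ → ℂ → Fin n → ℂ) (ρ : ℕ → ℝ) (ε : ℝ), 0 < ε ∧ Tendsto ρ atTop (𝓝 0) ∧
      ∀ k : ℕ, Dk U 0 1 (F k) ∧ k < ‖deriv (fun s => nrm j (F k s)) 0‖ ∧ 0 < ρ k ∧ ρ k ≤ 1 / 2 ∧
        ENNReal.ofReal ε ≤ mu (lam (F k)) (ball 0 (16 * ρ k)) ∧
        ∀ w ∈ ball (0 : ℂ) (ρ k), F k w j ≠ 0 ∧ ‖nrm j (F k w) - p‖ < δ := by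
  obtain ⟨ε₀, A, e0, A0, hE⟩ := H.eps n
  set b := ‖p‖ + δ
  have b0 : 0 < b := by positivity
  set t := min (1 / 2) (δ / (4 * b))
  have t0 : 0 < t := by positivity
  set ε := min ε₀ (t ^ 2 / (((n * b) ^ 2 + 1) * A))
  have ε0 : 0 < ε := by positivity
  have hε : (n * b) ^ 2 * (A * ε) ≤ t ^ 2 := by
    have := (le_div_iff₀ (by positivity)).1 (min_le_right ε₀ (t ^ 2 / (((n * b) ^ 2 + 1) * A)))
    nlinarith [mul_pos A0 ε0]
  have step : ∀ k : ℕ, ∃ (F : ℂ → Fin n → ℂ) (r : ℝ), r ≤ 1 / ((k : ℝ) + 1) / 2 ∧ Dk U 0 1 F ∧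
      k < ‖deriv (fun s => nrm j (F s)) 0‖ ∧ 0 < r ∧ r ≤ 1 / 2 ∧
      ENNReal.ofReal ε ≤ mu (lam F) (ball 0 (16 * r)) ∧
      ∀ w ∈ ball (0 : ℂ) r, F w j ≠ 0 ∧ ‖nrm j (F w) - p‖ < δ := fun k => by
    set s : ℝ := 1 / ((k : ℝ) + 1) / 2
    have s0 : 0 < s := by positivity
    have s1 : s ≤ 1 / 2 := div_le_div_of_nonneg_right
      ((div_le_one (by positivity)).2 (by linarith [k.cast_nonneg (α := ℝ)])) zero_le_two
    obtain ⟨F, f1, f2, f3, f4⟩ := not_good2 h (half_pos δ0)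
      (k + 1 + A * ε * (n * b ^ 2) ^ 2 / s ^ 2) one_pos
    have c : Crv (ball 0 1) F := ⟨f1.1, fun z hz => (f1.2 z hz).1⟩
    have c' : ∀ r ≤ s, Crv (ball 0 r) F := fun r hr =>
      have := ball_subset_ball (x := (0 : ℂ)) (hr.trans (s1.trans (by norm_num : (1 / 2 : ℝ) ≤ 1)))
      ⟨c.1.mono this, fun z hz => c.2 z (this hz)⟩
    have y1 : ‖F 0‖ ≤ b := by
      have := norm_add_le (F 0 - p) p
      rw [sub_add_cancel] at this
      linarith
    have q0 : 0 ≤ A * ε * (n * b ^ 2) ^ 2 / s ^ 2 := by positivity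
    have k0 := k.cast_nonneg (α := ℝ)
    have m1 : ENNReal.ofReal ε ≤ mu (lam F) (ball 0 s) := le_of_not_gt fun q => by
      have a1 := (hE F 0 s ε s0 (c' s le_rfl) ε0.le (min_le_left _ _) q.le 0
        (mem_ball_self (by positivity))).1
      have a2 := der_le (f1.1.differentiableAt (isOpen_ball.mem_nhds (mem_ball_self one_pos))) f2
      have a3 : sq (F 0) ≤ n * b ^ 2 := (sq_le _).trans (mul_le_mul_of_nonneg_left
        (pow_le_pow_left₀ (norm_nonneg _) y1 2) n.cast_nonneg)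
      have a4 : lam F 0 * sq (F 0) ^ 2 ≤ A * ε * (n * b ^ 2) ^ 2 / s ^ 2 := by
        rw [mul_div_right_comm]
        exact mul_le_mul ((le_div_iff₀ (by positivity)).2 a1)
          (pow_le_pow_left₀ (sq_nonneg' _) a3 2) (by positivity) (by positivity)
      nlinarith
    obtain ⟨r0, r1, r2⟩ := H.radius (lam F) ε 1 s 0 (H.lapq _ _ _ isOpen_ball c).2.1 ε0 s0
      (by rw [norm_zero]; linarith) m1
    refine ⟨F, rad (lam F) ε 0 / 16, by linarith, f1, by linarith, by positivity, by linarith,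
      by rw [mul_div_cancel₀ _ (by norm_num), r2], fun w hw => ?_⟩
    obtain ⟨a1, a2⟩ := near_of f2 y1 ((c' _ r1).2 w (ball_subset_ball (by linarith) hw)) t0.le
      (min_le_left _ _) (hE F 0 _ ε r0 (c' _ r1) ε0.le (min_le_left _ _) r2.le w hw).2
      (by positivity) hε
    have a3 := (le_div_iff₀ (by positivity)).1 (min_le_right (1 / 2) (δ / (4 * b)))
    have a4 := norm_add_le (nrm j (F w) - F 0) (F 0 - p)
    rw [sub_add_sub_cancel] at a4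
    exact ⟨a1, by nlinarith⟩
  choose F ρ h1 h2 using step
  refine ⟨F, ρ, ε, ε0, squeeze_zero (fun k => (h2 k).2.2.1.le) h1 ?_, h2⟩
  simpa only [zero_div] using tendsto_one_div_add_atTop_nhds_zero_nat.div_const (2 : ℝ)

variable {K : Type} [Field K] [Algebra ℂ K]

lemma on_of {z : Fin n → K} (hz : GenPt U z) (h : ¬Good2 U j p) : On z p := fun G e hG h0 => by
  by_contra hn
  obtain ⟨ε, ε0, hε⟩ := Metric.eventually_nhds_iff.1
    ((MvPolynomial.continuous_eval G).continuousAt.eventually_ne hn)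
  obtain ⟨x, x1, -, x2, -⟩ := not_good2 h ε0 0 one_pos
  exact hε ((dist_eq_norm _ p).symm ▸ x2)
    (Cone.on hz (x1.2 0 (mem_ball_self one_pos)) G e hG h0)

lemma lift3 (H : All) (d : Dat K) {x : ℂ → Fin d.n → ℂ} (hx : Dk d.U 0 1 x)
    {P Q : Fin 2 → PR d.n} {e : Fin 2 → ℕ} (hP : ∀ i, (P i).IsHomogeneous (e i) ∧
      (Q i).IsHomogeneous (e i) ∧ d.h i.succ / d.h 0 = aeval d.z (P i) / aeval d.z (Q i))
    (h0 : ∀ i, eval (x 0) (Q i) ≠ 0) : ∃ Φ : ℂ → Fin 3 → ℂ, Crv (ball 0 (3 / 4)) Φ ∧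
      ∀ ζ ∈ ball (0 : ℂ) (1 / 2), ∀ᶠ w in 𝓝[≠] ζ, Φ w 0 ≠ 0 ∧
        ∀ l, Reg d.z (x w) (d.h l / d.h 0) ∧ Φ w l = Φ w 0 * vl d.z (d.h l / d.h 0) (x w) := by
  have m0 := mem_ball_self (x := (0 : ℂ)) one_pos
  obtain ⟨φ, Φ, -, a2, a3⟩ := H.lift 3 (fun w l => eval (x w) (![Q 0 * Q 1, P 0 * Q 1, P 1 * Q 0] l))
    (differentiableOn_pi.2 fun l => eval_diff hx.1 _)
    ⟨0, m0, Function.ne_iff.2 ⟨0, by simp [h0]⟩⟩
  refine ⟨Φ, a2, fun ζ hζ => ?_⟩
  have z1 : ζ ∈ ball (0 : ℂ) (3 / 4) := ball_subset_ball (by norm_num) hζ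
  filter_upwards [eventually_all.2 fun i => NZ.ev (eval_diff hx.1 (Q i)) ⟨0, m0, h0 i⟩
    (ball_subset_ball (by norm_num) hζ), mem_nhdsWithin_of_mem_nhds (isOpen_ball.mem_nhds z1)]
    with w b1 b2
  have o := Cone.on d.hz (hx.2 w (ball_subset_ball (by norm_num) b2))
  have c0 := congrFun (a3 w b2) 0
  have c1 := congrFun (a3 w b2) 1
  have c2 := congrFun (a3 w b2) 2
  simp only [Matrix.cons_val, map_mul, Pi.smul_apply, smul_eq_mul] at c0 c1 c2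
  have c3 := c0 ▸ mul_ne_zero (b1 0) (b1 1)
  have q0 := b1 0
  have q1 := b1 1
  refine ⟨right_ne_zero_of_mul c3, Fin.cases ?_ fun i => ?_⟩
  · rw [div_self d.ld.2.2.2.2.2.1, (vl_one o).2, mul_one]
    exact ⟨(vl_one o).1, rfl⟩
  · refine ⟨⟨_, _, _, (hP i).1, (hP i).2.1, b1 i, (hP i).2.2⟩, ?_⟩
    rw [(hP i).2.2, vl_eq o (hP i).1 (hP i).2.1 (b1 i)]
    refine mul_left_cancel₀ (left_ne_zero_of_mul c3) ?_
    rw [← mul_assoc, ← c0]
    fin_cases i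
    · refine c1.symm.trans ?_
      simp only [Fin.zero_eta]
      field_simp
    · refine c2.symm.trans ?_
      simp only [Fin.mk_one]
      field_simp

lemma Gn.lb {z : Fin n → K} {R : PR n} {e : ℕ} (h : R.IsHomogeneous e) (h' : aeval z R ≠ 0) :
    Gn z fun L y => ∀ t : ℂ, L⁻¹ * ‖t • y‖ ^ e ≤ ‖eval (t • y) R‖ := by
  refine ⟨R, e, h, h', fun p hp => ?_⟩
  have c1 := (MvPolynomial.continuous_eval R).continuousAt (x := p)
  have c2 := ((continuous_norm.pow e).continuousAt.div c1.norm (norm_ne_zero_iff.2 hp))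
  filter_upwards [eventually_gt_atTop _, eventually_gt_atTop 0] with L hL L0
  filter_upwards [c2.eventually (gt_mem_nhds hL), c1.eventually_ne hp] with y h1 h2 _ t
  rw [eval_smul_hom h, norm_mul, norm_smul, mul_pow, norm_pow, mul_left_comm]
  exact mul_le_mul_of_nonneg_left ((inv_mul_le_iff₀ L0).2
    ((div_le_iff₀ (norm_pos_iff.2 h2)).1 h1.le)) (by positivity)

end Pool.Agent.MP_c69980_ag.H4
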