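import Pool.Agent.MP_c69980_ag.H4.M8

/-!
Outside a curve, the derivatives of discs are locally bounded.
-/

set_option autoImplicit false

noncomputable section

namespace Pool.Agent.MP_c69980_ag.H4

open MvPolynomial Metric Filter Topology Set MeasureTheory Real
open H60 Mdl

variable {K : Type} [Field K] [Algebra ℂ K] {d : Dat K} {M : Mdl d} {u : Fin 2 → K} {θ : PR 2}

lemma big {j : Fin d.n} (hj : d.z j ≠ 0)
    (h1 : ∀ a, ∀ᶠ k in atTop, Chain d.z d.E u (d.z a / d.z j) (M.F k) 0)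
    (h2 : ∀ a i, pd d.E u i (d.z a / d.z j) ≠ 0 → M.Gen (pd d.E u i (d.z a / d.z j)))
    (h3 : ∀ k : ℕ, k < ‖deriv (fun s => nrm j (M.F k s)) 0‖) :
    ∀ᶠ k in atTop, ∃ i, 1 ≤ ‖deriv (M.V (u i) k) 0‖ := by
  have m0 : (0 : ℂ) ∈ ball 0 1 := mem_ball_self one_pos
  have : ∀ a : Fin d.n × Fin 2, ∃ B, ∀ᶠ k in atTop,
      ‖vl d.z (pd d.E u a.2 (d.z a.1 / d.z j)) (M.F k 0)‖ ≤ B := fun a => by
    by_cases h : pd d.E u a.2 (d.z a.1 / d.z j) = 0
    · exact ⟨0, .of_forall fun k => by rw [h, (vl_zero (on m0)).2, norm_zero]⟩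
    obtain ⟨B, -, hB⟩ := (h2 _ _ h).bdd
    exact ⟨B, (hB.and M.hg).mono fun k a => (a.1 0 a.2.2.2.1 m0).2.1⟩
  choose B hB using this
  obtain ⟨L, hL⟩ := (Set.finite_range B).bddAbove
  filter_upwards [eventually_all.2 h1, eventually_all.2 hB, M.hg,
    tendsto_natCast_atTop_atTop.eventually_ge_atTop (2 * |L|)] with k a1 a2 a3 a4
  by_contra hn
  push Not at hn
  refine (a4.trans_lt (h3 k)).not_ge ((pi_norm_le_iff_of_nonneg (by positivity)).2 fun a => ?_)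
  have d0 := (M.hF k).1.differentiableAt (isOpen_ball.mem_nhds m0)
  have x4 := a3.2.2.2 j hj
  have d1 := (hasDerivAt_pi.1 (nrm_diff d0 x4).hasDerivAt a).congr_of_eventuallyEq
    (f₁ := M.V (d.z a / d.z j) k) (by
    filter_upwards [isOpen_ball.mem_nhds m0,
      (differentiableAt_pi.1 d0 j).continuousAt.eventually_ne x4] with s b1 b2
    rw [V_coord b1 b2, nrm, div_eq_inv_mul]; rfl)
  rw [← d1.deriv, show deriv (M.V (d.z a / d.z j) k) 0 = _ from (a1 a).2, Fin.sum_univ_two, two_mul]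
  have key := fun i => (norm_mul_le _ _).trans (mul_le_mul ((a2 (a, i)).trans
    ((hL ⟨_, rfl⟩).trans (le_abs_self L))) (hn i).le (norm_nonneg _) (abs_nonneg L))
  simp only [mul_one] at key
  exact (norm_add_le _ _).trans (add_le_add (key 0) (key 1))

lemma n2_ne (r : ∀ i, M.Rg (u i)) (h : ∀ᶠ k in atTop, ∃ i, 1 ≤ ‖deriv (M.V (u i) k) 0‖) :
    ∀ᶠ k in atTop, ∀ᵐ z, z ∈ M.C.Ω k → (M.ch u θ).N2 k z ≠ 0 := by
  filter_upwards [h, eventually_all.2 r, gen_pt (θ := θ) r] with k ⟨i, hi⟩ a1 a2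
  have m0 : (0 : ℂ) ∈ ball 0 1 := mem_ball_self one_pos
  have me : MeromorphicOn (deriv (M.V (u i) k)) (ball 0 1) := fun z hz => (mer (a1 i) z hz).deriv
  refine ae_of_punct (M.ok.1 k) fun z hz => ?_
  filter_upwards [a2 z (sub hz), (meromorphicOrderAt_ne_top_iff_eventually_ne_zero
    (me z (sub hz))).1 (me.meromorphicOrderAt_ne_top_of_isPreconnected
      (convex_ball 0 1).isPreconnected m0 (sub hz)
      ((meromorphicOrderAt_ne_top_iff_eventually_ne_zero (me 0 m0)).2 (mem_nhdsWithin_of_mem_nhds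
        ((V_an m0 (a1 i)).deriv.continuousAt.eventually_ne
          (norm_pos_iff.1 (one_pos.trans_le hi))))))] with w b1 b2
  refine (R1.sq_pos' (Function.ne_iff.2 ⟨i, ?_⟩)).ne'
  rwa [Ch.dv, (b1.2.2.2.1 i).deriv_eq]

theorem generic (H : All) (d : Dat K) {G D : PR d.n} {e e' : ℕ} (hG : G.IsHomogeneous e)
    (hD : D.IsHomogeneous e') (h0 : aeval d.z (G * D) ≠ 0) (hU : ∀ y ∈ Cone d.U, eval y G ≠ 0)
    (hE : ∀ (F : ℕ → ℂ → Fin d.n → ℂ) (R : ℕ → ℝ) (A : PR d.n), D ∣ A →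
      (∀ k, ∀ z ∈ ball 0 (R k), F k z ∈ Cone d.U) → ¬Ent F R G A) {j : Fin d.n}
    (hj : d.z j ≠ 0) : ∃ (P : PR d.n) (a : ℕ), P.IsHomogeneous a ∧ aeval d.z P ≠ 0 ∧
      ∀ p, eval p P ≠ 0 → Good2 d.U j p := by
  classical
  set u : Fin 2 → K := ![d.h 1 / d.h 0, d.h 2 / d.h 0] with hu
  have hX : ∀ i, u i = d.h i.succ / d.h 0 := fun i => by fin_cases i <;> rfl
  choose P Q f P1 Q1 Q0 hP using fun i => quot d.hz (u i)
  set A := G * D * (Q 0 * Q 1) with hA'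
  have hA : A.IsHomogeneous (e + e' + (f 0 + f 1)) := (hG.mul hD).mul ((Q1 0).mul (Q1 1))
  set a := e + e' + (f 0 + f 1) with ha
  have A0 : aeval d.z A ≠ 0 := by
    rw [hA', map_mul, map_mul _ (Q 0)]; exact mul_ne_zero h0 (mul_ne_zero (Q0 0) (Q0 1))
  obtain ⟨γ, γ1, γ2, γ3⟩ := H.ainit K _ _ d.U d.z d.W d.z' d.pr d.m d.E d.h
    (insert (d.z j ^ a / aeval d.z A) (Finset.univ.image fun b => d.z b / d.z j)) d.ld
  have i1 := fun b => γ3 (d.z b / d.z j) (by simp)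
  have al : d.Al u γ := ⟨γ2, aeval_ne γ2.1 γ1.ne_zero⟩
  obtain ⟨S₀, s1, s2⟩ := glob H γ1 al
  obtain ⟨S, S0, hS⟩ := s2.and ((Gc.full H al).and ((Gc.gen al.ne).and
    ((Gc.all fun b => Gc.chain H al.tb al.wd (d.z b / d.z j)).and
      (Gc.all fun b => Gc.all fun i => (show Gc d fun M => pd d.E u i (d.z b / d.z j) ≠ 0 →
        M.Gen (pd d.E u i (d.z b / d.z j)) by
        by_cases h : pd d.E u i (d.z b / d.z j) = 0
        · exact Gc.triv fun _ a => absurd h a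
        · exact (Gc.gen h).mono fun _ a _ => a)))))
  choose P' Q' f' P1' Q1' Q0' hP' using fun s : S => quot d.hz s.1
  obtain ⟨R, b, R1, R2, R3⟩ := (Gn.form hA A0).and ((Gn.val d.hz (aeval u γ)).and
    ((Gn.all fun b : {b // d.z b ≠ 0} => Gn.form (isHomogeneous_X ℂ b.1) (by simpa using b.2)).and
      (Gn.all fun s : S => (Gn.lb (P1' s) fun q => S0 (by
        have := s.2
        rwa [hP' s, q, zero_div] at this)).and (Gn.lb (Q1' s) (Q0' s)))))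
  refine ⟨R, b, R1, R2, fun p hp => by_contra fun hn => ?_⟩
  obtain ⟨L, L0, hL⟩ := ((eventually_gt_atTop 0).and (R3 p hp)).exists
  have o := on_of d.hz hn
  have nz : ∀ y, eval y A ≠ 0 → ∀ i, eval y (Q i) ≠ 0 := fun y h => by
    rw [hA', map_mul, map_mul _ (Q 0)] at h
    exact Fin.forall_fin_two.2 (mul_ne_zero_iff.1 (right_ne_zero_of_mul h))
  let pr : (Fin d.n → ℂ) → Fin 2 → ℂ := fun y i => eval y (P i) / eval y (Q i)
  have pv : ∀ y, On d.z y → eval y A ≠ 0 → ∀ i, Reg d.z y (u i) ∧ vl d.z (u i) y = pr y i :=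
    fun y h1 h2 i => ⟨⟨_, _, _, P1 i, Q1 i, nz y h2 i, hP i⟩, by
      rw [hP i, vl_eq h1 (P1 i) (Q1 i) (nz y h2 i)]⟩
  obtain ⟨p1, p2, -⟩ := hL.self_of_nhds o
  have q0 : eval (pr p) γ ≠ 0 := by
    have := (exp_pos _).trans_le (p2.2.2 al.ne).1
    rwa [(vl_aeval o (fun i => (pv p o p1 i).1) γ).2, funext fun i => (pv p o p1 i).2,
      norm_pos_iff] at this
  obtain ⟨r, r0, hr⟩ := Metric.nhds_basis_closedBall.eventually_iff.1
    ((MvPolynomial.continuous_eval γ).continuousAt.eventually_ne q0)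
  obtain ⟨G', g1, g2, g3⟩ := H.base S₀ (ball (pr p) r) (pr p) s1 isOpen_ball (mem_ball_self r0)
  have cpr : ContinuousAt pr p := continuousAt_pi.2 fun i =>
    (MvPolynomial.continuous_eval _).continuousAt.div (MvPolynomial.continuous_eval _).continuousAt
      (nz p p1 i)
  obtain ⟨δ, δ0, hδ⟩ := Metric.eventually_nhds_iff.1 (hL.and (cpr.eventually_mem (g1.mem_nhds g2)))
  obtain ⟨F, ρ, ε, ε0, ρ0, hF⟩ := discs H hn δ0
  have cr : ∀ k, Crv (ball 0 1) (F k) := fun k => ⟨(hF k).1.1, fun z hz => ((hF k).1.2 z hz).1⟩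
  have sb : ∀ k, ball (0 : ℂ) (ρ k) ⊆ ball 0 1 := fun k =>
    ball_subset_ball ((hF k).2.2.2.1.trans (by norm_num))
  have key : ∀ k, ∀ w ∈ ball (0 : ℂ) (ρ k), eval (F k w) A ≠ 0 ∧ pr (F k w) ∈ G' ∧
      (∀ b, d.z b ≠ 0 → F k w b ≠ 0) ∧ ∀ s : S, L⁻¹ * ‖F k w‖ ^ f' s ≤ ‖eval (F k w) (P' s)‖ ∧
        L⁻¹ * ‖F k w‖ ^ f' s ≤ ‖eval (F k w) (Q' s)‖ := fun k w hw => by
    obtain ⟨b1, b2⟩ := (hF k).2.2.2.2.2 w hw
    obtain ⟨b3, b4⟩ := hδ ((dist_eq_norm _ p).symm ▸ b2)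
    obtain ⟨c1, -, c2, c3⟩ := b3 (Cone.on d.hz (Cone.smul ((hF k).1.2 w (sb k hw)) (inv_ne_zero b1)))
    have e1 : F k w j • nrm j (F k w) = F k w := by
      rw [nrm, smul_smul, mul_inv_cancel₀ b1, one_smul]
    refine ⟨?_, ?_, fun b hb => ?_, fun s => e1 ▸ ⟨(c3 s).1 _, (c3 s).2 _⟩⟩
    · rw [← e1, eval_smul_hom hA]; exact mul_ne_zero (pow_ne_zero _ b1) c1
    · convert b4 using 1
      ext i
      simp only [pr, nrm, eval_smul_hom (P1 i), eval_smul_hom (Q1 i)]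
      rw [mul_div_mul_left _ _ (pow_ne_zero _ (inv_ne_zero b1))]
    · have := c2 ⟨b, hb⟩
      rw [eval_X] at this
      exact right_ne_zero_of_mul this
  have m0 := fun k => mem_ball_self (x := (0 : ℂ)) (hF k).2.2.1
  obtain ⟨c₀, hc⟩ := H.setup
  obtain ⟨g, g', T, T1, T2, T3, T4, T5⟩ := hc (fun k => lam (F k)) ρ ε ε0 (fun k =>
    ⟨(H.lapq _ _ _ isOpen_ball (cr k)).2.1, (hF k).2.2.1, (hF k).2.2.2.2.1⟩) ρ0
  choose Φ Φ1 Φ2 using fun k => lift3 H d (hF k).1 (fun i => ⟨P1 i, Q1 i, hX i ▸ hP i⟩)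
    (nz _ (key k 0 (m0 k)).1)
  let M : Mdl d := ⟨⟨fun _ => ball 0 (1 / 2), g', T, fun k z => log (sq (Φ k z)) / d.m, d.m⟩, F, Φ,
    fun k => ball 0 (ρ k), c₀, ⟨fun _ => isOpen_ball, fun k => (T2 k).2, fun k => (T2 k).1,
      d.ld.2.2.2.2.1⟩, fun _ => rfl, rfl, T1, fun k => (hF k).1,
    T3.mono fun k a => ⟨a.2.1, a.2.2.2.2.1, m0 k, (key k 0 (m0 k)).2.2.1⟩,
    .of_forall fun k => ⟨Φ1 k, Φ2 k⟩, .of_forall fun k => by
      have := Cone.on d.hz ((hF k).1.2 0 (mem_ball_self one_pos))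
      exact Fin.cases (div_self d.ld.2.2.2.2.2.1 ▸ (vl_one this).1) fun i =>
        hX i ▸ (pv _ this (key k 0 (m0 k)).1 i).1, fun _ _ => rfl⟩
  obtain ⟨n1, n2, n3, n4, n5⟩ := hS M fun s hs => ⟨P' ⟨s, hs⟩, Q' ⟨s, hs⟩, _, L⁻¹, P1' _, Q1' _,
    inv_pos.2 L0, hP' ⟨s, hs⟩, .of_forall fun k w hw => (key k w hw).2.2.2 _⟩
  have rg := fun i => (n2.1 i).rg
  have bg := big (M := M) hj (fun a => (n4 a).mono fun _ b => b.1) n5 fun k => (hF k).2.1
  have ok : ChOK M.C (M.ch u γ) := chOK_of H n2.1 n2.2.1 n3 (n2_ne rg bg)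
    (f3_chart H rg hA (Q' := ![G * D * Q 1, G * D * Q 0]) (e' := ![e + e' + f 1, e + e' + f 0])
      (fun i => ⟨P1 i, Q1 i, by
        fin_cases i
        exacts [(hG.mul hD).mul (Q1 1), (hG.mul hD).mul (Q1 0)], by
        fin_cases i <;> simp only [hA', Fin.zero_eta, Fin.mk_one, Matrix.cons_val] <;> ring, by
        fin_cases i <;> simp only [ha, Fin.zero_eta, Fin.mk_one, Matrix.cons_val] <;> ring, hP i⟩)
      hj i1 (γ3 _ (Finset.mem_insert_self _ _)) (.of_forall fun k => (key k 0 (m0 k)).1)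
      fun b hb => null_mass H hG hA ((dvd_mul_right G D).mul_right _) hU
        (fun F R => hE F R A ((dvd_mul_left D G).mul_right _)) T5 hb)
  obtain ⟨o1, o2⟩ := outer H al n2 ok isOpen_ball (isCompact_closedBall (pr p) r)
    ball_subset_closedBall fun q hq => hr hq
  obtain ⟨κ, κ0, hκ⟩ := height H (M := M) (g := g) hX n2.1 n3 hj i1
    (T3.mono fun k a => ⟨a.1, a.2.2.2.1⟩)
  refine contra H n2 (g3 M.C _ _ M.ok ok (n1 ok) o1 o2) (fun _ => rfl) ?_ κ0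
    ((T3.and hκ).mono fun k a => ⟨a.1.1, a.1.2.2.1, a.2, a.1.2.2.2.2.2⟩) T4
  filter_upwards [bg, eventually_all.2 rg] with k ⟨i, hi⟩ a1
  have pe := fun z hz => pv _ (on (M := M) (k := k) (sb k hz)) (key k z hz).1
  refine ⟨fun z hz => ?_, i, ?_⟩
  · obtain ⟨b1, b2, -⟩ := pt_eq (θ := γ) a1 (sb k hz) fun i => (pe z hz i).1
    refine ⟨ball_subset_ball (hF k).2.2.2.1 hz, b1, ?_⟩
    convert (key k z hz).2.1 using 1
    exact funext fun i => (b2 i).self_of_nhds.trans (pe z hz i).2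
  · rwa [((pt_eq (θ := γ) a1 (mem_ball_self one_pos) a1).2.1 i).deriv_eq]

end Pool.Agent.MP_c69980_ag.H4
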