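import Pool.Agent.MP_c69980_ag.H4.N1

/-!
Rational changes of chart.
-/

set_option autoImplicit false

noncomputable section

namespace Pool.Agent.MP_c69980_ag.H4.B

open MvPolynomial Metric Filter Topology Set MeasureTheory Real
open H60

variable {K : Type} [Field K] [Algebra ℂ K] {d : Dat K} {p : Fin 2 → PR 2} {s : PR 2}

namespace Mdl

variable {M : Mdl d} {u u' : Fin 2 → K} {θ θ' : PR 2}

lemma gen_one : M.Gen (aeval u (1 : PR 2)) :=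
  ⟨1, 1, 0, fun _ => 1, isHomogeneous_one _ _, isHomogeneous_one _ _, fun η hη => .of_forall fun k =>
    exp_le_one_iff.2 (neg_nonpos.2 (mul_pos hη (M.ok.2.2.1 k)).le), by simp, by simp⟩

lemma rg_rat (h1 : ∀ i, M.Rg (u' i)) (hs : M.Gen (aeval u' s))
    (h : ∀ i, u i = aeval u' (p i) / aeval u' s) (i : Fin 2) : M.Rg (u i) := by
  filter_upwards [Rg.aeval h1 (p i), hs.un] with k a1 a2
  exact h i ▸ (vl_div (on (mem_ball_self one_pos)) a1 a2.1).1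

lemma gen_ne {g : K} (h : M.Gen g) : g ≠ 0 := fun e => by
  obtain ⟨k, hk⟩ := h.un.exists
  exact hk.1.2 (e ▸ (vl_zero (on (mem_ball_self one_pos))).2)

lemma rel_pt (h1 : ∀ i, M.Rg (u' i)) (hs : M.Gen (aeval u' s))
    (h2 : M.Rg (d.h 0 / Wd d.E (u 0) (u 1) ^ d.m)) (hW : Wd d.E (u 0) (u 1) ≠ 0)
    (h : ∀ i, u i = aeval u' (p i) / aeval u' s) :
    ∀ᶠ k in atTop, ∀ ζ ∈ M.C.Ω k, ∀ᶠ w in 𝓝[≠] ζ, eval ((M.ch u' θ').pt k w) s ≠ 0 ∧
      (M.ch u θ).pt k w = rat p s ((M.ch u' θ').pt k w) ∧ ‖(M.ch u' θ').b k w‖ =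
        ‖(M.ch u θ).b k w‖ * ‖jac (rat p s) ((M.ch u' θ').pt k w)‖ ^ M.C.m := by
  have e := Wd_rat d.E (gen_ne hs) h
  have e2 : d.h 0 / Wd d.E (u' 0) (u' 1) ^ d.m = d.h 0 / Wd d.E (u 0) (u 1) ^ d.m *
      (aeval u' (JJ p s) / aeval u' s ^ 4) ^ d.m := by
    rw [e] at hW ⊢
    rw [mul_pow, div_mul_eq_mul_div, mul_comm (d.h 0),
      mul_div_mul_left _ _ (pow_ne_zero _ (left_ne_zero_of_mul hW))]
  filter_upwards [gen_pt (θ := θ') h1, gen_pt (θ := θ) (rg_rat h1 hs h), hs.un, h2]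
    with k a1 a2 a3 a4 ζ hζ
  filter_upwards [a1 ζ (sub hζ), a2 ζ (sub hζ), a3.2 ζ (sub hζ), reg_ev a4 (sub hζ)]
    with w b1 b2 b3 b4
  have o := on (M := M) (k := k) b1.1
  have c1 : ∀ P, eval ((M.ch u' θ').pt k w) P = vl d.z (aeval u' P) (M.F k w) :=
    fun P => (b1.2.2.2.2 P).self_of_nhds
  have c2 := fun P => (vl_aeval o b1.2.1 P).1
  have c3 : eval ((M.ch u' θ').pt k w) s ≠ 0 := (c1 s).trans_ne b3.2
  refine ⟨c3, funext fun i => ?_, ?_⟩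
  · rw [rat, c1, c1, ← (vl_div o (c2 _) b3).2, ← h]
    exact (b2.2.2.2.1 i).self_of_nhds
  · have c4 : Un d.z (M.F k w) (aeval u' s ^ 4) :=
      ⟨(vl_pow o b3.1 4).1, by rw [(vl_pow o b3.1 4).2]; exact pow_ne_zero _ b3.2⟩
    rw [jac_rat c3, c1, c1, ← norm_pow, ← norm_mul, M.hm]
    simp only [ch, V]
    rw [e2, (vl_mul o b4 (vl_pow o (vl_div o (c2 _) c4).1 _).1).2,
      (vl_pow o (vl_div o (c2 _) c4).1 _).2, (vl_div o (c2 _) c4).2, (vl_pow o b3.1 4).2,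
      mul_div_right_comm]

lemma rel_of (h1 : ∀ i, M.Rg (u' i)) (hs : M.Gen (aeval u' s))
    (h2 : M.Rg (d.h 0 / Wd d.E (u 0) (u 1) ^ d.m)) (hW : Wd d.E (u 0) (u 1) ≠ 0)
    (h : ∀ i, u i = aeval u' (p i) / aeval u' s) {S : Set (Fin 2 → ℂ)}
    (hS : ∀ q ∈ S, eval q s ≠ 0) : Rel M.C (M.ch u' θ') (M.ch u θ) (rat p s) S := by
  have := rel_pt (θ := θ) (θ' := θ') h1 hs h2 hW h
  refine ⟨this.mono fun k hk z hz i => ?_, this.mono fun k hk => ?_⟩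
  · refine (ev_mer.eq hz.1 ?_ ((hk z hz.1).mono fun w a => congrFun a.2.1 i)).2
    exact ((analyticAt_pi_iff.1 (rat_an (hS _ hz.2.2)) i).comp (pt_an hz)).continuousAt
  · exact (ae_of_punct (M.ok.1 k) hk).mono fun z a hz => (a hz.1).2.2

/-- Transfer of the estimates to a new chart. -/
lemma child (H : All) (hc : ChOK M.C (M.ch u θ)) (h1 : ∀ i, M.Gen (u' i))
    (h1' : M.Gen (d.h 0 / Wd d.E (u' 0) (u' 1) ^ d.m)) (h3 : M.Gen (aeval u' θ'))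
    (hs : M.Gen (aeval u' s)) (h2 : M.Rg (d.h 0 / Wd d.E (u 0) (u 1) ^ d.m))
    (hW : Wd d.E (u 0) (u 1) ≠ 0) (h : ∀ i, u i = aeval u' (p i) / aeval u' s)
    (hθ : ∀ q, eval q θ' ≠ 0 → eval q s ≠ 0 ∧ eval q (JJ p s) ≠ 0 ∧ eval (rat p s q) θ ≠ 0) :
    ChOK M.C (M.ch u' θ') := by
  have r := fun i => (h1 i).rg
  have R : ∀ A : Set (Fin 2 → ℂ), (∀ q ∈ A, eval q s ≠ 0) →
      Rel0 M.C (M.ch u' θ') (M.ch u θ) (rat p s) A := fun A hA => (rel_of r hs h2 hW h hA).1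
  refine chOK_of H h1 h1' h3 ?_ fun A hA hA' => ?_
  · filter_upwards [hc.1, R {q | eval q s ≠ 0} fun _ a => a, gen_pt (θ := θ') r,
      rel_pt (θ := θ) (θ' := θ') r hs h2 hW h] with k a1 a2 a3 a4
    filter_upwards [a1.2, ae_of_punct (M.ok.1 k) fun z hz => (a3 z (sub hz)).and (a4 z hz)]
      with z b1 b2 hz e
    have b3 : z ∈ dom M.C (M.ch u' θ') {q | eval q s ≠ 0} k := ⟨hz, (b2 hz).1.2.2.1, (b2 hz).2.1⟩
    have b4 : (M.ch u' θ').dv k z = 0 := funext fun i => by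
      rw [Ch.N2, sq] at e
      simpa using (Finset.sum_eq_zero_iff_of_nonneg fun _ _ => by positivity).1 e i
        (Finset.mem_univ i)
    have b5 : HasDerivAt ((M.ch u' θ').pt k) 0 z := b4 ▸ hasDerivAt_pi.2 fun i =>
      (b3.2.1 i).differentiableAt.hasDerivAt
    refine (b1 hz).1 ?_
    rw [Ch.N2, sq]
    refine Finset.sum_eq_zero fun i _ => ?_
    have b6 := (hasDerivAt_pi.1 ((rat_an (p := p) b3.2.2).differentiableAt.hasFDerivAt.comp_hasDerivAt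
      z b5) i).congr_of_eventuallyEq (a2 z b3 i)
    simp [Ch.dv, b6.deriv]
  · have an : AnalyticOnNhd ℂ (rat p s) A := fun q hq => rat_an (hθ q (hA' q hq)).1
    obtain ⟨c1, -, c2⟩ := H.cmp M.C _ _ A _ hA an (R A fun q hq => (hθ q (hA' q hq)).1)
    obtain ⟨a, a0, c2⟩ := c2 fun q hq => by
      rw [jac_rat (hθ q (hA' q hq)).1]
      exact div_ne_zero (hθ q (hA' q hq)).2.1 (pow_ne_zero _ (hθ q (hA' q hq)).1)
    refine ((hc.2.2.1 _ (hA.image_of_continuousOn an.continuousOn) ?_).smul a0).mono M.ok ?_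
    · rintro _ ⟨q, hq, rfl⟩
      exact (hθ q (hA' q hq)).2.2
    · filter_upwards [c1, c2] with k b1 b2
      exact .of_forall fun z hz => ⟨b1 hz, b2 z hz⟩

end Mdl

end Pool.Agent.MP_c69980_ag.H4.B
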