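import Pool.Agent.MP_c69980_ag.H4.NL

/-!
Local potentials: terminal points and automorphisms of the plane.
-/

set_option autoImplicit false

noncomputable section

namespace Pool.Agent.MP_c69980_ag.H4.B

open MvPolynomial Metric Filter Topology Set MeasureTheory Real
open H60

variable {K : Type} [Field K] [Algebra ℂ K] {d : Dat K}

namespace Mdl

variable {M : Mdl d} {u u' : Fin 2 → K} {θ θ' : PR 2}

lemma p2' (H : All) (hF : M.Full u) (hW : Wd d.E (u 0) (u 1) ≠ 0) {P Q J : PR 2}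
    (hJ : M.Gen (aeval u J)) {S : Fin d.n' → PR 2} (hI : ∀ j, Int2 u (aeval u (S j) *
      (aeval u P * Wd d.E (d.z' j) (aeval u Q) / (aeval u J * Wd d.E (u 0) (u 1)) / d.z' j))) :
    ∀ᶠ k in atTop, ∀ ζ ∈ dom M.C (M.ch u θ) univ k, (∀ j, (M.ch u θ).ev (S j) k ζ ≠ 0) →
      Rem (fun w => (M.ch u θ).b k w / (M.ch u θ).ev J k w ^ M.C.m *
        ((M.ch u θ).ev P k w * deriv ((M.ch u θ).ev Q k) w) ^ M.C.m) ζ := by
  have r := fun i => (hF.1 i).rg
  let a : Fin 2 → PR 2 := ![P * pderiv 1 Q, -(P * pderiv 0 Q)]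
  have hα : ∀ i, M.Rg (aeval u (a i) / aeval u J) :=
    rg_rat (u := fun i => aeval u (a i) / aeval u J) r hJ fun _ => rfl
  have J0 := gen_ne hJ
  filter_upwards [p2 (θ := θ) (S := S) H hF hW hα fun j => by
    convert hI j using 3
    simp only [a, pd, Wd, der_aeval, Matrix.cons_val_zero, Matrix.cons_val_one, map_mul, map_neg]
      at hW ⊢
    field_simp
    ring, gen_pt (θ := θ) r, hJ.un] with k a1 a2 a3 ζ hζ hS
  obtain ⟨f, f1, f2⟩ := a1 ζ hζ hS
  refine ⟨f, f1, EventuallyEq.trans ?_ f2⟩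
  filter_upwards [a2 ζ (sub hζ.1), a3.2 ζ (sub hζ.1)] with w b1 b2
  have o := on (M := M) (k := k) b1.1
  have c1 : ∀ P, M.V (aeval u P) k w = (M.ch u θ).ev P k w :=
    fun P => (b1.2.2.2.2 P).self_of_nhds.symm
  have c2 : ∀ i, M.V (aeval u (a i) / aeval u J) k w =
      (M.ch u θ).ev (a i) k w / (M.ch u θ).ev J k w := fun i => by
    rw [← c1, ← c1]; exact (vl_div o (vl_aeval o b1.2.1 _).1 b2).2
  have c3 : deriv ((M.ch u θ).ev Q k) w = _ := (chain (x := (M.ch u θ).pt k) (hasDerivAt_pi.2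
    fun i => (b1.2.2.1 i).differentiableAt.hasDerivAt) Q).deriv
  rw [c2, c2, c3, div_mul_eq_mul_div, mul_div_assoc, ← div_pow]
  simp only [a, Ch.ev, Ch.dv, Matrix.cons_val_zero, Matrix.cons_val_one, map_mul, map_neg,
    Fin.sum_univ_two]
  congr 2
  ring

end Mdl

open Mdl L

/-- A potential exists near the point `q` of the chart. -/
def PP (d : Dat K) (u : Fin 2 → K) (θ : PR 2) (A S : Set (Fin 2 → ℂ)) : Prop :=
  ∃ G, IsOpen G ∧ A ⊆ G ∧ NS θ G S ∧
    Gc d fun M => ChOK M.C (M.ch u θ) → PotL M.W M.C (M.ch u θ) G S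

/-- The property proved by induction on the resolution. -/
def PI (d : Dat K) (θ : PR 2) : Prop := ∀ u, d.Al u θ → PP d u θ {0} {0}

variable {u u' : Fin 2 → K} {θ θ' : PR 2}

lemma ne_of_eval {P : PR 2} {q : Fin 2 → ℂ} (h : eval q P ≠ 0) : P ≠ 0 := fun e => h (by simp [e])

lemma term_step' (H : All) {U V a b : PR 2} (h1 : eval 0 (jp U V) ≠ 0) (h2 : eval 0 a ≠ 0)
    (h3 : eval 0 b ≠ 0) (h4 : a * (U * V) = b * θ) (h5 : ‖eval 0 U‖ < 1 / 2)
    (h6 : ‖eval 0 V‖ < 1 / 2) : PI d θ := fun u hu => by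
  obtain ⟨e, i1, i2⟩ := H.aterm K _ _ d.U d.z d.W d.z' d.pr d.m d.E d.h u θ U V a b d.ld hu.alg h1
    h2 h3 h4
  choose S S0 hS using i1
  choose S' S0' hS' using i2
  obtain ⟨c, c1, c0⟩ := ((eventually_all.2 fun l => mem_nhdsWithin_of_mem_nhds (gt_mem_nhds
    (norm_pos_iff.2 (S0 l)))).and (self_mem_nhdsWithin (a := (0 : ℝ)) (s := Ioi 0))).exists
  let G₁ : Set (Fin 2 → ℂ) :=
    {q | ‖q‖ < 1 ∧ (∀ l, c < ‖eval q (S l)‖) ∧ ∀ j i, eval q (S' j i) ≠ 0}
  have o1 : IsOpen G₁ := by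
    simp only [G₁, ofPred_and, ofPred_forall]
    exact (isOpen_lt continuous_norm continuous_const).inter ((isOpen_iInter_of_finite fun l =>
      isOpen_lt continuous_const (MvPolynomial.continuous_eval _).norm).inter
      (isOpen_iInter_of_finite fun j => isOpen_iInter_of_finite fun i =>
        isOpen_ne_fun (MvPolynomial.continuous_eval _) continuous_const))
  obtain ⟨G, g1, g2, g3, g4⟩ := L.term H26.logSub H26.subMean R1.lapRule vp H98.tc H98.cmp
    H98.change' θ U V a b G₁ h1 h2 h3 h4 h5 h6 o1 ⟨by simp, c1, S0'⟩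
  have U0 : U ≠ 0 := fun e => h1 (by simp [e, jp])
  have V0 : V ≠ 0 := fun e => h1 (by simp [e, jp])
  have J0 := aeval_ne hu.tb (ne_of_eval h1)
  have UV := aeval_ne hu.tb (mul_ne_zero U0 V0)
  refine ⟨G, g1, singleton_subset_iff.2 g2, g3, ((Gc.full H hu).and ((Gc.gen (aeval_ne hu.tb U0)).and
    ((Gc.gen (aeval_ne hu.tb V0)).and ((Gc.gen UV).and ((Gc.gen J0).and
      ((Gc.gen (div_ne_zero UV J0)).and (low_chart H hu))))))).mono ?_⟩
  rintro M ⟨m1, m2, m3, m4, m5, m6, m7⟩ hc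
  have r := fun i => (m1.1 i).rg
  obtain ⟨A, hA⟩ := p1 (θ := θ) (S := S) H m1 m6 (fun l => by
    convert hS l using 2
    rw [e, Dat.β, mul_pow, div_pow]
    field_simp) 1 c0
  have ee : ∀ᶠ k in atTop, ∀ᵐ z, z ∈ M.C.Ω k →
      log (‖(M.ch u θ).b k z / (M.ch u θ).ev (jp U V) k z ^ M.C.m‖ ^ 2) / M.C.m +
        log (‖(M.ch u θ).ev (U * V) k z‖ ^ 2) =
      Bb M.C (M.ch u θ) k z + log (‖M.V (aeval u (U * V) / aeval u (jp U V)) k z‖ ^ 2) := by
    filter_upwards [gen_pt (θ := θ) r, m4.un, m5.un, hc.1] with k a2 a3 a4 a5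
    filter_upwards [a5.2, ae_of_punct (M.ok.1 k) fun z hz => (a2 z (sub hz)).and
      ((a3.2 z (sub hz)).and (a4.2 z (sub hz)))] with z b2 b3 hz
    obtain ⟨c1, c2, c3⟩ := b3 hz
    have mp : (M.C.m : ℝ) ≠ 0 := Nat.cast_ne_zero.2 M.ok.2.2.2.ne'
    have n1 := norm_ne_zero_iff.2 c2.2
    have n2 := norm_ne_zero_iff.2 c3.2
    have n3 := norm_ne_zero_iff.2 (b2 hz).2.1
    rw [(c1.2.2.2.2 _).self_of_nhds, (c1.2.2.2.2 _).self_of_nhds, Mdl.V, Mdl.V, Mdl.V,
      (vl_div (on c1.1) c2.1 c3).2, Bb]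
    simp only [norm_div, norm_pow, log_pow, log_div n3 (pow_ne_zero _ n2), log_div n1 n2]
    field_simp
    ring
  refine g4 M.W M.C _ A M.ok hc rfl (f2_ev H r m2) (f2_ev H r m3) (f2_ev H r m4) ?_
    ((m7 _ m6).mono 0 (ee.mono fun k a => a.mono fun z b hz => ⟨hz.1, by rw [b hz.1, sub_zero]⟩))
  filter_upwards [hA, ee,
    p2' (θ := θ) (P := V) (Q := U) (S := fun j => -S' j 1) H m1 hu.wd m5 fun j => by
      convert hS' j 1 using 1
      simp only [pd, e, Matrix.cons_val_zero, Matrix.cons_val_one, map_neg]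
      simp only [Wd]
      ring,
    p2' (θ := θ) (P := U) (Q := V) (S := fun j => S' j 0) H m1 hu.wd m5 fun j => by
      convert hS' j 0 using 1
      simp only [pd, e, Matrix.cons_val_zero, Matrix.cons_val_one]
      ring] with k a1 a2 a6 a7
  refine ⟨?_, fun z hz _ => ⟨a6 z (dom_mono (subset_univ _) hz) fun j => ?_,
    a7 z (dom_mono (subset_univ _) hz) fun j => hz.2.2.2.2 j 0⟩⟩
  · filter_upwards [a1, a2] with z b1 b2 hz
    linarith [b1 hz.1 hz.2.2.1.le fun l => (hz.2.2.2.1 l).le, b2 hz.1]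
  · simpa [Ch.ev] using hz.2.2.2.2 j 1

lemma term_step (H : All) (h : Term θ) : PI d θ := by
  obtain ⟨U, V, a, b, h1, h2, h3, h4⟩ := h
  let t : ℝ := (2 * (‖eval 0 U‖ + ‖eval 0 V‖ + 1))⁻¹
  have t0 : 0 < t := by positivity
  have t1 : (t : ℂ) ≠ 0 := Complex.ofReal_ne_zero.2 t0.ne'
  have key : ∀ x : ℂ, ‖x‖ ≤ ‖eval 0 U‖ + ‖eval 0 V‖ → ‖t * x‖ < 1 / 2 := fun x hx => by
    rw [norm_mul, Complex.norm_real, Real.norm_of_nonneg t0.le, inv_mul_lt_iff₀ (by positivity)]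
    linarith
  refine term_step' H (U := C (t : ℂ) * U) (V := C (t : ℂ) * V) (a := a) (b := C (t : ℂ) ^ 2 * b)
    ?_ h2 (by rw [map_mul, map_pow, eval_C]; exact mul_ne_zero (pow_ne_zero _ t1) h3)
    (by linear_combination C (t : ℂ) ^ 2 * h4) ?_ ?_
  · have : jp (C (t : ℂ) * U) (C (t : ℂ) * V) = C (t : ℂ) ^ 2 * jp U V := by
      simp only [jp, pderiv_C_mul]; ring
    rw [this, map_mul, map_pow, eval_C]; exact mul_ne_zero (pow_ne_zero _ t1) h1
  · simpa using key _ (le_add_of_nonneg_right (norm_nonneg _))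
  · simpa using key _ (le_add_of_nonneg_left (norm_nonneg _))

lemma eval_aeval' (q : Fin 2 → ℂ) (p : Fin 2 → PR 2) (P : PR 2) :
    eval q (aeval p P) = eval (fun i => eval q (p i)) P := comp_aeval_apply p (aeval q) P

lemma rat_one (p : Fin 2 → PR 2) (q : Fin 2 → ℂ) : rat p 1 q = fun i => eval q (p i) := by
  ext i; simp [rat]

lemma iso_step (H : All) {a p : Fin 2 → PR 2} {q₀ : Fin 2 → ℂ} (hp : ∀ i, aeval a (p i) = X i)
    (h0 : rat a 1 q₀ = 0) (hd : ∀ q, dist q q₀ ≤ dist (rat a 1 q) 0)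
    (ja : ∀ q, eval q (JJ a 1) ≠ 0) (jb : ∀ q, eval q (JJ p 1) ≠ 0) (h : PI d (aeval p θ))
    (hu : d.Al u θ) : PP d u θ {q₀} {q₀} := by
  let u' : Fin 2 → K := fun i => aeval u (a i)
  have e1 : ∀ i, u i = aeval u' (p i) / aeval u' (1 : PR 2) := fun i => by
    rw [map_one, div_one, ← comp_aeval_apply a (aeval u), hp, aeval_X]
  have e2 : ∀ i, u' i = aeval u (a i) / aeval u (1 : PR 2) := fun i => by simp [u']
  have e3 : ∀ q P, eval (rat a 1 q) (aeval p P) = eval q P := fun q P => by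
    rw [rat_one, ← eval_aeval', comp_aeval_apply p (aeval a), funext hp, aeval_X_left_apply]
  have e4 : aeval u' (aeval p θ) = aeval u θ := by
    rw [comp_aeval_apply p (aeval u')]
    congr 2
    exact funext fun i => by simpa using (e1 i).symm
  have hu' : d.Al u' (aeval p θ) := ⟨H.achange K _ _ d.z' d.E d.h u u' θ _ 1 1 p 1 d.ld.2.2.1
    hu.alg (by simp) e1 (one_dvd _) (by rw [pow_one, map_one, mul_one, e4]), e4 ▸ hu.ne⟩
  obtain ⟨G, g1, g2, g3, g4⟩ := h u' hu'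
  have an : ∀ q, AnalyticAt ℂ (rat a 1) q := fun q => rat_an (by simp)
  have o : IsOpen (rat a 1 ⁻¹' G) :=
    g1.preimage (continuous_iff_continuousAt.2 fun q => (an q).continuousAt)
  have ns : NS θ (rat a 1 ⁻¹' G) {q₀} := fun q hq hq' hθ => by
    by_contra hn
    push Not at hn
    obtain ⟨i, hi⟩ := g3 _ hq (fun e => hq' (dist_le_zero.1 ((hd q).trans_eq (dist_eq_zero.2 e))))
      ((e3 q θ).trans hθ)
    exact hi (by rw [der_aeval, map_add, map_mul, map_mul, e3, e3, hn, hn]; simp)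
  refine ⟨_, o, singleton_subset_iff.2 (g2 h0), ns, ?_⟩
  refine (g4.and ((Gc.full H hu).and ((Gc.full H hu').and (Gc.gen hu'.ne)))).mono ?_
  rintro M ⟨m1, m2, m3, m4⟩ hc
  have hc' : ChOK M.C (M.ch u' (aeval p θ)) :=
    child H hc m3.1 m3.2.1 m4 gen_one m2.2.1.rg hu.wd e1 fun q hq =>
      ⟨by simp, jb q, by rwa [rat_one, ← eval_aeval']⟩
  have hR : Rel M.C (M.ch u θ) (M.ch u' (aeval p θ)) (rat a 1) (rat a 1 ⁻¹' G) :=
    rel_of (fun i => (m2.1 i).rg) gen_one m3.2.1.rg hu'.wd e2 fun q _ => by simp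
  refine L.pull H98.change' M.W M.C (M.ch u θ) (M.ch u' (aeval p θ)) (rat a 1 ⁻¹' G) G {q₀} {0} (rat a 1)
    (fun _ => 1) M.ok hc o (fun q _ => an q) (fun q _ => analyticAt_const) (fun q hq => ⟨?_,
      one_ne_zero, (e3 q θ).trans (one_mul _).symm, hq⟩) ns (fun r hr => ⟨r, hr, ?_⟩) hR
    ((m1 hc').res M.ok (.of_forall fun k z hz => hz.1))
  · rw [jac_rat (by simp)]
    simpa using ja q
  · rintro q - b s rfl
    exact (b q₀ rfl).trans (hd q)

lemma tr_step (H : All) {q : Fin 2 → ℂ} (h : PI d (tr q θ)) (hu : d.Al u θ) :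
    PP d u θ {q} {q} := by
  refine iso_step H (a := fun i => X i - C (q i)) (p := fun i => X i + C (q i)) (by simp)
    (by ext i; simp [rat]) (fun y => le_of_eq ?_) (by simp [JJ, dq]) (by simp [JJ, dq]) h hu
  rw [dist_zero_right, dist_eq_norm, rat_one]
  congr 1
  ext i
  simp

lemma swap_step (H : All) (h : PI d (aeval ![(X 1 : PR 2), X 0] θ)) : PI d θ := fun u hu => by
  refine iso_step H (a := ![X 1, X 0]) (p := ![X 1, X 0]) (fun i => by fin_cases i <;> simp)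
    (by ext i; fin_cases i <;> simp [rat]) (fun y => ?_) (by simp [JJ, dq]) (by simp [JJ, dq]) h hu
  rw [dist_zero_right, dist_zero_right, pi_norm_le_iff_of_nonneg (norm_nonneg _)]
  intro i
  fin_cases i
  · simpa [rat] using norm_le_pi_norm (rat ![X 1, X 0] 1 y) 1
  · simpa [rat] using norm_le_pi_norm (rat ![X 1, X 0] 1 y) 0

end Pool.Agent.MP_c69980_ag.H4.B
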