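import Pool.Agent.MP_c69980_ag.H4.N5

/-!
Comparison of heights.
-/

set_option autoImplicit false

noncomputable section

namespace Pool.Agent.MP_c69980_ag.H4.B

open MvPolynomial Metric Filter Topology Set MeasureTheory Real
open H60 Mdl

variable {K : Type} [Field K] [Algebra ℂ K] {d : Dat K} {M : Mdl d} {u : Fin 2 → K} {θ : PR 2}

lemma bdd_unif (H : All) {ι : Type} [Finite ι] {ζ : ι → K} {S : PR 2}
    (hI : ∀ i, Int2 u (aeval u S * ζ i)) (hu : ∀ i, M.Rg (u i)) (hg : ∀ i, M.Rg (ζ i)) :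
    ∃ (A : ℝ) (N : ℕ), 0 < A ∧ 0 < N ∧ ∀ᶠ k in atTop, ∀ z ∈ ball (0 : ℂ) 1, ∀ᶠ w in 𝓝[≠] z, ∀ i,
      ‖(M.ch u θ).ev S k w‖ * ‖M.V (ζ i) k w‖ ≤ A * (1 + ‖(M.ch u θ).pt k w‖) ^ N := by
  choose A N A0 h using fun i => bdd (θ := θ) H (hI i) hu (hg i)
  obtain ⟨L, hL⟩ := (Set.finite_range N).bddAbove
  obtain ⟨B, hB⟩ := (Set.finite_range A).bddAbove
  refine ⟨|B| + 1, L + 1, by positivity, by omega, (eventually_all.2 h).mono fun k hk z hz =>
    (eventually_all.2 fun i => hk i z hz).mono fun w b i => (b i).trans ?_⟩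
  have := hB ⟨i, rfl⟩
  have := hL ⟨i, rfl⟩
  gcongr
  · linarith [le_abs_self B]
  · linarith [norm_nonneg ((M.ch u θ).pt k w)]
  · omega

lemma rg_coord {j : Fin d.n} (hj : d.z j ≠ 0) (a : Fin d.n) : M.Rg (d.z a / d.z j) :=
  M.hg.mono fun k hk => ⟨X a, X j, 1, isHomogeneous_X _ _, isHomogeneous_X _ _,
    by simpa using hk.2.2.2 j hj, by simp⟩

lemma V_coord {j a : Fin d.n} {k : ℕ} {w : ℂ} (hw : w ∈ ball (0 : ℂ) 1) (h : M.F k w j ≠ 0) :
    M.V (d.z a / d.z j) k w = M.F k w a / M.F k w j := by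
  simpa [V] using vl_eq (on (M := M) (k := k) hw) (isHomogeneous_X ℂ a) (isHomogeneous_X ℂ j)
    (by simpa using h)

lemma coord_ne {j : Fin d.n} (hj : d.z j ≠ 0) :
    ∀ᶠ k in atTop, ∀ ζ ∈ ball (0 : ℂ) 1, ∀ᶠ w in 𝓝[≠] ζ, M.F k w j ≠ 0 :=
  M.hg.mono fun k hk _ hζ => NZ.ev (differentiableOn_pi.1 (M.hF k).1 j)
    ⟨0, mem_ball_self one_pos, hk.2.2.2 j hj⟩ hζ

lemma height (H : All) (hX : ∀ i, u i = d.h i.succ / d.h 0) (h1 : ∀ i, M.Gen (u i))
    (h2 : M.Gen (aeval u θ)) {j : Fin d.n} (hj : d.z j ≠ 0)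
    (hI : ∀ a, ∃ N : ℕ, Int2 u (aeval u θ ^ N * (d.z a / d.z j))) {g : ℕ → ℂ → ℝ}
    (hg : ∀ᶠ k in atTop, TF M.c₀ (M.C.Ω k) (M.B k) (g k) ∧ M.C.T k ≤ ∫ z, lam (M.F k) z * g k z) :
    ∃ κ, 0 < κ ∧ ∀ᶠ k in atTop, κ * M.C.T k ≤ ∫ z, M.C.u k z * lap (g k) z := by
  obtain ⟨N, hN⟩ := int_unif hI
  have r := fun i => (h1 i).rg
  obtain ⟨A, L, A0, L0, hA⟩ := bdd_unif (θ := θ) H hN r (rg_coord hj)
  obtain ⟨η, η0, hη⟩ : ∃ η : ℝ, 0 < η ∧ (2 * L + 2 * N) * η * (|M.c₀| + 1) = 1 / 4 :=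
    ⟨1 / (4 * ((2 * L + 2 * N) * (|M.c₀| + 1))), by positivity, by field_simp⟩
  have mp : (0 : ℝ) < d.m := Nat.cast_pos.2 d.ld.2.2.2.2.1
  have Lp : (0 : ℝ) < L := Nat.cast_pos.2 L0
  set c₁ := d.n * (A * 2 ^ L) ^ 2
  refine ⟨2 / (d.m * L), by positivity, ?_⟩
  filter_upwards [hA, eventually_all.2 fun i => (h1 i).bdd η0, h2.bdd η0, hg, M.hΦ, gen_pt (θ := θ) r, h2.un, coord_ne hj,
    (Rg.aeval r (θ ^ N)), M.hT.eventually_ge_atTop (4 * ((|log c₁| + L * log 3) * |M.c₀|))]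
    with k a1 a2 a3 a4 a5 a6 a7 a8 a9 a11
  have T0 := M.ok.2.2.1 k
  set B := exp (η * M.C.T k) with hB'
  have B0 : 0 < B := exp_pos _
  have B1 : 1 ≤ B := one_le_exp (by positivity)
  set c₂ := (3 * B ^ 2) ^ L * (B ^ N) ^ 2 with hc₂
  have l3 := log_nonneg (by norm_num : (1 : ℝ) ≤ 3)
  have l2 : log c₂ = L * log 3 + (2 * L + 2 * N) * η * M.C.T k := by
    rw [hc₂, log_mul (by positivity) (by positivity), log_pow, log_pow, log_pow,
      log_mul (by positivity) (by positivity), log_pow, hB', log_exp]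
    push_cast
    ring
  set a := |log c₁| + |log c₂| with ha
  have a10 : 2 * (a * M.c₀) ≤ M.C.T k := by
    have h3 : (2 * L + 2 * N) * η * M.C.T k * |M.c₀| ≤ M.C.T k / 4 := by
      have : 0 ≤ (2 * L + 2 * N) * η * M.C.T k := by positivity
      nlinarith
    have h4 := mul_le_mul_of_nonneg_left (le_abs_self M.c₀) (by positivity : 0 ≤ a)
    rw [ha, l2, abs_of_nonneg (a := _ + _) (by positivity)] at h4 ⊢
    nlinarith
  have c1 := a5.1
  have c2 : Crv (M.C.Ω k) (M.F k) := ⟨crv.1.mono fun _ => sub, fun z hz => crv.2 z (sub hz)⟩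
  let f : ℂ → ℂ := fun w => M.Φ k w 0 ^ L * M.V (aeval u (θ ^ N)) k w / M.F k w j
  have e1 : ∀ z ∈ M.C.Ω k, ∀ᶠ w in 𝓝[≠] z, (∀ i, M.Φ k w i.succ = M.Φ k w 0 * M.V (u i) k w) ∧
      ∀ a, ‖f w‖ * ‖M.F k w a‖ ≤ A * 2 ^ L * ‖M.Φ k w‖ ^ L := fun z hz => by
    filter_upwards [a1 z (sub hz), a5.2 z hz, a6 z (sub hz), a8 z (sub hz)] with w b1 b2 b3 b4
    have e : ∀ i, M.Φ k w i.succ = M.Φ k w 0 * M.V (u i) k w := fun i => by
      rw [hX]; exact (b2.2 _).2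
    refine ⟨e, fun a => ?_⟩
    have b5 := b1 a
    rw [(b3.2.2.2.2 _).self_of_nhds, V_coord b3.1 b4] at b5
    have b6 : ‖M.Φ k w 0‖ * ‖(M.ch u θ).pt k w‖ ≤ ‖M.Φ k w‖ := by
      rw [← norm_smul, pi_norm_le_iff_of_nonneg (norm_nonneg _)]
      intro i
      rw [Pi.smul_apply, smul_eq_mul, Ch.pt, (b3.2.2.2.1 i).self_of_nhds, ← e]
      exact norm_le_pi_norm _ _
    calc _ = ‖M.Φ k w 0‖ ^ L * (‖M.V (aeval u (θ ^ N)) k w‖ * ‖M.F k w a / M.F k w j‖) := by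
          simp only [f, norm_div, norm_mul, norm_pow]; ring
      _ ≤ ‖M.Φ k w 0‖ ^ L * (A * (1 + ‖(M.ch u θ).pt k w‖) ^ L) := by gcongr
      _ = A * (‖M.Φ k w 0‖ * (1 + ‖(M.ch u θ).pt k w‖)) ^ L := by rw [mul_pow]; ring
      _ ≤ A * (2 * ‖M.Φ k w‖) ^ L := by
          exact mul_le_mul_of_nonneg_left (pow_le_pow_left₀ (by positivity)
            (by linarith [norm_le_pi_norm (M.Φ k w) 0]) L) A0.le
      _ = _ := by rw [mul_pow]; ring
  obtain ⟨φ, φ1, -, φ2⟩ := rem_on (f := f) (M.ok.1 k) fun z hz => by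
    obtain ⟨a, ha⟩ := Function.ne_iff.1 (c2.2 z hz)
    have n1 := c1.1.analyticAt ((M.ok.1 k).mem_nhds hz)
    have n2 := analyticAt_pi_iff.1 (c2.1.analyticAt ((M.ok.1 k).mem_nhds hz))
    have n3 : ContinuousAt (fun w => A * 2 ^ L * ‖M.Φ k w‖ ^ L / ‖M.F k w a‖) z :=
      (continuousAt_const.mul (n1.continuousAt.norm.pow L)).div (n2 a).continuousAt.norm
        (norm_ne_zero_iff.2 ha)
    refine rem_of_bdd ((((analyticAt_pi_iff.1 n1 0).pow L).meromorphicAt.mul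
      (mer a9 z (sub hz))).div (n2 j).meromorphicAt)
      (B := A * 2 ^ L * ‖M.Φ k z‖ ^ L / ‖M.F k z a‖ + 1) ?_
    filter_upwards [e1 z hz, mem_nhdsWithin_of_mem_nhds (n3.eventually (gt_mem_nhds
      (lt_add_one _))), mem_nhdsWithin_of_mem_nhds ((n2 a).continuousAt.eventually_ne ha)]
      with w b1 b2 b3
    exact le_trans ((le_div_iff₀ (norm_pos_iff.2 b3)).2 (b1.2 a)) (le_of_lt b2)
  have key := H.comp _ _ _ (M.B k) (g k) (M.Φ k) (M.F k) φ M.c₀ L a (M.ok.1 k) a4.1 c1 c2 φ1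
    (by positivity) (by
    filter_upwards [φ2, ae_of_punct (M.ok.1 k) fun z hz => (e1 z hz).and ((a5.2 z hz).and
      ((a7.2 z (sub hz)).and (a8 z (sub hz))))] with z b1 b2 hz
    obtain ⟨b2, b3, b4, b5⟩ := b2 hz
    have e2 : M.V (aeval u (θ ^ N)) k z = M.V (aeval u θ) k z ^ N := by
      rw [map_pow]; exact (vl_pow (on (sub hz)) b4.1 N).2
    have f0 : f z ≠ 0 := div_ne_zero (mul_ne_zero (pow_ne_zero _ b3.1)
      (e2 ▸ pow_ne_zero _ b4.2)) b5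
    have p1 := R1.sq_pos' (c1.2 z hz)
    have p2 := R1.sq_pos' (c2.2 z hz)
    have p3 : 0 < ‖f z‖ ^ 2 := by positivity
    rw [← b1 hz, sub_sub, ← log_pow, ← log_mul p2.ne' p3.ne']
    refine ⟨f0, ?_, fun hB => ?_⟩
    · have q1 : sq (M.F k z) * ‖f z‖ ^ 2 ≤ c₁ * sq (M.Φ k z) ^ L := by
        rw [sq, Finset.sum_mul]
        refine (Finset.sum_le_card_nsmul _ _ ((A * 2 ^ L) ^ 2 * sq (M.Φ k z) ^ L)
          fun a _ => ?_).trans_eq (by simp [c₁, mul_assoc])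
        rw [← mul_pow, mul_comm]
        refine (pow_le_pow_left₀ (by positivity) (b2.2 a) 2).trans ?_
        rw [mul_pow, ← pow_mul, mul_comm L, pow_mul]
        gcongr
        exact R1.norm_sq_le _
      have q2 : 0 < c₁ :=
        (mul_pos_iff_of_pos_right (pow_pos p1 L)).1 ((mul_pos p2 p3).trans_le q1)
      have := log_le_log (mul_pos p2 p3) q1
      rw [log_mul q2.ne' (by positivity)] at this
      linarith [le_abs_self (log c₁), abs_nonneg (log c₂)]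
    · have q1 : sq (M.Φ k z) ≤ 3 * B ^ 2 * ‖M.Φ k z 0‖ ^ 2 := by
        rw [sq, Fin.sum_univ_succ, Fin.sum_univ_two, b2.1, b2.1, norm_mul, norm_mul, mul_pow,
          mul_pow]
        have := pow_le_pow_left₀ (norm_nonneg _) (a2 0 z hB (sub hz)).2.1 2
        have := pow_le_pow_left₀ (norm_nonneg _) (a2 1 z hB (sub hz)).2.1 2
        nlinarith [sq_nonneg ‖M.Φ k z 0‖, one_le_pow₀ (n := 2) B1]
      have q2 : ‖M.F k z j‖ ^ 2 ≤ sq (M.F k z) := Finset.single_le_sum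
        (f := fun i => ‖M.F k z i‖ ^ 2) (fun _ _ => by positivity) (Finset.mem_univ j)
      have q3 : 1 ≤ B * ‖M.V (aeval u θ) k z‖ := (inv_le_iff_one_le_mul₀' B0).1
        (a3 z hB (sub hz)).1
      have q4 : sq (M.Φ k z) ^ L ≤ c₂ * (sq (M.F k z) * ‖f z‖ ^ 2) := by
        have n5 := norm_pos_iff.2 b5
        calc _ ≤ (3 * B ^ 2 * ‖M.Φ k z 0‖ ^ 2) ^ L *
              ((B * ‖M.V (aeval u θ) k z‖) ^ N) ^ 2 :=
              (pow_le_pow_left₀ p1.le q1 L).trans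
                (le_mul_of_one_le_right (by positivity) (one_le_pow₀ (one_le_pow₀ q3)))
          _ = c₂ * (‖M.F k z j‖ ^ 2 * ‖f z‖ ^ 2) := by
              simp only [f, c₂, e2, norm_div, norm_mul, norm_pow, mul_pow _ _ L]
              field_simp
              ring
          _ ≤ _ := by gcongr
      have := log_le_log (by positivity) q4
      rw [log_mul (by positivity) (by positivity)] at this
      linarith [le_abs_self (log c₂), abs_nonneg (log c₁)])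
  obtain ⟨l1, -, l2⟩ := H.lapq _ _ _ (M.ok.1 k) c1
  have e3 : ∫ z, M.C.u k z * lap (g k) z = 4 / d.m * ∫ z, lam (M.Φ k) z * g k z := by
    simp only [M.hu, div_mul_eq_mul_div]
    rw [integral_div, H.green _ _ _ (M.ok.1 k) (l1.of_le (by norm_cast)) a4.1.1,
      ← integral_const_mul]
    congr 2
    ext z
    by_cases hz : z ∈ M.C.Ω k
    · rw [l2 z hz, mul_assoc]
    · simp [H26.test_zero a4.1.1 hz]
  rw [e3, div_mul_eq_mul_div, div_mul_eq_mul_div, div_le_div_iff₀ (by positivity) mp]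
  nlinarith [a4.2]

end Pool.Agent.MP_c69980_ag.H4.B
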