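import Pool.Agent.MP_c69980_ag.H4.N6

/-!
The final inequality, and the vanishing of the mass outside the curve.
-/

set_option autoImplicit false

noncomputable section

namespace Pool.Agent.MP_c69980_ag.H4.B

open MvPolynomial Metric Filter Topology Set MeasureTheory Real
open H60 Mdl L

variable {K : Type} [Field K] [Algebra ℂ K] {d : Dat K} {M : Mdl d} {u : Fin 2 → K} {θ : PR 2}

lemma contra (H : All) {ρ : ℕ → ℝ} {g : ℕ → ℂ → ℝ} {κ : ℝ} {j : Fin d.n} (hv : PotGL M.W M.C)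
    (hB : ∀ k, M.B k = ball 0 (ρ k))
    (hB' : ∀ᶠ k in atTop, ∀ w ∈ ball (0 : ℂ) (ρ k), w ∈ M.C.Ω k ∧ M.F k w j ≠ 0)
    (hD : ∀ η, 0 < η → ∀ᶠ k in atTop, ∃ a,
      exp (-(η * M.C.T k)) ≤ ‖deriv (M.V (d.z a / d.z j) k) 0‖) (κ0 : 0 < κ)
    (hg : ∀ᶠ k in atTop, TF M.c₀ (M.C.Ω k) (ball 0 (ρ k)) (g k) ∧ (∀ z, g k z ≤ M.C.g k z) ∧
      κ * M.C.T k ≤ ∫ z, M.C.u k z * lap (g k) z ∧
      ∃ σ : ℂ → ℝ, Continuous σ ∧ (∀ z, 0 ≤ σ z) ∧ (∀ z w, ‖z‖ = ‖w‖ → σ z = σ w) ∧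
        tsupport σ ⊆ ball 0 (ρ k) ∧ ∀ z ∈ ball 0 (ρ k), lap (g k) z = -σ z)
    (hY : ∀ η, 0 < η → ∀ᶠ k in atTop,
      (∀ z ∉ ball 0 (ρ k), lap (g k) z ≤ exp (η * M.C.T k) * M.C.g k z) ∧
      ∃ Y : ℂ → ℝ, Integrable Y ∧ (∀ z, 0 ≤ Y z) ∧
      ∫ z, Y z ≤ η * M.C.T k ∧ ∀ z, ‖grad (g k) z‖ ^ 2 ≤ M.C.g k z * Y z) : False := by
  refine H.final2 M.C (fun k => ball 0 (ρ k)) g M.c₀ κ M.ok κ0 M.hT ?_ hY fun η hη => ?_
  · filter_upwards [hg, M.hΦ] with k a1 a2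
    refine ⟨measurableSet_ball, a1.1, a1.2.1, ?_, a1.2.2.1⟩
    rw [funext (M.hu k)]
    exact (H.lapq _ _ _ (M.ok.1 k) a2.1).1.continuousOn.div_const _
  obtain ⟨v, v1, v2⟩ := hv η hη
  obtain ⟨ε, ε0, hε⟩ : ∃ ε : ℝ, 0 < ε ∧ 4 * ε * (|M.c₀| + 1) = η :=
    ⟨η / (4 * (|M.c₀| + 1)), by positivity, by field_simp⟩
  obtain ⟨A, hA⟩ := v2 ε ε0
  refine ⟨v, v1, ?_⟩
  filter_upwards [hg, hB', hA, hD ε ε0, M.hg, (M.hT.const_mul_atTop ε0).eventually_ge_atTop A]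
    with k ⟨a1, _, _, σ, s1, s2, s3, s4, s5⟩ a2 a3 ⟨i, hi⟩ a5 a6
  have T0 := M.ok.2.2.1 k
  have an : DifferentiableOn ℂ (deriv (M.V (d.z i / d.z j) k)) (ball 0 (ρ k)) := fun z hz =>
    (V_an (sub (a2 z hz).1) ⟨X i, X j, 1, isHomogeneous_X _ _, isHomogeneous_X _ _,
      by simpa using (a2 z hz).2, by simp⟩).deriv.differentiableAt.differentiableWithinAt
  have n0 : ‖((exp (ε * M.C.T k) : ℝ) : ℂ)‖ = exp (ε * M.C.T k) :=
    Complex.norm_of_nonneg (exp_pos _).le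
  refine (base_int H.toAll (a := 4 * ε * M.C.T k) (by positivity) a1 s1 s2 s3 s4 s5
    (an.const_mul ((exp (ε * M.C.T k) : ℝ) : ℂ)) ?_ ?_).trans ?_
  · rw [norm_mul, n0, ← inv_le_iff_one_le_mul₀' (exp_pos _), ← exp_neg]
    exact hi
  · filter_upwards [a3, ae_of_punct isOpen_ball fun z hz => NZ.ev an
      ⟨0, hB k ▸ a5.2.2.1, norm_pos_iff.1 ((exp_pos _).trans_le hi)⟩ hz] with z b1 b2 hz
    have n2 := norm_pos_iff.2 (b2 hz)
    have q2 : ‖deriv (M.V (d.z i / d.z j) k) z‖ ^ 2 ≤ M.DD k z := Finset.single_le_sum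
      (f := fun a : Fin d.n × Fin d.n => ‖deriv (M.V (d.z a.1 / d.z a.2) k) z‖ ^ 2)
      (fun _ _ => by positivity) (Finset.mem_univ (i, j))
    have q3 := b1 (a2 z hz).1 ⟨hB k ▸ hz, ((pow_pos n2 2).trans_le q2).ne'⟩
    have q4 := log_le_log (by positivity) q2
    rw [log_pow] at q4
    rw [norm_mul, n0, log_mul (exp_pos _).ne' n2.ne', log_exp]
    simp only [Mdl.W] at q3
    push_cast at q4
    linarith
  · nlinarith [mul_le_mul_of_nonneg_left (le_abs_self M.c₀) (by positivity : 0 ≤ 4 * ε * M.C.T k),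
      mul_pos ε0 T0]

lemma null_mass (H : All) {P A : PR d.n} {e a : ℕ} {j : Fin d.n} (hP : P.IsHomogeneous e)
    (hA : A.IsHomogeneous a) (hG : ∀ p, eval p P ≠ 0 → Good2 d.U j p)
    (hS : ∀ η, 0 < η → ∀ᶠ k in atTop, ∫⁻ z, ENNReal.ofReal (M.C.g k z / (1 - ‖z‖) ^ 2) ≤
      ENNReal.ofReal (η * M.C.T k)) {b : ℝ} (hb : 0 < b) :
    Null M.C (fun k => {z | z ∈ ball 0 1 ∧
      b * ‖M.F k z‖ ^ (e + 1 + a) ≤ ‖eval (M.F k z) (P * X j * A)‖}) fun k => lam (M.F k) := by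
  obtain ⟨L, L0, hL⟩ := H.unif _ d.U j P A e a b hP hA hG hb
  refine (Null.smul (e := fun _ z => 1 / (1 - ‖z‖) ^ 2) (O := fun _ => univ) (fun η hη => ?_)
    L0).mono M.ok (.of_forall fun k => .of_forall fun z hz =>
      ⟨trivial, by rw [mul_one_div]; exact hL _ (M.hF k) z hz.1 hz.2⟩)
  filter_upwards [hS η hη, M.hg] with k a1 a2
  have := a2.1.1.1.continuous.measurable
  exact ⟨_, by fun_prop, .of_forall fun z _ => by rw [mul_one_div], a1⟩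

lemma f3_chart (H : All) (r : ∀ i, M.Rg (u i)) {A : PR d.n} {a : ℕ} (hA : A.IsHomogeneous a)
    {P Q Q' : Fin 2 → PR d.n} {e e' : Fin 2 → ℕ} (hP : ∀ i, (P i).IsHomogeneous (e i) ∧
      (Q i).IsHomogeneous (e i) ∧ (Q' i).IsHomogeneous (e' i) ∧ A = Q i * Q' i ∧ a = e i + e' i ∧
      u i = aeval d.z (P i) / aeval d.z (Q i)) {j : Fin d.n} (hj : d.z j ≠ 0)
    (i1 : ∀ a, ∃ N : ℕ, Int2 u (aeval u θ ^ N * (d.z a / d.z j)))
    (i2 : ∃ N : ℕ, Int2 u (aeval u θ ^ N * (d.z j ^ a / aeval d.z A)))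
    (h0 : ∀ᶠ k in atTop, eval (M.F k 0) A ≠ 0)
    (hN : ∀ b : ℝ, 0 < b → Null M.C
      (fun k => {z | z ∈ ball 0 1 ∧ b * ‖M.F k z‖ ^ a ≤ ‖eval (M.F k z) A‖}) fun k => lam (M.F k))
    (S : Set (Fin 2 → ℂ)) (hS : IsCompact S) (hθ : ∀ q ∈ S, eval q θ ≠ 0) :
    Null M.C (dom M.C (M.ch u θ) S) (M.ch u θ).N2 := by
  let ζ : Option (Fin d.n) → K := fun o => o.elim (d.z j ^ a / aeval d.z A) fun b => d.z b / d.z j
  obtain ⟨N, hI⟩ := int_unif (ζ := ζ) fun o => by cases o; exacts [i2, i1 _]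
  have e0 : d.z j ^ a / aeval d.z A = aeval d.z (X j ^ a : PR d.n) / aeval d.z A := by simp
  obtain ⟨B, L, B0, -, hB⟩ := bdd_unif (θ := θ) H hI r fun o => by
    cases o
    · exact h0.mono fun k hk => ⟨_, A, a, isHomogeneous_X_pow j a, hA, hk, e0⟩
    · exact rg_coord hj _
  obtain ⟨R, hR⟩ := hS.isBounded.exists_norm_le
  obtain ⟨c, c0, hc⟩ := hS.exists_forall_le' (f := fun q => ‖eval q (θ ^ N)‖) (a := 0)
    (MvPolynomial.continuous_eval _).norm.continuousOn fun q hq => by simp [hθ q hq]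
  set B₁ := B * (1 + |R|) ^ L / c
  have B1 : 0 < B₁ := by positivity
  choose D D0 hD using fun i => H.ratder _ _ _ _ (hP i).1 (hP i).2.1
  choose D' D0' hD' using fun i => R1.hom_bd (hP i).2.2.1
  have t0 : ∀ i, 0 < D i * (D' i * B₁ ^ (a + 1)) ^ 4 := fun i => by
    have := D0 i; have := D0' i; positivity
  refine ((hN (B₁ ^ (a + 1))⁻¹ (by positivity)).smul (add_pos (t0 0) (t0 1))).mono M.ok ?_
  filter_upwards [hB, h0, coord_ne hj, gen_pt (θ := θ) r] with k a1 a2 a3 a4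
  filter_upwards [ae_of_punct isOpen_ball fun z hz => (a1 z hz).and ((a3 z hz).and ((a4 z hz).and
    (NZ.ev (eval_diff (M.hF k).1 A) ⟨0, mem_ball_self one_pos, a2⟩ hz)))] with z b hz
  have z1 := sub hz.1
  obtain ⟨b1, b2, b3, b4⟩ := b z1
  have c1 : ∀ o, ‖M.V (ζ o) k z‖ ≤ B₁ := fun o => by
    refine (le_div_iff₀' c0).2 (((mul_le_mul_of_nonneg_right (hc _ hz.2.2) (norm_nonneg _)).trans
      (b1 o)).trans ?_)
    gcongr
    exact (hR _ hz.2.2).trans (le_abs_self R)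
  have n1 := norm_pos_iff.2 b2
  have n2 := norm_pos_iff.2 b4
  have n3 := norm_pos_iff.2 (crv.2 z z1 : M.F k z ≠ 0)
  have c2 : ‖M.F k z‖ ≤ B₁ * ‖M.F k z j‖ := (pi_norm_le_iff_of_nonneg (by positivity)).2 fun i => by
    have : ‖M.V (d.z i / d.z j) k z‖ ≤ B₁ := c1 (some i)
    rwa [V_coord z1 b2, norm_div, div_le_iff₀ n1] at this
  have c3 : ‖M.F k z‖ ^ a ≤ B₁ ^ (a + 1) * ‖eval (M.F k z) A‖ := by
    have : ‖M.V (d.z j ^ a / aeval d.z A) k z‖ ≤ B₁ := c1 none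
    rw [e0, V, vl_eq (on z1) (isHomogeneous_X_pow j a) hA b4, norm_div,
      div_le_iff₀ n2, map_pow, eval_X, norm_pow] at this
    refine (pow_le_pow_left₀ n3.le c2 a).trans ?_
    rw [mul_pow, pow_succ, mul_assoc]
    gcongr
  refine ⟨⟨z1, (inv_mul_le_iff₀ (by positivity)).2 c3⟩, ?_⟩
  have key : ∀ i, ‖(M.ch u θ).dv k z i‖ ^ 2 ≤
      D i * (D' i * B₁ ^ (a + 1)) ^ 4 * lam (M.F k) z := fun i => by
    obtain ⟨p1, p2, p3, p4, p5, p6⟩ := hP i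
    have q1 : eval (M.F k z) (Q i) ≠ 0 := fun q => b4 (by simp [p4, q])
    have dF := ((M.hF k).1.differentiableAt (isOpen_ball.mem_nhds z1)).hasDerivAt
    have q2 := ((chain dF (P i)).fun_div (chain dF (Q i)) q1).congr_of_eventuallyEq
      (f₁ := (M.ch u θ).x i k) ((b3.2.2.2.1 i).trans (by
        filter_upwards [(chain dF (Q i)).continuousAt.eventually_ne q1, isOpen_ball.mem_nhds z1]
          with w w1 w2
        rw [V, p6, vl_eq (on w2) p1 p2 w1]))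
    have q3 : ‖M.F k z‖ ^ e i ≤ D' i * B₁ ^ (a + 1) * ‖eval (M.F k z) (Q i)‖ := by
      refine le_of_mul_le_mul_right ?_ (pow_pos n3 (e' i))
      rw [← pow_add, ← p5]
      refine c3.trans ?_
      rw [p4, map_mul, norm_mul]
      calc _ ≤ B₁ ^ (a + 1) * (‖eval (M.F k z) (Q i)‖ * (D' i * ‖M.F k z‖ ^ e' i)) := by
            gcongr; exact hD' i _
        _ = _ := by ring
    have n4 := pow_ne_zero 2 q1
    have l0 := R1.lamv_nn (M.F k z) (deriv (M.F k) z)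
    have := D0 i
    have := D0' i
    rw [Ch.dv, q2.deriv, norm_div, div_pow, div_le_iff₀ (by positivity)]
    refine (hD i _ _ (crv.2 z z1)).trans ?_
    rw [mul_comm 4, pow_mul]
    calc _ ≤ D i * lamv (M.F k z) (deriv (M.F k) z) *
          (D' i * B₁ ^ (a + 1) * ‖eval (M.F k z) (Q i)‖) ^ 4 := by gcongr
      _ = _ := by rw [lam, norm_pow]; ring
  rw [Ch.N2, sq, Fin.sum_univ_two, add_mul]
  exact add_le_add (key 0) (key 1)

end Pool.Agent.MP_c69980_ag.H4.B
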