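import Pool.Agent.MP_c69980_ag.H4.N7
import Pool.Agent.MP_c69980_ag.H84.Alg

/-!
The discs near their centres.
-/

set_option autoImplicit false

noncomputable section

namespace Pool.Agent.MP_c69980_ag.H4.B

open MvPolynomial Metric Filter Topology Set MeasureTheory Real
open H60 Mdl L

variable {n : ℕ} {j : Fin n}

lemma base_ball (H : All) {p : Fin n → ℂ} (hp : p j = 1) {δ : ℝ} (δ0 : 0 < δ) :
    ∃ ε : ℝ, 0 < ε ∧ ∀ F, Crv (ball 0 1) F → nrm j (F 0) = p → ∃ ρ : ℝ, 0 < ρ ∧ ρ ≤ 1 / 32 ∧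
      (1 / 32 ≤ ρ ∨ ENNReal.ofReal ε ≤ mu (lam F) (ball 0 (16 * ρ))) ∧
      ∀ w ∈ ball (0 : ℂ) ρ, lam F w ≤ 1 / ρ ^ 2 ∧ F w j ≠ 0 ∧ ‖nrm j (F w) - p‖ < δ := by
  obtain ⟨ε₀, A, e0, A0, hE⟩ := H.eps n
  set b := ‖p‖ + δ
  have b0 : 0 < b := by positivity
  set t := min (1 / 2) (δ / (4 * b))
  have t0 : 0 < t := by positivity
  have t1 : t ≤ 1 / 2 := min_le_left _ _
  set ε := min ε₀ (t ^ 2 / (((n * b) ^ 2 + 1) * A))
  have ε0 : 0 < ε := by positivity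
  have h1 := (le_div_iff₀ (by positivity)).1 (min_le_right ε₀ (t ^ 2 / (((n * b) ^ 2 + 1) * A)))
  have h2 := mul_pos A0 ε0
  have hε : (n * b) ^ 2 * (A * ε) ≤ t ^ 2 := by nlinarith
  have h3 : A * ε ≤ 1 := by nlinarith [mul_nonneg (sq_nonneg (n * b)) h2.le]
  refine ⟨ε, ε0, fun F c e => ?_⟩
  have c' : ∀ r ≤ (1 / 2 : ℝ), Crv (ball 0 r) F := fun r hr =>
    have := ball_subset_ball (x := (0 : ℂ)) (hr.trans (by norm_num : (1 / 2 : ℝ) ≤ 1))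
    ⟨c.1.mono this, fun z hz => c.2 z (this hz)⟩
  obtain ⟨r, r0, r1, r2, r3⟩ : ∃ r : ℝ, 0 < r ∧ r ≤ 1 / 2 ∧
      mu (lam F) (ball 0 r) ≤ ENNReal.ofReal ε ∧
      (1 / 2 ≤ r ∨ ENNReal.ofReal ε ≤ mu (lam F) (ball 0 r)) := by
    rcases le_total (mu (lam F) (ball 0 (1 / 2))) (ENNReal.ofReal ε) with q | q
    · exact ⟨1 / 2, by norm_num, le_rfl, q, .inl le_rfl⟩
    · obtain ⟨r0, r1, r2⟩ := H.radius (lam F) ε 1 (1 / 2) 0 (H.lapq _ _ _ isOpen_ball c).2.1 ε0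
        (by norm_num) (by norm_num) q
      exact ⟨_, r0, r1, r2.le, .inr r2.ge⟩
  refine ⟨r / 16, by positivity, by linarith, r3.imp (fun a => by linarith) fun a => by
    rwa [mul_div_cancel₀ _ (by norm_num)], fun w hw => ?_⟩
  obtain ⟨a0, a1⟩ := hE F 0 r ε r0 (c' _ r1) ε0.le (min_le_left _ _) r2 w hw
  have j0 : (F 0 j)⁻¹ ≠ 0 := fun q => by simp [← e, nrm, q] at hp
  rw [← H84.d2_smul one_ne_zero j0, one_smul] at a1
  obtain ⟨a2, a3⟩ := near_of hp (le_add_of_nonneg_right δ0.le)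
    ((c' _ r1).2 w (ball_subset_ball (by linarith) hw)) t0.le t1 (e ▸ a1) h2.le hε
  have a4 := (le_div_iff₀ (by positivity)).1 (min_le_right (1 / 2) (δ / (4 * b)))
  refine ⟨(le_div_iff₀ (by positivity)).2 ?_, a2, by nlinarith⟩
  nlinarith [mul_nonneg (R1.lamv_nn (F w) (deriv F w)) (sq_nonneg r), show lam F w = lamv _ _ from rfl]

lemma lam_le {F : ℂ → Fin n → ℂ} (hF : DifferentiableAt ℂ F 0) (hj : F 0 j ≠ 0) :
    ∃ a, lam F 0 ≤ n * ‖deriv (fun s => F s a / F s j) 0‖ ^ 2 := by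
  have y0 : F 0 ≠ 0 := Function.ne_iff.2 ⟨j, hj⟩
  have c0 := inv_ne_zero hj
  set w := (F 0 j)⁻¹ • deriv F 0 + (-deriv F 0 j / F 0 j ^ 2) • F 0 with hw
  have h1 := (R1.minor n (F 0) (deriv F 0) y0).2.2.2.1 _ (-deriv F 0 j / F 0 j ^ 2) c0
  have h2 := (R1.minor n _ w (smul_ne_zero c0 y0)).2.2.1
  have h3 : 1 ≤ sq ((F 0 j)⁻¹ • F 0) := by
    refine le_trans ?_ (Finset.single_le_sum (f := fun i => ‖((F 0 j)⁻¹ • F 0) i‖ ^ 2)
      (fun _ _ => by positivity) (Finset.mem_univ j))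
    simp [hj]
  obtain ⟨a, -, ha⟩ := Finset.exists_max_image Finset.univ (fun i => ‖w i‖) ⟨j, Finset.mem_univ j⟩
  have d := hF.hasDerivAt
  have d1 := ((hasDerivAt_pi.1 d a).fun_div (hasDerivAt_pi.1 d j) hj).deriv
  refine ⟨a, ?_⟩
  have e : (deriv F 0 a * F 0 j - F 0 a * deriv F 0 j) / F 0 j ^ 2 = w a := by
    simp only [hw, Pi.add_apply, Pi.smul_apply, smul_eq_mul]; field_simp; ring
  rw [d1, lam, ← h1, e]
  refine (h2.trans (div_le_self (sq_nonneg' _) h3)).trans ((sq_le w).trans ?_)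
  gcongr
  exact (pi_norm_le_iff_of_nonneg (norm_nonneg _)).2 fun i => ha i (Finset.mem_univ i)

variable {K : Type} [Field K] [Algebra ℂ K] {d : Dat K} {M : Mdl d} {u : Fin 2 → K} {θ : PR 2}

lemma der_V {j a : Fin d.n} {k : ℕ} (h : M.F k 0 j ≠ 0) :
    deriv (M.V (d.z a / d.z j) k) 0 = deriv (fun s => M.F k s a / M.F k s j) 0 := by
  have m0 : (0 : ℂ) ∈ ball 0 1 := mem_ball_self one_pos
  refine EventuallyEq.deriv_eq ?_
  filter_upwards [isOpen_ball.mem_nhds m0,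
    (continuousAt_pi.1 (cont m0) j).eventually_ne h] with s b1 b2
  exact V_coord b1 b2

lemma n2_ne (r : ∀ i, M.Rg (u i)) (h : ∀ᶠ k in atTop, ∃ i, deriv (M.V (u i) k) 0 ≠ 0) :
    ∀ᶠ k in atTop, ∀ᵐ z, z ∈ M.C.Ω k → (M.ch u θ).N2 k z ≠ 0 := by
  filter_upwards [h, eventually_all.2 r, gen_pt (θ := θ) r] with k ⟨i, hi⟩ a1 a2
  have m0 : (0 : ℂ) ∈ ball 0 1 := mem_ball_self one_pos
  have me : MeromorphicOn (deriv (M.V (u i) k)) (ball 0 1) := fun z hz => (mer (a1 i) z hz).deriv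
  refine ae_of_punct (M.ok.1 k) fun z hz => ?_
  filter_upwards [a2 z (sub hz), (meromorphicOrderAt_ne_top_iff_eventually_ne_zero
    (me z (sub hz))).1 (me.meromorphicOrderAt_ne_top_of_isPreconnected
      (convex_ball 0 1).isPreconnected m0 (sub hz)
      ((meromorphicOrderAt_ne_top_iff_eventually_ne_zero (me 0 m0)).2 (mem_nhdsWithin_of_mem_nhds
        ((V_an m0 (a1 i)).deriv.continuousAt.eventually_ne hi))))] with w b1 b2
  refine (R1.sq_pos' (Function.ne_iff.2 ⟨i, ?_⟩)).ne'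
  rwa [Ch.dv, (b1.2.2.2.1 i).deriv_eq]

lemma lift3 (H : All) (d : Dat K) {x : ℂ → Fin d.n → ℂ} (hx : Dk d.U 0 1 x) {s : ℝ} (hs : s < 1)
    {P Q : Fin 2 → PR d.n} {e : Fin 2 → ℕ} (hP : ∀ i, (P i).IsHomogeneous (e i) ∧
      (Q i).IsHomogeneous (e i) ∧ d.h i.succ / d.h 0 = aeval d.z (P i) / aeval d.z (Q i))
    (h0 : ∀ i, eval (x 0) (Q i) ≠ 0) : ∃ Φ : ℂ → Fin 3 → ℂ, Crv (ball 0 s) Φ ∧
      ∀ ζ ∈ ball (0 : ℂ) s, ∀ᶠ w in 𝓝[≠] ζ, Φ w 0 ≠ 0 ∧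
        ∀ l, Reg d.z (x w) (d.h l / d.h 0) ∧ Φ w l = Φ w 0 * vl d.z (d.h l / d.h 0) (x w) := by
  have m0 := mem_ball_self (x := (0 : ℂ)) one_pos
  obtain ⟨φ, Φ, -, a2, a3⟩ := H.lift2 3
    (fun w l => eval (x w) (![Q 0 * Q 1, P 0 * Q 1, P 1 * Q 0] l)) s hs
    (differentiableOn_pi.2 fun l => eval_diff hx.1 _)
    ⟨0, m0, Function.ne_iff.2 ⟨0, by simp [h0]⟩⟩
  refine ⟨Φ, a2, fun ζ hζ => ?_⟩
  filter_upwards [eventually_all.2 fun i => NZ.ev (eval_diff hx.1 (Q i)) ⟨0, m0, h0 i⟩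
    (ball_subset_ball hs.le hζ), mem_nhdsWithin_of_mem_nhds (isOpen_ball.mem_nhds hζ)]
    with w b1 b2
  have o := Cone.on d.hz (hx.2 w (ball_subset_ball hs.le b2))
  have c0 := congrFun (a3 w b2) 0
  have c1 := congrFun (a3 w b2) 1
  have c2 := congrFun (a3 w b2) 2
  simp only [Matrix.cons_val, map_mul, Pi.smul_apply, smul_eq_mul] at c0 c1 c2
  have c3 := c0 ▸ mul_ne_zero (b1 0) (b1 1)
  have q0 := b1 0
  have q1 := b1 1
  refine ⟨right_ne_zero_of_mul c3, Fin.cases ?_ fun i => ?_⟩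
  · rw [div_self d.ld.2.2.2.2.2.1, (vl_one o).2, mul_one]
    exact ⟨(vl_one o).1, rfl⟩
  · refine ⟨⟨_, _, _, (hP i).1, (hP i).2.1, b1 i, (hP i).2.2⟩, ?_⟩
    rw [(hP i).2.2, vl_eq o (hP i).1 (hP i).2.1 (b1 i)]
    refine mul_left_cancel₀ (left_ne_zero_of_mul c3) ?_
    rw [← mul_assoc, ← c0]
    fin_cases i
    · refine c1.symm.trans ?_
      simp only [Fin.zero_eta]
      field_simp
    · refine c2.symm.trans ?_
      simp only [Fin.mk_one]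
      field_simp

end Pool.Agent.MP_c69980_ag.H4.B
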