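import Pool.Agent.MP_c69980_ag.H4.N8

/-!
No sequence of discs with generic centres grows faster than the Poincare metric.
-/

set_option autoImplicit false

noncomputable section

namespace Pool.Agent.MP_c69980_ag.H4.B

open MvPolynomial Metric Filter Topology Set MeasureTheory Real
open H60 Mdl L

variable {K : Type} [Field K] [Algebra ℂ K]

theorem core (H : All) (d : Dat K) {G : PR d.n} {e : ℕ} (hG : G.IsHomogeneous e)
    (h0 : aeval d.z G ≠ 0) {j : Fin d.n} (hj : d.z j ≠ 0)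
    (hE : ∀ p, eval p G ≠ 0 → Good2 d.U j p) :
    ∃ (R : PR d.n) (b : ℕ) (Λ : (Fin d.n → ℂ) → ℝ → ℝ), R.IsHomogeneous b ∧ aeval d.z R ≠ 0 ∧
      ∀ (F : ℕ → ℂ → Fin d.n → ℂ) (r β : ℕ → ℝ), ¬∀ k : ℕ, Dk d.U 0 1 (F k) ∧
        eval (F k 0) R ≠ 0 ∧ 1 / 2 < r k ∧ r k < 1 ∧ 0 < β k ∧ β k ≤ lam (F k) 0 ∧
        k * (Λ (nrm j (F k 0)) (β k) + log (1 / (1 - r k))) ≤ TN (lam (F k)) (r k) := by
  classical
  set u : Fin 2 → K := ![d.h 1 / d.h 0, d.h 2 / d.h 0] with hu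
  have hX : ∀ i, u i = d.h i.succ / d.h 0 := fun i => by fin_cases i <;> rfl
  choose P Q f P1 Q1 Q0 hP using fun i => quot d.hz (u i)
  set A := G * X j * (Q 0 * Q 1) with hA'
  have hG' := hG.mul (isHomogeneous_X ℂ j)
  have hA : A.IsHomogeneous (e + 1 + (f 0 + f 1)) := hG'.mul ((Q1 0).mul (Q1 1))
  set a := e + 1 + (f 0 + f 1) with ha
  have A0 : aeval d.z A ≠ 0 := by simp [hA', h0, hj, Q0]
  obtain ⟨γ, γ1, γ2, γ3⟩ := H.ainit K _ _ d.U d.z d.W d.z' d.pr d.m d.E d.h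
    (insert (d.z j ^ a / aeval d.z A) (Finset.univ.image fun b => d.z b / d.z j)) d.ld
  have i1 := fun b => γ3 (d.z b / d.z j) (by simp)
  have al : d.Al u γ := ⟨γ2, H4.Mdl.aeval_ne γ2.1 γ1.ne_zero⟩
  obtain ⟨S, S0, hS⟩ := (glob H γ1 al).and ((Gc.full H al).and ((Gc.gen al.ne).and
    (Gc.all fun b => Gc.chain H al.tb al.wd (d.z b / d.z j))))
  choose P' Q' f' P1' Q1' Q0' hP' using fun s : S => quot d.hz s.1
  obtain ⟨R, b, R1, R2, R3⟩ := (Gn.form hA A0).and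
    ((Gn.all fun b : {b // d.z b ≠ 0} => Gn.form (isHomogeneous_X ℂ b.1) (by simpa using b.2)).and
      (Gn.all fun s : S => (Gn.lb (P1' s) fun q => S0 (by
        have := s.2
        rwa [hP' s, q, zero_div] at this)).and (Gn.lb (Q1' s) (Q0' s))))
  have loc : ∀ p : Fin d.n → ℂ, ∃ L ε : ℝ, eval p R ≠ 0 → p j = 1 → 0 < L ∧ 0 < ε ∧
      ∀ F, Dk d.U 0 1 F → nrm j (F 0) = p → ∃ ρ : ℝ, 0 < ρ ∧ ρ ≤ 1 / 32 ∧
      (1 / 32 ≤ ρ ∨ ENNReal.ofReal ε ≤ mu (lam F) (ball 0 (16 * ρ))) ∧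
      (∀ w ∈ ball (0 : ℂ) ρ, lam F w ≤ 1 / ρ ^ 2) ∧ ∀ w ∈ ball (0 : ℂ) ρ, eval (F w) A ≠ 0 ∧
      (∀ b, d.z b ≠ 0 → F w b ≠ 0) ∧ ∀ s : S, L⁻¹ * ‖F w‖ ^ f' s ≤ ‖eval (F w) (P' s)‖ ∧
        L⁻¹ * ‖F w‖ ^ f' s ≤ ‖eval (F w) (Q' s)‖ := fun p => by
    by_cases hp : eval p R ≠ 0 ∧ p j = 1
    swap
    · exact ⟨0, 0, fun a b => absurd ⟨a, b⟩ hp⟩
    obtain ⟨L, L0, hL⟩ := ((eventually_gt_atTop 0).and (R3 p hp.1)).exists
    obtain ⟨δ, δ0, hδ⟩ := Metric.eventually_nhds_iff.1 hL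
    obtain ⟨ε, ε0, hε⟩ := base_ball H hp.2 δ0
    refine ⟨L, ε, fun _ _ => ⟨L0, ε0, fun F hF e0 => ?_⟩⟩
    obtain ⟨ρ, r0, r1, r2, r3⟩ := hε F ⟨hF.1, fun z hz => (hF.2 z hz).1⟩ e0
    refine ⟨ρ, r0, r1, r2, fun w hw => (r3 w hw).1, fun w hw => ?_⟩
    obtain ⟨-, b1, b2⟩ := r3 w hw
    obtain ⟨c1, c2, c3⟩ := hδ ((dist_eq_norm _ p).symm ▸ b2) (Cone.on d.hz (Cone.smul
      (hF.2 w (ball_subset_ball (r1.trans (by norm_num)) hw)) (inv_ne_zero b1)))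
    have e1 : F w j • nrm j (F w) = F w := by
      rw [nrm, smul_smul, mul_inv_cancel₀ b1, one_smul]
    refine ⟨?_, fun b hb => ?_, fun s => e1 ▸ ⟨(c3 s).1 _, (c3 s).2 _⟩⟩
    · rw [← e1, eval_smul_hom hA]; exact mul_ne_zero (pow_ne_zero _ b1) c1
    · have := c2 ⟨b, hb⟩
      rw [eval_X] at this
      exact right_ne_zero_of_mul this
  choose L ε hL using loc
  refine ⟨R * X j, _, fun p t => 1 + |log (ε p)| + |log (L p)| + |log (t / d.n)|,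
    R1.mul (isHomogeneous_X ℂ j), by simp [R2, hj], fun F r β hF => ?_⟩
  have j0 : ∀ k, F k 0 j ≠ 0 := fun k q => (hF k).2.1 (by simp [q])
  have hL' := fun k => hL (nrm j (F k 0)) (by
    rw [nrm, eval_smul_hom R1]
    exact mul_ne_zero (pow_ne_zero _ (inv_ne_zero (j0 k)))
      (left_ne_zero_of_mul (map_mul (eval (F k 0)) R (X j) ▸ (hF k).2.1))) (inv_mul_cancel₀ (j0 k))
  choose ρ ρ0 ρ1 ρ2 ρ3 key using fun k => (hL' k).2.2 (F k) (hF k).1 rfl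
  have cr : ∀ k, Crv (ball 0 1) (F k) := fun k => ⟨(hF k).1.1, fun z hz => ((hF k).1.2 z hz).1⟩
  have nz : ∀ y, eval y A ≠ 0 → ∀ i, eval y (Q i) ≠ 0 := fun y h => by
    rw [hA', map_mul, map_mul _ (Q 0)] at h
    exact Fin.forall_fin_two.2 (mul_ne_zero_iff.1 (right_ne_zero_of_mul h))
  have m0 := fun k => mem_ball_self (x := (0 : ℂ)) (ρ0 k)
  have lr : ∀ k, 0 ≤ log (1 / (1 - r k)) := fun k => log_nonneg
    ((one_le_div (sub_pos.2 (hF k).2.2.2.1)).2 (by linarith [(hF k).2.2.1]))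
  have gr : ∀ η, 0 < η → ∀ᶠ k in atTop, 1 + |log (ε (nrm j (F k 0)))| + |log (L (nrm j (F k 0)))| +
      |log (β k / d.n)| + log (1 / (1 - r k)) ≤ η * TN (lam (F k)) (r k) := fun η hη => by
    filter_upwards [tendsto_natCast_atTop_atTop.eventually_ge_atTop η⁻¹] with k hk
    refine (inv_mul_le_iff₀ hη).1 (le_trans ?_ (hF k).2.2.2.2.2.2)
    exact mul_le_mul_of_nonneg_right hk (by have := lr k; positivity)
  obtain ⟨c₀, hc⟩ := H.setup2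
  obtain ⟨g, g', T, T2, T3, T4⟩ := hc (fun k => lam (F k)) ρ r (fun k => ε (nrm j (F k 0)))
    (fun k => ⟨(H.lapq _ _ _ isOpen_ball (cr k)).2.1, ρ0 k, ρ1 k, (hF k).2.2.1, (hF k).2.2.2.1,
      (hL' k).2.1, ρ2 k, ρ3 k⟩) fun η hη => (gr η hη).mono fun k a => by
        linarith [abs_nonneg (log (L (nrm j (F k 0)))), abs_nonneg (log (β k / d.n))]
  have gr' : ∀ η, 0 < η → ∀ᶠ k in atTop, 1 ≤ η * T k ∧ log (L (nrm j (F k 0))) ≤ η * T k ∧
      |log (β k / d.n)| ≤ η * T k := fun η hη => by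
    filter_upwards [gr η hη, T3] with k a1 a2
    have := mul_le_mul_of_nonneg_left a2.1 hη.le
    have := lr k
    have := abs_nonneg (log (ε (nrm j (F k 0))))
    have := abs_nonneg (log (L (nrm j (F k 0))))
    have := abs_nonneg (log (β k / d.n))
    exact ⟨by linarith, by linarith [le_abs_self (log (L (nrm j (F k 0))))], by linarith⟩
  have T1 : Tendsto T atTop atTop := tendsto_atTop.2 fun t =>
    (gr' (|t| + 1)⁻¹ (by positivity)).mono fun k a => by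
      linarith [(le_inv_mul_iff₀ (by positivity)).1 a.1, le_abs_self t]
  have s1 : ∀ k, (1 + r k) / 2 < 1 := fun k => by linarith [(hF k).2.2.2.1]
  choose Φ Φ1 Φ2 using fun k => lift3 H d (hF k).1 (s1 k) (fun i => ⟨P1 i, Q1 i, hX i ▸ hP i⟩)
    (nz _ (key k 0 (m0 k)).1)
  let M : Mdl d := ⟨⟨fun k => ball 0 ((1 + r k) / 2), g', T, fun k z => log (sq (Φ k z)) / d.m,
    d.m⟩, F, Φ, fun k => ball 0 (ρ k), c₀, _, ⟨fun _ => isOpen_ball, fun k => (T2 k).2,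
      fun k => (T2 k).1, d.ld.2.2.2.2.1⟩, fun k => ⟨rfl, s1 k⟩, rfl, T1, fun k => (hF k).1,
    T3.mono fun k a => ⟨a.2.2.1, a.2.2.2.2.2.1, m0 k, (key k 0 (m0 k)).2.1⟩,
    .of_forall fun k => ⟨Φ1 k, Φ2 k⟩, .of_forall fun k => by
      have := Cone.on d.hz ((hF k).1.2 0 (mem_ball_self one_pos))
      exact Fin.cases (div_self d.ld.2.2.2.2.2.1 ▸ (vl_one this).1) fun i =>
        hX i ▸ ⟨_, _, _, P1 i, Q1 i, nz _ (key k 0 (m0 k)).1 i, hP i⟩, fun _ _ => rfl⟩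
  obtain ⟨n1, n2, n3, n4⟩ := hS M fun s hs => ⟨P' ⟨s, hs⟩, Q' ⟨s, hs⟩, _,
    fun k => (L (nrm j (F k 0)))⁻¹, P1' _, Q1' _, fun η hη => (gr' η hη).mono fun k a => by
      beta_reduce
      rw [← exp_log (hL' k).1, ← exp_neg]; exact exp_le_exp.2 (neg_le_neg a.2.1),
    hP' ⟨s, hs⟩, .of_forall fun k w hw => (key k w hw).2.2 _⟩
  have rg := fun i => (n2.1 i).rg
  have hD : ∀ η, 0 < η → ∀ᶠ k in atTop, ∃ a,
      exp (-(η * M.C.T k)) ≤ ‖deriv (M.V (d.z a / d.z j) k) 0‖ := fun η hη => by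
    filter_upwards [gr' η hη] with k a1
    obtain ⟨i, hi⟩ := lam_le ((hF k).1.1.differentiableAt
      (isOpen_ball.mem_nhds (mem_ball_self one_pos))) (j0 k)
    have n0 : (0 : ℝ) < d.n := Nat.cast_pos.2 j.pos
    refine ⟨i, le_of_sq_le_sq ?_ (norm_nonneg _)⟩
    rw [der_V (M := M) (j0 k), ← exp_nat_mul]
    refine le_trans ?_ ((div_le_iff₀' n0).2 ((hF k).2.2.2.2.2.1.trans hi))
    rw [← exp_log (div_pos (hF k).2.2.2.2.1 n0)]
    refine exp_le_exp.2 ?_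
    change ((2 : ℕ) : ℝ) * -(η * T k) ≤ _
    push_cast
    linarith [neg_abs_le (log (β k / d.n))]
  have bg : ∀ᶠ k in atTop, ∃ i, deriv (M.V (u i) k) 0 ≠ 0 := by
    filter_upwards [hD 1 one_pos, eventually_all.2 n4] with k ⟨i, hi⟩ a2
    by_contra hn
    push Not at hn
    refine norm_pos_iff.1 ((exp_pos _).trans_le hi) (((a2 i).1.2).trans ?_)
    exact Finset.sum_eq_zero fun l _ => mul_eq_zero_of_right _ (hn l)
  have ok : ChOK M.C (M.ch u γ) := chOK_of H n2.1 n2.2.1 n3 (n2_ne rg bg)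
    (f3_chart H rg hA (Q' := ![G * X j * Q 1, G * X j * Q 0]) (e' := ![e + 1 + f 1, e + 1 + f 0])
      (fun i => ⟨P1 i, Q1 i, by
        fin_cases i
        exacts [hG'.mul (Q1 1), hG'.mul (Q1 0)], by
        fin_cases i <;> simp only [hA', Fin.zero_eta, Fin.mk_one, Matrix.cons_val] <;> ring, by
        fin_cases i <;> simp only [ha, Fin.zero_eta, Fin.mk_one, Matrix.cons_val] <;> ring, hP i⟩)
      hj i1 (γ3 _ (Finset.mem_insert_self _ _)) (.of_forall fun k => (key k 0 (m0 k)).1)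
      fun b hb => null_mass H hG ((Q1 0).mul (Q1 1)) hE
        (fun η hη => (T4 η hη).mono fun k a => a.2.2) hb)
  obtain ⟨κ, κ0, hκ⟩ := height H (M := M) (g := g) hX n2.1 n3 hj i1
    (T3.mono fun k a => ⟨a.2.1, a.2.2.2.2.1⟩)
  exact contra H (n1 ok) (fun _ => rfl) (.of_forall fun k w hw => ⟨ball_subset_ball
    (by linarith [ρ1 k, (hF k).2.2.1]) hw, (key k w hw).2.1 j hj⟩) hD κ0
    ((T3.and hκ).mono fun k a => ⟨a.1.2.1, a.1.2.2.2.1, a.2, a.1.2.2.2.2.2.2⟩)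
    fun η hη => (T4 η hη).mono fun k a => ⟨a.1, a.2.1⟩

end Pool.Agent.MP_c69980_ag.H4.B
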