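import Pool.Agent.MP_c69980_ag.H4.N3
import Pool.Agent.MP_c69980_ag.H4.L2
import Pool.Agent.MP_c69980_ag.H66.Rep
import Pool.Agent.MP_c69980_ag.H26.Mean
import Pool.Agent.MP_c69980_ag.H26.Patch

/-!
Lower bounds near the centres of the discs.
-/

set_option autoImplicit false

noncomputable section

namespace Pool.Agent.MP_c69980_ag.H4.B

open MvPolynomial Metric Filter Topology Set MeasureTheory Real
open H60 Mdl L

variable {K : Type} [Field K] [Algebra ℂ K] {d : Dat K} {M : Mdl d} {u : Fin 2 → K} {θ : PR 2}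

lemma vp : VPatchStmt := H26.vPatch (H26.asPatch R1.lapRule)

lemma pa : PatchStmt := H98.patch vp

lemma Mdl.ev_exp (M : Mdl d) (A : ℝ) {η : ℝ} (hη : 0 < η) :
    ∀ᶠ k in atTop, A ≤ exp (η * M.C.T k) :=
  ((M.hT.const_mul_atTop hη).eventually_ge_atTop A).mono fun k hk => by
    linarith [add_one_le_exp (η * M.C.T k)]

lemma Mdl.Gen.bdd {s : K} (h : M.Gen s) {η : ℝ} (hη : 0 < η) : ∀ᶠ k in atTop, ∀ w ∈ M.B k,
    w ∈ ball (0 : ℂ) 1 → (exp (η * M.C.T k))⁻¹ ≤ ‖M.V s k w‖ ∧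
      ‖M.V s k w‖ ≤ exp (η * M.C.T k) ∧ Reg d.z (M.F k w) s := by
  obtain ⟨P, Q, e, a, hP, hQ, a0, rfl, h⟩ := h
  obtain ⟨A, A0, hA⟩ := R1.hom_bd hP
  obtain ⟨B, B0, hB⟩ := R1.hom_bd hQ
  filter_upwards [h, a0 _ (half_pos hη), M.ev_exp (A + B) (half_pos hη)] with k hk a1 a2 w hw h1
  have a3 := (exp_pos _).trans_le a1
  have a4 : A + B ≤ exp (η * M.C.T k) * a k := by
    refine (a2.trans_eq ?_).trans (mul_le_mul_of_nonneg_left a1 (exp_pos _).le)
    rw [← exp_add]; congr 1; ring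
  have p0 : 0 < ‖M.F k w‖ ^ e := pow_pos (norm_pos_iff.2 (crv.2 w h1)) _
  have p1 : 0 < ‖eval (M.F k w) Q‖ := (mul_pos a3 p0).trans_le (hk w hw).2
  have p2 := exp_pos (η * M.C.T k)
  rw [V, vl_eq (on h1) hP hQ (norm_pos_iff.1 p1), norm_div, le_div_iff₀ p1, inv_mul_le_iff₀ p2,
    div_le_iff₀ p1]
  refine ⟨?_, ?_, P, Q, e, hP, hQ, norm_pos_iff.1 p1, rfl⟩
  · nlinarith [hB (M.F k w), mul_le_mul_of_nonneg_left (hk w hw).1 p2.le, mul_pos A0 p0,
      mul_le_mul_of_nonneg_right a4 p0.le]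
  · nlinarith [hA (M.F k w), mul_le_mul_of_nonneg_left (hk w hw).2 p2.le, mul_pos B0 p0,
      mul_le_mul_of_nonneg_right a4 p0.le]

/-- The size of the derivative of the disc. -/
def Mdl.DD (M : Mdl d) (k : ℕ) (z : ℂ) : ℝ :=
  ∑ a : Fin d.n × Fin d.n, ‖deriv (M.V (d.z a.1 / d.z a.2) k) z‖ ^ 2

/-- The lower bound for the potentials. -/
def Mdl.W (M : Mdl d) : Lw :=
  ⟨fun k => {z | z ∈ M.B k ∧ M.DD k z ≠ 0}, fun k z => log (M.DD k z) - M.C.u k z, M.C.T⟩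

lemma Gc.opt (g : K) : Gc d fun M => g ≠ 0 → M.Gen g := by
  by_cases h : g = 0
  · exact Gc.triv fun _ a => absurd h a
  · exact (Gc.gen h).mono fun _ a _ => a

lemma opt_bdd {g : K} (h : g ≠ 0 → M.Gen g) {η : ℝ} (hη : 0 < η) : ∀ᶠ k in atTop, ∀ w ∈ M.B k,
    w ∈ ball (0 : ℂ) 1 → ‖M.V g k w‖ ≤ exp (η * M.C.T k) := by
  by_cases e : g = 0
  · exact .of_forall fun k w _ hw => by rw [e, V, (vl_zero (on hw)).2, norm_zero]; positivity
  · exact ((h e).bdd hη).mono fun k a w b c => (a w b c).2.1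

lemma low_chart (H : All) (hu : d.Al u θ) : Gc d fun M => ∀ g, M.Gen g → Low M.W M.C.Ω fun k z =>
    Bb M.C (M.ch u θ) k z + log (‖M.V g k z‖ ^ 2) + log ((M.ch u θ).N2 k z) := by
  refine ((Gc.full H hu).and ((Gc.all fun a : Fin d.n × Fin d.n =>
    Gc.chain H hu.tb hu.wd (d.z a.1 / d.z a.2)).and (Gc.all fun a : Fin d.n × Fin d.n =>
      Gc.all fun i => Gc.opt (pd d.E u i (d.z a.1 / d.z a.2))))).mono ?_
  rintro M ⟨m1, m2, m3⟩ g hg η hη
  have η0 : 0 < η / 6 := by positivity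
  have mp : (1 : ℝ) ≤ d.m := Nat.one_le_cast.2 d.ld.2.2.2.2.1
  refine ⟨log (2 * (d.n ^ 2 + 1)), ?_⟩
  filter_upwards [eventually_all.2 m2, eventually_all.2 fun a => eventually_all.2 fun i =>
    opt_bdd (m3 a i) η0, hg.bdd η0, m1.2.1.bdd η0, gen_pt (θ := θ) fun i => (m1.1 i).rg, M.hΦ]
    with k a1 a2 a3 a4 a5 a6
  filter_upwards [ae_of_punct (M.ok.1 k) fun z hz => (eventually_all.2 fun a =>
    (a1 a).2 z (sub hz)).and ((a5 z (sub hz)).and (a6.2 z hz))] with z b hz hB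
  obtain ⟨b1, b2, b3⟩ := b hz
  have T0 := M.ok.2.2.1 k
  set E := exp (η / 6 * M.C.T k) with hE
  have E0 : 0 < E := exp_pos _
  have lE : log E = η / 6 * M.C.T k := log_exp _
  have q0 : M.DD k z ≤ 2 * (d.n ^ 2 + 1) * E ^ 2 * (M.ch u θ).N2 k z := by
    have := N2_nonneg (c := M.ch u θ) (k := k) (z := z)
    refine (Finset.sum_le_card_nsmul _ _ (2 * E ^ 2 * (M.ch u θ).N2 k z) fun a _ => ?_).trans ?_
    · rw [show deriv (M.V (d.z a.1 / d.z a.2) k) z = _ from (b1 a).2, Fin.sum_univ_two, Ch.N2, sq,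
        Fin.sum_univ_two, Ch.dv, Ch.dv, (b2.2.2.2.1 0).deriv_eq, (b2.2.2.2.1 1).deriv_eq]
      have key := fun i => (norm_mul_le _ (deriv (M.V (u i) k) z)).trans
        (mul_le_mul_of_nonneg_right (a2 a i z hB.1 b2.1) (norm_nonneg _))
      refine (pow_le_pow_left₀ (norm_nonneg _) ((norm_add_le _ _).trans
        (add_le_add (key 0) (key 1))) 2).trans ?_
      nlinarith [mul_nonneg (sq_nonneg E)
        (sq_nonneg (‖deriv (M.V (u 0) k) z‖ - ‖deriv (M.V (u 1) k) z‖))]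
    · simp only [Finset.card_univ, Fintype.card_prod, Fintype.card_fin, nsmul_eq_mul]
      push_cast
      nlinarith [mul_nonneg (sq_nonneg E) this]
  have d0 : 0 < M.DD k z := (Finset.sum_nonneg fun _ _ => by positivity).lt_of_ne' hB.2
  have n0 : 0 < (M.ch u θ).N2 k z := (mul_pos_iff_of_pos_left (by positivity)).1 (d0.trans_le q0)
  have q1 := log_le_log d0 q0
  rw [log_mul (by positivity) n0.ne', log_mul (by positivity) (by positivity), log_pow, lE] at q1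
  have n1 := norm_pos_iff.2 b3.1
  have n3 := (a4 z hB.1 b2.1).1
  have n4 := (inv_pos.2 E0).trans_le n3
  have q2 : ‖M.Φ k z 0‖ ^ 2 ≤ sq (M.Φ k z) := Finset.single_le_sum
    (f := fun i => ‖M.Φ k z i‖ ^ 2) (fun _ _ => by positivity) (Finset.mem_univ 0)
  have q3 := log_le_log (by positivity) q2
  have q4 := log_le_log (inv_pos.2 E0) (a3 z hB.1 b2.1).1
  have q5 := log_le_log (inv_pos.2 E0) n3
  have q6 : log (‖(M.ch u θ).b k z‖ ^ 2) =
      2 * (log ‖M.V (d.β u 0) k z‖ - log ‖M.Φ k z 0‖) := by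
    rw [← log_div n4.ne' n1.ne', ← norm_div, log_pow]; rfl
  rw [log_pow] at q3
  rw [log_inv, lE] at q4 q5
  have q7 : -(2 * (η / 6 * M.C.T k)) ≤ (log (sq (M.Φ k z)) +
      2 * (log ‖M.V (d.β u 0) k z‖ - log ‖M.Φ k z 0‖)) / d.m := by
    rw [le_div_iff₀ (by positivity)]
    push_cast at q3
    nlinarith [mul_pos η0 T0]
  simp only [Mdl.W]
  rw [M.hu, Bb, M.hm, q6, log_pow]
  rw [add_div] at q7
  push_cast at q1 ⊢
  linarith

end Pool.Agent.MP_c69980_ag.H4.B
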