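import Pool.Agent.MP_c69980_ag.H60.Defs
import Pool.Agent.MP_c69980_ag.H60.Hom

/-!
Analytic part of the pseudo-Brody lemma for surfaces: definitions and statements.
-/

set_option autoImplicit false

noncomputable section

namespace Pool.Agent.MP_c69980_ag.H4

open MvPolynomial Metric Filter Topology MeasureTheory Set Real
open scoped ContDiff ENNReal ComplexConjugate
open H60 (PR PS Holo)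

/-- Directional derivative. -/
def D (v : ℂ) (f : ℂ → ℝ) (z : ℂ) : ℝ := fderiv ℝ f z v
/-- The Laplacian. -/
def lap (f : ℂ → ℝ) (z : ℂ) : ℝ := D 1 (D 1 f) z + D Complex.I (D Complex.I f) z
/-- The gradient, as a complex number. -/
def grad (f : ℂ → ℝ) (z : ℂ) : ℂ := ⟨D 1 f z, D Complex.I f z⟩
/-- Test functions supported in `O`. -/
def Test (O : Set ℂ) (ψ : ℂ → ℝ) : Prop :=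
  ContDiff ℝ ∞ ψ ∧ HasCompactSupport ψ ∧ tsupport ψ ⊆ O
/-- Squared Euclidean norm. -/
def sq {n : ℕ} (y : Fin n → ℂ) : ℝ := ∑ i, ‖y i‖ ^ 2
/-- Hermitian product. -/
def ip {n : ℕ} (y w : Fin n → ℂ) : ℂ := ∑ i, y i * conj (w i)
/-- Fubini-Study length squared of the vector `w` at the point `y`. -/
def lamv {n : ℕ} (y w : Fin n → ℂ) : ℝ := (sq y * sq w - ‖ip w y‖ ^ 2) / sq y ^ 2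
/-- Fubini-Study area density of a holomorphic curve. -/
def lam {n : ℕ} (F : ℂ → Fin n → ℂ) (z : ℂ) : ℝ := lamv (F z) (deriv F z)
/-- Squared sine of the Fubini-Study distance. -/
def d2 {n : ℕ} (y w : Fin n → ℂ) : ℝ := 1 - ‖ip y w‖ ^ 2 / (sq y * sq w)
/-- The mass of `S` for the density `ν`. -/
def mu (ν : ℂ → ℝ) (S : Set ℂ) : ℝ≥0∞ := ∫⁻ z in S, ENNReal.ofReal (ν z)
/-- A nowhere vanishing holomorphic vector function. -/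
def Crv {n : ℕ} (O : Set ℂ) (F : ℂ → Fin n → ℂ) : Prop :=
  DifferentiableOn ℂ F O ∧ ∀ z ∈ O, F z ≠ 0
/-- A continuous nonnegative density. -/
def Den (O : Set ℂ) (ν : ℂ → ℝ) : Prop := ContinuousOn ν O ∧ ∀ z ∈ O, 0 ≤ ν z

/-! ### Row 1: calculus -/

def GreenStmt : Prop := ∀ (O : Set ℂ) (u ψ : ℂ → ℝ), IsOpen O → ContDiffOn ℝ 2 u O → Test O ψ →
  ∫ z, u z * lap ψ z = ∫ z, lap u z * ψ z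

def LapQStmt : Prop := ∀ (n : ℕ) (O : Set ℂ) (F : ℂ → Fin n → ℂ), IsOpen O → Crv O F →
  ContDiffOn ℝ ∞ (fun z => log (sq (F z))) O ∧ Den O (lam F) ∧
    ∀ z ∈ O, lap (fun z => log (sq (F z))) z = 4 * lam F z

def MinorStmt : Prop := ∀ (n : ℕ) (y w : Fin n → ℂ), y ≠ 0 →
  (∀ i j, ‖w i * y j - y i * w j‖ ^ 2 ≤ lamv y w * sq y ^ 2) ∧
  lamv y w * sq y ^ 2 ≤ ∑ i, ∑ j, ‖w i * y j - y i * w j‖ ^ 2 ∧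
  lamv y w ≤ sq w / sq y ∧ (∀ a b : ℂ, a ≠ 0 → lamv (a • y) (a • w + b • y) = lamv y w) ∧
  ‖y‖ ^ 2 ≤ sq y ∧ sq y ≤ n * ‖y‖ ^ 2 ∧ ‖ip y w‖ ^ 2 ≤ sq y * sq w

def ScaleStmt : Prop := ∀ (n : ℕ) (F : ℂ → Fin n → ℂ) (c : ℂ) (r : ℝ), 0 < r →
  (∀ z, lam (fun w => F (c + r * w)) z = r ^ 2 * lam F (c + r * z)) ∧
  (∀ S : Set ℂ, mu (lam fun w => F (c + r * w)) ((fun w => c + r * w) ⁻¹' S) = mu (lam F) S) ∧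
  ∀ (a : ℂ) (s : ℝ), (fun w : ℂ => c + r * w) ⁻¹' ball (c + r * a) (r * s) = ball a s

def RatDerStmt : Prop := ∀ (n d : ℕ) (P Q : PR n), P.IsHomogeneous d → Q.IsHomogeneous d →
  ∃ A : ℝ, 0 < A ∧ ∀ y w : Fin n → ℂ, y ≠ 0 →
    ‖(∑ i, eval y (pderiv i P) * w i) * eval y Q - eval y P * ∑ i, eval y (pderiv i Q) * w i‖ ^ 2 ≤
      A * lamv y w * ‖y‖ ^ (4 * d)

def RepStmt : Prop := ∀ (O : Set ℂ) (u : ℂ → ℝ) (c : ℂ) (r : ℝ), IsOpen O → ContDiffOn ℝ ∞ u O →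
  0 < r → closedBall c r ⊆ O →
  IntegrableOn (fun z => log (r / ‖z - c‖) * lap u z) (ball c r) ∧
  circleAverage u c r - u c = (2 * π)⁻¹ * ∫ z in ball c r, log (r / ‖z - c‖) * lap u z

def FundStmt : Prop := ∀ (ψ : ℂ → ℝ) (c : ℂ), Test univ ψ →
  Integrable (fun z => log ‖z - c‖ * lap ψ z) ∧ ∫ z, log ‖z - c‖ * lap ψ z = 2 * π * ψ c

/-- Product and chain rules at a point. -/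
def LapRuleStmt : Prop := ∀ (f g : ℂ → ℝ) (Θ : ℝ → ℝ) (z : ℂ), ContDiffAt ℝ 2 f z →
  ContDiffAt ℝ 2 g z → ContDiffAt ℝ 2 Θ (f z) →
  lap (fun w => f w + g w) z = lap f z + lap g z ∧
  lap (fun w => f w * g w) z = lap f z * g z + 2 * fderiv ℝ g z (grad f z) + f z * lap g z ∧
  lap (fun w => Θ (f w)) z = deriv Θ (f z) * lap f z + deriv (deriv Θ) (f z) * ‖grad f z‖ ^ 2 ∧
  grad (fun w => Θ (f w)) z = deriv Θ (f z) • grad f z ∧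
  ∀ v, |fderiv ℝ f z v| ≤ ‖grad f z‖ * ‖v‖

/-- Reduced lifts. -/
def LiftStmt : Prop := ∀ (n : ℕ) (G : ℂ → Fin n → ℂ), DifferentiableOn ℂ G (ball 0 1) →
  (∃ z ∈ ball (0 : ℂ) 1, G z ≠ 0) → ∃ (φ : ℂ → ℂ) (Ψ : ℂ → Fin n → ℂ),
    DifferentiableOn ℂ φ (ball 0 (3 / 4)) ∧ Crv (ball 0 (3 / 4)) Ψ ∧
      ∀ z ∈ ball (0 : ℂ) (3 / 4), G z = φ z • Ψ z

/-! ### Row 2: almost subharmonic functions -/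

/-- `v` is subharmonic on `O` up to the errors `e` and `div E`. -/
def AS (O : Set ℂ) (v e : ℂ → ℝ) (E : ℂ → ℂ) : Prop :=
  LocallyIntegrableOn v O ∧ LocallyIntegrableOn e O ∧ LocallyIntegrableOn E O ∧
    ∀ ψ, Test O ψ → (∀ z, 0 ≤ ψ z) →
      0 ≤ ∫ z, (v z * lap ψ z + e z * ψ z + fderiv ℝ ψ z (E z))

def LogSubStmt : Prop := ∀ (O : Set ℂ) (h : ℂ → ℂ), IsOpen O → DifferentiableOn ℂ h O →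
  LocallyIntegrableOn (fun z => log ‖h z‖) O ∧ ∀ c s, 0 < s → closedBall c s ⊆ O → h c ≠ 0 →
    (∀ᵐ z, z ∈ ball c s → h z ≠ 0) ∧ π * s ^ 2 * log ‖h c‖ ≤ ∫ z in ball c s, log ‖h z‖

def SubMeanStmt : Prop := ∀ (O : Set ℂ) (v : ℂ → ℝ), IsOpen O → LocallyIntegrableOn v O →
  (∀ᵐ c, c ∈ O → ∀ s, 0 < s → closedBall c s ⊆ O → π * s ^ 2 * v c ≤ ∫ z in ball c s, v z) →
  AS O v 0 0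

def RadStmt : Prop := ∀ (ρ : ℝ) (σ : ℂ → ℝ) (h : ℂ → ℂ), Continuous σ → (∀ z, 0 ≤ σ z) →
  (∀ z w, ‖z‖ = ‖w‖ → σ z = σ w) → tsupport σ ⊆ ball 0 ρ → DifferentiableOn ℂ h (ball 0 ρ) →
  h 0 ≠ 0 → log ‖h 0‖ * ∫ z, σ z ≤ ∫ z, log ‖h z‖ * σ z

def ASPatchStmt : Prop := ∀ (O O₁ O₂ : Set ℂ) (v₁ v₂ e₁ e₂ χ : ℂ → ℝ) (E₁ E₂ : ℂ → ℂ),
  IsOpen O → IsOpen O₁ → IsOpen O₂ → ContDiffOn ℝ ∞ χ O →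
  (∀ z ∈ O, 0 ≤ χ z ∧ χ z ≤ 1 ∧ (z ∉ O₁ → χ =ᶠ[𝓝 z] 0) ∧ (z ∉ O₂ → χ =ᶠ[𝓝 z] 1)) →
  AS O₁ v₁ e₁ E₁ → AS O₂ v₂ e₂ E₂ →
  AS O (fun z => χ z * v₁ z + (1 - χ z) * v₂ z)
    (fun z => χ z * e₁ z + (1 - χ z) * e₂ z + (v₁ z - v₂ z) * lap χ z + fderiv ℝ χ z (E₁ z - E₂ z))
    (fun z => χ z • E₁ z + (1 - χ z) • E₂ z + (2 * (v₁ z - v₂ z)) • grad χ z)

/-! ### Sequences of discs -/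

/-- Domains, weights, normalising constants, background potential, and the degree `m`. -/
structure Ctx where
  Ω : ℕ → Set ℂ
  g : ℕ → ℂ → ℝ
  T : ℕ → ℝ
  u : ℕ → ℂ → ℝ
  m : ℕ

def Ctx.Ok (C : Ctx) : Prop :=
  (∀ k, IsOpen (C.Ω k)) ∧ (∀ k z, 0 ≤ C.g k z) ∧ (∀ k, 0 < C.T k) ∧ 0 < C.m

/-- The same data on smaller domains. -/
def Ctx.res (C : Ctx) (O : ℕ → Set ℂ) : Ctx := { C with Ω := O }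

/-- The upper integral of `g * e` over `O` is eventually at most `η * T`. -/
def Sm (C : Ctx) (O : ℕ → Set ℂ) (e : ℕ → ℂ → ℝ) (η : ℝ) : Prop :=
  ∀ᶠ k in atTop, ∃ f : ℂ → ℝ≥0∞, Measurable f ∧
    (∀ᵐ z, z ∈ O k → ENNReal.ofReal (C.g k z * e k z) ≤ f z) ∧
      ∫⁻ z, f z ≤ ENNReal.ofReal (η * C.T k)

def Null (C : Ctx) (O : ℕ → Set ℂ) (e : ℕ → ℂ → ℝ) : Prop := ∀ η, 0 < η → Sm C O e η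

def Fn (C : Ctx) (O : ℕ → Set ℂ) (e : ℕ → ℂ → ℝ) : Prop := ∃ A, Sm C O e A

/-- A potential: almost subharmonic, with an upper bound. -/
def Valid (C : Ctx) (O : ℕ → Set ℂ) (v : ℕ → ℂ → ℝ) (η : ℝ) : Prop :=
  ∃ (e e' : ℕ → ℂ → ℝ) (E : ℕ → ℂ → ℂ) (a : ℝ),
    (∀ᶠ k in atTop, AS (O k) (v k) (e k) (E k) ∧
      ∀ᵐ z, z ∈ O k → 0 ≤ e' k z ∧ C.u k z + v k z ≤ a + log (1 + e' k z)) ∧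
    Sm C O (fun k z => |e k z|) η ∧ Sm C O (fun k z => ‖E k z‖ ^ 2) η ∧ Fn C O e'

def VPatchStmt : Prop := ∀ η₀ A : ℝ, 0 < η₀ → ∃ η, 0 < η ∧ ∀ (C : Ctx) (O O₁ O₂ : ℕ → Set ℂ)
  (v₁ v₂ χ Y : ℕ → ℂ → ℝ), C.Ok →
  (∀ᶠ k in atTop, IsOpen (O k) ∧ IsOpen (O₁ k) ∧ IsOpen (O₂ k) ∧ ContDiffOn ℝ ∞ (χ k) (O k) ∧
    ∀ z ∈ O k, 0 ≤ χ k z ∧ χ k z ≤ 1 ∧ (z ∉ O₁ k → χ k =ᶠ[𝓝 z] 0) ∧ (z ∉ O₂ k → χ k =ᶠ[𝓝 z] 1) ∧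
      ‖grad (χ k) z‖ ^ 2 ≤ Y k z ∧ |lap (χ k) z| ≤ Y k z) →
  Valid C O₁ v₁ η → Valid C O₂ v₂ η → Sm C O Y A →
  Sm C O (fun k z => (v₁ k z - v₂ k z) ^ 2 * Y k z) η →
  Valid C O (fun k z => χ k z * v₁ k z + (1 - χ k z) * v₂ k z) η₀

/-- Analytic or tending to infinity at each point. -/
def Mer (O : Set ℂ) (f : ℂ → ℂ) : Prop :=
  ∀ z ∈ O, AnalyticAt ℂ f z ∨ Tendsto f (𝓝[≠] z) (Bornology.cobounded ℂ)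

/-- Removable singularity. -/
def Rem (f : ℂ → ℂ) (z : ℂ) : Prop := ∃ h, AnalyticAt ℂ h z ∧ f =ᶠ[𝓝[≠] z] h

/-- The Poincare density of the punctured disc. -/
def Pc (ρ : ℂ → ℂ) (z : ℂ) : ℝ := ‖deriv ρ z‖ ^ 2 / (‖ρ z‖ ^ 2 * log (‖ρ z‖ ^ 2) ^ 2)

/-- The Poincare mass near the zeros of `ρ` is small. -/
def F2 (C : Ctx) (O : ℕ → Set ℂ) (ρ : ℕ → ℂ → ℂ) : Prop :=
  ∀ ε, 0 < ε → ∃ η, 0 < η ∧ Sm C (fun k => {z | z ∈ O k ∧ ‖ρ k z‖ < η}) (fun k => Pc (ρ k)) ε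

/-- A chart: two functions along the discs, the coefficient of the pluricanonical forms, and the
equation of the curve. -/
structure Ch where
  x : Fin 2 → ℕ → ℂ → ℂ
  b : ℕ → ℂ → ℂ
  θ : PR 2

def Ch.pt (c : Ch) (k : ℕ) (z : ℂ) : Fin 2 → ℂ := fun i => c.x i k z
def Ch.dv (c : Ch) (k : ℕ) (z : ℂ) : Fin 2 → ℂ := fun i => deriv (c.x i k) z
def Ch.N2 (c : Ch) (k : ℕ) (z : ℂ) : ℝ := sq (c.dv k z)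
/-- A polynomial in the coordinates of the chart. -/
def Ch.ev (c : Ch) (P : PR 2) (k : ℕ) (z : ℂ) : ℂ := eval (c.pt k z) P
def dom (C : Ctx) (c : Ch) (G : Set (Fin 2 → ℂ)) (k : ℕ) : Set ℂ :=
  {z | z ∈ C.Ω k ∧ (∀ i, AnalyticAt ℂ (c.x i k) z) ∧ c.pt k z ∈ G}
def Bb (C : Ctx) (c : Ch) (k : ℕ) (z : ℂ) : ℝ := log (‖c.b k z‖ ^ 2) / C.m
def ref (θ : PR 2) (q w : Fin 2 → ℂ) : ℝ :=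
  log (‖eval q θ‖ ^ 2) - log (‖eval q θ‖ ^ 2 + sq fun i => eval q (pderiv i θ)) + log (sq w)
/-- The reference potential. -/
def BR (C : Ctx) (c : Ch) (k : ℕ) (z : ℂ) : ℝ := Bb C c k z + ref c.θ (c.pt k z) (c.dv k z)
def Eul (C : Ctx) (c : Ch) (v : ℕ → ℂ → ℝ) (K : Set (Fin 2 → ℂ)) : Prop :=
  Null C (dom C c K) fun k z => (v k z - BR C c k z) ^ 2 * c.N2 k z

def ChOK (C : Ctx) (c : Ch) : Prop :=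
  (∀ᶠ k in atTop, (∀ i, Mer (C.Ω k) (c.x i k)) ∧
    ∀ᵐ z, z ∈ C.Ω k → c.N2 k z ≠ 0 ∧ c.b k z ≠ 0 ∧ c.ev c.θ k z ≠ 0) ∧
  (∀ K, IsCompact K → Fn C (dom C c K) c.N2) ∧
  (∀ K, IsCompact K → (∀ q ∈ K, eval q c.θ ≠ 0) → Null C (dom C c K) c.N2) ∧
  F2 C (dom C c univ) (c.ev c.θ)

/-- The curve is nonsingular in `G` outside `S`. -/
def NS (θ : PR 2) (G S : Set (Fin 2 → ℂ)) : Prop :=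
  ∀ q ∈ G, q ∉ S → eval q θ = 0 → ∃ i, eval q (pderiv i θ) ≠ 0

def Pot (C : Ctx) (c : Ch) (G S : Set (Fin 2 → ℂ)) : Prop :=
  ∀ η r : ℝ, 0 < η → 0 < r → ∃ v, Valid C (dom C c G) v η ∧
    ∀ K, IsCompact K → K ⊆ G → (∀ q ∈ K, ∀ s ∈ S, r ≤ dist q s) → Eul C c v K

def PotG (C : Ctx) (c : Ch) (S : Set (Fin 2 → ℂ)) : Prop :=
  ∀ η r : ℝ, 0 < η → 0 < r → ∃ v, Valid C C.Ω v η ∧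
    ∀ K, IsCompact K → K ⊆ closedBall 0 r⁻¹ → (∀ q ∈ K, ∀ s ∈ S, r ≤ dist q s) → Eul C c v K

def jac (Ψ : (Fin 2 → ℂ) → Fin 2 → ℂ) (q : Fin 2 → ℂ) : ℂ :=
  fderiv ℂ Ψ q (Pi.single 0 1) 0 * fderiv ℂ Ψ q (Pi.single 1 1) 1 -
    fderiv ℂ Ψ q (Pi.single 1 1) 0 * fderiv ℂ Ψ q (Pi.single 0 1) 1

/-- The coordinates of `c'` are `Ψ` of the coordinates of `c`. -/
def Rel0 (C : Ctx) (c c' : Ch) (Ψ : (Fin 2 → ℂ) → Fin 2 → ℂ) (S : Set (Fin 2 → ℂ)) : Prop :=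
  ∀ᶠ k in atTop, ∀ z ∈ dom C c S k, ∀ i, c'.x i k =ᶠ[𝓝 z] fun w => Ψ (c.pt k w) i

def Rel (C : Ctx) (c c' : Ch) (Ψ : (Fin 2 → ℂ) → Fin 2 → ℂ) (S : Set (Fin 2 → ℂ)) : Prop :=
  Rel0 C c c' Ψ S ∧ ∀ᶠ k in atTop, ∀ᵐ z, z ∈ dom C c S k →
    ‖c.b k z‖ = ‖c'.b k z‖ * ‖jac Ψ (c.pt k z)‖ ^ C.m

/-! ### Row 4: tangent concentration, changes of chart, patching -/

def TCStmt : Prop := ∀ (C : Ctx) (c : Ch) (K : Set (Fin 2 → ℂ))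
  (d : (Fin 2 → ℂ) → (Fin 2 → ℂ) → ℝ), C.Ok → ChOK C c → IsCompact K →
  ContinuousOn (fun p : (Fin 2 → ℂ) × (Fin 2 → ℂ) => d p.1 p.2) (K ×ˢ {0}ᶜ) →
  (∀ q ∈ K, ∀ w, ∀ t : ℝ, 0 < t → d q (t • w) = d q w) →
  (∀ q ∈ K, ∀ w ≠ 0, eval q c.θ = 0 → ∑ i, eval q (pderiv i c.θ) * w i = 0 → d q w = 0) →
  Null C (dom C c K) fun k z => d (c.pt k z) (c.dv k z) ^ 2 * c.N2 k z

def CmpStmt : Prop := ∀ (C : Ctx) (c c' : Ch) (K : Set (Fin 2 → ℂ))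
  (Ψ : (Fin 2 → ℂ) → Fin 2 → ℂ), IsCompact K → AnalyticOnNhd ℂ Ψ K → Rel0 C c c' Ψ K →
  (∀ᶠ k in atTop, dom C c K k ⊆ dom C c' (Ψ '' K) k) ∧
  (∃ A, 0 < A ∧ ∀ᶠ k in atTop, ∀ z ∈ dom C c K k, c'.N2 k z ≤ A * c.N2 k z) ∧
  ((∀ q ∈ K, jac Ψ q ≠ 0) →
    ∃ A, 0 < A ∧ ∀ᶠ k in atTop, ∀ z ∈ dom C c K k, c.N2 k z ≤ A * c'.N2 k z)

def ChangeStmt : Prop := ∀ (C : Ctx) (c c' : Ch) (K : Set (Fin 2 → ℂ))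
  (Ψ : (Fin 2 → ℂ) → Fin 2 → ℂ) (υ : (Fin 2 → ℂ) → ℂ), C.Ok → ChOK C c → IsCompact K →
  AnalyticOnNhd ℂ Ψ K → AnalyticOnNhd ℂ υ K →
  (∀ q ∈ K, jac Ψ q ≠ 0 ∧ υ q ≠ 0 ∧ ∀ᶠ p in 𝓝 q, eval (Ψ p) c'.θ = υ p * eval p c.θ) →
  NS c.θ K ∅ → Rel C c c' Ψ K → ∀ v : ℕ → ℂ → ℝ,
  ((Null C (dom C c K) fun k z => (v k z - BR C c' k z) ^ 2 * c'.N2 k z) ↔ Eul C c v K)

def PullStmt : Prop := ∀ (C : Ctx) (c c' : Ch) (G G' S S' : Set (Fin 2 → ℂ))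
  (Ψ : (Fin 2 → ℂ) → Fin 2 → ℂ) (υ : (Fin 2 → ℂ) → ℂ), C.Ok → ChOK C c → IsOpen G →
  AnalyticOnNhd ℂ Ψ G → AnalyticOnNhd ℂ υ G →
  (∀ q ∈ G, jac Ψ q ≠ 0 ∧ υ q ≠ 0 ∧ eval (Ψ q) c'.θ = υ q * eval q c.θ ∧ Ψ q ∈ G') →
  NS c.θ G S → (∀ r : ℝ, 0 < r → ∃ r' : ℝ, 0 < r' ∧ ∀ q ∈ G, (∀ s ∈ S, r ≤ dist q s) →
    ∀ s ∈ S', r' ≤ dist (Ψ q) s) →
  Rel C c c' Ψ G → Pot (C.res (dom C c G)) c' G' S' → Pot C c G S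

open Classical in
/-- A cut-off function read in a chart. -/
def cut (c : Ch) (χ : (Fin 2 → ℂ) → ℝ) (k : ℕ) (z : ℂ) : ℝ :=
  if ∀ i, AnalyticAt ℂ (c.x i k) z then χ (c.pt k z) else 0

def PatchStmt : Prop := ∀ (C : Ctx) (c : Ch) (χ : (Fin 2 → ℂ) → ℝ) (K : Set (Fin 2 → ℂ))
  (η₀ : ℝ), C.Ok → ChOK C c → ContDiff ℝ ∞ χ → HasCompactSupport χ → (∀ q, 0 ≤ χ q ∧ χ q ≤ 1) →
  IsCompact K → 0 < η₀ → ∃ η, 0 < η ∧ ∀ (O O₁ O₂ : ℕ → Set ℂ) (v₁ v₂ : ℕ → ℂ → ℝ),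
  (∀ᶠ k in atTop, IsOpen (O k) ∧ IsOpen (O₁ k) ∧ IsOpen (O₂ k) ∧ O k ⊆ C.Ω k ∧ ∀ z ∈ O k,
    (z ∈ dom C c (tsupport χ) k → z ∈ O₁ k) ∧
    (z ∉ dom C c (interior {q | χ q = 1}) k → z ∈ O₂ k) ∧
    (z ∈ dom C c (tsupport (fderiv ℝ χ)) k → c.pt k z ∈ K)) →
  Valid C O₁ v₁ η → Valid C O₂ v₂ η →
  Null C (fun k => O k ∩ dom C c K k) (fun k z => (v₁ k z - v₂ k z) ^ 2 * c.N2 k z) →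
  Valid C O (fun k z => cut c χ k z * v₁ k z + (1 - cut c χ k z) * v₂ k z) η₀

/-! ### Row 5: terminal potentials -/

def NodeStmt : Prop := ∀ (C : Ctx) (c : Ch) (G : Set (Fin 2 → ℂ)) (a : ℝ), C.Ok → ChOK C c →
  c.θ = X 0 * X 1 → F2 C (dom C c univ) (c.x 0) → F2 C (dom C c univ) (c.x 1) → IsOpen G →
  G ⊆ ball 0 (1 / 2) →
  (∀ᶠ k in atTop, (∀ᵐ z, z ∈ dom C c G k →
      C.u k z + Bb C c k z + log (‖c.x 0 k z * c.x 1 k z‖ ^ 2) ≤ a) ∧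
    ∀ z ∈ dom C c G k, Rem (fun w => c.b k w * (c.x 1 k w * deriv (c.x 0 k) w) ^ C.m) z ∧
      Rem (fun w => c.b k w * (c.x 0 k w * deriv (c.x 1 k) w) ^ C.m) z) →
  Pot C c G {0}

def OuterStmt : Prop := ∀ (C : Ctx) (c : Ch) (G K₀ : Set (Fin 2 → ℂ)) (a : ℝ), C.Ok → ChOK C c →
  IsOpen G → IsCompact K₀ → G ⊆ K₀ → (∀ q ∈ K₀, eval q c.θ ≠ 0) →
  (∀ᶠ k in atTop, (∀ᵐ z, z ∈ dom C c G k → C.u k z + Bb C c k z ≤ a) ∧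
    ∀ z ∈ dom C c G k, ∀ i, Rem (fun w => c.b k w * deriv (c.x i k) w ^ C.m) z) →
  (∀ η, 0 < η → Valid C (dom C c G) (fun k z => Bb C c k z + log (c.N2 k z)) η) ∧
    ∀ K, IsCompact K → K ⊆ G → Eul C c (fun k z => Bb C c k z + log (c.N2 k z)) K

/-- The Jacobian polynomial. -/
def jp (U V : PR 2) : PR 2 := pderiv 0 U * pderiv 1 V - pderiv 1 U * pderiv 0 V

def TermStmt : Prop := ∀ (θ U V a b : PR 2) (G₁ : Set (Fin 2 → ℂ)), eval 0 (jp U V) ≠ 0 →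
  eval 0 a ≠ 0 → eval 0 b ≠ 0 → a * (U * V) = b * θ → ‖eval 0 U‖ < 1 / 2 → ‖eval 0 V‖ < 1 / 2 →
  IsOpen G₁ → 0 ∈ G₁ → ∃ G, IsOpen G ∧ 0 ∈ G ∧ NS θ G {0} ∧ ∀ (C : Ctx) (c : Ch) (A : ℝ),
  C.Ok → ChOK C c → c.θ = θ → F2 C (dom C c univ) (c.ev U) → F2 C (dom C c univ) (c.ev V) →
  F2 C (dom C c univ) (c.ev (U * V)) →
  (∀ᶠ k in atTop, (∀ᵐ z, z ∈ dom C c G₁ k → C.u k z +
      log (‖c.b k z / c.ev (jp U V) k z ^ C.m‖ ^ 2) / C.m + log (‖c.ev (U * V) k z‖ ^ 2) ≤ A) ∧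
    ∀ z ∈ dom C c G₁ k, c.ev (jp U V) k z ≠ 0 →
      Rem (fun w => c.b k w / c.ev (jp U V) k w ^ C.m * (c.ev V k w * deriv (c.ev U k) w) ^ C.m) z ∧
      Rem (fun w => c.b k w / c.ev (jp U V) k w ^ C.m * (c.ev U k w * deriv (c.ev V k) w) ^ C.m) z) →
  Pot C c G {0}

/-! ### Row 6: gluing -/

def FinPatchStmt : Prop := ∀ A₁ A₂ G₁ G₂ S₁ S₂ : Set (Fin 2 → ℂ), IsCompact A₁ → IsCompact A₂ →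
  IsOpen G₁ → IsOpen G₂ → A₁ ⊆ G₁ → A₂ ⊆ G₂ → S₁.Finite → S₂.Finite →
  ∃ G, IsOpen G ∧ A₁ ∪ A₂ ⊆ G ∧ G ⊆ G₁ ∪ G₂ ∧ ∀ (C : Ctx) (c : Ch), C.Ok → ChOK C c →
    Pot C c G₁ S₁ → Pot C c G₂ S₂ → Pot C c G (S₁ ∪ S₂)

/-- `θ₁` and `θ₂` are the reduced total transforms of `θ` in the two charts of the blow-up. -/
def Bl (θ θ₁ θ₂ : PR 2) : Prop := ∃ ν : ℕ,
  aeval ![X 0, X 0 * X 1] θ = (X 0 : PR 2) ^ ν * θ₁ ∧ X 0 ∣ θ₁ ∧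
  aeval ![X 0 * X 1, X 1] θ = (X 1 : PR 2) ^ ν * θ₂ ∧ X 1 ∣ θ₂

/-- `θ₁` and `θ₂` define the curve and the line at infinity in the two charts at infinity. -/
def Inf (θ θ₁ θ₂ : PR 2) : Prop := X 0 ∣ θ₁ ∧ X 1 ∣ θ₂ ∧ ∃ ν : ℕ,
  ∀ (L : Type) [Field L] [Algebra ℂ L] (s t : L), s ≠ 0 →
    aeval ![s, t] θ₁ = s ^ ν * aeval ![s⁻¹, t / s] θ ∧
    aeval ![t, s] θ₂ = s ^ ν * aeval ![t / s, s⁻¹] θ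

def BlowStmt : Prop := ∀ (θ θ₁ θ₂ : PR 2) (G₁ G₂ S₁ : Set (Fin 2 → ℂ)) (ε : ℝ), Bl θ θ₁ θ₂ →
  0 < ε → IsOpen G₁ → IsOpen G₂ → ball 0 ε ⊆ G₂ →
  (∀ q : Fin 2 → ℂ, q 0 = 0 → ‖q 1‖ ≤ 2 / ε → q ∈ G₁) → S₁.Finite → (∀ q ∈ S₁, q 0 = 0) →
  NS θ₁ G₁ S₁ → NS θ₂ G₂ {0} →
  ∃ G, IsOpen G ∧ 0 ∈ G ∧ NS θ G {0} ∧ ∀ (C : Ctx) (c c₁ c₂ : Ch), C.Ok → ChOK C c →
    ChOK C c₁ → ChOK C c₂ → c.θ = θ → c₁.θ = θ₁ → c₂.θ = θ₂ →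
    (∀ᶠ k in atTop, ∀ z ∈ C.Ω k, ∀ᶠ w in 𝓝[≠] z, c.x 0 k w ≠ 0 ∧ c.x 1 k w ≠ 0 ∧
      c₁.x 0 k w = c.x 0 k w ∧ c₁.x 1 k w * c.x 0 k w = c.x 1 k w ∧
      c₂.x 0 k w * c.x 1 k w = c.x 0 k w ∧ c₂.x 1 k w = c.x 1 k w ∧
      ‖c₁.b k w‖ = ‖c.b k w‖ * ‖c.x 0 k w‖ ^ C.m ∧ ‖c₂.b k w‖ = ‖c.b k w‖ * ‖c.x 1 k w‖ ^ C.m) →
    Pot C c₁ G₁ S₁ → Pot C c₂ G₂ {0} → Pot C c G {0}

def InfStmt : Prop := ∀ (θ θ₁ θ₂ : PR 2) (G₁ G₂ S₁ : Set (Fin 2 → ℂ)) (ε : ℝ), Inf θ θ₁ θ₂ →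
  0 < ε → IsOpen G₁ → IsOpen G₂ → ball 0 ε ⊆ G₂ →
  (∀ q : Fin 2 → ℂ, q 0 = 0 → ‖q 1‖ ≤ 2 / ε → q ∈ G₁) → S₁.Finite → (∀ q ∈ S₁, q 0 = 0) →
  NS θ₁ G₁ S₁ → NS θ₂ G₂ {0} →
  ∃ R : ℝ, ∀ G₀ S₀ : Set (Fin 2 → ℂ), IsOpen G₀ → closedBall 0 R ⊆ G₀ → S₀.Finite →
    ∀ (C : Ctx) (c c₁ c₂ : Ch), C.Ok → ChOK C c →
    ChOK C c₁ → ChOK C c₂ → c.θ = θ → c₁.θ = θ₁ → c₂.θ = θ₂ →
    (∀ᶠ k in atTop, ∀ z ∈ C.Ω k, ∀ᶠ w in 𝓝[≠] z,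
      c₁.x 0 k w * c.x 0 k w = 1 ∧ c₁.x 1 k w * c.x 0 k w = c.x 1 k w ∧
      c₂.x 0 k w * c.x 1 k w = c.x 0 k w ∧ c₂.x 1 k w * c.x 1 k w = 1 ∧
      ‖c₁.b k w‖ = ‖c.b k w‖ * ‖c.x 0 k w‖ ^ (3 * C.m) ∧
      ‖c₂.b k w‖ = ‖c.b k w‖ * ‖c.x 1 k w‖ ^ (3 * C.m)) →
    Pot C c G₀ S₀ → Pot C c₁ G₁ S₁ → Pot C c₂ G₂ {0} → PotG C c S₀

def BaseStmt : Prop := ∀ (S G : Set (Fin 2 → ℂ)) (q : Fin 2 → ℂ), S.Finite → IsOpen G → q ∈ G →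
  ∃ G', IsOpen G' ∧ q ∈ G' ∧ ∀ (C : Ctx) (c : Ch) (w : ℕ → ℂ → ℝ), C.Ok → ChOK C c →
    PotG C c S → (∀ η, 0 < η → Valid C (dom C c G) w η) →
    (∀ K, IsCompact K → K ⊆ G → Eul C c w K) →
    ∀ η, 0 < η → ∃ v, Valid C C.Ω v η ∧ ∀ k, ∀ z ∈ dom C c G' k, v k z = w k z

/-! ### Row 7: resolution of plane curves -/

def Term (θ : PR 2) : Prop := ∃ U V a b : PR 2, eval 0 (jp U V) ≠ 0 ∧ eval 0 a ≠ 0 ∧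
  eval 0 b ≠ 0 ∧ a * (U * V) = b * θ

/-- Translation. -/
def tr (q : Fin 2 → ℂ) (θ : PR 2) : PR 2 := aeval (fun i => (X i : PR 2) + C (q i)) θ

def ResIndStmt : Prop := ∀ P : PR 2 → Prop, (∀ θ, Term θ → P θ) →
  (∀ θ, P (aeval ![(X 1 : PR 2), X 0] θ) → P θ) →
  (∀ θ θ₁ θ₂, Bl θ θ₁ θ₂ → (∀ s : ℂ, P (tr ![0, s] θ₁)) → P θ₂ → P θ) →
  ∀ θ, Squarefree θ → ∀ q, P (tr q θ)

def InfPolyStmt : Prop := ∀ θ : PR 2, Squarefree θ →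
  ∃ θ₁ θ₂, Squarefree θ₁ ∧ Squarefree θ₂ ∧ Inf θ θ₁ θ₂

/-! ### Rows 3, 14, 15: test functions -/

def TF (c₀ : ℝ) (O B : Set ℂ) (g : ℂ → ℝ) : Prop :=
  Test O g ∧ (∀ z, 0 ≤ g z) ∧ ∫ z, |lap g z| ≤ c₀ ∧ ∀ z ∉ B, 0 ≤ lap g z

def CompStmt : Prop := ∀ (n n' : ℕ) (O B : Set ℂ) (g : ℂ → ℝ) (F : ℂ → Fin n → ℂ)
  (Ψ : ℂ → Fin n' → ℂ) (φ : ℂ → ℂ) (c₀ M a : ℝ), IsOpen O → TF c₀ O B g → Crv O F → Crv O Ψ →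
  DifferentiableOn ℂ φ O → 0 ≤ a → (∀ᵐ z, z ∈ O → φ z ≠ 0 ∧
    -a ≤ M * log (sq (F z)) - log (sq (Ψ z)) - log (‖φ z‖ ^ 2) ∧
    (z ∈ B → M * log (sq (F z)) - log (sq (Ψ z)) - log (‖φ z‖ ^ 2) ≤ a)) →
  ∫ z, lam Ψ z * g z ≤ M * (∫ z, lam F z * g z) + a * c₀

def GoodStmt : Prop := ∀ (C : Ctx) (n d : ℕ) (F : ℕ → ℂ → Fin n → ℂ) (B : ℕ → Set ℂ) (P Q : PR n)
  (ρ : ℕ → ℂ → ℂ) (c₀ a : ℝ), C.Ok → (∀ k, C.Ω k = ball 0 (1 / 2)) → Tendsto C.T atTop atTop →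
  P.IsHomogeneous d → Q.IsHomogeneous d → 0 < a →
  (∀ᶠ k in atTop, Crv (ball 0 1) (F k) ∧ TF c₀ (C.Ω k) (B k) (C.g k) ∧
    ∫ z, lam (F k) z * C.g k z ≤ 2 * C.T k ∧ 0 ∈ B k ∧
    (∀ z ∈ B k, a * ‖F k z‖ ^ d ≤ ‖eval (F k z) P‖ ∧ a * ‖F k z‖ ^ d ≤ ‖eval (F k z) Q‖) ∧
    ∀ z ∈ C.Ω k, ρ k =ᶠ[𝓝[≠] z] fun w => eval (F k w) P / eval (F k w) Q) →
  Fn C (fun k => {z | z ∈ C.Ω k ∧ AnalyticAt ℂ (ρ k) z})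
    (fun k z => ‖deriv (ρ k) z‖ ^ 2 / (1 + ‖ρ k z‖ ^ 2) ^ 2) ∧
  F2 C (fun k => {z | z ∈ C.Ω k ∧ AnalyticAt ℂ (ρ k) z}) ρ

def SetupStmt : Prop := ∃ c₀ : ℝ, ∀ (ν : ℕ → ℂ → ℝ) (ρ : ℕ → ℝ) (ε : ℝ), 0 < ε →
  (∀ k, Den (ball 0 1) (ν k) ∧ 0 < ρ k ∧ ENNReal.ofReal ε ≤ mu (ν k) (ball 0 (16 * ρ k))) →
  Tendsto ρ atTop (𝓝 0) → ∃ (g g' : ℕ → ℂ → ℝ) (T : ℕ → ℝ), Tendsto T atTop atTop ∧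
  (∀ k, 0 < T k ∧ ∀ z, 0 ≤ g' k z) ∧
  (∀ᶠ k in atTop, TF c₀ (ball 0 (1 / 2)) (ball 0 (ρ k)) (g k) ∧
    TF c₀ (ball 0 (1 / 2)) (ball 0 (ρ k)) (g' k) ∧ (∀ z, g k z ≤ g' k z) ∧
    T k ≤ ∫ z, ν k z * g k z ∧ ∫ z, ν k z * g' k z ≤ 2 * T k ∧
    (∀ z ∉ ball 0 (ρ k), lap (g k) z ≤ T k * g' k z) ∧
    ∃ σ : ℂ → ℝ, Continuous σ ∧ (∀ z, 0 ≤ σ z) ∧ (∀ z w, ‖z‖ = ‖w‖ → σ z = σ w) ∧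
      tsupport σ ⊆ ball 0 (ρ k) ∧ ∀ z ∈ ball 0 (ρ k), lap (g k) z = -σ z) ∧
  (∀ η, 0 < η → ∀ᶠ k in atTop, ∃ Y : ℂ → ℝ, Integrable Y ∧ (∀ z, 0 ≤ Y z) ∧ ∫ z, Y z ≤ η * T k ∧
    ∀ z, ‖grad (g k) z‖ ^ 2 ≤ g' k z * Y z) ∧
  ∀ (S : ℕ → Set ℂ) (η : ℝ), (∀ k, MeasurableSet (S k)) → 0 < η →
    (∃ᶠ k in atTop, ENNReal.ofReal (η * T k) < mu (fun z => g' k z * ν k z) (S k)) →
    ∃ (φ : ℕ → ℕ) (c : ℕ → ℂ) (r R : ℕ → ℝ) (ε₁ : ℝ), StrictMono φ ∧ 0 < ε₁ ∧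
      Tendsto R atTop atTop ∧ (∀ k, 0 < r k ∧ ball (c k) (r k * R k) ⊆ ball 0 1 ∧
        ENNReal.ofReal ε₁ ≤ mu (ν (φ k)) (S (φ k) ∩ ball (c k) (r k))) ∧
      ∀ t : ℕ, ∃ Λ : ℝ, ∀ᶠ k in atTop, mu (ν (φ k)) (ball (c k) (r k * t)) ≤
        ENNReal.ofReal Λ * mu (ν (φ k)) (S (φ k) ∩ ball (c k) (r k))

def FinalStmt : Prop := ∀ (C : Ctx) (B : ℕ → Set ℂ) (g : ℕ → ℂ → ℝ) (c₀ κ : ℝ), C.Ok → 0 < κ →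
  Tendsto C.T atTop atTop →
  (∀ᶠ k in atTop, MeasurableSet (B k) ∧ TF c₀ (C.Ω k) (B k) (g k) ∧ (∀ z, g k z ≤ C.g k z) ∧
    ContinuousOn (C.u k) (C.Ω k) ∧ κ * C.T k ≤ ∫ z, C.u k z * lap (g k) z ∧
    ∀ z ∉ B k, lap (g k) z ≤ C.T k * C.g k z) →
  (∀ η, 0 < η → ∀ᶠ k in atTop, ∃ Y : ℂ → ℝ, Integrable Y ∧ (∀ z, 0 ≤ Y z) ∧
    ∫ z, Y z ≤ η * C.T k ∧ ∀ z, ‖grad (g k) z‖ ^ 2 ≤ C.g k z * Y z) →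
  (∀ η, 0 < η → ∃ (v : ℕ → ℂ → ℝ) (a : ℝ), Valid C C.Ω v η ∧
    ∀ᶠ k in atTop, ∫ z in B k, (C.u k z + v k z) * lap (g k) z ≤ a) → False

/-! ### Rows 10 to 13: Duval's refinement of Brody's lemma -/

def EpsStmt : Prop := ∀ n : ℕ, ∃ ε A : ℝ, 0 < ε ∧ 0 < A ∧ ∀ (F : ℂ → Fin n → ℂ) (c : ℂ) (r m : ℝ),
  0 < r → Crv (ball c r) F → 0 ≤ m → m ≤ ε → mu (lam F) (ball c r) ≤ ENNReal.ofReal m →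
  ∀ z ∈ ball c (r / 16), lam F z * r ^ 2 ≤ A * m ∧ d2 (F z) (F c) ≤ A * m

def NLStmt : Prop := ∀ (n : ℕ) (M : ℝ), ∃ (N : ℕ) (A : ℝ), ∀ (F : ℂ → Fin n → ℂ) (c : ℂ) (r : ℝ),
  0 < r → Crv (ball c r) F → mu (lam F) (ball c r) ≤ ENNReal.ofReal M →
  ∃ (φ : ℂ → ℂ) (p : Fin n → ℂ) (N' : ℕ) (a : Fin N' → ℂ), N' ≤ N ∧ sq p = 1 ∧
    (∀ j, a j ∈ closedBall c r) ∧ DifferentiableOn ℂ φ (ball c (r / 8)) ∧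
    ∀ z ∈ ball c (r / 8), φ z ≠ 0 ∧ ‖φ z • F z‖ ≤ A ∧ ip (φ z • F z) p = ∏ j, (z - a j) / r

def QuantStmt : Prop := ∀ n : ℕ, ∃ ε A : ℝ, 0 < ε ∧ 0 < A ∧ ∀ (F : ℂ → Fin n → ℂ) (c : ℂ)
  (t m : ℝ), 0 < t → Crv (ball c (8 * t)) F → 0 ≤ m → m ≤ ε →
  mu (lam F) (ball c (4 * t) \ ball c (t / 2)) ≤ ENNReal.ofReal m →
  ∃ N : ℕ, |(mu (lam F) (ball c t)).toReal - π * N| ≤ A * m

def SeqStmt : Prop := ∀ A : ℝ, 0 < A → ∃ ε₀ : ℝ, 0 < ε₀ ∧ ∀ η : ℝ, 0 < η → ∃ κ : ℝ, 0 < κ ∧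
  ∀ (ε : ℝ) (a : ℕ → ℝ) (J : ℕ), ε ≤ ε₀ → Monotone a →
  (∀ k < J, a (k + 3) - a k ≤ ε → ∃ N : ℕ, |a (k + 1) - π * N| ≤ A * (a (k + 3) - a k)) →
  ∑ k ∈ Finset.range J, min (a (k + 1) - a k) κ ≤
    η * (((Finset.range J).filter fun k => ε < a (k + 3) - a k).card + 1)

/-- The radius at which the mass reaches `ε`. -/
def rad (ν : ℂ → ℝ) (ε : ℝ) (z : ℂ) : ℝ := sInf {s | 0 < s ∧ ENNReal.ofReal ε ≤ mu ν (ball z s)}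

def RadiusStmt : Prop := ∀ (ν : ℂ → ℝ) (ε R s : ℝ) (z : ℂ), Den (ball 0 R) ν → 0 < ε → 0 < s →
  ‖z‖ + s < R → ENNReal.ofReal ε ≤ mu ν (ball z s) →
  0 < rad ν ε z ∧ rad ν ε z ≤ s ∧ mu ν (ball z (rad ν ε z)) = ENNReal.ofReal ε

def EndsStmt : Prop := ∀ (ν : ℂ → ℝ) (ε R s₀ : ℝ), Den (ball 0 (R + 2 * s₀)) ν → 0 < ε → 0 < s₀ →
  ∃ u : Finset ℂ, u.card * ENNReal.ofReal ε ≤ mu ν (ball 0 (R + s₀)) ∧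
    (∀ e ∈ u, ‖e‖ ≤ R ∧ ENNReal.ofReal ε ≤ mu ν (ball e s₀)) ∧
    ∀ z : ℂ, ‖z‖ ≤ R → ENNReal.ofReal ε ≤ mu ν (ball z s₀) →
      ∃ e ∈ u, rad ν ε e ≤ 2 * rad ν ε z ∧ dist z e ≤ 3 * rad ν ε z

/-- A hierarchy of nets. -/
def FF (u : Finset ℂ) (L : ℝ) (d : ℂ → ℝ) : Prop :=
  (∀ e ∈ u, 0 < d e ∧ d e ≤ L) ∧
  (∀ s, 0 < s → s ≤ L → ∀ e ∈ u, ∃ e' ∈ u, s ≤ d e' ∧ dist e e' ≤ 2 * s) ∧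
  ∀ e ∈ u, ∀ e' ∈ u, e ≠ e' → min (d e) (d e') ≤ dist e e'

def FFStmt : Prop := ∀ (u : Finset ℂ) (L : ℝ), 0 < L → ∃ d, FF u L d

def CoverStmt : Prop := ∀ Λ : ℝ, ∃ N : ℕ, ∀ (c : ℂ) (s : ℝ), 0 < s → ∃ t : Finset ℂ,
  t.card ≤ N ∧ (∀ w ∈ t, dist w c ≤ Λ * s) ∧ closedBall c (Λ * s) ⊆ ⋃ w ∈ t, ball w s

def PairStmt : Prop := ∀ Λ : ℝ, 1 ≤ Λ → ∃ N : ℕ, ∀ (u : Finset ℂ) (L : ℝ) (d : ℂ → ℝ)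
  (p : Finset (ℂ × ℤ)), FF u L d → (∀ a ∈ p, a.1 ∈ u ∧ (2 : ℝ) ^ a.2 ≤ Λ * d a.1 ∧
    ∃ e ∈ u, (2 : ℝ) ^ a.2 ≤ Λ * dist a.1 e ∧ dist a.1 e ≤ Λ * (2 : ℝ) ^ a.2) →
  p.card ≤ N * u.card

def LightStmt : Prop := ∀ n : ℕ, ∃ ε₀ : ℝ, 0 < ε₀ ∧ ∀ ε η : ℝ, 0 < ε → ε ≤ ε₀ → 0 < η →
  ∃ τ : ℝ, 0 < τ ∧ ∀ F : ℂ → Fin n → ℂ, Crv (ball 0 1000) F →
    ENNReal.ofReal ε ≤ mu (lam F) (ball 0 1) →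
    mu (lam F) {z | z ∈ ball 0 1 ∧ lam F z * rad (lam F) ε z ^ 2 < τ} ≤
      ENNReal.ofReal η * mu (lam F) (ball 0 500)

/-- Two separated balls of mass more than `M`, at the scale `r` around `z`. -/
def Two (ν : ℂ → ℝ) (t M : ℝ) (z : ℂ) (r : ℝ) : Prop :=
  ∃ a ∈ ball z (r * t), ∃ b ∈ ball z (r * t), r / t ≤ dist a b ∧
    ENNReal.ofReal M < mu ν (ball a (r / (100 * t))) ∧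
    ENNReal.ofReal M < mu ν (ball b (r / (100 * t)))

def HeavyStmt : Prop := ∀ t ε η : ℝ, 1 ≤ t → 0 < ε → 0 < η → ∃ M : ℝ, ∀ ν : ℂ → ℝ,
  Den (ball 0 (10 * t)) ν → ENNReal.ofReal ε ≤ mu ν (ball 0 1) →
  mu ν {z | z ∈ ball 0 1 ∧ Two ν t M z (rad ν ε z)} ≤ ENNReal.ofReal η * mu ν (ball 0 (5 * t))

/-- The conclusion: an entire curve that inherits the equations and inequations. -/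
def Ent {n : ℕ} (F : ℕ → ℂ → Fin n → ℂ) (R : ℕ → ℝ) (G A : PR n) : Prop :=
  ∃ f : ℂ → PS n, Holo univ f ∧ (∃ s t, f s ≠ f t) ∧
    (∀ (P : PR n) (d : ℕ), P.IsHomogeneous d → (∀ k, ∀ z ∈ ball 0 (R k), eval (F k z) P = 0) →
      ∀ t, eval (f t).rep P = 0) ∧ (∀ t, eval (f t).rep G ≠ 0) ∧ ∃ t, eval (f t).rep A ≠ 0

def LimStmt : Prop := ∀ n : ℕ, ∃ ε : ℝ, 0 < ε ∧ ∀ (F : ℕ → ℂ → Fin n → ℂ) (R : ℕ → ℝ)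
  (G A : PR n) (d a : ℕ) (τ c : ℝ), G.IsHomogeneous d → A.IsHomogeneous a → G ∣ A → 0 < τ →
  0 < c → Tendsto R atTop atTop →
  (∀ k, Crv (ball 0 (R k)) (F k) ∧ (∀ z ∈ ball 0 (R k), eval (F k z) G ≠ 0) ∧
    mu (lam (F k)) (ball 0 1) ≤ ENNReal.ofReal ε ∧ τ ≤ lam (F k) 0 ∧
    c * ‖F k 0‖ ^ a ≤ ‖eval (F k 0) A‖) →
  (∀ t : ℕ, 1 ≤ t → ∃ M : ℝ, ∀ᶠ k in atTop, ¬Two (lam (F k)) t M 0 1) → Ent F R G A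

def DuvalStmt : Prop := ∀ (n : ℕ) (F : ℕ → ℂ → Fin n → ℂ) (R : ℕ → ℝ) (S : ℕ → Set ℂ)
  (G A : PR n) (d a : ℕ) (ε c : ℝ), G.IsHomogeneous d → A.IsHomogeneous a → G ∣ A → 0 < ε →
  0 < c → Tendsto R atTop atTop →
  (∀ k, Crv (ball 0 (R k)) (F k) ∧ (∀ z ∈ ball 0 (R k), eval (F k z) G ≠ 0) ∧ S k ⊆ ball 0 1 ∧
    ENNReal.ofReal ε ≤ mu (lam (F k)) (S k) ∧ ∀ z ∈ S k, c * ‖F k z‖ ^ a ≤ ‖eval (F k z) A‖) →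
  (∀ t : ℕ, ∃ Λ : ℝ, ∀ᶠ k in atTop,
    mu (lam (F k)) (ball 0 t) ≤ ENNReal.ofReal Λ * mu (lam (F k)) (S k)) → Ent F R G A

end Pool.Agent.MP_c69980_ag.H4
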